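import Pool.Agent.LibDehn83.Modu

/-!
The second cohomology of the module vanishes.
-/

set_option autoImplicit false

namespace Pool.Agent.LibDehn83

open Pool.Agent.LibZIS Pool.Agent.LibCod83 Pool.Agent.LibQF83 Filter Topology
open scoped Pointwise

variable {G : Type} [Group G]

/-! ### row P2: cocycles with values in an arbitrary module -/

section general

variable {M : Type} [AddCommGroup M] (ρ : Representation ℤ G M)

/-- evaluation of a family on a chain of edges. -/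
noncomputable def evE' (b : G → M) : (Ed G →₀ ℤ) →+ M :=
  Finsupp.liftAddHom fun p => (zmultiplesHom M) (ρ p.2⁻¹ (b p.1))

/-- evaluation of a family on a chain of triangles. -/
noncomputable def evT' (φ : G × G → M) : (Tri G →₀ ℤ) →+ M :=
  Finsupp.liftAddHom fun p => (zmultiplesHom M) (ρ p.2⁻¹ (φ p.1))

lemma P2_evT_single (φ : G × G → M) (p : Tri G) (n : ℤ) :
    evT' ρ φ (Finsupp.single p n) = n • ρ p.2⁻¹ (φ p.1) := by
  simp [evT']

/-- evaluation of a function of edges. -/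
noncomputable def P2_ev (a : Ed G → M) : (Ed G →₀ ℤ) →+ M :=
  Finsupp.liftAddHom fun p => (zmultiplesHom M) (a p)

omit [Group G] in
lemma P2_ev_single (a : Ed G → M) (p : Ed G) (n : ℤ) :
    P2_ev a (Finsupp.single p n) = n • a p := by
  simp [P2_ev]

lemma P2_ev_bdry (a : Ed G → M) (p : Tri G) (n : ℤ) :
    P2_ev a (bdry (Finsupp.single p n)) =
      n • (a (p.1.1, p.2) + a (p.1.2, p.1.1⁻¹ * p.2) - a (p.1.1 * p.1.2, p.2)) := by
  rw [bdry_single, map_sub, map_add, P2_ev_single, P2_ev_single, P2_ev_single, smul_sub, smul_add]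

/-- a two-cocycle vanishes on the cycles. -/
theorem evT_cycle (f : G × G → M)
    (hf : ∀ g h k : G, ρ g (f (h, k)) - f (g * h, k) + f (g, h * k) - f (g, h) = 0)
    (T : Tri G →₀ ℤ) (hT : bdry T = 0) : evT' ρ f T = 0 := by
  have h1 : evT' ρ f = (P2_ev fun p : Ed G => f (p.2⁻¹, p.1)).comp bdry := by
    apply Finsupp.addHom_ext
    intro p n
    rw [AddMonoidHom.comp_apply, P2_ev_bdry, P2_evT_single]
    congr 1
    obtain ⟨⟨g, h⟩, x⟩ := p
    have h2 := hf x⁻¹ g h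
    simp only
    rw [show (g⁻¹ * x)⁻¹ = x⁻¹ * g by group]
    have h3 : ρ x⁻¹ (f (g, h)) = f (x⁻¹ * g, h) - f (x⁻¹, g * h) + f (x⁻¹, g) := by
      rw [← sub_eq_zero, ← h2]
      abel
    rw [h3]
    abel
  rw [h1, AddMonoidHom.comp_apply, hT, map_zero]

/-- the cochain on edges. -/
noncomputable def P2_th (f : G × G → M) (n : G → M) : (Ed G →₀ ℤ) →+ M :=
  P2_ev fun p : Ed G => ρ p.2⁻¹ (n p.1) - f (p.2⁻¹, p.1)

lemma P2_th_chn_cons (f : G × G → M) (n : G → M) (s : G) (w : List G) (x : G) :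
    P2_th ρ f n (chn (s :: w) x) = ρ x⁻¹ (n s) - f (x⁻¹, s) + P2_th ρ f n (chn w (s⁻¹ * x)) := by
  rw [chn_cons, map_add]
  unfold P2_th
  rw [P2_ev_single, one_smul]

lemma P2_th_shift (f : G × G → M)
    (hf : ∀ g h k : G, ρ g (f (h, k)) - f (g * h, k) + f (g, h * k) - f (g, h) = 0)
    (n : G → M) (g : G) (w : List G) (x : G) :
    P2_th ρ f n (chn w (x * g⁻¹)) =
      ρ g (P2_th ρ f n (chn w x)) - f (g, x⁻¹ * w.prod) + f (g, x⁻¹) := by
  induction w generalizing x with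
  | nil => simp [chn_nil]
  | cons s w ih =>
    rw [P2_th_chn_cons, P2_th_chn_cons, ← mul_assoc, ih (s⁻¹ * x), map_add, map_sub,
      List.prod_cons]
    have h1 := hf g x⁻¹ s
    have h2 : (x * g⁻¹)⁻¹ = g * x⁻¹ := by group
    have h3 : (s⁻¹ * x)⁻¹ = x⁻¹ * s := by group
    rw [h2, h3, map_mul, Module.End.mul_apply, mul_assoc x⁻¹ s w.prod]
    have h4 : f (g * x⁻¹, s) = ρ g (f (x⁻¹, s)) + f (g, x⁻¹ * s) - f (g, x⁻¹) := by
      rw [← sub_eq_zero, ← neg_eq_zero, ← h1]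
      abel
    rw [h4]
    abel

lemma P2_th_bdry {S : Finset G} (f : G × G → M)
    (hf : ∀ g h k : G, ρ g (f (h, k)) - f (g * h, k) + f (g, h * k) - f (g, h) = 0)
    (n : G → M) (hn : ∀ s t, s ∈ S → t ∈ S → s * t ∈ S →
      f (s, t) = ρ s (n t) - n (s * t) + n s) (T : Tri G →₀ ℤ) (hT : InS S T) :
    P2_th ρ f n (bdry T) = 0 := by
  have h0 : T = ∑ p ∈ T.support, Finsupp.single p (T p) := T.sum_single.symm
  rw [h0, map_sum, map_sum]
  apply Finset.sum_eq_zero
  intro p hp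
  obtain ⟨h1, h2, h3⟩ := hT p hp
  unfold P2_th
  rw [P2_ev_bdry]
  have h4 : ∀ (m : M), m = 0 → (T p) • m = 0 := by
    intro m hm
    rw [hm, smul_zero]
  apply h4
  obtain ⟨⟨s, t⟩, x⟩ := p
  simp only at h1 h2 h3 ⊢
  have h5 := hf x⁻¹ s t
  rw [hn s t h1 h2 h3, map_add, map_sub] at h5
  have h6 : (s⁻¹ * x)⁻¹ = x⁻¹ * s := by group
  rw [h6, map_mul, Module.End.mul_apply, ← h5]
  abel

/-- a two-cocycle which is a coboundary on the triangles with sides in `S` is a coboundary. -/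
theorem exists_cob {S : Finset G} (hS : Sys S) (f : G × G → M)
    (hf : ∀ g h k : G, ρ g (f (h, k)) - f (g * h, k) + f (g, h * k) - f (g, h) = 0)
    (n : G → M) (hn : ∀ s t, s ∈ S → t ∈ S → s * t ∈ S →
      f (s, t) = ρ s (n t) - n (s * t) + n s) :
    ∃ n' : G → M, ∀ g h, f (g, h) = ρ g (n' h) - n' (g * h) + n' g := by
  obtain ⟨W, F, hW, -, hF, -⟩ := exists_choices hS
  refine ⟨fun g => P2_th ρ f n (chn (W g) 1) + f (1, 1), fun g h => ?_⟩
  have h1 := P2_th_bdry ρ f hf n hn (F g h) (hF g h).1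
  rw [(hF g h).2, map_sub, map_add, shE_chn, P2_th_shift ρ f hf, inv_one, one_mul,
    (hW h).2] at h1
  have h2 := hf g 1 1
  rw [mul_one, mul_one] at h2
  have h3 : f (g, 1) = ρ g (f (1, 1)) := by
    rw [← sub_eq_zero, ← neg_eq_zero, ← h2]
    abel
  rw [h3] at h1
  beta_reduce
  rw [map_add, ← sub_eq_zero, ← neg_eq_zero, ← h1]
  abel

end general

/-! ### row P3 -/

variable [DecidableEq G] (c : Dt G)

/-- the chain of triangles with the coefficient functions `u p`. -/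
noncomputable def P3z (S : Finset G) (u : G × G → G →₀ ℤ) : Tri G →₀ ℤ :=
  ∑ p ∈ RS S, Finsupp.mapDomain (fun x => (p, x)) (u p)

lemma P3z_apply (S : Finset G) (u : G × G → G →₀ ℤ) (p : G × G) (x : G) :
    P3z S u (p, x) = if p ∈ RS S then u p x else 0 := by
  have h1 : ∀ p' : G × G, (Finsupp.mapDomain (fun x => (p', x)) (u p') : Tri G →₀ ℤ) (p, x) =
      if p' = p then u p x else 0 := by
    intro p'
    by_cases h : p' = p
    · subst h
      rw [if_pos rfl]
      exact Finsupp.mapDomain_apply (fun a b hab => (Prod.mk.inj hab).2) _ _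
    · rw [if_neg h]
      refine Finsupp.mapDomain_of_notMem_range _ _ ?_
      rintro ⟨y, hy⟩
      exact h (Prod.mk.inj hy).1
  unfold P3z
  rw [Finsupp.finsetSum_apply, Finset.sum_congr rfl fun p' _ => h1 p', Finset.sum_ite_eq']

lemma P3z_sq (S : Finset G) (u : G × G → G →₀ ℤ) : sq (P3z S u) ≤ ∑ p ∈ RS S, sq (u p) := by
  have h1 : (P3z S u).support ⊆ RS S ×ˢ (RS S).biUnion (fun p => (u p).support) := by
    rintro ⟨p, x⟩ hq
    rw [Finsupp.mem_support_iff, P3z_apply] at hq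
    have h2 : p ∈ RS S := by
      by_contra h
      exact hq (if_neg h)
    rw [if_pos h2] at hq
    rw [Finset.mem_product]
    exact ⟨h2, Finset.mem_biUnion.2 ⟨p, h2, Finsupp.mem_support_iff.2 hq⟩⟩
  refine (Finset.sum_le_sum_of_subset_of_nonneg h1 fun _ _ _ => by positivity).trans ?_
  rw [Finset.sum_product]
  refine Finset.sum_le_sum fun p hp => le_of_eq ?_
  unfold sq
  refine Eq.symm (Eq.trans ?_ (Finset.sum_congr rfl fun x _ => by rw [P3z_apply, if_pos hp]))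
  refine Finset.sum_subset (Finset.subset_biUnion_of_mem (fun p => (u p).support) hp) ?_
  intro x _ hx
  rw [Finsupp.notMem_support_iff.1 hx]
  norm_num

lemma P3z_inS (S : Finset G) (u : G × G → G →₀ ℤ) : InS S (P3z S u) := by
  rintro ⟨p, x⟩ hq
  rw [Finsupp.mem_support_iff, P3z_apply] at hq
  have h2 : p ∈ RS S := by
    by_contra h
    exact hq (if_neg h)
  rw [RS, Finset.mem_filter, Finset.mem_product] at h2
  exact ⟨h2.1.1, h2.1.2, h2.2⟩

/-- the value at a point. -/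
noncomputable def P3ev (r : ℕ) (x : G) : ZZ c →+ ℤ where
  toFun u := u.1 r x
  map_zero' := rfl
  map_add' _ _ := rfl

lemma P3_vz {T : Tri G →₀ ℤ} (hT : InS c.S T) (u : G × G → ZZ c) (r : ℕ) (x : G) :
    vz (P3z c.S fun p => (u p).1 r) T x =
      (T.sum fun q n => n • LtZ c q.2⁻¹ (u q.1)).1 r x := by
  have h1 : (T.sum fun q n => n • LtZ c q.2⁻¹ (u q.1)).1 r x =
      P3ev c r x (T.sum fun q n => n • LtZ c q.2⁻¹ (u q.1)) := rfl
  rw [h1, Finsupp.sum, map_sum]
  unfold vz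
  rw [Finsupp.sum]
  refine Finset.sum_congr rfl fun q hq => ?_
  obtain ⟨h2, h3, h4⟩ := hT q hq
  have h5 : q.1 ∈ RS c.S := by
    rw [RS, Finset.mem_filter, Finset.mem_product]
    exact ⟨⟨h2, h3⟩, h4⟩
  rw [P3z_apply, if_pos h5, map_zsmul, smul_eq_mul]
  congr 1
  have h6 : P3ev c r x (LtZ c q.2⁻¹ (u q.1)) = (LtZ c q.2⁻¹ (u q.1)).1 r x := rfl
  rw [h6, LtZ_val, inv_inv]

lemma P3_evT (u : G × G → ZZ c) (f : G × G → MM c) (hu : ∀ p, mk c (u p) = f p)
    (T : Tri G →₀ ℤ) : evT' (repM c) f T = mk c (T.sum fun q n => n • LtZ c q.2⁻¹ (u q.1)) := by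
  have h1 : mk c (T.sum fun q n => n • LtZ c q.2⁻¹ (u q.1)) =
      QuotientAddGroup.mk' (NN c) (T.sum fun q n => n • LtZ c q.2⁻¹ (u q.1)) := rfl
  rw [h1, Finsupp.sum, map_sum, evT', Finsupp.liftAddHom_apply, Finsupp.sum]
  refine Finset.sum_congr rfl fun q _ => ?_
  rw [zmultiplesHom_apply, map_zsmul, ← hu, repM_mk]
  rfl

/-- the coefficient function of an edge chain. -/
noncomputable def P3n (N : Ed G →₀ ℤ) (s : G) : G →₀ ℤ :=
  N.comapDomain (fun x => (s, x)) (fun _ _ _ _ hab => (Prod.mk.inj hab).2)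

omit [Group G] [DecidableEq G] in
lemma P3n_apply (N : Ed G →₀ ℤ) (s x : G) : P3n N s x = N (s, x) := rfl

omit [Group G] in
lemma P3n_sq (N : Ed G →₀ ℤ) (s : G) :
    sq (P3n N s) ≤ ∑ q ∈ N.support, ((N q : ℤ) : ℝ) ^ 2 := by
  unfold sq
  have h1 : ∑ x ∈ (P3n N s).support, ((P3n N s x : ℤ) : ℝ) ^ 2 =
      ∑ q ∈ (P3n N s).support.image (fun x => (s, x)), ((N q : ℤ) : ℝ) ^ 2 := by
    rw [Finset.sum_image (fun _ _ _ _ hab => (Prod.mk.inj hab).2)]
    rfl
  rw [h1]
  refine Finset.sum_le_sum_of_subset_of_nonneg ?_ fun _ _ _ => by positivity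
  intro q hq
  obtain ⟨x, hx, rfl⟩ := Finset.mem_image.1 hq
  rw [Finsupp.mem_support_iff] at hx ⊢
  exact hx

/-- the second cohomology vanishes. -/
theorem coh2 (hV : ThmV c.S) (ρ : ℕ → ℕ) (hM : ∀ r, c.M r = c.L r + ρ r)
    (hL : Tendsto c.L atTop atTop)
    (hfill : ∀ K : ℕ, ∀ᶠ r in atTop, ∀ w : List G, Loop c.S w → w.length ≤ K * c.L r →
      Fil c.S w (Real.exp (c.L r)) (ρ r)) :
    ¬ Nontrivial (groupCohomology (RM c) 2) := by
  rw [not_nontrivial_iff_subsingleton]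
  have key : ∀ x : groupCohomology (RM c) 2, x = 0 := by
    intro x
    refine groupCohomology.H2_induction_on (A := RM c) (C := fun x => x = 0) x fun f => ?_
    rw [groupCohomology.H2π_eq_zero_iff]
    have hf : ∀ g h k : G, repM c g (f.1 (h, k)) - f.1 (g * h, k) + f.1 (g, h * k) -
      f.1 (g, h) = 0 := (groupCohomology.mem_cocycles₂_def f.1).1 f.2
    choose u hu using fun p : G × G => mk_surj c (f.1 p)
    obtain ⟨𝒯, h𝒯, hK⟩ := hV
    -- the exponents
    choose e he using fun p : G × G => (u p).2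
    obtain ⟨K, hK⟩ := hK ((∑ p ∈ RS c.S, e p) + (RS c.S).card)
    -- the defects
    have hT : ∀ T : Tri G →₀ ℤ, ∃ k : ℕ, T ∈ 𝒯 → ∀ r, ∀ x ∈ Far c.S (c.V r) (k * c.M r),
        vz (P3z c.S fun p => (u p).1 r) T x = 0 := by
      intro T
      by_cases hT : T ∈ 𝒯
      · have h1 := evT_cycle (repM c) f.1 hf T (h𝒯 T hT).2
        rw [P3_evT c u f.1 hu T, mk_eq_zero_iff, mem_NN] at h1
        obtain ⟨k, hk⟩ := h1
        refine ⟨k, fun _ r x hx => ?_⟩
        rw [P3_vz c (h𝒯 T hT).1]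
        exact hk r x hx
      · exact ⟨0, fun h => absurd h hT⟩
    choose k hk using hT
    have hk' : ∀ r, ∀ T ∈ 𝒯, ∀ x ∈ Far c.S (c.V r) ((∑ T ∈ 𝒯, k T) * c.M r),
        vz (P3z c.S fun p => (u p).1 r) T x = 0 := by
      intro r T hT x hx
      refine hk T hT r x (far_anti c.sys _ ?_ hx)
      exact Nat.mul_le_mul_right _ (Finset.single_le_sum (fun _ _ => Nat.zero_le _) hT)
    -- the size
    have hsq : ∀ r, ∑ q ∈ (P3z c.S fun p => (u p).1 r).support,
        ((P3z c.S (fun p => (u p).1 r) q : ℤ) : ℝ) ^ 2 ≤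
        Real.exp (((∑ p ∈ RS c.S, e p) + (RS c.S).card : ℕ) * c.L r) := by
      intro r
      have hL1 : (1 : ℝ) ≤ c.L r := by exact_mod_cast c.one_le r
      refine (P3z_sq c.S _).trans ?_
      have h1 : ∀ p ∈ RS c.S, sq ((u p).1 r) ≤
          Real.exp ((∑ p ∈ RS c.S, e p : ℕ) * c.L r) := fun p hp => by
        refine (he p r).trans (Real.exp_le_exp.2 ?_)
        refine mul_le_mul_of_nonneg_right ?_ (by linarith)
        exact_mod_cast Finset.single_le_sum (fun _ _ => Nat.zero_le _) hp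
      refine (Finset.sum_le_sum h1).trans ?_
      rw [Finset.sum_const, nsmul_eq_mul]
      have h2 : ((RS c.S).card : ℝ) ≤ Real.exp ((RS c.S).card * c.L r) := by
        have h3 := Real.add_one_le_exp (((RS c.S).card : ℝ) * c.L r)
        have h4 : ((RS c.S).card : ℝ) * 1 ≤ (RS c.S).card * c.L r :=
          mul_le_mul_of_nonneg_left hL1 (Nat.cast_nonneg _)
        linarith
      refine (mul_le_mul_of_nonneg_right h2 (Real.exp_pos _).le).trans (le_of_eq ?_)
      rw [← Real.exp_add]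
      congr 1
      push_cast
      ring
    -- the primitives
    have hN : ∀ r, ∃ N : Ed G →₀ ℤ, ∑ q ∈ N.support, ((N q : ℤ) : ℝ) ^ 2 ≤
        Real.exp (K * c.L r) ∧ (K ≤ c.L r → (∀ w : List G, Loop c.S w → w.length ≤ K * c.L r →
          Fil c.S w (Real.exp (c.L r)) (ρ r)) → ∀ p ∈ RS c.S,
        ∀ x ∈ Far c.S (c.V r) ((∑ T ∈ 𝒯, k T) * c.M r + K * c.L r + ρ r),
          (u p).1 r x = N (p.1, x) + N (p.2, p.1⁻¹ * x) - N (p.1 * p.2, x)) := by
      intro r
      by_cases h : K ≤ c.L r ∧ ∀ w : List G, Loop c.S w → w.length ≤ K * c.L r →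
          Fil c.S w (Real.exp (c.L r)) (ρ r)
      · obtain ⟨N, -, hN, hN'⟩ := hK (c.L r) h.1 (c.V r) _ (ρ r) _ (P3z_inS c.S _) (hsq r)
          (hk' r) h.2
        refine ⟨N, hN, fun _ _ p hp x hx => ?_⟩
        rw [← hN' p hp x hx, P3z_apply, if_pos hp]
      · refine ⟨0, ?_, fun h1 h2 => absurd ⟨h1, h2⟩ h⟩
        rw [Finsupp.support_zero, Finset.sum_empty]
        exact (Real.exp_pos _).le
    choose N hN1 hN2 using hN
    have hn : ∀ s : G, ∃ n : ZZ c, ∀ r x, n.1 r x = N r (s, x) := fun s =>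
      ⟨⟨fun r => P3n (N r) s, K, fun r => (P3n_sq _ _).trans (hN1 r)⟩, fun _ _ => rfl⟩
    choose n hn using hn
    obtain ⟨n', hn'⟩ := exists_cob (repM c) c.sys f.1 hf (fun s => mk c (n s)) (by
      intro s t hs ht hst
      have hp : (s, t) ∈ RS c.S := by
        rw [RS, Finset.mem_filter, Finset.mem_product]
        exact ⟨⟨hs, ht⟩, hst⟩
      show f.1 (s, t) = repM c s (mk c (n t)) - mk c (n (s * t)) + mk c (n s)
      rw [← hu, repM_mk]
      have h5 : mk c (LtZ c s (n t)) - mk c (n (s * t)) + mk c (n s) =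
        mk c (LtZ c s (n t) - n (s * t) + n s) := rfl
      rw [h5, ← sub_eq_zero]
      have h6 : mk c (u (s, t)) - mk c (LtZ c s (n t) - n (s * t) + n s) =
        mk c (u (s, t) - (LtZ c s (n t) - n (s * t) + n s)) := rfl
      rw [h6, mk_eq_zero_iff]
      refine mem_NN_of_eventually c _ ((∑ T ∈ 𝒯, k T) + K + 1) ?_
      filter_upwards [hfill K, hL.eventually_ge_atTop K] with r hr1 hr2 x hx
      have h7 : (u (s, t) - (LtZ c s (n t) - n (s * t) + n s)).1 r x =
        (u (s, t)).1 r x - ((LtZ c s (n t)).1 r x - (n (s * t)).1 r x + (n s).1 r x) := rfl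
      rw [h7, LtZ_val, hn, hn, hn]
      have h8 := hN2 r hr2 hr1 (s, t) hp x (far_anti c.sys _ (by
        have h9 := hM r
        have h10 : K * c.L r ≤ K * c.M r := Nat.mul_le_mul_left _ (c.le r)
        nlinarith) hx)
      rw [h8]
      show N r (s, x) + N r (t, s⁻¹ * x) - N r (s * t, x) -
        (N r (t, s⁻¹ * x) - N r (s * t, x) + N r (s, x)) = 0
      ring)
    refine ⟨n', ?_⟩
    funext ⟨g, h⟩
    exact (hn' g h).symm
  exact ⟨fun a b => by rw [key a, key b]⟩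

end Pool.Agent.LibDehn83
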