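import Pool.Agent.LibQF83.Van
import Pool.Agent.LibZIS.Approx

/-!
Chains of edges and triangles of a group with a finite set of generators: definitions.
-/

set_option autoImplicit false

namespace Pool.Agent.LibDehn83

open scoped Pointwise

/-- Edges: `(s, x)` is the edge from `x` to `s⁻¹ x`. -/
abbrev Ed (G : Type) := G × G

/-- Triangles: `((s, t), x)` is the triangle with the vertices `x`, `s⁻¹ x`, `(s t)⁻¹ x`. -/
abbrev Tri (G : Type) := (G × G) × G

variable {G : Type} [Group G]

/-- The boundary of a finite sum of triangles: `(s, x) + (t, s⁻¹ x) - (s t, x)` for the triangle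
`((s, t), x)`. -/
noncomputable def bdry : (Tri G →₀ ℤ) →+ (Ed G →₀ ℤ) :=
  Finsupp.liftAddHom fun p =>
    Finsupp.singleAddHom (p.1.1, p.2) + Finsupp.singleAddHom (p.1.2, p.1.1⁻¹ * p.2) -
      Finsupp.singleAddHom (p.1.1 * p.1.2, p.2)

/-- The sum of the edges of the path with the labels `w` which starts at `x`. -/
noncomputable def chn : List G → G → (Ed G →₀ ℤ)
  | [], _ => 0
  | s :: w, x => Finsupp.single (s, x) 1 + chn w (s⁻¹ * x)

/-- The mass of an integral chain: the sum of the absolute values of its coefficients. -/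
def mass {α : Type} (T : α →₀ ℤ) : ℕ := ∑ p ∈ T.support, (T p).natAbs

/-- All the sides of the triangles of `T` have their labels in `S`. -/
def InS (S : Finset G) (T : Tri G →₀ ℤ) : Prop :=
  ∀ p ∈ T.support, p.1.1 ∈ S ∧ p.1.2 ∈ S ∧ p.1.1 * p.1.2 ∈ S

/-- A loop: a word in `S` with the product one. -/
def Loop (S : Finset G) (w : List G) : Prop := (∀ s ∈ w, s ∈ S) ∧ w.prod = 1

/-- The loop `w` bounds a chain of mass at most `A`. -/
def Ar (S : Finset G) (w : List G) (A : ℝ) : Prop :=
  ∃ T : Tri G →₀ ℤ, InS S T ∧ bdry T = chn w 1 ∧ (mass T : ℝ) ≤ A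

section

variable [DecidableEq G]

/-- The points at distance more than `D` of the set `V`. -/
def Far (S : Finset G) (V : Set G) (D : ℕ) : Set G := {x | ∀ v ∈ V, x * v⁻¹ ∉ S ^ D}

/-- The vertices of the path `w` which starts at the unit element. -/
def Vt (w : List G) : Set G := {v | ∃ w' : List G, w' <+: w ∧ v = w'.prod⁻¹}

/-- The loop `w` bounds a chain of mass at most `A` within the distance `ρ` of `w`. -/
def Fil (S : Finset G) (w : List G) (A : ℝ) (ρ : ℕ) : Prop :=
  ∃ T : Tri G →₀ ℤ, InS S T ∧ bdry T = chn w 1 ∧ (mass T : ℝ) ≤ A ∧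
    ∀ p ∈ T.support, p.2 ∉ Far S (Vt w) ρ

end

/-- A finite symmetric set of generators all of whose loops bound. -/
structure Sys (S : Finset G) : Prop where
  one : (1 : G) ∈ S
  inv : ∀ s ∈ S, s⁻¹ ∈ S
  gen : ∀ g : G, ∃ w : List G, (∀ s ∈ w, s ∈ S) ∧ w.prod = g
  fill : ∀ w : List G, Loop S w → ∃ T : Tri G →₀ ℤ, InS S T ∧ bdry T = chn w 1

/-- The set of the pairs `(s, t)` with `s`, `t`, `s t` in `S`. -/
def RS [DecidableEq G] (S : Finset G) : Finset (G × G) := (S ×ˢ S).filter fun p => p.1 * p.2 ∈ S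

/-- The translate of a chain of triangles. -/
noncomputable def shT (y : G) : (Tri G →₀ ℤ) →+ (Tri G →₀ ℤ) :=
  Finsupp.mapDomain.addMonoidHom fun p => (p.1, p.2 * y)

/-- The translate of a chain of edges. -/
noncomputable def shE (y : G) : (Ed G →₀ ℤ) →+ (Ed G →₀ ℤ) :=
  Finsupp.mapDomain.addMonoidHom fun p => (p.1, p.2 * y)

/-- The reversed path. -/
def rv (w : List G) : List G := (w.map fun s => s⁻¹).reverse

end Pool.Agent.LibDehn83
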