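import Pool.Agent.LibDehn83.Words

/-!
Cutting loops.
-/

set_option autoImplicit false

namespace Pool.Agent.LibDehn83

open scoped Pointwise

variable {G : Type} [Group G] [DecidableEq G]

/-! ### row A1: the radius is bounded by the area -/

private lemma a1_bdry_zero {T : Tri G →₀ ℤ} {Q : G → Prop}
    (h : ∀ p ∈ T.support, Q p.2 ∧ Q (p.1.1⁻¹ * p.2)) {e : Ed G} (he : ¬ Q e.2) :
    bdry T e = 0 := by
  have h1 : bdry T = ∑ p ∈ T.support, bdry (Finsupp.single p (T p)) := by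
    conv_lhs => rw [← Finsupp.sum_single T, Finsupp.sum, map_sum]
  rw [h1, Finsupp.finsetSum_apply]
  refine Finset.sum_eq_zero fun p hp => ?_
  obtain ⟨h2, h3⟩ := h p hp
  rw [bdry_single, Finsupp.sub_apply, Finsupp.add_apply, Finsupp.single_apply,
    Finsupp.single_apply, Finsupp.single_apply]
  rw [if_neg, if_neg, if_neg]
  · simp
  · rintro rfl
    exact he h2
  · rintro rfl
    exact he h3
  · rintro rfl
    exact he h2

private lemma a1_chn_zero (w : List G) : ∀ (x : G) (e : Ed G),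
    (∀ w' : List G, w' <+: w → e.2 ≠ w'.prod⁻¹ * x) → chn w x e = 0 := by
  induction w with
  | nil =>
    intro x e _
    rw [chn_nil, Finsupp.zero_apply]
  | cons s w ih =>
    intro x e h
    rw [chn_cons, Finsupp.add_apply, Finsupp.single_apply, if_neg, ih, zero_add]
    · intro w' hw'
      have h1 := h (s :: w') (by simpa using hw')
      rw [List.prod_cons, mul_inv_rev, mul_assoc] at h1
      exact h1
    · rintro rfl
      exact h [] (List.nil_prefix) (by simp)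

private lemma a1_card_le_mass {α : Type} (T : α →₀ ℤ) : T.support.card ≤ mass T := by
  unfold mass
  rw [Finset.card_eq_sum_ones]
  refine Finset.sum_le_sum fun p hp => ?_
  have h1 : T p ≠ 0 := Finsupp.mem_support_iff.1 hp
  omega

private lemma a1_mass_filter {α : Type} (T : α →₀ ℤ) (P : α → Prop) [DecidablePred P] :
    mass (T.filter P) ≤ mass T := by
  unfold mass
  rw [Finsupp.support_filter]
  have h1 : ∑ p ∈ T.support with P p, ((T.filter P) p).natAbs =
      ∑ p ∈ T.support with P p, (T p).natAbs := by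
    refine Finset.sum_congr rfl fun p hp => ?_
    rw [Finsupp.filter_apply_pos _ _ (Finset.mem_filter.1 hp).2]
  rw [h1]
  exact Finset.sum_le_sum_of_subset (Finset.filter_subset _ _)

theorem fil_of_ar {S : Finset G} (hS : Sys S) (w : List G) (hw : Loop S w) (A : ℕ)
    (h : Ar S w A) : Fil S w A (3 * A + 3) := by
  classical
  obtain ⟨T, hT, hb, hm⟩ := h
  have hmA : mass T ≤ A := by exact_mod_cast hm
  have hcard : T.support.card ≤ A := (a1_card_le_mass T).trans hmA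
  have hS1 : ∀ s ∈ S, s ∈ S ^ 1 := by
    intro s hs
    rw [pow_one]
    exact hs
  -- an annulus without triangles
  have hex : ∃ j, j ≤ A ∧ ∀ p ∈ T.support, p.2 ∈ Far S (Vt w) (3 * j) →
      p.2 ∈ Far S (Vt w) (3 * j + 3) := by
    by_contra hcon
    push Not at hcon
    choose! f hf1 hf2 hf3 using hcon
    have hinj : Set.InjOn f (Finset.range (A + 1)) := by
      intro i hi j hj hij
      rw [Finset.mem_coe, Finset.mem_range] at hi hj
      by_contra hne
      rcases lt_or_gt_of_ne hne with h1 | h1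
      · have h2 := hf2 j (by omega)
        rw [← hij] at h2
        exact hf3 i (by omega) (far_anti hS _ (by omega) h2)
      · have h2 := hf2 i (by omega)
        rw [hij] at h2
        exact hf3 j (by omega) (far_anti hS _ (by omega) h2)
    have h1 := Finset.card_le_card_of_injOn f (s := Finset.range (A + 1)) (t := T.support)
      (fun i hi => hf1 i (by
        rw [Finset.mem_coe, Finset.mem_range] at hi
        omega)) hinj
    rw [Finset.card_range] at h1
    omega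
  obtain ⟨j, hjA, hj⟩ := hex
  set T1 := T.filter (fun p => ¬ p.2 ∈ Far S (Vt w) (3 * j)) with hT1
  set T2 := T.filter (fun p => p.2 ∈ Far S (Vt w) (3 * j)) with hT2
  have hsum : T2 + T1 = T := Finsupp.filter_add_filter_not T _
  have hmem1 : ∀ p ∈ T1.support, p ∈ T.support ∧ p.2 ∉ Far S (Vt w) (3 * j) := by
    intro p hp
    rw [hT1, Finsupp.support_filter, Finset.mem_filter] at hp
    exact hp
  have hmem2 : ∀ p ∈ T2.support, p ∈ T.support ∧ p.2 ∈ Far S (Vt w) (3 * j + 3) := by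
    intro p hp
    rw [hT2, Finsupp.support_filter, Finset.mem_filter] at hp
    exact ⟨hp.1, hj p hp.1 hp.2⟩
  have hb2 : bdry T2 = 0 := by
    have h0 : bdry T2 + bdry T1 = chn w 1 := by
      rw [← map_add, hsum, hb]
    ext e
    rw [Finsupp.zero_apply]
    by_cases he : e.2 ∈ Far S (Vt w) (3 * j + 1)
    · have h1 : bdry T1 e = 0 := by
        refine a1_bdry_zero (Q := fun x => x ∉ Far S (Vt w) (3 * j + 1)) ?_ (by simpa using he)
        intro p hp
        obtain ⟨h2, h3⟩ := hmem1 p hp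
        refine ⟨fun h4 => h3 (far_anti hS _ (by omega) h4), fun h4 => h3 ?_⟩
        have h5 := far_shift' hS (m := 3 * j) (n := 1) (hS1 _ (hT p h2).1) h4
        rwa [mul_inv_cancel_left] at h5
      have h2 : chn w 1 e = 0 := by
        refine a1_chn_zero w 1 e ?_
        intro w' hw' h3
        rw [mul_one] at h3
        have h4 := he e.2 ⟨w', hw', h3⟩
        rw [mul_inv_cancel] at h4
        apply h4
        have h5 : (1 : G) ∈ S ^ 0 := by simp
        exact pow_mono hS (Nat.zero_le _) h5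
      have h3 := DFunLike.congr_fun h0 e
      rw [Finsupp.add_apply, h1, h2, add_zero] at h3
      exact h3
    · refine a1_bdry_zero (Q := fun x => x ∈ Far S (Vt w) (3 * j + 1)) ?_ he
      intro p hp
      obtain ⟨h2, h3⟩ := hmem2 p hp
      refine ⟨far_anti hS _ (by omega) h3, ?_⟩
      exact far_anti hS _ (by omega)
        (far_shift hS (m := 3 * j + 2) (n := 1) (hS1 _ (hT p h2).1) h3)
  refine ⟨T1, ?_, ?_, ?_, ?_⟩
  · intro p hp
    exact hT p (hmem1 p hp).1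
  · have h0 : bdry T2 + bdry T1 = chn w 1 := by
      rw [← map_add, hsum, hb]
    rw [hb2, zero_add] at h0
    exact h0
  · refine le_trans ?_ hm
    exact_mod_cast a1_mass_filter T _
  · intro p hp h1
    exact (hmem1 p hp).2 (far_anti hS _ (by omega) h1)

/-! ### row A2: rotation, two loops -/

lemma Ar.mono {S : Finset G} {w : List G} {A B : ℝ} (h : Ar S w A) (hAB : A ≤ B) : Ar S w B := by
  obtain ⟨T, h1, h2, h3⟩ := h
  exact ⟨T, h1, h2, h3.trans hAB⟩

lemma Loop.rot {S : Finset G} {u v : List G} (h : Loop S (u ++ v)) : Loop S (v ++ u) := by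
  refine ⟨fun s hs => h.1 s ?_, ?_⟩
  · rw [List.mem_append] at hs ⊢
    exact hs.symm
  · have := h.2
    rw [List.prod_append] at this ⊢
    exact mul_eq_one_comm.1 this

lemma Ar.rot {S : Finset G} {u v : List G} (huv : Loop S (u ++ v)) {A : ℝ}
    (h : Ar S (v ++ u) A) : Ar S (u ++ v) A := by
  obtain ⟨T, h1, h2, h3⟩ := h
  refine ⟨shT u.prod⁻¹ T, h1.shT _, ?_, by rw [mass_shT]; exact h3⟩
  have hp := huv.2
  rw [List.prod_append] at hp
  have hv : v.prod⁻¹ * u.prod⁻¹ = 1 := by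
    rw [← mul_inv_rev, hp, inv_one]
  rw [bdry_shT, h2, shE_chn, chn_append, chn_append, one_mul, hv, mul_one, add_comm]

/-- a loop at an interior point is cut off. -/
lemma Ar.two {S : Finset G} {u v w : List G} (hv : v.prod = 1) {A B : ℝ} (h : Ar S v A)
    (h' : Ar S (u ++ w) B) : Ar S (u ++ v ++ w) (A + B) := by
  obtain ⟨T, h1, h2, h3⟩ := h
  obtain ⟨T', h1', h2', h3'⟩ := h'
  refine ⟨shT u.prod⁻¹ T + T', (h1.shT _).add h1', ?_, ?_⟩
  · rw [map_add, bdry_shT, h2, h2', shE_chn, chn_append, chn_append, chn_append, List.prod_append, hv]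
    simp only [mul_one, one_mul]
    abel
  · have h4 := mass_add_le (shT u.prod⁻¹ T) T'
    rw [mass_shT] at h4
    have h5 : (mass (shT u.prod⁻¹ T + T') : ℝ) ≤ mass T + mass T' := by exact_mod_cast h4
    linarith

/-! ### row A3: three arcs and a triangle -/

lemma chn_single (s x : G) : chn [s] x = Finsupp.single (s, x) 1 := by
  rw [chn_cons, chn_nil, add_zero]

/-- `p₀, p₁, p₂` are paths from the vertices of the triangle `x₀ = 1`, `x₁ = a⁻¹`, `x₂ = (a b)⁻¹`
to the end points of the arcs `α₀`, `α₁`, `α₂` of the loop. -/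
theorem Ar.three {S : Finset G} (hS : Sys S) {a b : G} (ha : a ∈ S) (hb : b ∈ S) (hab : a * b ∈ S)
    {α₀ α₁ α₂ p₀ p₁ p₂ : List G} (hα : Loop S (α₀ ++ α₁ ++ α₂))
    (hp₀ : ∀ s ∈ p₀, s ∈ S) (hp₁ : ∀ s ∈ p₁, s ∈ S) (hp₂ : ∀ s ∈ p₂, s ∈ S)
    -- the end points of the paths are the end points of the arcs
    (h₁ : p₀.prod * α₀.prod = a * p₁.prod) (h₂ : p₁.prod * α₁.prod = b * p₂.prod)
    {A₀ A₁ A₂ : ℝ} (hA₀ : Ar S (p₀ ++ α₀ ++ rv p₁ ++ [a⁻¹]) A₀)
    (hA₁ : Ar S (p₁ ++ α₁ ++ rv p₂ ++ [b⁻¹]) A₁)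
    (hA₂ : Ar S (p₂ ++ α₂ ++ rv p₀ ++ [a * b]) A₂) :
    Ar S (α₀ ++ α₁ ++ α₂)
      (A₀ + A₁ + A₂ + (2 * (p₀.length + p₁.length + p₂.length) + 5 : ℕ)) := by
  obtain ⟨T₀, i₀, b₀, m₀⟩ := hA₀
  obtain ⟨T₁, i₁, b₁, m₁⟩ := hA₁
  obtain ⟨T₂, i₂, b₂, m₂⟩ := hA₂
  obtain ⟨R₀, j₀, c₀, n₀, -⟩ := exists_rv hS p₀ hp₀ 1
  obtain ⟨R₁, j₁, c₁, n₁, -⟩ := exists_rv hS p₁ hp₁ a⁻¹
  obtain ⟨R₂, j₂, c₂, n₂, -⟩ := exists_rv hS p₂ hp₂ (a * b)⁻¹
  obtain ⟨Ra, ja, ca, na, -⟩ := exists_rv hS [a] (by simpa using ha) 1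
  obtain ⟨Rb, jb, cb, nb, -⟩ := exists_rv hS [b] (by simpa using hb) a⁻¹
  have hprod := hα.2
  rw [List.prod_append, List.prod_append] at hprod
  have h₃ : a * b * p₂.prod * α₂.prod = p₀.prod := by
    calc a * b * p₂.prod * α₂.prod = a * (b * p₂.prod) * α₂.prod := by group
      _ = a * (p₁.prod * α₁.prod) * α₂.prod := by rw [h₂]
      _ = (a * p₁.prod) * α₁.prod * α₂.prod := by group
      _ = p₀.prod * (α₀.prod * α₁.prod * α₂.prod) := by rw [← h₁]; group
      _ = p₀.prod := by rw [hprod, mul_one]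
  -- the end points
  have v1 : α₀.prod⁻¹ * p₀.prod⁻¹ = p₁.prod⁻¹ * a⁻¹ := by
    rw [← mul_inv_rev, h₁, mul_inv_rev]
  have v2 : α₁.prod⁻¹ * (p₁.prod⁻¹ * a⁻¹) = p₂.prod⁻¹ * (a * b)⁻¹ := by
    calc α₁.prod⁻¹ * (p₁.prod⁻¹ * a⁻¹) = (p₁.prod * α₁.prod)⁻¹ * a⁻¹ := by group
      _ = p₂.prod⁻¹ * (a * b)⁻¹ := by rw [h₂]; group
  have v3 : α₂.prod⁻¹ * (p₂.prod⁻¹ * (a * b)⁻¹) = p₀.prod⁻¹ := by
    rw [← h₃]
    group
  refine ⟨shT p₀.prod (T₀ + shT a⁻¹ T₁ + shT (a * b)⁻¹ T₂ + -(R₀ + R₁ + R₂ + Ra + Rb) +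
    Finsupp.single ((a, b), 1) 1), ?_, ?_, ?_⟩
  · refine InS.shT ?_ _
    exact (((i₀.add (i₁.shT _)).add (i₂.shT _)).add (((((j₀.add j₁).add j₂).add ja).add jb).neg)).add
      (InS.single ⟨ha, hb, hab⟩ 1)
  · rw [bdry_shT]
    have hmain : bdry (T₀ + shT a⁻¹ T₁ + shT (a * b)⁻¹ T₂ + -(R₀ + R₁ + R₂ + Ra + Rb) +
        Finsupp.single ((a, b), 1) 1) = chn (α₀ ++ α₁ ++ α₂) p₀.prod⁻¹ := by
      have e0 : chn (p₀ ++ α₀ ++ rv p₁ ++ [a⁻¹]) (1 : G) = chn p₀ 1 + chn α₀ p₀.prod⁻¹ +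
          chn (rv p₁) (p₁.prod⁻¹ * a⁻¹) + Finsupp.single (a⁻¹, a⁻¹) 1 := by
        have q1 : (p₀.prod * α₀.prod)⁻¹ * 1 = p₁.prod⁻¹ * a⁻¹ := by
          rw [mul_one, mul_inv_rev, v1]
        have q2 : (p₀.prod * α₀.prod * p₁.prod⁻¹)⁻¹ * 1 = a⁻¹ := by
          rw [h₁]
          group
        simp only [chn_append, chn_single, List.prod_append, rv_prod]
        rw [q1, q2, mul_one]
      have e1 : chn (p₁ ++ α₁ ++ rv p₂ ++ [b⁻¹]) (1 * a⁻¹) = chn p₁ a⁻¹ +
          chn α₁ (p₁.prod⁻¹ * a⁻¹) + chn (rv p₂) (p₂.prod⁻¹ * (a * b)⁻¹) +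
          Finsupp.single (b⁻¹, (a * b)⁻¹) 1 := by
        have q1 : (p₁.prod * α₁.prod)⁻¹ * a⁻¹ = p₂.prod⁻¹ * (a * b)⁻¹ := by
          rw [mul_inv_rev, mul_assoc, v2]
        have q2 : (p₁.prod * α₁.prod * p₂.prod⁻¹)⁻¹ * a⁻¹ = (a * b)⁻¹ := by
          rw [h₂]
          group
        simp only [one_mul, chn_append, chn_single, List.prod_append, rv_prod]
        rw [q1, q2]
      have e2 : chn (p₂ ++ α₂ ++ rv p₀ ++ [a * b]) (1 * (a * b)⁻¹) = chn p₂ (a * b)⁻¹ +
          chn α₂ (p₂.prod⁻¹ * (a * b)⁻¹) + chn (rv p₀) (p₀.prod⁻¹) +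
          Finsupp.single (a * b, 1) 1 := by
        have q1 : (p₂.prod * α₂.prod)⁻¹ * (a * b)⁻¹ = p₀.prod⁻¹ := by
          rw [mul_inv_rev, mul_assoc, v3]
        have q2 : (p₂.prod * α₂.prod * p₀.prod⁻¹)⁻¹ * (a * b)⁻¹ = 1 := by
          rw [← h₃]
          group
        simp only [one_mul, chn_append, chn_single, List.prod_append, rv_prod]
        rw [q1, q2]
      have e3 : chn (α₀ ++ α₁ ++ α₂) p₀.prod⁻¹ = chn α₀ p₀.prod⁻¹ + chn α₁ (p₁.prod⁻¹ * a⁻¹) +
          chn α₂ (p₂.prod⁻¹ * (a * b)⁻¹) := by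
        have q1 : (α₀.prod * α₁.prod)⁻¹ * p₀.prod⁻¹ = p₂.prod⁻¹ * (a * b)⁻¹ := by
          rw [mul_inv_rev, mul_assoc, v1, v2]
        rw [chn_append, chn_append, List.prod_append, q1, v1]
      have e4 : chn [a] (1 : G) + chn (rv [a]) ([a].prod⁻¹ * 1) =
          Finsupp.single (a, 1) 1 + Finsupp.single (a⁻¹, a⁻¹) 1 := by
        simp [rv, chn_single]
      have e5 : chn [b] a⁻¹ + chn (rv [b]) ([b].prod⁻¹ * a⁻¹) =
          Finsupp.single (b, a⁻¹) 1 + Finsupp.single (b⁻¹, (a * b)⁻¹) 1 := by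
        simp [rv, chn_single]
      have e6 : bdry (Finsupp.single (((a, b), 1) : Tri G) 1) = Finsupp.single (a, 1) 1 +
          Finsupp.single (b, a⁻¹) 1 - Finsupp.single (a * b, 1) 1 := by
        rw [bdry_single, mul_one]
      simp only [map_add, map_neg, bdry_shT, b₀, b₁, b₂, c₀, c₁, c₂, ca, cb, shE_chn]
      rw [e0, e1, e2, e3, e4, e5, e6]
      simp only [mul_one]
      abel
    rw [hmain, shE_chn, inv_mul_cancel]
  · rw [mass_shT]
    have e1 := mass_add_le (T₀ + shT a⁻¹ T₁ + shT (a * b)⁻¹ T₂ + -(R₀ + R₁ + R₂ + Ra + Rb))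
      (Finsupp.single ((a, b), (1 : G)) (1 : ℤ))
    have e2 := mass_add_le (T₀ + shT a⁻¹ T₁ + shT (a * b)⁻¹ T₂) (-(R₀ + R₁ + R₂ + Ra + Rb))
    have e3 := mass_add_le (T₀ + shT a⁻¹ T₁) (shT (a * b)⁻¹ T₂)
    have e4 := mass_add_le T₀ (shT a⁻¹ T₁)
    have e5 := mass_add_le (R₀ + R₁ + R₂ + Ra) Rb
    have e6 := mass_add_le (R₀ + R₁ + R₂) Ra
    have e7 := mass_add_le (R₀ + R₁) R₂
    have e8 := mass_add_le R₀ R₁
    rw [mass_single] at e1
    rw [mass_neg] at e2
    rw [mass_shT] at e3 e4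
    simp only [List.length_cons, List.length_nil] at na nb
    have e9 : mass (T₀ + shT a⁻¹ T₁ + shT (a * b)⁻¹ T₂ + -(R₀ + R₁ + R₂ + Ra + Rb) +
        Finsupp.single ((a, b), (1 : G)) (1 : ℤ)) ≤ mass T₀ + mass T₁ + mass T₂ +
          (2 * (p₀.length + p₁.length + p₂.length) + 5) := by
      have : (1 : ℤ).natAbs = 1 := rfl
      omega
    have e10 : (mass (T₀ + shT a⁻¹ T₁ + shT (a * b)⁻¹ T₂ + -(R₀ + R₁ + R₂ + Ra + Rb) +
        Finsupp.single ((a, b), (1 : G)) (1 : ℤ)) : ℝ) ≤ mass T₀ + mass T₁ + mass T₂ +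
          ((2 * (p₀.length + p₁.length + p₂.length) + 5 : ℕ) : ℝ) := by
      exact_mod_cast e9
    linarith

/-! ### row A4: an index argument -/

/-- evaluation of a one-cochain on a chain of edges. -/
noncomputable def A4_ev (a : G → G → ℤ) : (Ed G →₀ ℤ) →+ ℤ :=
  Finsupp.liftAddHom fun p => AddMonoidHom.mulRight (a p.2 (p.1⁻¹ * p.2))

omit [DecidableEq G] in
lemma A4_ev_single (a : G → G → ℤ) (p : Ed G) (n : ℤ) :
    A4_ev a (Finsupp.single p n) = n * a p.2 (p.1⁻¹ * p.2) := by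
  simp [A4_ev]

omit [DecidableEq G] in
lemma A4_ev_chn (a : G → G → ℤ) (w : List G) (x : G) :
    A4_ev a (chn w x) = ∑ i ∈ Finset.range w.length,
      a ((w.take i).prod⁻¹ * x) ((w.take (i + 1)).prod⁻¹ * x) := by
  induction w generalizing x with
  | nil => simp [chn]
  | cons s w ih =>
    rw [chn_cons, map_add, A4_ev_single, ih, List.length_cons, Finset.sum_range_succ', add_comm]
    congr 1
    · exact Finset.sum_congr rfl fun i _ => by simp [mul_assoc]
    · simp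

omit [DecidableEq G] in
lemma A4_ev_bdry (a : G → G → ℤ) (T : Tri G →₀ ℤ)
    (ha : ∀ p ∈ T.support,
      a p.2 (p.1.1⁻¹ * p.2) + a (p.1.1⁻¹ * p.2) ((p.1.1 * p.1.2)⁻¹ * p.2) =
        a p.2 ((p.1.1 * p.1.2)⁻¹ * p.2)) : A4_ev a (bdry T) = 0 := by
  have h : bdry T = T.sum fun p n => bdry (Finsupp.single p n) := by
    conv_lhs => rw [← Finsupp.sum_single T]
    rw [Finsupp.sum, map_sum]
    rfl
  rw [h, Finsupp.sum, map_sum]
  refine Finset.sum_eq_zero fun p hp => ?_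
  rw [bdry_single, map_sub, map_add, A4_ev_single, A4_ev_single, A4_ev_single]
  have h1 := ha p hp
  have h2 : p.1.2⁻¹ * (p.1.1⁻¹ * p.2) = (p.1.1 * p.1.2)⁻¹ * p.2 := by group
  simp only [h2]
  rw [← mul_add, h1, sub_self]

/-- a closed one-cochain on the triangles of a filling vanishes on the loop. -/
lemma sum_eq_zero_of_closed {S : Finset G} {w : List G} {T : Tri G →₀ ℤ}
    (hT : InS S T) (hb : bdry T = chn w 1) (a : G → G → ℤ)
    (ha : ∀ p ∈ T.support,
      a p.2 (p.1.1⁻¹ * p.2) + a (p.1.1⁻¹ * p.2) ((p.1.1 * p.1.2)⁻¹ * p.2) =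
        a p.2 ((p.1.1 * p.1.2)⁻¹ * p.2)) :
    ∑ i ∈ Finset.range w.length, a (w.take i).prod⁻¹ (w.take (i + 1)).prod⁻¹ = 0 := by
  have h := A4_ev_bdry a T ha
  rw [hb, A4_ev_chn] at h
  simpa using h

/-- the representative of `j - i` in `(-s/2, s/2]`. -/
def rep (s : ℕ) (i j : ℕ) : ℤ :=
  if 2 * (((j : ℤ) - i) % s) ≤ s then ((j : ℤ) - i) % s else ((j : ℤ) - i) % s - s

lemma rep_cases {s : ℕ} (hs : 0 < s) (i j k : ℕ) :
    rep s i j + rep s j k - rep s i k = 0 ∨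
    (rep s i j + rep s j k - rep s i k = s ∧ 0 ≤ rep s i j ∧ 0 ≤ rep s j k ∧ rep s i k ≤ 0) ∨
    (rep s i j + rep s j k - rep s i k = -s ∧ rep s i j ≤ 0 ∧ rep s j k ≤ 0 ∧ 0 ≤ rep s i k) := by
  have hs' : (0 : ℤ) < s := by exact_mod_cast hs
  have hu0 := Int.emod_nonneg ((j : ℤ) - i) hs'.ne'
  have hu1 := Int.emod_lt_of_pos ((j : ℤ) - i) hs'
  have hv0 := Int.emod_nonneg ((k : ℤ) - j) hs'.ne'
  have hv1 := Int.emod_lt_of_pos ((k : ℤ) - j) hs'
  have ht0 := Int.emod_nonneg ((k : ℤ) - i) hs'.ne'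
  have ht1 := Int.emod_lt_of_pos ((k : ℤ) - i) hs'
  have e1 := Int.emod_add_mul_ediv ((j : ℤ) - i) s
  have e2 := Int.emod_add_mul_ediv ((k : ℤ) - j) s
  have e3 := Int.emod_add_mul_ediv ((k : ℤ) - i) s
  unfold rep
  set u := ((j : ℤ) - i) % s
  set v := ((k : ℤ) - j) % s
  set t := ((k : ℤ) - i) % s
  set q1 := ((j : ℤ) - i) / s
  set q2 := ((k : ℤ) - j) / s
  set q3 := ((k : ℤ) - i) / s
  have key : u + v - t = s * (q3 - q1 - q2) := by linear_combination e1 + e2 - e3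
  have hc : q3 - q1 - q2 = 0 ∨ q3 - q1 - q2 = 1 := by
    have h1 : q3 - q1 - q2 < 2 := by nlinarith
    have h2 : -1 < q3 - q1 - q2 := by nlinarith
    omega
  rcases hc with hc | hc
  · rw [hc] at key
    split_ifs <;> omega
  · rw [hc] at key
    split_ifs <;> omega

lemma rep_le {s : ℕ} (hs : 0 < s) (i j : ℕ) : 2 * |rep s i j| ≤ s := by
  have hs' : (0 : ℤ) < s := by exact_mod_cast hs
  have hu0 := Int.emod_nonneg ((j : ℤ) - i) hs'.ne'
  have hu1 := Int.emod_lt_of_pos ((j : ℤ) - i) hs'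
  unfold rep
  split_ifs with h
  · rw [abs_of_nonneg hu0]; exact h
  · rw [abs_of_nonpos (by omega)]; omega

lemma A4_rep_eq (s i j : ℕ) : ∃ c : ℤ, rep s i j = (j : ℤ) - i + s * c := by
  have e1 := Int.emod_add_mul_ediv ((j : ℤ) - i) s
  unfold rep
  split_ifs with h
  · exact ⟨-(((j : ℤ) - i) / s), by linear_combination e1⟩
  · exact ⟨-(((j : ℤ) - i) / s) - 1, by linear_combination e1⟩

lemma A4_mod {s i j l : ℕ} (hj : j < s) {c : ℤ} (h : (l : ℤ) = (j : ℤ) - i + s * c) :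
    (i + l) % s = j := by
  have h1 : ((i + l : ℕ) : ℤ) = j + s * c := by push_cast; linear_combination h
  have h2 : (((i + l) % s : ℕ) : ℤ) = j := by
    rw [Int.natCast_mod, h1, Int.add_mul_emod_self_left]
    exact Int.emod_eq_of_lt (by positivity) (by exact_mod_cast hj)
  exact_mod_cast h2

lemma A4_rep_succ {s i : ℕ} (h3 : 3 ≤ s) : rep s i (i + 1) = 1 := by
  have h1 : (((i + 1 : ℕ) : ℤ) - i) % s = 1 := by
    have : ((i + 1 : ℕ) : ℤ) - i = 1 := by push_cast; ring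
    rw [this]
    exact Int.emod_eq_of_lt (by norm_num) (by omega)
  unfold rep
  rw [h1, if_pos (by omega)]

lemma A4_rep_last {s i : ℕ} (h3 : 3 ≤ s) (hi : i + 1 = s) : rep s i 0 = 1 := by
  have h1 : (((0 : ℕ) : ℤ) - i) % s = 1 := by
    have : ((0 : ℕ) : ℤ) - i = 1 + s * (-1) := by
      have : (s : ℤ) = i + 1 := by exact_mod_cast hi.symm
      rw [this]; push_cast; ring
    rw [this, Int.add_mul_emod_self_left]
    exact Int.emod_eq_of_lt (by norm_num) (by omega)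
  unfold rep
  rw [h1, if_pos (by omega)]

lemma A4_one_mem_pow {S : Finset G} (hS : Sys S) (n : ℕ) : (1 : G) ∈ S ^ n := by
  have := pow_mono hS (Nat.zero_le n)
  exact this (by simp)

/-- there is a triangle of the filling whose vertices are near points of the loop which cut it
in three arcs of length at most half of the length of the loop. -/
theorem exists_triangle {S : Finset G} (hS : Sys S) (w : List G) (hw : Loop S w)
    (h3 : 3 ≤ w.length)
    (hsimple : ∀ i j, i < w.length → j < w.length → (w.take i).prod = (w.take j).prod → i = j)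
    (R : ℕ) (T : Tri G →₀ ℤ) (hT : InS S T) (hb : bdry T = chn w 1)
    (hR : ∀ p ∈ T.support, p.2 ∉ Far S (Vt w) R) :
    ∃ (a b x : G) (i j k l₀ l₁ l₂ : ℕ), a ∈ S ∧ b ∈ S ∧ a * b ∈ S ∧
      i < w.length ∧ j < w.length ∧ k < w.length ∧
      x * (w.take i).prod ∈ S ^ (R + 1) ∧ a⁻¹ * x * (w.take j).prod ∈ S ^ (R + 1) ∧
      (a * b)⁻¹ * x * (w.take k).prod ∈ S ^ (R + 1) ∧
      (i + l₀) % w.length = j ∧ (j + l₁) % w.length = k ∧ (k + l₂) % w.length = i ∧
      l₀ + l₁ + l₂ = w.length ∧ 2 * l₀ ≤ w.length ∧ 2 * l₁ ≤ w.length ∧ 2 * l₂ ≤ w.length := by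
  classical
  set s := w.length with hs
  have hs0 : 0 < s := by omega
  -- the nearest point projection
  have hex : ∀ y : G, ∃ i : ℕ, i < s ∧ (∀ m, m < s → y = (w.take m).prod⁻¹ → i = m) ∧
      ((∃ m, m < s ∧ y * (w.take m).prod ∈ S ^ (R + 1)) →
        y * (w.take i).prod ∈ S ^ (R + 1)) := by
    intro y
    by_cases h1 : ∃ m, m < s ∧ y = (w.take m).prod⁻¹
    · obtain ⟨m, hm, hy⟩ := h1
      refine ⟨m, hm, fun m' hm' hy' => ?_, fun _ => ?_⟩
      · apply hsimple m m' hm hm'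
        rw [hy] at hy'
        exact inv_injective hy'
      · rw [hy, inv_mul_cancel]
        exact A4_one_mem_pow hS _
    · by_cases h2 : ∃ m, m < s ∧ y * (w.take m).prod ∈ S ^ (R + 1)
      · obtain ⟨m, hm, hy⟩ := h2
        exact ⟨m, hm, fun m' hm' hy' => absurd ⟨m', hm', hy'⟩ h1, fun _ => hy⟩
      · exact ⟨0, hs0, fun m' hm' hy' => absurd ⟨m', hm', hy'⟩ h1, fun h => absurd h h2⟩
  choose π hπ1 hπ2 hπ3 using hex
  have hnear : ∀ p ∈ T.support, ∃ m, m < s ∧ p.2 * (w.take m).prod ∈ S ^ R := by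
    intro p hp
    have h := hR p hp
    simp only [Far, Set.mem_ofPred_eq, not_forall, not_not] at h
    obtain ⟨v, ⟨w', hw', rfl⟩, hv⟩ := h
    rw [inv_inv] at hv
    have hw'' : w' = w.take w'.length := (List.prefix_iff_eq_take.mp hw')
    by_cases hl : w'.length < s
    · exact ⟨w'.length, hl, by rw [← hw'']; exact hv⟩
    · refine ⟨0, hs0, ?_⟩
      have : w' = w := by
        rw [hw'', List.take_of_length_le (by omega)]
      rw [this, hw.2] at hv
      simpa using hv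
  have hpt : ∀ p ∈ T.support,
      p.2 * (w.take (π p.2)).prod ∈ S ^ (R + 1) ∧
      p.1.1⁻¹ * p.2 * (w.take (π (p.1.1⁻¹ * p.2))).prod ∈ S ^ (R + 1) ∧
      (p.1.1 * p.1.2)⁻¹ * p.2 * (w.take (π ((p.1.1 * p.1.2)⁻¹ * p.2))).prod ∈ S ^ (R + 1) := by
    intro p hp
    obtain ⟨m, hm, hm'⟩ := hnear p hp
    obtain ⟨ha, hb', hab⟩ := hT p hp
    refine ⟨hπ3 _ ⟨m, hm, pow_mono hS (Nat.le_succ R) hm'⟩, hπ3 _ ⟨m, hm, ?_⟩,
      hπ3 _ ⟨m, hm, ?_⟩⟩
    · rw [pow_succ', mul_assoc]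
      exact Finset.mul_mem_mul (hS.inv _ ha) hm'
    · rw [pow_succ', mul_assoc]
      exact Finset.mul_mem_mul (hS.inv _ hab) hm'
  -- some triangle is not closed
  have hne : ∃ p ∈ T.support, rep s (π p.2) (π (p.1.1⁻¹ * p.2)) +
      rep s (π (p.1.1⁻¹ * p.2)) (π ((p.1.1 * p.1.2)⁻¹ * p.2)) -
        rep s (π p.2) (π ((p.1.1 * p.1.2)⁻¹ * p.2)) ≠ 0 := by
    by_contra hcon
    push Not at hcon
    have h0 := sum_eq_zero_of_closed hT hb (fun x y => rep s (π x) (π y))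
      (fun p hp => by have := hcon p hp; linarith)
    have h1 : ∀ i ∈ Finset.range w.length,
        rep s (π (w.take i).prod⁻¹) (π (w.take (i + 1)).prod⁻¹) = 1 := by
      intro i hi
      rw [Finset.mem_range] at hi
      rw [hπ2 _ i hi rfl]
      by_cases hi' : i + 1 < s
      · rw [hπ2 _ (i + 1) hi' rfl]
        exact A4_rep_succ h3
      · have h4 : w.take (i + 1) = w := List.take_of_length_le (by omega)
        have h5 : π (w.take (i + 1)).prod⁻¹ = 0 := by
          apply hπ2 _ 0 hs0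
          rw [h4, hw.2]
          simp
        rw [h5]
        exact A4_rep_last h3 (by omega)
    rw [Finset.sum_congr rfl h1, Finset.sum_const, Finset.card_range, nsmul_eq_mul, mul_one] at h0
    have h6 : w.length = 0 := by exact_mod_cast h0
    omega
  obtain ⟨p, hp, hpne⟩ := hne
  obtain ⟨hx, hax, habx⟩ := hpt p hp
  obtain ⟨ha, hb', hab⟩ := hT p hp
  have i1 := hπ1 p.2
  have i2 := hπ1 (p.1.1⁻¹ * p.2)
  have i3 := hπ1 ((p.1.1 * p.1.2)⁻¹ * p.2)
  have r1 := rep_le hs0 (π p.2) (π (p.1.1⁻¹ * p.2))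
  have r2 := rep_le hs0 (π (p.1.1⁻¹ * p.2)) (π ((p.1.1 * p.1.2)⁻¹ * p.2))
  have r3 := rep_le hs0 (π p.2) (π ((p.1.1 * p.1.2)⁻¹ * p.2))
  obtain ⟨c1, e1⟩ := A4_rep_eq s (π p.2) (π (p.1.1⁻¹ * p.2))
  obtain ⟨c2, e2⟩ := A4_rep_eq s (π (p.1.1⁻¹ * p.2)) (π ((p.1.1 * p.1.2)⁻¹ * p.2))
  obtain ⟨c3, e3⟩ := A4_rep_eq s (π p.2) (π ((p.1.1 * p.1.2)⁻¹ * p.2))
  have hcase := rep_cases hs0 (π p.2) (π (p.1.1⁻¹ * p.2)) (π ((p.1.1 * p.1.2)⁻¹ * p.2))
  generalize rep s (π p.2) (π (p.1.1⁻¹ * p.2)) = A at *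
  generalize rep s (π (p.1.1⁻¹ * p.2)) (π ((p.1.1 * p.1.2)⁻¹ * p.2)) = B at *
  generalize rep s (π p.2) (π ((p.1.1 * p.1.2)⁻¹ * p.2)) = C at *
  rcases hcase with h | ⟨h, hA, hB, hC⟩ | ⟨h, hA, hB, hC⟩
  · exact absurd h hpne
  · obtain ⟨l0, rfl⟩ := Int.eq_ofNat_of_zero_le hA
    obtain ⟨l1, rfl⟩ := Int.eq_ofNat_of_zero_le hB
    obtain ⟨l2, hl2⟩ := Int.eq_ofNat_of_zero_le (neg_nonneg.mpr hC)
    have hC' : C = -(l2 : ℤ) := by rw [← hl2, neg_neg]
    subst hC'
    refine ⟨p.1.1, p.1.2, p.2, π p.2, π (p.1.1⁻¹ * p.2), π ((p.1.1 * p.1.2)⁻¹ * p.2), l0, l1, l2,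
      ha, hb', hab, i1, i2, i3, hx, hax, habx, A4_mod i2 e1, A4_mod i3 e2,
      A4_mod (c := -c3) i1 (by linear_combination -e3), ?_, ?_, ?_, ?_⟩
    · have : (l0 : ℤ) + l1 + l2 = s := by linear_combination h
      exact_mod_cast this
    · have := le_abs_self (l0 : ℤ)
      have h' : 2 * (l0 : ℤ) ≤ s := by linarith
      exact_mod_cast h'
    · have := le_abs_self (l1 : ℤ)
      have h' : 2 * (l1 : ℤ) ≤ s := by linarith
      exact_mod_cast h'
    · have := neg_le_abs (-(l2 : ℤ))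
      have h' : 2 * (l2 : ℤ) ≤ s := by linarith
      exact_mod_cast h'
  · obtain ⟨l2, rfl⟩ := Int.eq_ofNat_of_zero_le hC
    obtain ⟨l1, hl1⟩ := Int.eq_ofNat_of_zero_le (neg_nonneg.mpr hA)
    obtain ⟨l0, hl0⟩ := Int.eq_ofNat_of_zero_le (neg_nonneg.mpr hB)
    have hA' : A = -(l1 : ℤ) := by rw [← hl1, neg_neg]
    have hB' : B = -(l0 : ℤ) := by rw [← hl0, neg_neg]
    subst hA'
    subst hB'
    have g1 : (p.1.2⁻¹)⁻¹ * ((p.1.1 * p.1.2)⁻¹ * p.2) = p.1.1⁻¹ * p.2 := by group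
    have g2 : (p.1.2⁻¹ * p.1.1⁻¹)⁻¹ * ((p.1.1 * p.1.2)⁻¹ * p.2) = p.2 := by group
    refine ⟨p.1.2⁻¹, p.1.1⁻¹, (p.1.1 * p.1.2)⁻¹ * p.2, π ((p.1.1 * p.1.2)⁻¹ * p.2),
      π (p.1.1⁻¹ * p.2), π p.2, l0, l1, l2, hS.inv _ hb', hS.inv _ ha, ?_, i3, i2, i1, habx,
      ?_, ?_, A4_mod (c := -c2) i2 (by linear_combination -e2),
      A4_mod (c := -c1) i1 (by linear_combination -e1), A4_mod i3 e3, ?_, ?_, ?_, ?_⟩
    · rw [← mul_inv_rev]; exact hS.inv _ hab
    · rw [g1]; exact hax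
    · rw [g2]; exact hx
    · have : (l0 : ℤ) + l1 + l2 = s := by linear_combination -h
      exact_mod_cast this
    · have := neg_le_abs (-(l0 : ℤ))
      have h' : 2 * (l0 : ℤ) ≤ s := by linarith
      exact_mod_cast h'
    · have := neg_le_abs (-(l1 : ℤ))
      have h' : 2 * (l1 : ℤ) ≤ s := by linarith
      exact_mod_cast h'
    · have := le_abs_self (l2 : ℤ)
      have h' : 2 * (l2 : ℤ) ≤ s := by linarith
      exact_mod_cast h'

/-! ### row A5: the subdivision -/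

omit [DecidableEq G] in
/-- products along the rotated loop. -/
lemma A5_rot {w : List G} (hw : w.prod = 1) {i l : ℕ} (hi : i < w.length) (hl : l ≤ w.length) :
    (w.take i).prod * ((w.drop i ++ w.take i).take l).prod = (w.take ((i + l) % w.length)).prod := by
  have hwi : (w.take i).prod * (w.drop i).prod = 1 := by
    rw [← List.prod_append, List.take_append_drop, hw]
  rcases Nat.lt_or_ge (i + l) w.length with h | h
  · rw [Nat.mod_eq_of_lt h, List.take_append_of_le_length (by rw [List.length_drop]; omega),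
      ← List.prod_append, List.take_add]
  · have h1 : (i + l) % w.length = i + l - w.length := by
      rw [Nat.mod_eq_sub_mod h, Nat.mod_eq_of_lt (by omega)]
    have h2 : l = (w.drop i).length + (i + l - w.length) := by
      rw [List.length_drop]; omega
    have h3 : (w.drop i ++ w.take i).take l = w.drop i ++ (w.take i).take (i + l - w.length) := by
      conv_lhs => rw [h2]
      rw [List.take_length_add_append]
    rw [h1, h3, List.prod_append, ← mul_assoc, hwi, one_mul, List.take_take]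
    congr 2
    omega

theorem subdiv {S : Finset G} (hS : Sys S) (w : List G) (hw : Loop S w) (h3 : 3 ≤ w.length)
    (A : ℝ) (R : ℕ) (hR : Fil S w A R) :
    (∃ w₁ w₂ : List G, Loop S w₁ ∧ Loop S w₂ ∧ 0 < w₁.length ∧ 0 < w₂.length ∧
      w₁.length + w₂.length = w.length ∧
      ∀ A₁ A₂ : ℝ, Ar S w₁ A₁ → Ar S w₂ A₂ → Ar S w (A₁ + A₂)) ∨
    (∃ (w₁ w₂ w₃ : List G) (l₁ l₂ l₃ : ℕ), Loop S w₁ ∧ Loop S w₂ ∧ Loop S w₃ ∧
      l₁ + l₂ + l₃ = w.length ∧ 2 * l₁ ≤ w.length ∧ 2 * l₂ ≤ w.length ∧ 2 * l₃ ≤ w.length ∧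
      w₁.length ≤ l₁ + 2 * R + 3 ∧ w₂.length ≤ l₂ + 2 * R + 3 ∧ w₃.length ≤ l₃ + 2 * R + 3 ∧
      ∀ A₁ A₂ A₃ : ℝ, Ar S w₁ A₁ → Ar S w₂ A₂ → Ar S w₃ A₃ →
        Ar S w (A₁ + A₂ + A₃ + (6 * R + 11))) := by
  obtain ⟨hwS, hw1⟩ := hw
  have hsplit : ∀ i j : ℕ, i < j → j < w.length → (w.take i).prod = (w.take j).prod →
      (∃ w₁ w₂ : List G, Loop S w₁ ∧ Loop S w₂ ∧ 0 < w₁.length ∧ 0 < w₂.length ∧
      w₁.length + w₂.length = w.length ∧
      ∀ A₁ A₂ : ℝ, Ar S w₁ A₁ → Ar S w₂ A₂ → Ar S w (A₁ + A₂)) := by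
    intro i j hij hj hprod
    have htj : w.take j = w.take i ++ (w.drop i).take (j - i) := by
      rw [← List.take_add]
      congr 1
      omega
    have hw' : w = w.take i ++ (w.drop i).take (j - i) ++ w.drop j := by
      rw [← htj, List.take_append_drop]
    have hv : ((w.drop i).take (j - i)).prod = 1 := by
      rw [htj, List.prod_append] at hprod
      exact left_eq_mul.1 hprod
    refine ⟨(w.drop i).take (j - i), w.take i ++ w.drop j, ⟨?_, hv⟩, ⟨?_, ?_⟩, ?_, ?_, ?_, ?_⟩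
    · intro s hs
      exact hwS s (List.mem_of_mem_drop (List.mem_of_mem_take hs))
    · intro s hs
      rcases List.mem_append.1 hs with h | h
      · exact hwS s (List.mem_of_mem_take h)
      · exact hwS s (List.mem_of_mem_drop h)
    · rw [hw', List.prod_append, List.prod_append, hv, mul_one] at hw1
      rw [List.prod_append]
      exact hw1
    · rw [List.length_take, List.length_drop]
      omega
    · rw [List.length_append, List.length_take, List.length_drop]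
      omega
    · rw [List.length_append, List.length_take, List.length_take, List.length_drop, List.length_drop]
      omega
    · intro A₁ A₂ h₁ h₂
      have := Ar.two hv h₁ h₂
      rw [← hw'] at this
      exact this
  by_cases hsimple : ∀ i j, i < w.length → j < w.length → (w.take i).prod = (w.take j).prod → i = j
  · right
    obtain ⟨T, hT, hb, -, hf⟩ := hR
    obtain ⟨a, b, x, i, j, k, l₀, l₁, l₂, ha, hb', hab, hi, hj, hk, hx0, hx1, hx2, e0, e1, e2, hl,
      m0, m1, m2⟩ := exists_triangle hS w ⟨hwS, hw1⟩ h3 hsimple R T hT hb hf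
    obtain ⟨p₀, hp₀, hp₀', hp₀l⟩ := exists_word hx0
    obtain ⟨p₁, hp₁, hp₁', hp₁l⟩ := exists_word hx1
    obtain ⟨p₂, hp₂, hp₂', hp₂l⟩ := exists_word hx2
    set u : List G := w.drop i ++ w.take i with hu
    have hul : u.length = w.length := by
      rw [hu, List.length_append, List.length_drop, List.length_take]
      omega
    have huL : Loop S u := by
      apply Loop.rot
      rw [List.take_append_drop]
      exact ⟨hwS, hw1⟩
    set α₀ : List G := u.take l₀ with hα₀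
    set α₁ : List G := (u.drop l₀).take l₁ with hα₁
    set α₂ : List G := (u.drop l₀).drop l₁ with hα₂
    have huα : α₀ ++ α₁ ++ α₂ = u := by
      rw [hα₀, hα₁, hα₂, List.append_assoc, List.take_append_drop, List.take_append_drop]
    have r0 : (w.take i).prod * α₀.prod = (w.take j).prod := by
      rw [hα₀, A5_rot hw1 hi (by omega), e0]
    have r1 : (w.take i).prod * (α₀.prod * α₁.prod) = (w.take k).prod := by
      rw [hα₀, hα₁, ← List.prod_append, ← List.take_add, A5_rot hw1 hi (by omega), ← add_assoc]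
      rw [← e1, ← e0, Nat.mod_add_mod]
    have r2 : α₀.prod * α₁.prod * α₂.prod = 1 := by
      rw [← List.prod_append, ← List.prod_append, huα]
      exact huL.2
    have s0 : α₀.prod = ((w.take i).prod)⁻¹ * (w.take j).prod := by
      rw [← r0, inv_mul_cancel_left]
    have s1 : α₁.prod = ((w.take j).prod)⁻¹ * (w.take k).prod := by
      rw [← r1, ← r0]
      group
    have s2 : α₂.prod = ((w.take k).prod)⁻¹ * (w.take i).prod := by
      have h : α₂.prod = (α₀.prod * α₁.prod)⁻¹ := by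
        rw [eq_inv_iff_mul_eq_one, mul_eq_one_comm]
        exact r2
      rw [h, ← r1]
      group
    have t0 : ∀ s ∈ α₀, s ∈ S := fun s hs => huL.1 s (List.mem_of_mem_take hs)
    have t1 : ∀ s ∈ α₁, s ∈ S := fun s hs => huL.1 s (List.mem_of_mem_drop (List.mem_of_mem_take hs))
    have t2 : ∀ s ∈ α₂, s ∈ S := fun s hs => huL.1 s (List.mem_of_mem_drop (List.mem_of_mem_drop hs))
    have q0 : α₀.length = l₀ := by
      rw [hα₀, List.length_take, hul]; omega
    have q1 : α₁.length = l₁ := by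
      rw [hα₁, List.length_take, List.length_drop, hul]; omega
    have q2 : α₂.length = l₂ := by
      rw [hα₂, List.length_drop, List.length_drop, hul]; omega
    have mem4 : ∀ (p q r : List G) (c : G), (∀ s ∈ p, s ∈ S) → (∀ s ∈ q, s ∈ S) → (∀ s ∈ r, s ∈ S) →
        c ∈ S → ∀ s ∈ p ++ q ++ rv r ++ [c], s ∈ S := by
      intro p q r c hp hq hr hc s hs
      rcases List.mem_append.1 hs with hs | hs
      · rcases List.mem_append.1 hs with hs | hs
        · rcases List.mem_append.1 hs with hs | hs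
          · exact hp s hs
          · exact hq s hs
        · exact rv_mem hS hr s hs
      · rw [List.mem_singleton] at hs
        rw [hs]; exact hc
    have h₁ : p₀.prod * α₀.prod = a * p₁.prod := by
      rw [hp₀', hp₁', s0]
      group
    have h₂ : p₁.prod * α₁.prod = b * p₂.prod := by
      rw [hp₁', hp₂', s1]
      group
    have h₃ : p₂.prod * α₂.prod = (a * b)⁻¹ * p₀.prod := by
      rw [hp₂', hp₀', s2]
      group
    refine ⟨p₀ ++ α₀ ++ rv p₁ ++ [a⁻¹], p₁ ++ α₁ ++ rv p₂ ++ [b⁻¹], p₂ ++ α₂ ++ rv p₀ ++ [a * b],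
      l₀, l₁, l₂, ⟨mem4 _ _ _ _ hp₀ t0 hp₁ (hS.inv a ha), ?_⟩, ⟨mem4 _ _ _ _ hp₁ t1 hp₂ (hS.inv b hb'), ?_⟩,
      ⟨mem4 _ _ _ _ hp₂ t2 hp₀ hab, ?_⟩, hl, m0, m1, m2, ?_, ?_, ?_, ?_⟩
    · rw [List.prod_append, List.prod_append, List.prod_append, h₁, rv_prod, List.prod_singleton]
      group
    · rw [List.prod_append, List.prod_append, List.prod_append, h₂, rv_prod, List.prod_singleton]
      group
    · rw [List.prod_append, List.prod_append, List.prod_append, h₃, rv_prod, List.prod_singleton]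
      group
    · rw [List.length_append, List.length_append, List.length_append, rv_length, hp₀l, hp₁l, q0,
        List.length_singleton]
      omega
    · rw [List.length_append, List.length_append, List.length_append, rv_length, hp₁l, hp₂l, q1,
        List.length_singleton]
      omega
    · rw [List.length_append, List.length_append, List.length_append, rv_length, hp₂l, hp₀l, q2,
        List.length_singleton]
      omega
    · intro A₁ A₂ A₃ hA₁ hA₂ hA₃
      have h := Ar.three hS ha hb' hab (by rw [huα]; exact huL) hp₀ hp₁ hp₂ h₁ h₂ hA₁ hA₂ hA₃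
      rw [huα, hp₀l, hp₁l, hp₂l] at h
      have h' := Ar.rot (u := w.take i) (v := w.drop i) (by rw [List.take_append_drop]; exact ⟨hwS, hw1⟩) h
      rw [List.take_append_drop] at h'
      refine h'.mono (le_of_eq ?_)
      push_cast
      ring
  · left
    push Not at hsimple
    obtain ⟨i, j, hi, hj, hprod, hij⟩ := hsimple
    rcases Nat.lt_or_gt_of_ne hij with h | h
    · exact hsplit i j h hj hprod
    · exact hsplit j i h hi hprod.symm

end Pool.Agent.LibDehn83
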