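import Mathlib

/-!
Two recursions.
-/

set_option autoImplicit false

namespace Pool.Agent.LibDehn83

open Filter Topology

/-- abstract loops: the length, the relation `the area is at most A`, subdivision of the loops of
length `s ≥ s₀` with the parameter `R s`. -/
structure Sub (α : Type) where
  /-- the length -/
  ℓ : α → ℕ
  /-- the area is at most -/
  ar : α → ℝ → Prop
  mono : ∀ w A B, ar w A → A ≤ B → ar w B
  base : ∀ s : ℕ, ∃ A : ℝ, ∀ w, ℓ w ≤ s → ar w (A * ℓ w)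
  /-- the radius -/
  R : ℕ → ℕ
  /-- the threshold -/
  s₀ : ℕ
  sub : ∀ w, s₀ ≤ ℓ w → (∃ w₁ w₂, 0 < ℓ w₁ ∧ 0 < ℓ w₂ ∧ ℓ w₁ + ℓ w₂ = ℓ w ∧
      ∀ A₁ A₂ : ℝ, ar w₁ A₁ → ar w₂ A₂ → ar w (A₁ + A₂)) ∨
    (∃ (w₁ w₂ w₃ : α) (l₁ l₂ l₃ : ℕ),
      l₁ + l₂ + l₃ = ℓ w ∧ 2 * l₁ ≤ ℓ w ∧ 2 * l₂ ≤ ℓ w ∧ 2 * l₃ ≤ ℓ w ∧
      ℓ w₁ ≤ l₁ + 2 * R (ℓ w) + 3 ∧ ℓ w₂ ≤ l₂ + 2 * R (ℓ w) + 3 ∧
      ℓ w₃ ≤ l₃ + 2 * R (ℓ w) + 3 ∧
      ∀ A₁ A₂ A₃ : ℝ, ar w₁ A₁ → ar w₂ A₂ → ar w₃ A₃ →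
        ar w (A₁ + A₂ + A₃ + (6 * R (ℓ w) + 11)))

/-! ### row N1 -/

theorem Sub.g_mono {a b : ℕ} (h : a ≤ b) : (a:ℝ) - √a / 2 ≤ b - √b / 2 := by
  rcases Nat.eq_or_lt_of_le h with rfl | h
  · exact le_rfl
  · have hb : (1:ℝ) ≤ b := by
      have : 1 ≤ b := by omega
      exact_mod_cast this
    have ha : (0:ℝ) ≤ a := Nat.cast_nonneg _
    have hab : (a:ℝ) ≤ b := by exact_mod_cast h.le
    have h1 : (1:ℝ) ≤ √b := by
      rw [Real.one_le_sqrt]; exact hb
    have h2 : √(a:ℝ) ≤ √b := Real.sqrt_le_sqrt hab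
    have h3 := Real.sq_sqrt ha
    have h4 := Real.sq_sqrt (by linarith : (0:ℝ) ≤ b)
    have h5 := Real.sqrt_nonneg (a:ℝ)
    have h6 : (b:ℝ) - a = (√b - √a) * (√b + √a) := by
      have e : (√(b:ℝ) - √(a:ℝ)) * (√b + √a) = √(b:ℝ) ^ 2 - √(a:ℝ) ^ 2 := by ring
      rw [e, h3, h4]
    have h7 : (√b - √(a:ℝ)) * 1 ≤ (√b - √a) * (√b + √a) :=
      mul_le_mul_of_nonneg_left (by linarith) (by linarith)
    linarith

theorem Sub.sqrt_two {l n : ℝ} (hl : 0 ≤ l) (h : 2 * l ≤ n) : 7 / 5 * l ≤ √l * √n := by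
  rw [← Real.sqrt_mul hl]
  apply Real.le_sqrt_of_sq_le
  nlinarith

/-- small radius: the area is linear. -/
theorem Sub.linear {α : Type} (P : Sub α)
    (hR : ∀ ε : ℝ, 0 < ε → ∀ᶠ s : ℕ in atTop, (P.R s : ℝ) ≤ ε * √s) :
    ∃ C : ℝ, ∀ w, P.ar w (C * P.ℓ w) := by
  obtain ⟨S1, hS1⟩ := eventually_atTop.1 (hR (1/100) (by norm_num))
  obtain ⟨A0, hA0⟩ := P.base (max P.s₀ (max S1 62500))
  set A : ℝ := 2 * |A0| + 1 with hA
  have hA00 : 0 ≤ |A0| := abs_nonneg _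
  have hA1 : 1 ≤ A := by linarith
  have key : ∀ n : ℕ, ∀ w, P.ℓ w = n → P.ar w (A * ((P.ℓ w : ℝ) - √(P.ℓ w) / 2)) := by
    intro n
    induction n using Nat.strong_induction_on with
    | _ n ih =>
      intro w hw
      by_cases hn : n ≤ max P.s₀ (max S1 62500)
      · apply P.mono w _ _ (hA0 w (by rw [hw]; exact hn))
        rw [hw]
        have h3 : (0:ℝ) ≤ n := Nat.cast_nonneg n
        have h1 : √(n : ℝ) ≤ n := by
          rcases Nat.eq_zero_or_pos n with rfl | hn1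
          · simp
          · have hn1' : (1:ℝ) ≤ n := by exact_mod_cast hn1
            rw [Real.sqrt_le_left h3]
            nlinarith
        have h2 : A0 ≤ |A0| := le_abs_self _
        calc A0 * (n:ℝ) ≤ |A0| * n := mul_le_mul_of_nonneg_right h2 h3
          _ ≤ A * ((n:ℝ) / 2) := by nlinarith
          _ ≤ A * ((n:ℝ) - √n / 2) := by
            apply mul_le_mul_of_nonneg_left _ (by linarith)
            linarith
      · rw [not_le] at hn
        have hn0 : P.s₀ ≤ n := (le_max_left _ _).trans hn.le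
        have hn1 : S1 ≤ n := ((le_max_left _ _).trans (le_max_right _ _)).trans hn.le
        have hn2 : 62500 ≤ n := ((le_max_right _ _).trans (le_max_right _ _)).trans hn.le
        have hRn := hS1 n hn1
        have hn60 : (62500:ℝ) ≤ n := by exact_mod_cast hn2
        have hsq : (250:ℝ) ≤ √n := by
          apply Real.le_sqrt_of_sq_le
          linarith
        have hss : √(n:ℝ) * √n = n := Real.mul_self_sqrt (by linarith)
        have hnn : 250 * √(n:ℝ) ≤ n := by nlinarith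
        have hR0 : (0:ℝ) ≤ (P.R n : ℝ) := Nat.cast_nonneg _
        rcases P.sub w (by rw [hw]; exact hn0) with ⟨w₁, w₂, h1, h2, h3, h4⟩ |
          ⟨w₁, w₂, w₃, l₁, l₂, l₃, hs, a1, a2, a3, b1, b2, b3, h4⟩
        · rw [hw] at h3
          have e1 := ih (P.ℓ w₁) (by omega) w₁ rfl
          have e2 := ih (P.ℓ w₂) (by omega) w₂ rfl
          apply P.mono w _ _ (h4 _ _ e1 e2)
          rw [hw]
          have hsR : (P.ℓ w₁ : ℝ) + P.ℓ w₂ = n := by exact_mod_cast h3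
          have q : √(n:ℝ) ≤ √(P.ℓ w₁ : ℝ) + √(P.ℓ w₂ : ℝ) := by
            rw [Real.sqrt_le_left (by positivity), ← hsR]
            have r1 := Real.sq_sqrt (Nat.cast_nonneg (α := ℝ) (P.ℓ w₁))
            have r2 := Real.sq_sqrt (Nat.cast_nonneg (α := ℝ) (P.ℓ w₂))
            have r3 : 0 ≤ √(P.ℓ w₁ : ℝ) * √(P.ℓ w₂ : ℝ) := by positivity
            nlinarith
          have q2 : A * ((P.ℓ w₁ : ℝ) - √(P.ℓ w₁ : ℝ) / 2) + A * ((P.ℓ w₂ : ℝ) - √(P.ℓ w₂ : ℝ) / 2) =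
              A * (n - (√(P.ℓ w₁ : ℝ) + √(P.ℓ w₂ : ℝ)) / 2) := by rw [← hsR]; ring
          rw [q2]
          apply mul_le_mul_of_nonneg_left _ (by linarith)
          linarith
        · rw [hw] at hs a1 a2 a3 b1 b2 b3 h4
          have hsR : (l₁:ℝ) + l₂ + l₃ = n := by exact_mod_cast hs
          have a1R : 2 * (l₁:ℝ) ≤ n := by exact_mod_cast a1
          have a2R : 2 * (l₂:ℝ) ≤ n := by exact_mod_cast a2
          have a3R : 2 * (l₃:ℝ) ≤ n := by exact_mod_cast a3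
          have b1R : (P.ℓ w₁ : ℝ) ≤ l₁ + 2 * P.R n + 3 := by exact_mod_cast b1
          have b2R : (P.ℓ w₂ : ℝ) ≤ l₂ + 2 * P.R n + 3 := by exact_mod_cast b2
          have b3R : (P.ℓ w₃ : ℝ) ≤ l₃ + 2 * P.R n + 3 := by exact_mod_cast b3
          have q1 : P.ℓ w₁ < n := by
            have : (P.ℓ w₁ : ℝ) < n := by linarith
            exact_mod_cast this
          have q2 : P.ℓ w₂ < n := by
            have : (P.ℓ w₂ : ℝ) < n := by linarith
            exact_mod_cast this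
          have q3 : P.ℓ w₃ < n := by
            have : (P.ℓ w₃ : ℝ) < n := by linarith
            exact_mod_cast this
          have e1 := ih _ q1 w₁ rfl
          have e2 := ih _ q2 w₂ rfl
          have e3 := ih _ q3 w₃ rfl
          apply P.mono w _ _ (h4 _ _ _ e1 e2 e3)
          rw [hw]
          have g : ∀ (x l : ℕ), x ≤ l + 2 * P.R n + 3 →
              (x:ℝ) - √x / 2 ≤ l + (2 * P.R n + 3) - √l / 2 := by
            intro x l hx
            have g1 := Sub.g_mono hx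
            have g2 : √(l:ℝ) ≤ √((l + 2 * P.R n + 3 : ℕ) : ℝ) := by
              apply Real.sqrt_le_sqrt
              push_cast
              linarith
            push_cast at g1 g2
            linarith
          have g1 := g _ _ b1
          have g2 := g _ _ b2
          have g3 := g _ _ b3
          have l1 : (0:ℝ) ≤ l₁ := Nat.cast_nonneg _
          have l2 : (0:ℝ) ≤ l₂ := Nat.cast_nonneg _
          have l3 : (0:ℝ) ≤ l₃ := Nat.cast_nonneg _
          have k1 := Sub.sqrt_two l1 a1R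
          have k2 := Sub.sqrt_two l2 a2R
          have k3 := Sub.sqrt_two l3 a3R
          have k : 7 / 5 * √(n:ℝ) ≤ √(l₁:ℝ) + √(l₂:ℝ) + √(l₃:ℝ) := by
            have k4 : 7 / 5 * √(n:ℝ) * √n ≤ (√(l₁:ℝ) + √(l₂:ℝ) + √(l₃:ℝ)) * √n := by
              rw [mul_assoc, hss, ← hsR]
              rw [hsR]
              nlinarith
            exact le_of_mul_le_mul_right k4 (by linarith)
          have t : ((P.ℓ w₁ : ℝ) - √(P.ℓ w₁ : ℝ) / 2) + ((P.ℓ w₂ : ℝ) - √(P.ℓ w₂ : ℝ) / 2) +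
              ((P.ℓ w₃ : ℝ) - √(P.ℓ w₃ : ℝ) / 2) ≤ n + 3 * (2 * P.R n + 3) - 7 / 10 * √n := by linarith
          have t2 : (n:ℝ) + 3 * (2 * P.R n + 3) - 7 / 10 * √n ≤ (n - √n / 2) - (6 * P.R n + 11) := by linarith
          have t3 : A * (((P.ℓ w₁ : ℝ) - √(P.ℓ w₁ : ℝ) / 2) + ((P.ℓ w₂ : ℝ) - √(P.ℓ w₂ : ℝ) / 2) +
              ((P.ℓ w₃ : ℝ) - √(P.ℓ w₃ : ℝ) / 2)) ≤ A * ((n - √n / 2) - (6 * P.R n + 11)) :=
            mul_le_mul_of_nonneg_left (t.trans t2) (by linarith)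
          have t4 : (6 * (P.R n : ℝ) + 11) ≤ A * (6 * P.R n + 11) :=
            le_mul_of_one_le_left (by positivity) hA1
          nlinarith
  refine ⟨A, fun w => P.mono w _ _ (key _ w rfl) ?_⟩
  apply mul_le_mul_of_nonneg_left _ (by linarith)
  have := Real.sqrt_nonneg (P.ℓ w : ℝ)
  linarith

/-! ### row N2 -/

/-- sublinear radius: the area is quadratic. -/
theorem Sub.quadratic {α : Type} (P : Sub α)
    (hR : ∀ ε : ℝ, 0 < ε → ∀ᶠ s : ℕ in atTop, (P.R s : ℝ) ≤ ε * s) :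
    ∃ C : ℝ, ∀ w, P.ar w (C * (P.ℓ w : ℝ) ^ 2) := by
  obtain ⟨S1, hS1⟩ := eventually_atTop.1 (hR (1/40) (by norm_num))
  obtain ⟨A0, hA0⟩ := P.base (max P.s₀ (max S1 60))
  set C : ℝ := |A0| + 4 with hC
  have hC0 : 0 ≤ |A0| := abs_nonneg _
  refine ⟨C, ?_⟩
  have key : ∀ n : ℕ, ∀ w, P.ℓ w = n → P.ar w (C * (P.ℓ w : ℝ) ^ 2) := by
    intro n
    induction n using Nat.strong_induction_on with
    | _ n ih =>
      intro w hw
      by_cases hn : n ≤ max P.s₀ (max S1 60)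
      · apply P.mono w _ _ (hA0 w (by rw [hw]; exact hn))
        rw [hw]
        have h1 : (n : ℝ) ≤ (n : ℝ) ^ 2 := by
          have : n ≤ n ^ 2 := Nat.le_self_pow (by norm_num) n
          exact_mod_cast this
        have h2 : A0 ≤ |A0| := le_abs_self _
        have h3 : (0:ℝ) ≤ n := Nat.cast_nonneg n
        calc A0 * (n:ℝ) ≤ |A0| * n := mul_le_mul_of_nonneg_right h2 h3
          _ ≤ |A0| * (n:ℝ) ^ 2 := mul_le_mul_of_nonneg_left h1 hC0
          _ ≤ C * (n:ℝ) ^ 2 := by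
            apply mul_le_mul_of_nonneg_right _ (by positivity)
            linarith
      · rw [not_le] at hn
        have hn0 : P.s₀ ≤ n := (le_max_left _ _).trans hn.le
        have hn1 : S1 ≤ n := ((le_max_left _ _).trans (le_max_right _ _)).trans hn.le
        have hn2 : 60 ≤ n := ((le_max_right _ _).trans (le_max_right _ _)).trans hn.le
        have hRn := hS1 n hn1
        have hn60 : (60:ℝ) ≤ n := by exact_mod_cast hn2
        have hR0 : (0:ℝ) ≤ (P.R n : ℝ) := Nat.cast_nonneg _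
        rcases P.sub w (by rw [hw]; exact hn0) with ⟨w₁, w₂, h1, h2, h3, h4⟩ |
          ⟨w₁, w₂, w₃, l₁, l₂, l₃, hs, a1, a2, a3, b1, b2, b3, h4⟩
        · rw [hw] at h3
          have e1 := ih (P.ℓ w₁) (by omega) w₁ rfl
          have e2 := ih (P.ℓ w₂) (by omega) w₂ rfl
          apply P.mono w _ _ (h4 _ _ e1 e2)
          rw [hw, ← h3]
          push_cast
          have p1 : (0:ℝ) ≤ (P.ℓ w₁ : ℝ) * (P.ℓ w₂ : ℝ) := by positivity
          have p2 : 0 ≤ C := by linarith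
          nlinarith [mul_nonneg p2 p1]
        · rw [hw] at hs a1 a2 a3 b1 b2 b3 h4
          have hsR : (l₁:ℝ) + l₂ + l₃ = n := by exact_mod_cast hs
          have a1R : 2 * (l₁:ℝ) ≤ n := by exact_mod_cast a1
          have a2R : 2 * (l₂:ℝ) ≤ n := by exact_mod_cast a2
          have a3R : 2 * (l₃:ℝ) ≤ n := by exact_mod_cast a3
          have b1R : (P.ℓ w₁ : ℝ) ≤ l₁ + 2 * P.R n + 3 := by exact_mod_cast b1
          have b2R : (P.ℓ w₂ : ℝ) ≤ l₂ + 2 * P.R n + 3 := by exact_mod_cast b2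
          have b3R : (P.ℓ w₃ : ℝ) ≤ l₃ + 2 * P.R n + 3 := by exact_mod_cast b3
          have hE : 2 * (P.R n : ℝ) + 3 ≤ n / 10 := by linarith
          have q1 : P.ℓ w₁ < n := by
            have : (P.ℓ w₁ : ℝ) < n := by linarith
            exact_mod_cast this
          have q2 : P.ℓ w₂ < n := by
            have : (P.ℓ w₂ : ℝ) < n := by linarith
            exact_mod_cast this
          have q3 : P.ℓ w₃ < n := by
            have : (P.ℓ w₃ : ℝ) < n := by linarith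
            exact_mod_cast this
          have e1 := ih _ q1 w₁ rfl
          have e2 := ih _ q2 w₂ rfl
          have e3 := ih _ q3 w₃ rfl
          apply P.mono w _ _ (h4 _ _ _ e1 e2 e3)
          rw [hw]
          have l1 : (0:ℝ) ≤ l₁ := Nat.cast_nonneg _
          have l2 : (0:ℝ) ≤ l₂ := Nat.cast_nonneg _
          have l3 : (0:ℝ) ≤ l₃ := Nat.cast_nonneg _
          have m1 : (0:ℝ) ≤ (P.ℓ w₁ : ℝ) := Nat.cast_nonneg _
          have m2 : (0:ℝ) ≤ (P.ℓ w₂ : ℝ) := Nat.cast_nonneg _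
          have m3 : (0:ℝ) ≤ (P.ℓ w₃ : ℝ) := Nat.cast_nonneg _
          have n0 : (0:ℝ) ≤ n := Nat.cast_nonneg _
          have s1 : (P.ℓ w₁ : ℝ) ^ 2 ≤ (l₁ + n / 10) ^ 2 := pow_le_pow_left₀ m1 (by linarith) 2
          have s2 : (P.ℓ w₂ : ℝ) ^ 2 ≤ (l₂ + n / 10) ^ 2 := pow_le_pow_left₀ m2 (by linarith) 2
          have s3 : (P.ℓ w₃ : ℝ) ^ 2 ≤ (l₃ + n / 10) ^ 2 := pow_le_pow_left₀ m3 (by linarith) 2
          have t1 : (l₁:ℝ) ^ 2 ≤ l₁ * (n / 2) := by
            rw [pow_two]; exact mul_le_mul_of_nonneg_left (by linarith) l1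
          have t2 : (l₂:ℝ) ^ 2 ≤ l₂ * (n / 2) := by
            rw [pow_two]; exact mul_le_mul_of_nonneg_left (by linarith) l2
          have t3 : (l₃:ℝ) ^ 2 ≤ l₃ * (n / 2) := by
            rw [pow_two]; exact mul_le_mul_of_nonneg_left (by linarith) l3
          have u : (l₁ + (n:ℝ) / 10) ^ 2 + (l₂ + (n:ℝ) / 10) ^ 2 + (l₃ + (n:ℝ) / 10) ^ 2 ≤ 73 / 100 * (n:ℝ) ^ 2 := by
            have v : (l₁ + (n:ℝ) / 10) ^ 2 + (l₂ + (n:ℝ) / 10) ^ 2 + (l₃ + (n:ℝ) / 10) ^ 2 =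
                (l₁:ℝ) ^ 2 + (l₂:ℝ) ^ 2 + (l₃:ℝ) ^ 2 + (l₁ + l₂ + l₃) * n / 5 + 3 / 100 * (n:ℝ) ^ 2 := by ring
            rw [v, hsR]
            have v2 : (l₁:ℝ) * (n / 2) + l₂ * (n / 2) + l₃ * (n / 2) = (n:ℝ) ^ 2 / 2 := by
              rw [← add_mul, ← add_mul, hsR]; ring
            nlinarith
          have w0 : (P.ℓ w₁ : ℝ) ^ 2 + (P.ℓ w₂ : ℝ) ^ 2 + (P.ℓ w₃ : ℝ) ^ 2 ≤ 73 / 100 * (n:ℝ) ^ 2 := by linarith
          have hCp : 0 ≤ C := by linarith
          have w1 := mul_le_mul_of_nonneg_left w0 hCp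
          have w2 : 6 * (P.R n : ℝ) + 11 ≤ n := by linarith
          have w3 : (n:ℝ) ≤ 27 / 100 * 4 * (n:ℝ) ^ 2 := by nlinarith
          have w4 : 27 / 100 * 4 * (n:ℝ) ^ 2 ≤ 27 / 100 * C * (n:ℝ) ^ 2 := by
            apply mul_le_mul_of_nonneg_right _ (by positivity)
            linarith
          nlinarith
  intro w
  exact key _ w rfl

/-! ### row N3 -/

/-- the recursion for the radius. -/
theorem radius (K B : ℕ) (L ρ : ℕ → ℕ) (hρ : Monotone ρ) (hL1 : ∀ s, 1 ≤ L s)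
    (hL : ∀ ε : ℝ, 0 < ε → ∀ᶠ s : ℕ in atTop, (L s : ℝ) ≤ ε * s)
    (h : ∀ s, ρ s ≤ max B (K * (L s + ρ (K * L s)))) :
    ∀ ε : ℝ, 0 < ε → ∀ᶠ s : ℕ in atTop, ((K * (L s + ρ (K * L s)) : ℕ) : ℝ) ≤ ε * s := by
  intro ε hε
  rcases Nat.eq_zero_or_pos K with hK0 | hK
  · refine Eventually.of_forall fun s => ?_
    rw [hK0, Nat.zero_mul, Nat.cast_zero]
    positivity
  have hKR : (1:ℝ) ≤ K := by exact_mod_cast hK
  have hK2 : (0:ℝ) < 1 / (4 * (K:ℝ) ^ 2) := by positivity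
  obtain ⟨s0, hs0⟩ := eventually_atTop.1 (hL _ hK2)
  set C1 : ℝ := max B (max 1 (ρ s0)) with hC1
  have c1 : (B:ℝ) ≤ C1 := le_max_left _ _
  have c2 : (1:ℝ) ≤ C1 := (le_max_left _ _).trans (le_max_right _ _)
  have c3 : (ρ s0:ℝ) ≤ C1 := (le_max_right _ _).trans (le_max_right _ _)
  have key : ∀ s : ℕ, 1 ≤ s → (ρ s : ℝ) ≤ C1 * s := by
    intro s
    induction s using Nat.strong_induction_on with
    | _ s ih =>
      intro hs
      have hsR : (1:ℝ) ≤ s := by exact_mod_cast hs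
      have hCs : C1 ≤ C1 * s := le_mul_of_one_le_right (by linarith) hsR
      by_cases hss : s < s0
      · have h1 : (ρ s : ℝ) ≤ ρ s0 := by exact_mod_cast hρ hss.le
        linarith
      · rw [not_lt] at hss
        have h1 := hs0 s hss
        have h2 : (K:ℝ) ^ 2 * L s ≤ s / 4 := by
          have h3 : (K:ℝ) ^ 2 * L s ≤ (K:ℝ) ^ 2 * (1 / (4 * (K:ℝ) ^ 2) * s) :=
            mul_le_mul_of_nonneg_left h1 (by positivity)
          have h4 : (K:ℝ) ^ 2 * (1 / (4 * (K:ℝ) ^ 2) * s) = s / 4 := by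
            have : (K:ℝ) ≠ 0 := by positivity
            field_simp
          linarith
        have h3 : (K:ℝ) * L s ≤ (K:ℝ) ^ 2 * L s := by
          apply mul_le_mul_of_nonneg_right _ (Nat.cast_nonneg _)
          nlinarith
        have h4 : K * L s < s := by
          have : ((K * L s : ℕ) : ℝ) < s := by push_cast; linarith
          exact_mod_cast this
        have h5 : 1 ≤ K * L s := Nat.mul_pos hK (hL1 s)
        have h6 := ih _ h4 h5
        have h7 : (ρ s : ℝ) ≤ max (B:ℝ) (K * (L s + ρ (K * L s))) := by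
          have := h s
          have h8 : ((max B (K * (L s + ρ (K * L s))) : ℕ) : ℝ) = max (B:ℝ) (K * (L s + ρ (K * L s))) := by
            push_cast; rfl
          rw [← h8]
          exact_mod_cast this
        refine h7.trans (max_le (by linarith) ?_)
        push_cast at h6
        have h9 : (K:ℝ) * (L s + ρ (K * L s)) ≤ K * L s + C1 * ((K:ℝ) ^ 2 * L s) := by
          have h10 : (K:ℝ) * ρ (K * L s) ≤ K * (C1 * (K * L s)) :=
            mul_le_mul_of_nonneg_left h6 (by positivity)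
          nlinarith
        have h11 : C1 * ((K:ℝ) ^ 2 * L s) ≤ C1 * (s / 4) := mul_le_mul_of_nonneg_left h2 (by linarith)
        nlinarith
  have hD : 0 < (K:ℝ) * (1 + C1 * K) := by positivity
  filter_upwards [hL (ε / ((K:ℝ) * (1 + C1 * K))) (by positivity)] with s hs
  have h5 : 1 ≤ K * L s := Nat.mul_pos hK (hL1 s)
  have h6 := key _ h5
  push_cast at h6 ⊢
  have h7 : (K:ℝ) * (L s + ρ (K * L s)) ≤ (K:ℝ) * (1 + C1 * K) * L s := by
    have h10 : (K:ℝ) * ρ (K * L s) ≤ K * (C1 * (K * L s)) :=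
      mul_le_mul_of_nonneg_left h6 (by positivity)
    nlinarith
  have h8 : (K:ℝ) * (1 + C1 * K) * L s ≤ (K:ℝ) * (1 + C1 * K) * (ε / ((K:ℝ) * (1 + C1 * K)) * s) :=
    mul_le_mul_of_nonneg_left hs hD.le
  have h9 : (K:ℝ) * (1 + C1 * K) * (ε / ((K:ℝ) * (1 + C1 * K)) * s) = ε * s := by
    rw [← mul_assoc, mul_div_cancel₀ _ hD.ne']
  linarith

/-- the scale functions. -/
theorem scale (L : ℕ → ℕ) (hL1 : ∀ s, 1 ≤ L s) (hLm : Monotone L) (hLt : Tendsto L atTop atTop)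
    (hL : ∀ ε : ℝ, 0 < ε → ∀ᶠ s : ℕ in atTop, (L s : ℝ) ≤ ε * s) :
    ∃ Om : ℕ → ℕ, Monotone Om ∧ (∀ s, L s ≤ Om s) ∧ (∀ C : ℕ, ∀ᶠ s in atTop, C * L s ≤ Om s) ∧
      ∀ K : ℕ, ∀ᶠ s in atTop, Om (K * L s) ≤ L s := by
  refine ⟨fun s => Nat.sqrt (s * L s) + L s, ?_, ?_, ?_, ?_⟩
  · intro s t hst
    exact Nat.add_le_add (Nat.sqrt_le_sqrt (Nat.mul_le_mul hst (hLm hst))) (hLm hst)
  · intro s
    exact Nat.le_add_left _ _
  · intro C
    have hC : (0:ℝ) < 1 / ((C:ℝ) ^ 2 + 1) := by positivity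
    filter_upwards [hL _ hC] with s hs
    have h1 : C * C * L s ≤ s := by
      have h2 : ((C:ℝ) ^ 2 + 1) * L s ≤ s := by
        have h3 := mul_le_mul_of_nonneg_left hs (by positivity : (0:ℝ) ≤ (C:ℝ) ^ 2 + 1)
        have h4 : ((C:ℝ) ^ 2 + 1) * (1 / ((C:ℝ) ^ 2 + 1) * s) = s := by
          have : (C:ℝ) ^ 2 + 1 ≠ 0 := by positivity
          field_simp
        linarith
      have h5 : ((C * C * L s : ℕ) : ℝ) ≤ s := by
        push_cast
        have : (0:ℝ) ≤ L s := Nat.cast_nonneg _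
        nlinarith
      exact_mod_cast h5
    have h6 : C * L s ≤ Nat.sqrt (s * L s) := by
      rw [Nat.le_sqrt]
      calc C * L s * (C * L s) = (C * C * L s) * L s := by ring
        _ ≤ s * L s := Nat.mul_le_mul_right _ h1
    exact h6.trans (Nat.le_add_right _ _)
  · intro K
    rcases Nat.eq_zero_or_pos K with hK0 | hK
    · refine Eventually.of_forall fun s => ?_
      rw [hK0]
      simp only [Nat.zero_mul, Nat.sqrt_zero, Nat.zero_add]
      exact hLm (Nat.zero_le s)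
    · have hKR : (1:ℝ) ≤ K := by exact_mod_cast hK
      have hK2 : (0:ℝ) < 1 / (4 * (K:ℝ) ^ 2) := by positivity
      have ht : Tendsto (fun s => K * L s) atTop atTop :=
        tendsto_atTop_mono (fun s => Nat.le_mul_of_pos_left _ hK) hLt
      filter_upwards [ht.eventually (hL _ hK2)] with s hs
      have h1 : 4 * K ^ 2 * L (K * L s) ≤ K * L s := by
        have h3 := mul_le_mul_of_nonneg_left hs (by positivity : (0:ℝ) ≤ 4 * (K:ℝ) ^ 2)
        have h4 : 4 * (K:ℝ) ^ 2 * (1 / (4 * (K:ℝ) ^ 2) * ((K * L s : ℕ) : ℝ)) = ((K * L s : ℕ) : ℝ) := by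
          have : (K:ℝ) ≠ 0 := by positivity
          field_simp
        rw [h4] at h3
        exact_mod_cast h3
      generalize hm : K * L s = m at h1
      have h5 : 2 * K * Nat.sqrt (m * L m) ≤ m := by
        have h6 : Nat.sqrt (m * L m) * Nat.sqrt (m * L m) ≤ m * L m := Nat.sqrt_le _
        have h7 : (2 * K * Nat.sqrt (m * L m)) * (2 * K * Nat.sqrt (m * L m)) ≤ m * m := by
          calc (2 * K * Nat.sqrt (m * L m)) * (2 * K * Nat.sqrt (m * L m))
              = 4 * K ^ 2 * (Nat.sqrt (m * L m) * Nat.sqrt (m * L m)) := by ring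
            _ ≤ 4 * K ^ 2 * (m * L m) := Nat.mul_le_mul_left _ h6
            _ = m * (4 * K ^ 2 * L m) := by ring
            _ ≤ m * m := Nat.mul_le_mul_left _ h1
        exact Nat.mul_self_le_mul_self_iff.1 h7
      have h8 : 2 * K * L m ≤ m := by
        have h9 : 2 * K ≤ 4 * K ^ 2 := by nlinarith
        exact (Nat.mul_le_mul_right _ h9).trans h1
      have h10 : K * (Nat.sqrt (m * L m) + L m) ≤ K * L s := by
        rw [hm]
        have : 2 * (K * (Nat.sqrt (m * L m) + L m)) = 2 * K * Nat.sqrt (m * L m) + 2 * K * L m := by ring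
        omega
      exact Nat.le_of_mul_le_mul_left h10 hK

end Pool.Agent.LibDehn83
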