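import Pool.Agent.LibDehn83.Star
import Pool.Agent.LibDehn83.Loops
import Pool.Agent.LibDehn83.Rec

/-!
Subexponential Dehn functions of four dimensional duality groups.
-/

set_option autoImplicit false

namespace Pool.Agent.LibDehn83

open Pool.Agent.LibZIS Pool.Agent.LibCod83 Pool.Agent.LibQF83 Filter Topology
open scoped Pointwise

universe v

variable {G : Type} [Group G] [DecidableEq G]

/-! ### row T1 -/

/-- uniform area for loops of bounded length. -/
lemma exists_area {S : Finset G} (hS : Sys S) (s : ℕ) :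
    ∃ A : ℝ, 0 ≤ A ∧ ∀ w, Loop S w → w.length ≤ s → Ar S w (A * w.length) := by
  classical
  have hfin := finite_words S s
  choose! T hT using hS.fill
  refine ⟨∑ w ∈ hfin.toFinset, (mass (T w) : ℝ),
    Finset.sum_nonneg fun w _ => Nat.cast_nonneg _, ?_⟩
  intro w hw hl
  rcases Nat.eq_zero_or_pos w.length with h0 | hpos
  · have hnil : w = [] := List.length_eq_zero_iff.1 h0
    subst hnil
    exact ⟨0, by intro p hp; simp at hp, by simp [chn_nil], by simp [mass]⟩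
  · refine ⟨T w, (hT w hw).1, (hT w hw).2, ?_⟩
    have h1 : (mass (T w) : ℝ) ≤ ∑ w ∈ hfin.toFinset, (mass (T w) : ℝ) :=
      Finset.single_le_sum (f := fun w => (mass (T w) : ℝ)) (fun w _ => Nat.cast_nonneg _)
        (hfin.mem_toFinset.2 ⟨hw.1, hl⟩)
    have h2 : (1 : ℝ) ≤ w.length := by exact_mod_cast hpos
    have h3 : (0 : ℝ) ≤ (mass (T w) : ℝ) := Nat.cast_nonneg _
    calc (mass (T w) : ℝ) ≤ ∑ w ∈ hfin.toFinset, (mass (T w) : ℝ) := h1
      _ = (∑ w ∈ hfin.toFinset, (mass (T w) : ℝ)) * 1 := (mul_one _).symm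
      _ ≤ _ := mul_le_mul_of_nonneg_left h2 (h3.trans h1)

/-- the subdivision of the loops which have fillings of radius at most `R`. -/
theorem exists_sub {S : Finset G} (hS : Sys S) (R : ℕ → ℕ) (s₁ : ℕ)
    (h : ∀ w, Loop S w → s₁ ≤ w.length → ∃ A : ℝ, Fil S w A (R w.length)) :
    ∃ P : Sub {w : List G // Loop S w}, (∀ w, P.ℓ w = w.1.length) ∧
      (∀ w A, P.ar w A ↔ Ar S w.1 A) ∧ P.R = R := by
  refine ⟨{ ℓ := fun w => w.1.length, ar := fun w A => Ar S w.1 A,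
            mono := fun w A B hA hAB => Ar.mono hA hAB, base := ?_, R := R, s₀ := max s₁ 3,
            sub := ?_ }, fun w => rfl, fun w A => Iff.rfl, rfl⟩
  · intro s
    obtain ⟨A, -, hA⟩ := exists_area hS s
    exact ⟨A, fun w hw => hA w.1 w.2 hw⟩
  · intro w hw
    obtain ⟨A, hA⟩ := h w.1 w.2 (le_trans (le_max_left _ _) hw)
    rcases subdiv hS w.1 w.2 (le_trans (le_max_right _ _) hw) A _ hA with
      ⟨w₁, w₂, h₁, h₂, hp₁, hp₂, hl, har⟩ |
      ⟨w₁, w₂, w₃, l₁, l₂, l₃, h₁, h₂, h₃, hl, k₁, k₂, k₃, b₁, b₂, b₃, har⟩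
    · exact Or.inl ⟨⟨w₁, h₁⟩, ⟨w₂, h₂⟩, hp₁, hp₂, hl, har⟩
    · exact Or.inr ⟨⟨w₁, h₁⟩, ⟨w₂, h₂⟩, ⟨w₃, h₃⟩, l₁, l₂, l₃, hl, k₁, k₂, k₃, b₁, b₂, b₃, har⟩

/-! ### row T2 -/

lemma tendsto_of_exp {L : ℕ → ℕ} (h : ∀ s : ℕ, (s : ℝ) + 2 ≤ Real.exp (L s)) :
    Tendsto L atTop atTop := by
  rw [tendsto_atTop]
  intro b
  filter_upwards [eventually_ge_atTop ⌈Real.exp b⌉₊] with s hs
  have h1 : Real.exp b ≤ s := (Nat.le_ceil _).trans (by exact_mod_cast hs)
  have h2 : Real.exp b < Real.exp (L s) := lt_of_lt_of_le (by linarith) (h s)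
  have h3 := Real.exp_lt_exp.1 h2
  exact_mod_cast h3.le

/-- the logarithmic size of the area. -/
theorem exists_log {S : Finset G} (hS : Sys S)
    (hsub : ∀ ε : ℝ, 0 < ε → ∃ A : ℝ, ∀ w, Loop S w → Ar S w (A * Real.exp (ε * w.length))) :
    ∃ L : ℕ → ℕ, Monotone L ∧ (∀ s, 1 ≤ L s) ∧ Tendsto L atTop atTop ∧
      (∀ s : ℕ, (s : ℝ) + 2 ≤ Real.exp (L s)) ∧
      (∀ ε : ℝ, 0 < ε → ∀ᶠ s : ℕ in atTop, (L s : ℝ) ≤ ε * s) ∧
      ∀ w, Loop S w → Ar S w (Real.exp (L w.length)) := by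
  classical
  let P : ℕ → ℕ → Prop := fun s l => 1 ≤ l ∧ (s : ℝ) + 2 ≤ Real.exp l ∧
    ∀ w, Loop S w → w.length ≤ s → Ar S w (Real.exp l)
  have hadm : ∀ ε : ℝ, 0 < ε → ∃ A : ℝ, ∀ s l : ℕ,
      ε * s + A + Real.log (s + 2) + 1 ≤ l → P s l := by
    intro ε hε
    obtain ⟨A, hA⟩ := hsub ε hε
    have hA1 : (1 : ℝ) ≤ max A 1 := le_max_right _ _
    have hA0 : (0 : ℝ) < max A 1 := lt_of_lt_of_le one_pos hA1
    have hlA : 0 ≤ Real.log (max A 1) := Real.log_nonneg hA1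
    refine ⟨Real.log (max A 1), fun s l hl => ?_⟩
    have hs0 : (0 : ℝ) ≤ s := Nat.cast_nonneg _
    have hls : 0 ≤ Real.log ((s : ℝ) + 2) := Real.log_nonneg (by linarith)
    have hes : 0 ≤ ε * s := mul_nonneg hε.le hs0
    refine ⟨?_, ?_, ?_⟩
    · have : (1 : ℝ) ≤ l := by linarith
      exact_mod_cast this
    · calc (s : ℝ) + 2 = Real.exp (Real.log ((s : ℝ) + 2)) := (Real.exp_log (by linarith)).symm
        _ ≤ _ := Real.exp_le_exp.2 (by linarith)
    · intro w hw hws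
      refine Ar.mono (hA w hw) ?_
      have hw1 : (w.length : ℝ) ≤ s := by exact_mod_cast hws
      calc A * Real.exp (ε * w.length) ≤ max A 1 * Real.exp (ε * s) :=
            mul_le_mul (le_max_left _ _)
              (Real.exp_le_exp.2 (mul_le_mul_of_nonneg_left hw1 hε.le))
              (Real.exp_pos _).le hA0.le
        _ = Real.exp (Real.log (max A 1) + ε * s) := by
            rw [Real.exp_add, Real.exp_log hA0]
        _ ≤ _ := Real.exp_le_exp.2 (by linarith)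
  have hex : ∀ s, ∃ l, P s l := by
    intro s
    obtain ⟨A, hA⟩ := hadm 1 one_pos
    exact ⟨_, hA s _ (Nat.le_ceil _)⟩
  have hL1 : ∀ s, 1 ≤ Nat.find (hex s) := fun s => (Nat.find_spec (hex s)).1
  have hLe : ∀ s : ℕ, (s : ℝ) + 2 ≤ Real.exp (Nat.find (hex s)) :=
    fun s => (Nat.find_spec (hex s)).2.1
  refine ⟨fun s => Nat.find (hex s), ?_, hL1, tendsto_of_exp hLe, hLe, ?_, ?_⟩
  · intro s s' hss
    have h := Nat.find_spec (hex s')
    have hc : (s : ℝ) ≤ s' := by exact_mod_cast hss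
    exact Nat.find_min' (hex s) ⟨h.1, by linarith [h.2.1], fun w hw hl => h.2.2 w hw (hl.trans hss)⟩
  · intro ε hε
    obtain ⟨A, hA⟩ := hadm (ε / 2) (by positivity)
    have hlog : ∀ᶠ s : ℕ in atTop, Real.log ((s : ℝ) + 2) ≤ ε / 8 * (s + 2) := by
      have h1 : Tendsto (fun s : ℕ => (s : ℝ) + 2) atTop atTop :=
        tendsto_atTop_add_const_right _ _ tendsto_natCast_atTop_atTop
      have h2 := (Real.isLittleO_log_id_atTop.comp_tendsto h1).def (show (0 : ℝ) < ε / 8 by positivity)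
      filter_upwards [h2] with s hs
      have hs0 : (0 : ℝ) ≤ s := Nat.cast_nonneg _
      simp only [Function.comp, id, Real.norm_eq_abs] at hs
      rw [abs_of_nonneg (show (0 : ℝ) ≤ (s : ℝ) + 2 by linarith)] at hs
      exact (le_abs_self _).trans hs
    have hbig : ∀ᶠ s : ℕ in atTop, (|A| + ε + 2) / (ε / 8) ≤ (s : ℝ) :=
      tendsto_natCast_atTop_atTop.eventually_ge_atTop _
    filter_upwards [hlog, hbig] with s h1 h2
    rw [div_le_iff₀ (by positivity)] at h2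
    have hs0 : (0 : ℝ) ≤ s := Nat.cast_nonneg _
    have hAa := le_abs_self A
    have hx0 : 0 ≤ ε / 2 * s := by positivity
    have hls : 0 ≤ Real.log ((s : ℝ) + 2) := Real.log_nonneg (by linarith)
    set x : ℝ := ε / 2 * s + |A| + Real.log ((s : ℝ) + 2) + 1 with hx
    have hxn : 0 ≤ x := by have := abs_nonneg A; positivity
    have h3 : Nat.find (hex s) ≤ ⌈x⌉₊ := by
      refine Nat.find_min' (hex s) (hA s _ ?_)
      refine le_trans ?_ (Nat.le_ceil x)
      rw [hx]; linarith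
    have h4 : (Nat.find (hex s) : ℝ) ≤ x + 1 := by
      have h5 : ((⌈x⌉₊ : ℕ) : ℝ) < x + 1 := Nat.ceil_lt_add_one hxn
      have h6 : (Nat.find (hex s) : ℝ) ≤ (⌈x⌉₊ : ℝ) := by exact_mod_cast h3
      linarith
    refine h4.trans ?_
    rw [hx]
    nlinarith
  · intro w hw
    exact (Nat.find_spec (hex w.length)).2.2 w hw le_rfl

/-! ### row T3 -/

/-- subexponential implies quadratic. -/
theorem quadratic {S : Finset G} (hS : Sys S) (hV : ThmV S)
    (hd : ∀ c : Dt G, ¬ Nontrivial (groupCohomology (RM c) 2) →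
      ¬ Nontrivial (groupHomology (RM c) 2))
    (hsub : ∀ ε : ℝ, 0 < ε → ∃ A : ℝ, ∀ w, Loop S w → Ar S w (A * Real.exp (ε * w.length))) :
    ∃ C : ℝ, ∀ w, Loop S w → Ar S w (C * (w.length : ℝ) ^ 2) := by
  classical
  obtain ⟨L, hLm, hL1, hLt, hlog, hL, har⟩ := exists_log hS hsub
  obtain ⟨Om, hOmm, hOm1, hOm, hOmK⟩ := scale L hL1 hLm hLt hL
  obtain ⟨K, hK⟩ := star hS hV hd L Om hL1 hLt hlog har hOm1 hOm
  have hex : ∀ s : ℕ, ∃ ρ : ℕ, ∀ w, Loop S w → w.length ≤ s →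
      Fil S w (Real.exp (Om w.length)) ρ := by
    intro s
    have hfin := finite_words S s
    have h1 : ∀ w, Loop S w → ∃ N : ℕ, ∀ ρ, N ≤ ρ → Fil S w (Real.exp (Om w.length)) ρ := by
      intro w hw
      refine exists_fil hS w hw _ (Ar.mono (har w hw) (Real.exp_le_exp.2 ?_))
      exact_mod_cast hOm1 w.length
    choose! N hN using h1
    refine ⟨hfin.toFinset.sup N, fun w hw hl => hN w hw _ ?_⟩
    exact Finset.le_sup (f := N) (hfin.mem_toFinset.2 ⟨hw.1, hl⟩)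
  let ρ : ℕ → ℕ := fun s => Nat.find (hex s)
  have hρ : ∀ s w, Loop S w → w.length ≤ s → Fil S w (Real.exp (Om w.length)) (ρ s) :=
    fun s => Nat.find_spec (hex s)
  have hρm : Monotone ρ := by
    intro s s' hss
    exact Nat.find_min' (hex s) fun w hw hl => hρ s' w hw (hl.trans hss)
  obtain ⟨s₁, hs₁⟩ := eventually_atTop.1 (hOmK K)
  have hmain : ∀ w, Loop S w → s₁ ≤ w.length →
      Fil S w (Real.exp (Om w.length)) (K * (L w.length + ρ (K * L w.length))) := by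
    intro w hw hl
    refine hK w hw _ fun w' hw' hl' => ?_
    refine Fil.mono hS (hρ _ w' hw' hl') (Real.exp_le_exp.2 ?_) le_rfl
    exact_mod_cast (hOmm hl').trans (hs₁ _ hl)
  have hrec : ∀ s, ρ s ≤ max (ρ s₁) (K * (L s + ρ (K * L s))) := by
    intro s
    refine Nat.find_min' (hex s) fun w hw hl => ?_
    rcases le_total w.length s₁ with h | h
    · exact Fil.mono hS (hρ s₁ w hw h) le_rfl (le_max_left _ _)
    · refine Fil.mono hS (hmain w hw h) le_rfl (le_trans ?_ (le_max_right _ _))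
      exact Nat.mul_le_mul le_rfl (add_le_add (hLm hl) (hρm (Nat.mul_le_mul le_rfl (hLm hl))))
  have hrad := radius K (ρ s₁) L ρ hρm hL1 hL hrec
  obtain ⟨P, hPl, hPa, hPR⟩ := exists_sub hS (fun s => K * (L s + ρ (K * L s))) s₁
    fun w hw hl => ⟨_, hmain w hw hl⟩
  obtain ⟨C, hC⟩ := P.quadratic (by rw [hPR]; exact hrad)
  refine ⟨C, fun w hw => ?_⟩
  have := (hPa ⟨w, hw⟩ _).1 (hC ⟨w, hw⟩)
  rwa [hPl] at this

/-! ### row T4 -/

/-- quadratic implies linear. -/
theorem linear {S : Finset G} (hS : Sys S) (hV : ThmV S)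
    (hd : ∀ c : Dt G, ¬ Nontrivial (groupCohomology (RM c) 2) →
      ¬ Nontrivial (groupHomology (RM c) 2))
    (hq : ∃ C : ℝ, ∀ w, Loop S w → Ar S w (C * (w.length : ℝ) ^ 2)) :
    ∃ C : ℝ, ∀ w, Loop S w → Ar S w (C * w.length) := by
  classical
  obtain ⟨C₀, hC₀⟩ := hq
  set C : ℕ := ⌈C₀⌉₊ with hCdef
  have hC : ∀ w, Loop S w → Ar S w ((C * w.length ^ 2 : ℕ) : ℝ) := by
    intro w hw
    refine Ar.mono (hC₀ w hw) ?_
    push_cast
    exact mul_le_mul_of_nonneg_right (Nat.le_ceil _) (by positivity)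
  let L : ℕ → ℕ := fun s => (C + 2) * (Nat.log 2 (s + 2) + 1)
  have hL1 : ∀ s, 1 ≤ L s := fun s => Nat.mul_pos (by omega) (by omega)
  have hexp : ∀ s : ℕ, ((s : ℝ) + 2) ^ (C + 2) ≤ Real.exp (L s) := by
    intro s
    have h1 : s + 2 < 2 ^ (Nat.log 2 (s + 2) + 1) := Nat.lt_pow_succ_log_self (by norm_num) _
    have h2 : ((s : ℝ) + 2) ≤ 2 ^ (Nat.log 2 (s + 2) + 1) := by exact_mod_cast h1.le
    have h3 : (2 : ℝ) ≤ Real.exp 1 := by
      have := Real.add_one_le_exp (1 : ℝ); linarith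
    calc ((s : ℝ) + 2) ^ (C + 2) ≤ ((2 : ℝ) ^ (Nat.log 2 (s + 2) + 1)) ^ (C + 2) :=
          pow_le_pow_left₀ (by positivity) h2 _
      _ ≤ ((Real.exp 1) ^ (Nat.log 2 (s + 2) + 1)) ^ (C + 2) :=
          pow_le_pow_left₀ (by positivity) (pow_le_pow_left₀ (by positivity) h3 _) _
      _ = Real.exp (L s) := by
          rw [← pow_mul, ← Real.exp_nat_mul, mul_one]
          congr 2
          exact mul_comm _ _
  have hlog : ∀ s : ℕ, (s : ℝ) + 2 ≤ Real.exp (L s) := by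
    intro s
    refine le_trans ?_ (hexp s)
    have h1 : (1 : ℝ) ≤ (s : ℝ) + 2 := by
      have : (0 : ℝ) ≤ s := Nat.cast_nonneg _
      linarith
    exact le_self_pow₀ h1 (by omega)
  have hLt : Tendsto L atTop atTop := tendsto_of_exp hlog
  have har : ∀ w, Loop S w → Ar S w (Real.exp (L w.length)) := by
    intro w hw
    refine Ar.mono (hC w hw) (le_trans ?_ (hexp w.length))
    push_cast
    have h0 : (0 : ℝ) ≤ w.length := Nat.cast_nonneg _
    have h1 : (C : ℝ) ≤ ((w.length : ℝ) + 2) ^ C := by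
      have h2 : (C : ℝ) ≤ 2 ^ C := by exact_mod_cast Nat.lt_two_pow_self.le
      exact h2.trans (pow_le_pow_left₀ (by norm_num) (by linarith) _)
    rw [pow_add]
    exact mul_le_mul h1 (pow_le_pow_left₀ h0 (by linarith) _) (by positivity) (by positivity)
  obtain ⟨K, hK⟩ := star hS hV hd L (fun s => L s ^ 2) hL1 hLt hlog har
    (fun s => by nlinarith [hL1 s]) (fun c => by
      filter_upwards [hLt.eventually_ge_atTop c] with s hs
      rw [pow_two]
      exact Nat.mul_le_mul hs le_rfl)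
  have hpoly : ∀ᶠ s : ℕ in atTop,
      ((C * (K * L s) ^ 2 : ℕ) : ℝ) ≤ Real.exp (L s) := by
    have h1 : ∀ᶠ x : ℝ in atTop, ((C : ℝ) * K ^ 2) * x ^ 2 ≤ Real.exp x := by
      have h2 := (Real.isLittleO_pow_exp_atTop (n := 2)).def
        (show (0 : ℝ) < 1 / ((C : ℝ) * K ^ 2 + 1) by positivity)
      filter_upwards [h2] with x hx
      rw [Real.norm_of_nonneg (by positivity), Real.norm_of_nonneg (Real.exp_pos _).le,
        one_div, ← div_eq_inv_mul, le_div_iff₀ (by positivity)] at hx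
      nlinarith [sq_nonneg x]
    have h3 := (tendsto_natCast_atTop_atTop (R := ℝ)).comp hLt
    filter_upwards [h3.eventually h1] with s hs
    simp only [Function.comp] at hs
    push_cast
    calc (C : ℝ) * (K * L s) ^ 2 = ((C : ℝ) * K ^ 2) * (L s : ℝ) ^ 2 := by ring
      _ ≤ _ := hs
  obtain ⟨s₁, hs₁⟩ := eventually_atTop.1 hpoly
  have hmain : ∀ w, Loop S w → s₁ ≤ w.length →
      Fil S w (Real.exp ((L w.length ^ 2 : ℕ) : ℝ))
        (K * (L w.length + (3 * (C * (K * L w.length) ^ 2) + 3))) := by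
    intro w hw hl
    refine hK w hw _ fun w' hw' hl' => ?_
    have h1 : Ar S w' ((C * (K * L w.length) ^ 2 : ℕ) : ℝ) := by
      refine Ar.mono (hC w' hw') ?_
      have : C * w'.length ^ 2 ≤ C * (K * L w.length) ^ 2 :=
        Nat.mul_le_mul le_rfl (Nat.pow_le_pow_left hl' 2)
      exact_mod_cast this
    exact Fil.mono hS (fil_of_ar hS w' hw' _ h1) (hs₁ _ hl) le_rfl
  obtain ⟨P, hPl, hPa, hPR⟩ := exists_sub hS
    (fun s => K * (L s + (3 * (C * (K * L s) ^ 2) + 3))) s₁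
    fun w hw hl => ⟨_, hmain w hw hl⟩
  have hrad : ∀ ε : ℝ, 0 < ε → ∀ᶠ s : ℕ in atTop,
      ((K * (L s + (3 * (C * (K * L s) ^ 2) + 3)) : ℕ) : ℝ) ≤ ε * √s := by
    intro ε hε
    -- the constant
    set M : ℝ := (K : ℝ) * (4 + 3 * C * K ^ 2) * (16 * (C + 2) ^ 2) + 1 with hM
    have hM0 : 0 < M := by positivity
    have h1 := (Real.isLittleO_pow_log_id_atTop (n := 4)).def
      (show (0 : ℝ) < (ε / (2 * M)) ^ 2 by positivity)
    have h2 : Tendsto (fun s : ℕ => (s : ℝ) + 2) atTop atTop :=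
      tendsto_atTop_add_const_right _ _ tendsto_natCast_atTop_atTop
    filter_upwards [h2.eventually h1, eventually_ge_atTop 1] with s hs hs1
    have hs1' : (1 : ℝ) ≤ s := by exact_mod_cast hs1
    set x : ℝ := (s : ℝ) + 2 with hx
    have hx3 : 3 ≤ x := by linarith
    have hlx : 1 / 2 ≤ Real.log x := by
      have : Real.log 2 ≤ Real.log x := Real.log_le_log (by norm_num) (by linarith)
      linarith [Real.log_two_gt_d9]
    simp only [id, Real.norm_eq_abs] at hs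
    rw [abs_of_nonneg (by positivity), abs_of_nonneg (by linarith)] at hs
    have h3 : (Real.log x) ^ 2 ≤ ε / (2 * M) * √x := by
      refine abs_le_of_sq_le_sq' ?_ (by positivity) |>.2
      rw [mul_pow, Real.sq_sqrt (by linarith)]
      calc (Real.log x ^ 2) ^ 2 = Real.log x ^ 4 := by ring
        _ ≤ _ := hs
    have h4 : √x ≤ 2 * √(s : ℝ) := by
      rw [show (2 : ℝ) * √(s : ℝ) = √(4 * s) by
        rw [Real.sqrt_mul (by norm_num), show (4 : ℝ) = 2 ^ 2 by norm_num,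
          Real.sqrt_sq (by norm_num)]]
      exact Real.sqrt_le_sqrt (by rw [hx]; linarith)
    have h5 : (L s : ℝ) ≤ 4 * (C + 2) * Real.log x := by
      have h6 : (Nat.log 2 (s + 2) : ℝ) ≤ Real.log x / Real.log 2 := by
        have := Real.natLog_le_logb (s + 2) 2
        rw [Real.logb] at this
        push_cast at this
        exact this
      have h7 : Real.log x / Real.log 2 ≤ 2 * Real.log x := by
        rw [div_le_iff₀ (Real.log_pos (by norm_num))]
        nlinarith [Real.log_two_gt_d9]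
      have h8 : (L s : ℝ) = (C + 2) * (Nat.log 2 (s + 2) + 1) := by
        simp only [L]; push_cast; ring
      rw [h8]
      have h9 : (Nat.log 2 (s + 2) : ℝ) + 1 ≤ 4 * Real.log x := by linarith
      calc ((C : ℝ) + 2) * (Nat.log 2 (s + 2) + 1) ≤ (C + 2) * (4 * Real.log x) :=
            mul_le_mul_of_nonneg_left h9 (by positivity)
        _ = _ := by ring
    have hL1' : (1 : ℝ) ≤ L s := by exact_mod_cast hL1 s
    have h10 : (L s : ℝ) ^ 2 ≤ 16 * (C + 2) ^ 2 * (Real.log x) ^ 2 := by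
      calc (L s : ℝ) ^ 2 ≤ (4 * (C + 2) * Real.log x) ^ 2 :=
            pow_le_pow_left₀ (by linarith) h5 2
        _ = _ := by ring
    push_cast
    calc (K : ℝ) * ((L s : ℝ) + (3 * (C * (K * L s) ^ 2) + 3))
        ≤ K * ((4 + 3 * C * K ^ 2) * (L s : ℝ) ^ 2) := by
          refine mul_le_mul_of_nonneg_left ?_ (by positivity)
          nlinarith
      _ ≤ K * ((4 + 3 * C * K ^ 2) * (16 * (C + 2) ^ 2 * (Real.log x) ^ 2)) := by
          gcongr
      _ ≤ M * (Real.log x) ^ 2 := by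
          rw [hM]
          nlinarith [sq_nonneg (Real.log x)]
      _ ≤ M * (ε / (2 * M) * √x) := by gcongr
      _ ≤ M * (ε / (2 * M) * (2 * √(s : ℝ))) := by gcongr
      _ = ε * √(s : ℝ) := by field_simp
  obtain ⟨D, hD⟩ := P.linear (by rw [hPR]; exact hrad)
  refine ⟨D, fun w hw => ?_⟩
  have := (hPa ⟨w, hw⟩ _).1 (hD ⟨w, hw⟩)
  rwa [hPl] at this

/-- the main theorem. -/
theorem main {E : Type v} [TopologicalSpace E] [PathConnectedSpace E] [MulAction G E]
    [ContinuousConstSMul G E] (hfree : ∀ (g : G) (e : E), g • e = e → g = 1) (hE : H1Zero E)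
    (hG : ∀ M : Rep.{0} ℤ G, Nonempty (groupCohomology M 2 ≅ groupHomology M 2))
    {S : Finset G} (hS : Sys S)
    (hsub : ∀ ε : ℝ, 0 < ε → ∃ A : ℝ, ∀ w, Loop S w → Ar S w (A * Real.exp (ε * w.length)))
    (hlin : ¬ ∃ C : ℝ, ∀ w, Loop S w → Ar S w (C * w.length)) :
    ∃ i, i ≤ 2 ∧ Nontrivial (Hgy (lam G) E i) := by
  by_contra hcon
  have h : ∀ i, i ≤ 2 → ¬ Nontrivial (Hgy (lam G) E i) := fun i hi hn => hcon ⟨i, hi, hn⟩
  have hV : ThmV S := thmV hS hfree hE (h 0 (by omega)) (h 1 (by omega)) (h 2 le_rfl)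
  have hd : ∀ c : Dt G, ¬ Nontrivial (groupCohomology (RM c) 2) →
      ¬ Nontrivial (groupHomology (RM c) 2) := by
    intro c hc hn
    obtain ⟨e⟩ := hG (RM c)
    exact hc ((e.toLinearEquiv.toEquiv.nontrivial_congr).2 hn)
  exact hlin (linear hS hV hd (quadratic hS hV hd hsub))

end Pool.Agent.LibDehn83
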