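import Pool.Agent.LibDehn83.TwNorm

/-!
Almost flat sections, the modulus, the real primitive: three iterations.
-/

set_option autoImplicit false

namespace Pool.Agent.LibDehn83

open Pool.Agent.LibZIS Pool.Agent.LibCod83 Pool.Agent.LibQF83
open scoped Pointwise

variable {G : Type} [Group G] [DecidableEq G]

/-! ### row M: the modulus -/

/-- an almost invariant function is small. -/
theorem modulus {S : Finset G} (hS : Sys S) (h : G → MA G) (x0 : MA G) (hx : ‖TT x0‖ ≤ 1 / 4)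
    (hid : (1 : MA G) = ∑ s ∈ S, h s * (og G s - 1) + x0) :
    ∃ (R0 : ℕ) (A : ℝ), 0 ≤ A ∧ ∀ (J : ℕ) (V : Set G) (D : ℕ) (e : Raw.L2 G),
      ‖cut (Far S V (D + R0 * (J + 1))) e‖ ≤
        A * ∑ s ∈ S, ‖cut (Far S V D) (Raw.tr s e - e)‖ + (1 / 4) ^ J * ‖e‖ := by
  obtain ⟨R0, hR⟩ := exists_subset_pow hS
    (x0.coeff.support ∪ S.biUnion fun s => (h s).coeff.support)
  have hx0 : x0.coeff.support ⊆ S ^ R0 := Finset.subset_union_left.trans hR
  have hh : ∀ s ∈ S, (h s).coeff.support ⊆ S ^ R0 := fun s hs =>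
    ((Finset.subset_biUnion_of_mem (fun s => (h s).coeff.support) hs).trans
      Finset.subset_union_right).trans hR
  have hA : 0 ≤ ∑ s ∈ S, ‖TT (h s)‖ := Finset.sum_nonneg fun _ _ => norm_nonneg _
  refine ⟨R0, 2 * ∑ s ∈ S, ‖TT (h s)‖, by linarith, ?_⟩
  intro J V D e
  have hN : 0 ≤ ∑ s ∈ S, ‖cut (Far S V D) (Raw.tr s e - e)‖ :=
    Finset.sum_nonneg fun _ _ => norm_nonneg _
  have hE : e = ∑ s ∈ S, TT (h s) (Raw.tr s e - e) + TT x0 e := by
    have h1 : Raw.T G G (1 : MA G) e = Raw.T G G (∑ s ∈ S, h s * (og G s - 1) + x0) e := by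
      rw [← hid]
    rw [map_one, ContinuousLinearMap.one_apply, map_add, map_sum, ContinuousLinearMap.add_apply,
      ContinuousLinearMap.sum_apply] at h1
    refine h1.trans ?_
    congr 1
    refine Finset.sum_congr rfl fun s _ => ?_
    rw [map_mul, ContinuousLinearMap.mul_apply, map_sub, ContinuousLinearMap.sub_apply, map_one,
      ContinuousLinearMap.one_apply]
    rw [← TT_og]
  induction J with
  | zero =>
    rw [pow_zero, one_mul]
    exact (norm_cut_le _ _).trans (le_add_of_nonneg_left (by positivity))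
  | succ J ih =>
    have h2 : D + R0 * (J + 1 + 1) = D + R0 * (J + 1) + R0 := by ring
    have h3 : cut (Far S V (D + R0 * (J + 1 + 1))) e =
        ∑ s ∈ S, cut (Far S V (D + R0 * (J + 1 + 1)))
          (TT (h s) (cut (Far S V D) (Raw.tr s e - e))) +
        cut (Far S V (D + R0 * (J + 1 + 1))) (TT x0 (cut (Far S V (D + R0 * (J + 1))) e)) := by
      conv_lhs => rw [hE]
      rw [map_add, map_sum]
      congr 1
      · refine Finset.sum_congr rfl fun s hs => ?_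
        exact loc_TT hS ((hh s hs).trans (pow_mono hS (by nlinarith))) V _
      · rw [h2]
        exact loc_TT hS hx0 V _
    have h4 : ∀ s ∈ S, ‖cut (Far S V (D + R0 * (J + 1 + 1)))
        (TT (h s) (cut (Far S V D) (Raw.tr s e - e)))‖ ≤
        (∑ s ∈ S, ‖TT (h s)‖) * ‖cut (Far S V D) (Raw.tr s e - e)‖ := fun s hs => by
      refine (norm_cut_le _ _).trans (((TT (h s)).le_opNorm _).trans ?_)
      exact mul_le_mul_of_nonneg_right
        (Finset.single_le_sum (f := fun s => ‖TT (h s)‖) (fun _ _ => norm_nonneg _) hs)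
        (norm_nonneg _)
    have h5 : ‖cut (Far S V (D + R0 * (J + 1 + 1)))
        (TT x0 (cut (Far S V (D + R0 * (J + 1))) e))‖ ≤
        1 / 4 * ‖cut (Far S V (D + R0 * (J + 1))) e‖ := by
      refine (norm_cut_le _ _).trans (((TT x0).le_opNorm _).trans ?_)
      exact mul_le_mul_of_nonneg_right hx (norm_nonneg _)
    have h6 : ‖∑ s ∈ S, cut (Far S V (D + R0 * (J + 1 + 1)))
          (TT (h s) (cut (Far S V D) (Raw.tr s e - e)))‖ ≤
        (∑ s ∈ S, ‖TT (h s)‖) * ∑ s ∈ S, ‖cut (Far S V D) (Raw.tr s e - e)‖ := by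
      refine (norm_sum_le _ _).trans ?_
      rw [Finset.mul_sum]
      exact Finset.sum_le_sum h4
    have h7 := norm_add_le (∑ s ∈ S, cut (Far S V (D + R0 * (J + 1 + 1)))
          (TT (h s) (cut (Far S V D) (Raw.tr s e - e))))
        (cut (Far S V (D + R0 * (J + 1 + 1))) (TT x0 (cut (Far S V (D + R0 * (J + 1))) e)))
    rw [← h3] at h7
    have h8 : 0 ≤ (∑ s ∈ S, ‖TT (h s)‖) * ∑ s ∈ S, ‖cut (Far S V D) (Raw.tr s e - e)‖ :=
      mul_nonneg hA hN
    have h9 : (1 / 4 : ℝ) ^ (J + 1) * ‖e‖ = 1 / 4 * ((1 / 4) ^ J * ‖e‖) := by ring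
    rw [h9]
    nlinarith

/-! ### row F1: one step of the iteration for flat sections -/

/-- the defect of the twisted cocycle identity. -/
noncomputable def D1 (s : UC G) (b : G → Raw.L2 G) (p : G × G) : Raw.L2 G :=
  b p.1 + tw s p.1 (b p.2) - b (p.1 * p.2)

omit [DecidableEq G] in
lemma F1_sub (s : UC G) (x y : MA G) : Tw s (x - y) = Tw s x - Tw s y := by
  rw [eq_sub_iff_add_eq, ← Tw_add, sub_add_cancel]

omit [DecidableEq G] in
lemma F1_zero (s : UC G) : Tw s (0 : MA G) = 0 := by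
  have h := F1_sub s (0 : MA G) 0
  rwa [sub_self, sub_self] at h

omit [DecidableEq G] in
lemma F1_ite (s : UC G) (c : Prop) [Decidable c] (u : Raw.L2 G) :
    Tw s (if c then (1 : MA G) else 0) u = if c then u else 0 := by
  split_ifs
  · exact Tw_one s u
  · rw [F1_zero]
    rfl

omit [DecidableEq G] in
lemma F1_ite_mul (s : UC G) (g : G) (c : Prop) [Decidable c] (u : Raw.L2 G) :
    Tw s (og G g * if c then (1 : MA G) else 0) u = if c then tw s g u else 0 := by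
  split_ifs
  · rw [mul_one, Tw_og]
  · rw [mul_zero, F1_zero]
    rfl

omit [Group G] [DecidableEq G] in
lemma F1_ms {ι : Type} (I : Finset ι) (c x : ι → ℝ) (hc : ∀ i ∈ I, 0 ≤ c i)
    (hx : ∀ i ∈ I, 0 ≤ x i) : ∑ i ∈ I, c i * x i ≤ (∑ i ∈ I, c i) * ∑ i ∈ I, x i := by
  rw [Finset.sum_mul]
  refine Finset.sum_le_sum fun i hi => mul_le_mul_of_nonneg_left ?_ (hc i hi)
  exact Finset.single_le_sum hx hi

lemma F1_rel {S : Finset G} (s : UC G) (b : G → Raw.L2 G) {p : G × G} (hp : p ∈ RS S) :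
    ∑ s' ∈ S, Tw s (relA (og G) p s') (b s') = D1 s b p := by
  have hp' : p.1 ∈ S ∧ p.2 ∈ S ∧ p.1 * p.2 ∈ S := by
    have := Finset.mem_filter.1 hp
    exact ⟨(Finset.mem_product.1 this.1).1, (Finset.mem_product.1 this.1).2, this.2⟩
  have h1 : ∀ s' ∈ S, Tw s (relA (og G) p s') (b s') =
      (if p.1 = s' then b s' else 0) + (if p.2 = s' then tw s p.1 (b s') else 0) -
        (if p.1 * p.2 = s' then b s' else 0) := by
    intro s' _
    unfold relA
    rw [F1_sub, Tw_add]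
    simp only [sub_apply, add_apply]
    rw [F1_ite, F1_ite_mul, F1_ite]
  rw [Finset.sum_congr rfl h1, Finset.sum_sub_distrib, Finset.sum_add_distrib,
    Finset.sum_ite_eq, Finset.sum_ite_eq, Finset.sum_ite_eq, if_pos hp'.1, if_pos hp'.2.1,
    if_pos hp'.2.2]
  rfl

lemma F1_SF_tw {S F : Finset G} (s : UC G) {g : G} (hg : g ∈ S) {u : Raw.L2 G} (hu : SF F u) :
    SF (S * F) (tw s g u) := by
  intro x hx
  rw [tw_apply] at hx
  have h1 : g⁻¹ * x ∈ F := hu _ (right_ne_zero_of_mul hx)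
  have h2 := Finset.mul_mem_mul hg h1
  rwa [mul_inv_cancel_left] at h2

/-- the identity behind the step. -/
lemma F1_id {S : Finset G} {a : G → MA G} {t : G → G × G → MA G}
    {X : G → G → MA G}
    (hid : ∀ s ∈ S, ∀ s' ∈ S, (if s = s' then (1 : MA G) else 0) = (og G s - 1) * a s' +
        ∑ p ∈ RS S, t s p * relA (og G) p s' + X s s') (s : UC G) (b : G → Raw.L2 G) {g : G}
    (hg : g ∈ S) :
    b g - (tw s g (∑ s' ∈ S, Tw s (a s') (b s')) - ∑ s' ∈ S, Tw s (a s') (b s')) =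
      ∑ s' ∈ S, (Tw s ((og G g - 1) * a s') (b s') - Tw s (og G g - 1) (Tw s (a s') (b s'))) +
      (∑ p ∈ RS S, ∑ s' ∈ S, (Tw s (t g p * relA (og G) p s') (b s') -
        Tw s (t g p) (Tw s (relA (og G) p s') (b s'))) +
      ∑ p ∈ RS S, Tw s (t g p) (D1 s b p)) + ∑ s' ∈ S, Tw s (X g s') (b s') := by
  have h1 : b g = ∑ s' ∈ S, Tw s (if g = s' then (1 : MA G) else 0) (b s') := by
    simp only [F1_ite]
    rw [Finset.sum_ite_eq, if_pos hg]
  have h2 : ∀ s' ∈ S, Tw s (if g = s' then (1 : MA G) else 0) (b s') =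
      Tw s ((og G g - 1) * a s') (b s') + ∑ p ∈ RS S, Tw s (t g p * relA (og G) p s') (b s') +
        Tw s (X g s') (b s') := by
    intro s' hs'
    rw [hid g hg s' hs', Tw_add, Tw_add, Tw_sum]
    simp only [add_apply, sum_apply]
  rw [Finset.sum_congr rfl h2, Finset.sum_add_distrib, Finset.sum_add_distrib,
    Finset.sum_comm (s := S) (t := RS S)] at h1
  have h3 : tw s g (∑ s' ∈ S, Tw s (a s') (b s')) - ∑ s' ∈ S, Tw s (a s') (b s') =
      ∑ s' ∈ S, Tw s (og G g - 1) (Tw s (a s') (b s')) := by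
    rw [← map_sum, F1_sub, Tw_og]
    simp only [sub_apply]
    rw [Tw_one]
  have h4 : ∑ p ∈ RS S, Tw s (t g p) (D1 s b p) =
      ∑ p ∈ RS S, ∑ s' ∈ S, Tw s (t g p) (Tw s (relA (og G) p s') (b s')) := by
    refine Finset.sum_congr rfl fun p hp => ?_
    rw [← F1_rel s b hp, map_sum]
  have h5 : ∑ p ∈ RS S, ∑ s' ∈ S, (Tw s (t g p * relA (og G) p s') (b s') -
        Tw s (t g p) (Tw s (relA (og G) p s') (b s'))) =
      ∑ p ∈ RS S, ∑ s' ∈ S, Tw s (t g p * relA (og G) p s') (b s') -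
        ∑ p ∈ RS S, ∑ s' ∈ S, Tw s (t g p) (Tw s (relA (og G) p s') (b s')) := by
    rw [← Finset.sum_sub_distrib]
    refine Finset.sum_congr rfl fun p hp => ?_
    rw [Finset.sum_sub_distrib]
  rw [h3, h4, h5, Finset.sum_sub_distrib]
  conv_lhs => rw [h1]
  abel

omit [DecidableEq G] in
lemma F1_D1 (s : UC G) (b : G → Raw.L2 G) (v : Raw.L2 G) (p : G × G) :
    D1 s (fun g => b g - (tw s g v - v)) p = D1 s b p +
      (Tw s (og G p.1 * og G p.2) v - Tw s (og G p.1) (Tw s (og G p.2) v)) := by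
  have h1 : og G p.1 * og G p.2 = og G (p.1 * p.2) := (map_mul (og G) p.1 p.2).symm
  rw [h1, Tw_og, Tw_og, Tw_og]
  unfold D1
  simp only [map_sub]
  abel

theorem flat_step {S : Finset G} (hS : Sys S) (a : G → MA G) (t : G → G × G → MA G)
    (X : G → G → MA G) (hX : ∀ s ∈ S, ∀ s' ∈ S, (S.card : ℝ) * ‖TT (X s s')‖ ≤ 1 / 4)
    (hid : ∀ s ∈ S, ∀ s' ∈ S, (if s = s' then (1 : MA G) else 0) = (og G s - 1) * a s' +
        ∑ p ∈ RS S, t s p * relA (og G) p s' + X s s') :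
    ∃ (R0 κ m0 : ℕ) (A δ0 : ℝ), 0 < κ ∧ 1 ≤ A ∧ 0 < δ0 ∧ ∀ m, m0 ≤ m → ∀ (s : UC G) (V : Set G)
      (D : ℕ) (δ : ℝ), 0 ≤ δ → δ ≤ δ0 → AC s S (Far S V D) m δ →
      ∀ (F : Finset G), (F.card : ℝ) ≤ Real.exp ((m : ℝ) / κ) →
      ∀ b : G → Raw.L2 G, (∀ g ∈ S, SF F (b g)) →
      ∃ v : Raw.L2 G, SF (S ^ R0 * F) v ∧ (∀ g ∈ S, SF (S ^ R0 * F) (tw s g v)) ∧
        ‖v‖ ≤ A * ∑ g ∈ S, ‖b g‖ ∧
        ∀ D', D + R0 ≤ D' →
        ∑ g ∈ S, ‖cut (Far S V (D' + R0)) (b g - (tw s g v - v))‖ ≤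
          1 / 2 * ∑ g ∈ S, ‖cut (Far S V D') (b g)‖ +
          A * (∑ p ∈ RS S, ‖cut (Far S V D') (D1 s b p)‖ +
            δ * ∑ g ∈ S, ‖cut (Far S V D') (b g)‖) ∧
        ∑ p ∈ RS S, ‖cut (Far S V (D' + R0)) (D1 s (fun g => b g - (tw s g v - v)) p)‖ ≤
          ∑ p ∈ RS S, ‖cut (Far S V D') (D1 s b p)‖ +
            A * (δ * ∑ g ∈ S, ‖cut (Far S V D') (b g)‖) := by
  classical
  have hcard0 : 0 < S.card := Finset.card_pos.2 ⟨1, hS.one⟩
  have hcard : (0 : ℝ) < S.card := by exact_mod_cast hcard0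
  have hη : (0 : ℝ) < 1 / 4 / S.card := by positivity
  choose κ' n' m' δ' hκ' hδ' hN using fun x : MA G => norm_Tw_le hS x hη
  set κ : ℕ := ∑ q ∈ S ×ˢ S, κ' (X q.1 q.2) + 1 with hκ
  set n0 : ℕ := ∑ q ∈ S ×ˢ S, n' (X q.1 q.2) with hn0
  set m1 : ℕ := ∑ q ∈ S ×ˢ S, m' (X q.1 q.2) with hm1
  set δ0 : ℝ := (1 + ∑ q ∈ S ×ˢ S, (δ' (X q.1 q.2))⁻¹)⁻¹ with hδ0
  have hδs : 0 ≤ ∑ q ∈ S ×ˢ S, (δ' (X q.1 q.2))⁻¹ :=
    Finset.sum_nonneg fun q _ => (inv_pos.2 (hδ' _)).le
  have hδ00 : 0 < δ0 := by positivity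
  have hκle : ∀ g ∈ S, ∀ s' ∈ S, κ' (X g s') ≤ κ := by
    intro g hg s' hs'
    have := Finset.single_le_sum (f := fun q : G × G => κ' (X q.1 q.2))
      (fun q _ => Nat.zero_le _) (Finset.mem_product.2 ⟨hg, hs'⟩ : (g, s') ∈ S ×ˢ S)
    exact this.trans (Nat.le_succ _)
  have hnle : ∀ g ∈ S, ∀ s' ∈ S, n' (X g s') ≤ n0 := by
    intro g hg s' hs'
    exact Finset.single_le_sum (f := fun q : G × G => n' (X q.1 q.2))
      (fun q _ => Nat.zero_le _) (Finset.mem_product.2 ⟨hg, hs'⟩ : (g, s') ∈ S ×ˢ S)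
  have hmle : ∀ g ∈ S, ∀ s' ∈ S, m' (X g s') ≤ m1 := by
    intro g hg s' hs'
    exact Finset.single_le_sum (f := fun q : G × G => m' (X q.1 q.2))
      (fun q _ => Nat.zero_le _) (Finset.mem_product.2 ⟨hg, hs'⟩ : (g, s') ∈ S ×ˢ S)
  have hδle : ∀ g ∈ S, ∀ s' ∈ S, δ0 ≤ δ' (X g s') := by
    intro g hg s' hs'
    have h1 := Finset.single_le_sum (f := fun q : G × G => (δ' (X q.1 q.2))⁻¹)
      (fun q _ => (inv_pos.2 (hδ' _)).le) (Finset.mem_product.2 ⟨hg, hs'⟩ : (g, s') ∈ S ×ˢ S)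
    rw [hδ0]
    refine inv_le_of_inv_le₀ (hδ' _) ?_
    have h2 : (δ' (X g s'))⁻¹ ≤ ∑ q ∈ S ×ˢ S, (δ' (X q.1 q.2))⁻¹ := h1
    linarith
  -- the radius of the supports
  obtain ⟨n, hn⟩ := exists_subset_pow hS
    (S.biUnion (fun g => (a g).coeff.support) ∪
      (S.biUnion (fun g => (og G g - 1).coeff.support) ∪
      (S.biUnion (fun g => (og G g).coeff.support) ∪
      ((S ×ˢ RS S).biUnion (fun q => (t q.1 q.2).coeff.support) ∪
      ((RS S ×ˢ S).biUnion (fun q => (relA (og G) q.1 q.2).coeff.support) ∪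
      (S ×ˢ S).biUnion (fun q => (X q.1 q.2).coeff.support))))))
  have ha : ∀ g ∈ S, (a g).coeff.support ⊆ S ^ n := fun g hg x hx =>
    hn (Finset.mem_union_left _ (Finset.mem_biUnion.2 ⟨g, hg, hx⟩))
  have ho1 : ∀ g ∈ S, (og G g - 1).coeff.support ⊆ S ^ n := fun g hg x hx =>
    hn (Finset.mem_union_right _ (Finset.mem_union_left _ (Finset.mem_biUnion.2 ⟨g, hg, hx⟩)))
  have ho : ∀ g ∈ S, (og G g).coeff.support ⊆ S ^ n := fun g hg x hx =>
    hn (Finset.mem_union_right _ (Finset.mem_union_right _ (Finset.mem_union_left _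
      (Finset.mem_biUnion.2 ⟨g, hg, hx⟩))))
  have ht : ∀ g ∈ S, ∀ p ∈ RS S, (t g p).coeff.support ⊆ S ^ n := fun g hg p hp x hx =>
    hn (Finset.mem_union_right _ (Finset.mem_union_right _ (Finset.mem_union_right _
      (Finset.mem_union_left _
      (Finset.mem_biUnion.2 ⟨(g, p), Finset.mem_product.2 ⟨hg, hp⟩, hx⟩)))))
  have hr : ∀ p ∈ RS S, ∀ s' ∈ S, (relA (og G) p s').coeff.support ⊆ S ^ n :=
    fun p hp g hg x hx =>
    hn (Finset.mem_union_right _ (Finset.mem_union_right _ (Finset.mem_union_right _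
      (Finset.mem_union_right _ (Finset.mem_union_left _
      (Finset.mem_biUnion.2 ⟨(p, g), Finset.mem_product.2 ⟨hp, hg⟩, hx⟩))))))
  have hXs : ∀ g ∈ S, ∀ s' ∈ S, (X g s').coeff.support ⊆ S ^ n := fun g hg s' hs' x hx =>
    hn (Finset.mem_union_right _ (Finset.mem_union_right _ (Finset.mem_union_right _
      (Finset.mem_union_right _ (Finset.mem_union_right _
      (Finset.mem_biUnion.2 ⟨(g, s'), Finset.mem_product.2 ⟨hg, hs'⟩, hx⟩))))))
  -- the constants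
  set C1 : ℝ := ∑ g ∈ S, ∑ s' ∈ S, l1 (og G g - 1) * l1 (a s') with hC1
  set C2 : ℝ := ∑ g ∈ S, ∑ p ∈ RS S, ∑ s' ∈ S, l1 (t g p) * l1 (relA (og G) p s') with hC2
  set C3 : ℝ := ∑ g ∈ S, ∑ p ∈ RS S, l1 (t g p) with hC3
  set C4 : ℝ := ∑ p ∈ RS S, l1 (og G p.1) * l1 (og G p.2) with hC4
  set C5 : ℝ := ∑ s' ∈ S, l1 (a s') with hC5
  have hC10 : 0 ≤ C1 := Finset.sum_nonneg fun g _ => Finset.sum_nonneg fun s' _ =>
    mul_nonneg (l1_nonneg _) (l1_nonneg _)
  have hC20 : 0 ≤ C2 := Finset.sum_nonneg fun g _ => Finset.sum_nonneg fun p _ =>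
    Finset.sum_nonneg fun s' _ => mul_nonneg (l1_nonneg _) (l1_nonneg _)
  have hC30 : 0 ≤ C3 := Finset.sum_nonneg fun g _ => Finset.sum_nonneg fun p _ => l1_nonneg _
  have hC40 : 0 ≤ C4 := Finset.sum_nonneg fun p _ => mul_nonneg (l1_nonneg _) (l1_nonneg _)
  have hC50 : 0 ≤ C5 := Finset.sum_nonneg fun s' _ => l1_nonneg _
  refine ⟨3 * n + n0 + 1, κ, n + m1, 1 + C1 + C2 + C3 + C4 * C5 + C5, δ0, Nat.succ_pos _,
    by nlinarith [mul_nonneg hC40 hC50], hδ00, ?_⟩
  intro m hm s V D δ hδ hδ1 hAC F hF b hb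
  have hnm : n ≤ m := by omega
  set v : Raw.L2 G := ∑ s' ∈ S, Tw s (a s') (b s') with hv
  have hvSF : SF (S ^ n * F) v := SF.sum fun s' hs' => SF.Tw (ha s' hs') s (hb s' hs')
  have hsub : S ^ n * F ⊆ S ^ (3 * n + n0 + 1) * F :=
    Finset.mul_subset_mul_right (pow_mono hS (by omega))
  refine ⟨v, hvSF.mono hsub, ?_, ?_, ?_⟩
  · intro g hg
    refine (F1_SF_tw s hg hvSF).mono ?_
    rw [← mul_assoc, ← pow_succ']
    exact Finset.mul_subset_mul_right (pow_mono hS (by omega))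
  · have h1 : ‖v‖ ≤ ∑ s' ∈ S, l1 (a s') * ‖b s'‖ :=
      (norm_sum_le _ _).trans (Finset.sum_le_sum fun s' _ => norm_Tw_le_l1 _ _ _)
    refine h1.trans ((F1_ms S _ _ (fun i _ => l1_nonneg _) (fun i _ => norm_nonneg _)).trans ?_)
    refine mul_le_mul_of_nonneg_right ?_ (Finset.sum_nonneg fun i _ => norm_nonneg _)
    nlinarith [mul_nonneg hC40 hC50]
  intro D' hD'
  set c : G → ℝ := fun g => ‖cut (Far S V D') (b g)‖ with hc
  have hc0 : ∀ g, 0 ≤ c g := fun g => norm_nonneg _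
  set d : G × G → ℝ := fun p => ‖cut (Far S V D') (D1 s b p)‖ with hd
  have hd0 : ∀ p, 0 ≤ d p := fun g => norm_nonneg _
  set Nc : ℝ := ∑ g ∈ S, c g with hNc
  set Nd : ℝ := ∑ p ∈ RS S, d p with hNd
  have hNc0 : 0 ≤ Nc := Finset.sum_nonneg fun g _ => hc0 g
  have hNd0 : 0 ≤ Nd := Finset.sum_nonneg fun g _ => hd0 g
  have hcle : ∀ g ∈ S, c g ≤ Nc := fun g hg => Finset.single_le_sum (fun g _ => hc0 g) hg
  have hdle : ∀ p ∈ RS S, d p ≤ Nd := fun g hg => Finset.single_le_sum (fun g _ => hd0 g) hg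
  have hDD : D ≤ D' := by omega
  -- multiplicativity
  have hmul : ∀ (x y : MA G), x.coeff.support ⊆ S ^ n → y.coeff.support ⊆ S ^ n →
      ∀ g ∈ S, ‖cut (Far S V (D' + (3 * n + n0 + 1))) (Tw s (x * y) (b g) -
        Tw s x (Tw s y (b g)))‖ ≤ δ * l1 x * l1 y * Nc := by
    intro x y hx hy g hg
    refine (norm_cut_mono (far_anti hS V (show D' + 2 * n ≤ _ by omega)) _).trans ?_
    refine (norm_Tw_mul_le' hS hδ s hAC hnm hDD hx hy (b g)).trans ?_
    exact mul_le_mul_of_nonneg_left (hcle g hg)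
      (mul_nonneg (mul_nonneg hδ (l1_nonneg _)) (l1_nonneg _))
  -- the action of small elements
  have hsmall : ∀ g ∈ S, ∀ s' ∈ S, ‖cut (Far S V (D' + (3 * n + n0 + 1)))
      (Tw s (X g s') (b s'))‖ ≤ (‖TT (X g s')‖ + 1 / 4 / S.card) * c s' := by
    intro g hg s' hs'
    refine (norm_cut_mono (far_anti hS V (show D' + n ≤ _ by omega)) _).trans ?_
    rw [loc_Tw hS (hXs g hg s' hs')]
    refine (norm_cut_le _ _).trans ?_
    have hκ2 : (κ' (X g s') : ℝ) ≤ κ := by exact_mod_cast hκle g hg s' hs'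
    refine hN (X g s') m ((hmle g hg s' hs').trans (by omega)) s V D ?_
      (F.filter (fun x => x ∈ Far S V D')) ?_ ?_ _ ?_
    · intro x hx y hy z hz
      exact (hAC x hx y hy z hz).trans (hδ1.trans (hδle g hg s' hs'))
    · have h1 : ((F.filter (fun x => x ∈ Far S V D')).card : ℝ) ≤ F.card := by
        exact_mod_cast Finset.card_filter_le _ _
      refine h1.trans (hF.trans (Real.exp_le_exp.2 ?_))
      have hκp : (0 : ℝ) < κ' (X g s') := by exact_mod_cast hκ' (X g s')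
      gcongr
    · intro x hx
      refine far_anti hS V ?_ (Finset.mem_filter.1 hx).2
      have := hnle g hg s' hs'
      omega
    · intro x hx
      have h1 : x ∈ Far S V D' := by
        by_contra h
        exact hx (cut_of_not_mem h _)
      rw [cut_of_mem h1] at hx
      exact Finset.mem_filter.2 ⟨hb s' hs' x hx, h1⟩
  have hsum : ∑ g ∈ S, ∑ s' ∈ S, (‖TT (X g s')‖ + 1 / 4 / S.card) * c s' ≤ 1 / 2 * Nc := by
    rw [Finset.sum_comm, hNc, Finset.mul_sum]
    refine Finset.sum_le_sum fun s' hs' => ?_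
    rw [← Finset.sum_mul]
    refine mul_le_mul_of_nonneg_right ?_ (hc0 s')
    have h1 : ∀ g ∈ S, ‖TT (X g s')‖ + 1 / 4 / S.card ≤ 1 / 2 / S.card := by
      intro g hg
      have h2 : ‖TT (X g s')‖ ≤ 1 / 4 / S.card := by
        rw [le_div_iff₀ hcard, mul_comm]
        exact hX g hg s' hs'
      have h3 : (1 / 2 / S.card : ℝ) = 1 / 4 / S.card + 1 / 4 / S.card := by ring
      linarith
    refine (Finset.sum_le_sum h1).trans ?_
    rw [Finset.sum_const, nsmul_eq_mul, mul_div_cancel₀ _ hcard.ne']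
  constructor
  · have h1 : ∀ g ∈ S, ‖cut (Far S V (D' + (3 * n + n0 + 1))) (b g - (tw s g v - v))‖ ≤
        (∑ s' ∈ S, l1 (og G g - 1) * l1 (a s')) * (δ * Nc) +
        ((∑ p ∈ RS S, ∑ s' ∈ S, l1 (t g p) * l1 (relA (og G) p s')) * (δ * Nc) +
          (∑ p ∈ RS S, l1 (t g p)) * Nd) +
        ∑ s' ∈ S, (‖TT (X g s')‖ + 1 / 4 / S.card) * c s' := by
      intro g hg
      rw [hv, F1_id hid s b hg]
      simp only [map_add, map_sum]
      refine (norm_add_le _ _).trans (add_le_add ((norm_add_le _ _).trans (add_le_add ?_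
        ((norm_add_le _ _).trans (add_le_add ?_ ?_)))) ?_)
      · refine (norm_sum_le _ _).trans ?_
        rw [Finset.sum_mul]
        refine Finset.sum_le_sum fun s' hs' => (hmul _ _ (ho1 g hg) (ha s' hs') s' hs').trans
          (le_of_eq (by ring))
      · refine (norm_sum_le _ _).trans ?_
        rw [Finset.sum_mul]
        refine Finset.sum_le_sum fun p hp => (norm_sum_le _ _).trans ?_
        rw [Finset.sum_mul]
        refine Finset.sum_le_sum fun s' hs' => (hmul _ _ (ht g hg p hp) (hr p hp s' hs') s' hs').trans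
          (le_of_eq (by ring))
      · refine (norm_sum_le _ _).trans ?_
        rw [Finset.sum_mul]
        refine Finset.sum_le_sum fun p hp => ?_
        refine (norm_cut_mono (far_anti hS V (show D' + n ≤ _ by omega)) _).trans ?_
        rw [loc_Tw hS (ht g hg p hp)]
        refine (norm_cut_le _ _).trans ((norm_Tw_le_l1 _ _ _).trans ?_)
        exact mul_le_mul_of_nonneg_left (hdle p hp) (l1_nonneg _)
      · refine (norm_sum_le _ _).trans (Finset.sum_le_sum fun s' hs' => hsmall g hg s' hs')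
    refine (Finset.sum_le_sum h1).trans ?_
    rw [Finset.sum_add_distrib, Finset.sum_add_distrib, Finset.sum_add_distrib, ← Finset.sum_mul,
      ← Finset.sum_mul, ← Finset.sum_mul]
    have e1 : 0 ≤ δ * Nc := mul_nonneg hδ hNc0
    have e2 : C1 * (δ * Nc) + (C2 * (δ * Nc) + C3 * Nd) ≤
        (1 + C1 + C2 + C3 + C4 * C5 + C5) * (Nd + δ * Nc) := by
      have := mul_nonneg hC40 hC50
      nlinarith [mul_nonneg hC10 hNd0, mul_nonneg hC20 hNd0, mul_nonneg hC30 e1,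
        mul_nonneg this hNd0, mul_nonneg this e1, mul_nonneg hC50 hNd0, mul_nonneg hC50 e1]
    linarith
  · have hvc : ‖cut (Far S V (D' + n)) v‖ ≤ C5 * Nc := by
      rw [hv, map_sum]
      refine (norm_sum_le _ _).trans ?_
      rw [hC5, Finset.sum_mul]
      refine Finset.sum_le_sum fun s' hs' => ?_
      rw [loc_Tw hS (ha s' hs')]
      refine (norm_cut_le _ _).trans ((norm_Tw_le_l1 _ _ _).trans ?_)
      exact mul_le_mul_of_nonneg_left (hcle s' hs') (l1_nonneg _)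
    have h1 : ∀ p ∈ RS S, ‖cut (Far S V (D' + (3 * n + n0 + 1)))
        (D1 s (fun g => b g - (tw s g v - v)) p)‖ ≤
        d p + l1 (og G p.1) * l1 (og G p.2) * (C5 * (δ * Nc)) := by
      intro p hp
      have hp' : p.1 ∈ S ∧ p.2 ∈ S ∧ p.1 * p.2 ∈ S := by
        have := Finset.mem_filter.1 hp
        exact ⟨(Finset.mem_product.1 this.1).1, (Finset.mem_product.1 this.1).2, this.2⟩
      rw [F1_D1, map_add]
      refine (norm_add_le _ _).trans (add_le_add ?_ ?_)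
      · exact norm_cut_mono (far_anti hS V (Nat.le_add_right _ _)) _
      · refine (norm_cut_mono (far_anti hS V (show D' + n + 2 * n ≤ _ by omega)) _).trans ?_
        refine (norm_Tw_mul_le' hS hδ s hAC hnm (show D ≤ D' + n by omega) (ho _ hp'.1)
          (ho _ hp'.2.1) v).trans ?_
        refine (mul_le_mul_of_nonneg_left hvc
          (mul_nonneg (mul_nonneg hδ (l1_nonneg _)) (l1_nonneg _))).trans (le_of_eq (by ring))
    refine (Finset.sum_le_sum h1).trans ?_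
    rw [Finset.sum_add_distrib, ← Finset.sum_mul]
    have e1 : 0 ≤ δ * Nc := mul_nonneg hδ hNc0
    have e2 : C4 * (C5 * (δ * Nc)) ≤ (1 + C1 + C2 + C3 + C4 * C5 + C5) * (δ * Nc) := by
      rw [← mul_assoc]
      refine mul_le_mul_of_nonneg_right ?_ e1
      linarith
    linarith

/-! ### row F2: the iteration -/

lemma F2_SF_zero (F : Finset G) : SF F (0 : Raw.L2 G) := by
  intro x hx
  exact absurd rfl hx

lemma F2_real {A δ β0 γ0 β γ β' γ' q : ℝ} {j : ℕ} (hA : 1 ≤ A) (hδ : 0 ≤ δ) (hβ0 : 0 ≤ β0)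
    (hγ0 : 0 ≤ γ0) (hq : 0 ≤ q) (hq1 : q ≤ 1) (h8 : 8 * A ^ 2 * δ * (j + 1) ≤ 1)
    (h1 : β ≤ q * β0 + 4 * A * (γ0 * (1 + 8 * A ^ 2 * δ * j) + 2 * A * δ * j * β0))
    (h2 : γ ≤ γ0 * (1 + 8 * A ^ 2 * δ * j) + 2 * A * δ * j * β0) (hβ : 0 ≤ β)
    (h3 : β' ≤ 1 / 2 * β + A * (γ + δ * β)) (h4 : γ' ≤ γ + A * (δ * β)) :
    β' ≤ 3 / 4 * q * β0 + 4 * A * (γ0 * (1 + 8 * A ^ 2 * δ * (j + 1)) +
      2 * A * δ * (j + 1) * β0) ∧
    γ' ≤ γ0 * (1 + 8 * A ^ 2 * δ * (j + 1)) + 2 * A * δ * (j + 1) * β0 := by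
  have hj : (0 : ℝ) ≤ j := Nat.cast_nonneg j
  have hA0 : 0 ≤ A := by linarith
  have hA2 : A ≤ A ^ 2 := by nlinarith
  have hAδ : A * δ ≤ 1 / 4 := by
    have e1 : 8 * A ^ 2 * δ ≤ 1 := by
      have : 0 ≤ 8 * A ^ 2 * δ * j := by positivity
      nlinarith
    have e2 : A * δ ≤ A ^ 2 * δ := mul_le_mul_of_nonneg_right hA2 hδ
    linarith
  set G : ℝ := γ0 * (1 + 8 * A ^ 2 * δ * j) + 2 * A * δ * j * β0 with hG
  have hG0 : 0 ≤ G := by positivity
  have hG' : γ0 * (1 + 8 * A ^ 2 * δ * (j + 1)) + 2 * A * δ * (j + 1) * β0 =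
      G + A * δ * (2 * β0 + 8 * A * γ0) := by
    rw [hG]
    ring
  rw [hG']
  have h5 : 0 ≤ A * δ * (2 * β0 + 8 * A * γ0) := by positivity
  constructor
  · have h6 : A * (δ * β) ≤ 1 / 4 * β := by
      have := mul_le_mul_of_nonneg_right hAδ hβ
      linarith
    have h7 : A * γ ≤ A * G := mul_le_mul_of_nonneg_left h2 hA0
    have h8' : 0 ≤ A * (A * δ * (2 * β0 + 8 * A * γ0)) := mul_nonneg hA0 h5
    nlinarith
  · -- the bound of `β` by `2 β0 + 8 A γ0`
    have h6 : 8 * A ^ 2 * δ * j ≤ 1 := by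
      have : 0 ≤ 8 * A ^ 2 * δ := by positivity
      nlinarith
    have h7 : β ≤ 2 * β0 + 8 * A * γ0 := by
      have e1 : q * β0 ≤ β0 := by nlinarith
      have e2 : 4 * A * G = 4 * A * γ0 + 4 * A * γ0 * (8 * A ^ 2 * δ * j) +
          (8 * A ^ 2 * δ * j) * β0 := by
        rw [hG]
        ring
      have e3 : 4 * A * γ0 * (8 * A ^ 2 * δ * j) ≤ 4 * A * γ0 :=
        mul_le_of_le_one_right (by positivity) h6
      have e4 : (8 * A ^ 2 * δ * j) * β0 ≤ β0 := mul_le_of_le_one_left hβ0 h6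
      linarith
    have h9 : A * (δ * β) ≤ A * δ * (2 * β0 + 8 * A * γ0) := by
      have := mul_le_mul_of_nonneg_left h7 (mul_nonneg hA0 hδ)
      linarith
    linarith

theorem flat_iter {S : Finset G} (hS : Sys S) {R0 κ m0 : ℕ} {A δ0 : ℝ} (hA : 1 ≤ A)
    (hδ0 : 0 < δ0)
    (hstep : ∀ m, m0 ≤ m → ∀ (s : UC G) (V : Set G)
      (D : ℕ) (δ : ℝ), 0 ≤ δ → δ ≤ δ0 → AC s S (Far S V D) m δ →
      ∀ (F : Finset G), (F.card : ℝ) ≤ Real.exp ((m : ℝ) / κ) →
      ∀ b : G → Raw.L2 G, (∀ g ∈ S, SF F (b g)) →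
      ∃ v : Raw.L2 G, SF (S ^ R0 * F) v ∧ (∀ g ∈ S, SF (S ^ R0 * F) (tw s g v)) ∧
        ‖v‖ ≤ A * ∑ g ∈ S, ‖b g‖ ∧
        ∀ D', D + R0 ≤ D' →
        ∑ g ∈ S, ‖cut (Far S V (D' + R0)) (b g - (tw s g v - v))‖ ≤
          1 / 2 * ∑ g ∈ S, ‖cut (Far S V D') (b g)‖ +
          A * (∑ p ∈ RS S, ‖cut (Far S V D') (D1 s b p)‖ +
            δ * ∑ g ∈ S, ‖cut (Far S V D') (b g)‖) ∧
        ∑ p ∈ RS S, ‖cut (Far S V (D' + R0)) (D1 s (fun g => b g - (tw s g v - v)) p)‖ ≤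
          ∑ p ∈ RS S, ‖cut (Far S V D') (D1 s b p)‖ +
            A * (δ * ∑ g ∈ S, ‖cut (Far S V D') (b g)‖)) :
    ∃ B : ℝ, 1 ≤ B ∧ ∀ (J m : ℕ), m0 ≤ m → ∀ (s : UC G) (V : Set G) (D : ℕ) (δ : ℝ), 0 ≤ δ →
      δ * (B * (J + 1)) ≤ min 1 δ0 → AC s S (Far S V D) m δ → ∀ F : Finset G,
      (((S.card : ℝ) ^ (R0 * (J + 1))) * F.card : ℝ) ≤ Real.exp ((m : ℝ) / κ) →
      ∀ b : G → Raw.L2 G, (∀ g ∈ S, SF F (b g)) →
      ∃ v : Raw.L2 G, SF (S ^ (R0 * (J + 1)) * F) v ∧ ‖v‖ ≤ B ^ (J + 1) * ∑ g ∈ S, ‖b g‖ ∧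
        ∑ g ∈ S, ‖cut (Far S V (D + R0 * (J + 1))) (b g - (tw s g v - v))‖ ≤
          (3 / 4) ^ J * ∑ g ∈ S, ‖b g‖ +
          B * (∑ p ∈ RS S, ‖cut (Far S V D) (D1 s b p)‖ + (J + 1) * (δ * ∑ g ∈ S, ‖b g‖)) := by
  classical
  have hcard : (1 : ℝ) ≤ S.card := by
    exact_mod_cast Finset.card_pos.2 ⟨1, hS.one⟩
  have hA0 : 0 ≤ A := by linarith
  set c : ℝ := 1 + 2 * S.card * A with hc
  have hc1 : 1 + A ≤ c := by
    rw [hc]
    nlinarith
  have hc0 : 0 ≤ c := by linarith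
  refine ⟨8 * A ^ 2 + c + 1, by nlinarith, ?_⟩
  intro J m hm s V D δ hδ hB hAC F hF b hb
  set B : ℝ := 8 * A ^ 2 + c + 1 with hBdef
  have hB1 : 1 ≤ B := by nlinarith
  have hBA : 8 * A ^ 2 ≤ B := by linarith
  have hBc : c ≤ B := by nlinarith
  have hJ1 : (1 : ℝ) ≤ J + 1 := by
    have : (0 : ℝ) ≤ J := Nat.cast_nonneg J
    linarith
  have hδ0' : δ ≤ δ0 := by
    refine le_trans ?_ (hB.trans (min_le_right _ _))
    exact le_mul_of_one_le_right hδ (by nlinarith)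
  have h8 : 8 * A ^ 2 * δ * (J + 1) ≤ 1 := by
    refine le_trans ?_ (hB.trans (min_le_left _ _))
    have := mul_le_mul_of_nonneg_right hBA (show 0 ≤ δ * (J + 1) by positivity)
    linarith
  set N : ℝ := ∑ g ∈ S, ‖b g‖ with hN
  have hN0 : 0 ≤ N := Finset.sum_nonneg fun g _ => norm_nonneg _
  set β0 : ℝ := ∑ g ∈ S, ‖cut (Far S V (D + R0)) (b g)‖ with hβ0
  have hβ00 : 0 ≤ β0 := Finset.sum_nonneg fun g _ => norm_nonneg _
  set γ0 : ℝ := ∑ p ∈ RS S, ‖cut (Far S V (D + R0)) (D1 s b p)‖ with hγ0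
  have hγ00 : 0 ≤ γ0 := Finset.sum_nonneg fun g _ => norm_nonneg _
  have main : ∀ j : ℕ, j ≤ J → ∃ U : Raw.L2 G, SF (S ^ (R0 * j) * F) U ∧
      (∀ g ∈ S, SF (S ^ (R0 * j) * F) (tw s g U)) ∧ ‖U‖ ≤ c ^ j * N ∧
      ∑ g ∈ S, ‖b g - (tw s g U - U)‖ ≤ c ^ j * N ∧
      ∑ g ∈ S, ‖cut (Far S V (D + R0 * (j + 1))) (b g - (tw s g U - U))‖ ≤
        (3 / 4) ^ j * β0 + 4 * A * (γ0 * (1 + 8 * A ^ 2 * δ * j) + 2 * A * δ * j * β0) ∧
      ∑ p ∈ RS S, ‖cut (Far S V (D + R0 * (j + 1)))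
        (D1 s (fun g => b g - (tw s g U - U)) p)‖ ≤
        γ0 * (1 + 8 * A ^ 2 * δ * j) + 2 * A * δ * j * β0 := by
    intro j
    induction j with
    | zero =>
      intro _
      refine ⟨0, F2_SF_zero _, fun g _ => ?_, ?_, ?_, ?_, ?_⟩
      · rw [map_zero]
        exact F2_SF_zero _
      · rw [norm_zero]
        positivity
      · simp only [map_zero, sub_zero, pow_zero, one_mul]
        exact le_rfl
      · simp only [map_zero, sub_zero, pow_zero, one_mul, zero_add, mul_one, Nat.cast_zero,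
          mul_zero, zero_mul, add_zero]
        have : 0 ≤ 4 * A * γ0 := by positivity
        linarith
      · simp only [map_zero, sub_zero, zero_add, mul_one, Nat.cast_zero,
          mul_zero, zero_mul, add_zero]
        exact le_rfl
    | succ j ih =>
      intro hj
      obtain ⟨U, u1, u2, u3, u4, u5, u6⟩ := ih (by omega)
      have hFj : (((S ^ (R0 * j) * F).card : ℕ) : ℝ) ≤ Real.exp ((m : ℝ) / κ) := by
        refine le_trans ?_ hF
        have e1 : (S ^ (R0 * j) * F).card ≤ S.card ^ (R0 * (J + 1)) * F.card := by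
          refine Finset.card_mul_le.trans (Nat.mul_le_mul_right _ ?_)
          refine (card_pow_le' S _).trans (Nat.pow_le_pow_right ?_ ?_)
          · exact Finset.card_pos.2 ⟨1, hS.one⟩
          · exact Nat.mul_le_mul_left _ (by omega)
        exact_mod_cast e1
      have hbj : ∀ g ∈ S, SF (S ^ (R0 * j) * F) (b g - (tw s g U - U)) := by
        intro g hg
        refine SF.sub ((hb g hg).mono ?_) (SF.sub (u2 g hg) u1)
        have h1 : S ^ 0 * F ⊆ S ^ (R0 * j) * F :=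
          Finset.mul_subset_mul_right (pow_mono hS (Nat.zero_le _))
        rwa [pow_zero, one_mul] at h1
      obtain ⟨v, v1, v2, v3, v4⟩ := hstep m hm s V D δ hδ hδ0' hAC (S ^ (R0 * j) * F) hFj
        (fun g => b g - (tw s g U - U)) hbj
      obtain ⟨w1, w2⟩ := v4 (D + R0 * (j + 1)) (by nlinarith)
      have eS : S ^ R0 * (S ^ (R0 * j) * F) = S ^ (R0 * (j + 1)) * F := by
        rw [← mul_assoc, ← pow_add]
        congr 2
        ring
      rw [eS] at v1 v2
      have hmono : S ^ (R0 * j) * F ⊆ S ^ (R0 * (j + 1)) * F :=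
        Finset.mul_subset_mul_right (pow_mono hS (by nlinarith))
      have eb : ∀ g, b g - (tw s g (U + v) - (U + v)) =
          b g - (tw s g U - U) - (tw s g v - v) := by
        intro g
        rw [map_add]
        abel
      have eD : D + R0 * (j + 1) + R0 = D + R0 * (j + 1 + 1) := by ring
      rw [eD] at w1 w2
      have hcj : 0 ≤ c ^ j * N := by positivity
      have hvn : ‖v‖ ≤ A * (c ^ j * N) := v3.trans (mul_le_mul_of_nonneg_left u4 hA0)
      have hreal := F2_real (q := (3 / 4) ^ j) hA hδ hβ00 hγ00 (by positivity)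
        (pow_le_one₀ (by norm_num) (by norm_num)) (by
          have e1 : ((j : ℝ) + 1) ≤ J + 1 := by
            have : (j : ℝ) ≤ J := by exact_mod_cast (show j ≤ J by omega)
            linarith
          refine le_trans ?_ h8
          exact mul_le_mul_of_nonneg_left e1 (by positivity)) u5 u6
        (Finset.sum_nonneg fun g _ => norm_nonneg _) w1 w2
      refine ⟨U + v, (u1.mono hmono).add v1, ?_, ?_, ?_, ?_, ?_⟩
      · intro g hg
        rw [map_add]
        exact ((u2 g hg).mono hmono).add (v2 g hg)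
      · refine (norm_add_le _ _).trans ((add_le_add u3 hvn).trans ?_)
        rw [pow_succ]
        have := mul_le_mul_of_nonneg_right hc1 hcj
        linarith
      · have h1 : ∀ g ∈ S, ‖b g - (tw s g (U + v) - (U + v))‖ ≤
            ‖b g - (tw s g U - U)‖ + 2 * (A * (c ^ j * N)) := by
          intro g _
          rw [eb]
          refine (norm_sub_le _ _).trans (add_le_add le_rfl ?_)
          refine (norm_sub_le _ _).trans ?_
          rw [norm_tw]
          linarith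
        refine (Finset.sum_le_sum h1).trans ?_
        rw [Finset.sum_add_distrib, Finset.sum_const, nsmul_eq_mul]
        refine (add_le_add u4 le_rfl).trans (le_of_eq ?_)
        rw [pow_succ, hc]
        ring
      · simp only [eb]
        refine hreal.1.trans (le_of_eq ?_)
        push_cast
        rw [pow_succ]
        ring
      · have e2 : (fun g => b g - (tw s g (U + v) - (U + v))) =
            fun g => b g - (tw s g U - U) - (tw s g v - v) := funext eb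
        rw [e2]
        refine hreal.2.trans (le_of_eq ?_)
        push_cast
        ring
  obtain ⟨U, u1, u2, u3, u4, u5, u6⟩ := main J le_rfl
  refine ⟨U, u1.mono (Finset.mul_subset_mul_right (pow_mono hS (by nlinarith))), ?_, ?_⟩
  · refine u3.trans (mul_le_mul_of_nonneg_right ?_ hN0)
    have e1 : c ^ J ≤ B ^ J := pow_le_pow_left₀ hc0 hBc J
    have e2 : B ^ J ≤ B ^ (J + 1) := pow_le_pow_right₀ hB1 (Nat.le_succ J)
    exact e1.trans e2
  · refine u5.trans ?_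
    have e1 : β0 ≤ N := Finset.sum_le_sum fun g _ => norm_cut_le _ _
    have e2 : γ0 ≤ ∑ p ∈ RS S, ‖cut (Far S V D) (D1 s b p)‖ :=
      Finset.sum_le_sum fun p _ => norm_cut_mono (far_anti hS V (Nat.le_add_right _ _)) _
    set Γ : ℝ := ∑ p ∈ RS S, ‖cut (Far S V D) (D1 s b p)‖ with hΓ
    have hJ0 : (0 : ℝ) ≤ J := Nat.cast_nonneg J
    have h6 : 8 * A ^ 2 * δ * J ≤ 1 := by
      have : 0 ≤ 8 * A ^ 2 * δ := by positivity
      nlinarith
    have e3 : (3 / 4 : ℝ) ^ J * β0 ≤ (3 / 4) ^ J * N :=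
      mul_le_mul_of_nonneg_left e1 (by positivity)
    have e4 : 4 * A * (γ0 * (1 + 8 * A ^ 2 * δ * J) + 2 * A * δ * J * β0) ≤
        8 * A ^ 2 * Γ + 8 * A ^ 2 * (J + 1) * (δ * N) := by
      have f1 : 4 * A * (γ0 * (1 + 8 * A ^ 2 * δ * J)) ≤ 8 * A * γ0 := by
        have := mul_le_mul_of_nonneg_left h6 (show 0 ≤ 4 * A * γ0 by positivity)
        nlinarith
      have f2 : 8 * A * γ0 ≤ 8 * A ^ 2 * Γ := by
        have hA2 : A ≤ A ^ 2 := by nlinarith
        have g1 : 8 * A * γ0 ≤ 8 * A ^ 2 * γ0 := by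
          have := mul_le_mul_of_nonneg_right hA2 hγ00
          linarith
        have g2 : 8 * A ^ 2 * γ0 ≤ 8 * A ^ 2 * Γ := mul_le_mul_of_nonneg_left e2 (by positivity)
        linarith
      have f3 : 4 * A * (2 * A * δ * J * β0) ≤ 8 * A ^ 2 * (J + 1) * (δ * N) := by
        have g1 : δ * β0 ≤ δ * N := mul_le_mul_of_nonneg_left e1 hδ
        have g2 : 8 * A ^ 2 * J * (δ * β0) ≤ 8 * A ^ 2 * (J + 1) * (δ * N) := by
          apply mul_le_mul _ g1 (by positivity) (by positivity)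
          nlinarith [sq_nonneg A]
        linarith
      linarith
    have e5 : 8 * A ^ 2 * Γ + 8 * A ^ 2 * (J + 1) * (δ * N) ≤
        B * (Γ + (J + 1) * (δ * N)) := by
      have g0 : 0 ≤ Γ + (J + 1) * (δ * N) := by
        have : 0 ≤ Γ := Finset.sum_nonneg fun p _ => norm_nonneg _
        positivity
      have := mul_le_mul_of_nonneg_right hBA g0
      linarith
    linarith

/-! ### row R: the real primitive -/

/-- the defect of the untwisted cocycle identity. -/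
noncomputable def d1 (b : G → Raw.L2 G) (p : G × G) : Raw.L2 G :=
  b p.1 + Raw.tr p.1 (b p.2) - b (p.1 * p.2)

/-- the value on a chain. -/
noncomputable def vl (S : Finset G) (z : G × G → Raw.L2 G) (T : Tri G →₀ ℤ) : Raw.L2 G :=
  ∑ q ∈ RS S, TT (cycA (og G) T q) (z q)

omit [DecidableEq G] in
lemma R_mul (a b : MA G) : TT (a * b) = TT a * TT b := map_mul (Raw.T G G) a b

omit [DecidableEq G] in
lemma R_add (a b : MA G) : TT (a + b) = TT a + TT b := map_add (Raw.T G G) a b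

omit [DecidableEq G] in
lemma R_sub (a b : MA G) : TT (a - b) = TT a - TT b := map_sub (Raw.T G G) a b

omit [DecidableEq G] in
lemma R_one : TT (1 : MA G) = 1 := map_one (Raw.T G G)

omit [DecidableEq G] in
lemma R_zero : TT (0 : MA G) = 0 := map_zero (Raw.T G G)

omit [DecidableEq G] in
lemma R_sum {ι : Type} (s : Finset ι) (a : ι → MA G) : TT (∑ i ∈ s, a i) = ∑ i ∈ s, TT (a i) :=
  map_sum (Raw.T G G) a s

omit [DecidableEq G] in
lemma R_og (g : G) : TT (og G g) = Raw.tr g := by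
  apply ContinuousLinearMap.ext
  intro u
  exact TT_og g u

lemma R_cyc (T : Tri G →₀ ℤ) (q : G × G) :
    cycA (Raw.trHom G G) T q = TT (cycA (og G) T q) := by
  unfold cycA
  have h : TT (T.sum fun p n => if p.1 = q then n • og G p.2⁻¹ else 0) =
      T.sum fun p n => TT (if p.1 = q then n • og G p.2⁻¹ else 0) :=
    map_finsuppSum (Raw.T G G) T _
  rw [h]
  unfold Finsupp.sum
  apply Finset.sum_congr rfl
  intro p _
  dsimp only
  split_ifs
  · have h2 : TT (T p • og G p.2⁻¹) = T p • TT (og G p.2⁻¹) := map_zsmul (Raw.T G G) _ _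
    rw [h2, R_og]
    rfl
  · exact R_zero.symm

lemma R_vl_d1 {S : Finset G} {T : Tri G →₀ ℤ} (hT : InS S T) (hb : bdry T = 0)
    (b : G → Raw.L2 G) : vl S (d1 b) T = 0 := by
  have h1 := evE_bdry (Raw.trHom G G) b T
  rw [hb, map_zero] at h1
  have h2 := evT_eq_sum (Raw.trHom G G) (d1 b) hT
  have h3 : evT (Raw.trHom G G) (d1 b) T = 0 := h1.symm
  rw [h3] at h2
  unfold vl
  rw [h2]
  apply Finset.sum_congr rfl
  intro q _
  rw [R_cyc]
  rfl

lemma R_vl_sub (S : Finset G) (z w : G × G → Raw.L2 G) (T : Tri G →₀ ℤ) :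
    vl S (fun p => z p - w p) T = vl S z T - vl S w T := by
  unfold vl
  rw [← Finset.sum_sub_distrib]
  apply Finset.sum_congr rfl
  intro q _
  rw [map_sub]

lemma R_d1_add (b b' : G → Raw.L2 G) (p : G × G) :
    d1 (fun g => b g + b' g) p = d1 b p + d1 b' p := by
  unfold d1
  show b p.1 + b' p.1 + Raw.tr p.1 (b p.2 + b' p.2) - (b (p.1 * p.2) + b' (p.1 * p.2)) = _
  rw [map_add]
  abel

/-- the contraction. -/
noncomputable def Rh (S : Finset G) (t : G → G × G → MA G) (z : G × G → Raw.L2 G) (g : G) :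
    Raw.L2 G := ∑ q ∈ RS S, TT (t g q) (z q)

lemma R_id {S : Finset G} {𝒯 : Finset (Tri G →₀ ℤ)} {t : G → G × G → MA G}
    {α : G × G → (Tri G →₀ ℤ) → MA G} {X : G × G → G × G → MA G}
    (hid : ∀ p ∈ RS S, ∀ q ∈ RS S,
      (if p = q then (1 : MA G) else 0) = t p.1 q + og G p.1 * t p.2 q - t (p.1 * p.2) q +
          ∑ T ∈ 𝒯, α p T * cycA (og G) T q + X p q) (z : G × G → Raw.L2 G) {p : G × G}
    (hp : p ∈ RS S) : z p - d1 (Rh S t z) p =
      ∑ T ∈ 𝒯, TT (α p T) (vl S z T) + ∑ q ∈ RS S, TT (X p q) (z q) := by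
  have h1 : z p = ∑ q ∈ RS S, TT (if p = q then (1 : MA G) else 0) (z q) := by
    rw [Finset.sum_eq_single p]
    · rw [if_pos rfl, R_one]
      rfl
    · intro q _ hq
      rw [if_neg (Ne.symm hq), R_zero]
      rfl
    · intro h
      exact absurd hp h
  have h2 : ∀ q ∈ RS S, TT (if p = q then (1 : MA G) else 0) (z q) =
      TT (t p.1 q) (z q) + Raw.tr p.1 (TT (t p.2 q) (z q)) - TT (t (p.1 * p.2) q) (z q) +
        ∑ T ∈ 𝒯, TT (α p T) (TT (cycA (og G) T q) (z q)) + TT (X p q) (z q) := by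
    intro q hq
    rw [hid p hp q hq, R_add, R_add, R_sub, R_add, R_mul, R_og, R_sum]
    simp only [R_mul, add_apply, sub_apply,
      sum_apply, mul_apply_eq_comp]
  rw [Finset.sum_congr rfl h2, Finset.sum_add_distrib, Finset.sum_add_distrib,
    Finset.sum_sub_distrib, Finset.sum_add_distrib] at h1
  have h3 : ∑ T ∈ 𝒯, TT (α p T) (vl S z T) =
      ∑ q ∈ RS S, ∑ T ∈ 𝒯, TT (α p T) (TT (cycA (og G) T q) (z q)) := by
    rw [Finset.sum_comm]
    apply Finset.sum_congr rfl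
    intro T _
    unfold vl
    rw [map_sum]
  have h4 : d1 (Rh S t z) p = ∑ q ∈ RS S, TT (t p.1 q) (z q) +
      ∑ q ∈ RS S, Raw.tr p.1 (TT (t p.2 q) (z q)) - ∑ q ∈ RS S, TT (t (p.1 * p.2) q) (z q) := by
    unfold d1 Rh
    rw [map_sum]
  rw [h3, h4]
  conv_lhs => rw [h1]
  abel

lemma R_sub_mul {S F : Finset G} (hS : Sys S) {a b : ℕ} (h : a ≤ b) :
    S ^ a * F ⊆ S ^ b * F := Finset.mul_subset_mul_right (pow_mono hS h)

lemma R_SF_tr {S F : Finset G} {g : G} (hg : g ∈ S) {u : Raw.L2 G} (hu : SF F u) :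
    SF (S * F) (Raw.tr g u) := by
  intro x hx
  have h1 : g⁻¹ * x ∈ F := hu _ hx
  have h2 := Finset.mul_mem_mul hg h1
  rwa [mul_inv_cancel_left] at h2

lemma R_SF_Rh {S F : Finset G} {n : ℕ} {t : G → G × G → MA G}
    (ht : ∀ g ∈ S, ∀ q ∈ RS S, (t g q).coeff.support ⊆ S ^ n) {z : G × G → Raw.L2 G}
    (hz : ∀ q ∈ RS S, SF F (z q)) {g : G} (hg : g ∈ S) : SF (S ^ n * F) (Rh S t z g) :=
  SF.sum fun q hq => SF.TT (ht g hg q hq) (hz q hq)

theorem real_primitive {S : Finset G} (hS : Sys S) (𝒯 : Finset (Tri G →₀ ℤ))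
    (h𝒯 : ∀ T ∈ 𝒯, InS S T ∧ bdry T = 0) (t : G → G × G → MA G)
    (α : G × G → (Tri G →₀ ℤ) → MA G) (X : G × G → G × G → MA G)
    (hX : ∀ p ∈ RS S, ∀ q ∈ RS S, ((RS S).card : ℝ) * ‖TT (X p q)‖ ≤ 1 / 4)
    (hid : ∀ p ∈ RS S, ∀ q ∈ RS S,
      (if p = q then (1 : MA G) else 0) = t p.1 q + og G p.1 * t p.2 q - t (p.1 * p.2) q +
          ∑ T ∈ 𝒯, α p T * cycA (og G) T q + X p q) :
    ∃ (R0 : ℕ) (A : ℝ), 1 ≤ A ∧ ∀ (J : ℕ) (F : Finset G) (z : G × G → Raw.L2 G),
      (∀ p ∈ RS S, SF F (z p)) → ∃ β : G → Raw.L2 G,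
        (∀ g ∈ S, SF (S ^ (R0 * (J + 1)) * F) (β g) ∧ ‖β g‖ ≤ A * (J + 1) * ∑ p ∈ RS S, ‖z p‖) ∧
        ∀ (V : Set G) (D : ℕ), (∀ T ∈ 𝒯, ∀ x ∈ Far S V D, vl S z T x = 0) →
          ∑ p ∈ RS S, ‖cut (Far S V (D + R0 * (J + 1))) (z p - d1 β p)‖ ≤
            (1 / 4) ^ J * ∑ p ∈ RS S, ‖z p‖ := by
  classical
  obtain ⟨n, hn⟩ := exists_subset_pow hS
    ((S ×ˢ RS S).biUnion (fun q => (t q.1 q.2).coeff.support) ∪
      (RS S ×ˢ 𝒯).biUnion (fun q => (α q.1 q.2).coeff.support) ∪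
      (RS S ×ˢ RS S).biUnion (fun q => (X q.1 q.2).coeff.support))
  have ht : ∀ g ∈ S, ∀ q ∈ RS S, (t g q).coeff.support ⊆ S ^ n := by
    intro g hg q hq x hx
    exact hn (Finset.mem_union_left _ (Finset.mem_union_left _
      (Finset.mem_biUnion.2 ⟨(g, q), Finset.mem_product.2 ⟨hg, hq⟩, hx⟩)))
  have hα : ∀ p ∈ RS S, ∀ T ∈ 𝒯, (α p T).coeff.support ⊆ S ^ n := by
    intro p hp T hT x hx
    exact hn (Finset.mem_union_left _ (Finset.mem_union_right _
      (Finset.mem_biUnion.2 ⟨(p, T), Finset.mem_product.2 ⟨hp, hT⟩, hx⟩)))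
  have hXs : ∀ p ∈ RS S, ∀ q ∈ RS S, (X p q).coeff.support ⊆ S ^ n := by
    intro p hp q hq x hx
    exact hn (Finset.mem_union_right _
      (Finset.mem_biUnion.2 ⟨(p, q), Finset.mem_product.2 ⟨hp, hq⟩, hx⟩))
  set C1 : ℝ := ∑ p ∈ RS S, ∑ T ∈ 𝒯, ‖TT (α p T)‖ * ∑ q ∈ RS S, ‖TT (cycA (og G) T q)‖ with hC1
  have hC10 : 0 ≤ C1 := Finset.sum_nonneg fun p _ => Finset.sum_nonneg fun T _ =>
    mul_nonneg (norm_nonneg _) (Finset.sum_nonneg fun q _ => norm_nonneg _)
  set C2 : ℝ := ∑ g ∈ S, ∑ q ∈ RS S, ‖TT (t g q)‖ with hC2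
  have hC20 : 0 ≤ C2 := Finset.sum_nonneg fun p _ => Finset.sum_nonneg fun T _ => norm_nonneg _
  refine ⟨n + 2, 1 + C2 * (1 + 2 * C1), ?_, ?_⟩
  · have : 0 ≤ C2 * (1 + 2 * C1) := by positivity
    linarith
  intro J F z hz
  set M : (G × G → Raw.L2 G) → ℝ := fun w => ∑ p ∈ RS S, ‖w p‖ with hM
  have hM0 : ∀ w, 0 ≤ M w := fun w => Finset.sum_nonneg fun p _ => norm_nonneg _
  have hle : ∀ (w : G × G → Raw.L2 G), ∀ q ∈ RS S, ‖w q‖ ≤ M w := fun w q hq =>
    Finset.single_le_sum (f := fun q => ‖w q‖) (fun p _ => norm_nonneg _) hq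
  have hvl : ∀ (w : G × G → Raw.L2 G) (T : Tri G →₀ ℤ),
      ‖vl S w T‖ ≤ (∑ q ∈ RS S, ‖TT (cycA (og G) T q)‖) * M w := by
    intro w T
    unfold vl
    refine (norm_sum_le _ _).trans ?_
    rw [Finset.sum_mul]
    refine Finset.sum_le_sum fun q hq => ?_
    refine (ContinuousLinearMap.le_opNorm _ _).trans ?_
    exact mul_le_mul_of_nonneg_left (hle w q hq) (norm_nonneg _)
  have hh : ∀ (w : G × G → Raw.L2 G), ∀ g ∈ S, ‖Rh S t w g‖ ≤ C2 * M w := by
    intro w g hg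
    unfold Rh
    refine (norm_sum_le _ _).trans ?_
    have h1 : ∑ q ∈ RS S, ‖TT (t g q) (w q)‖ ≤ (∑ q ∈ RS S, ‖TT (t g q)‖) * M w := by
      rw [Finset.sum_mul]
      refine Finset.sum_le_sum fun q hq => ?_
      refine (ContinuousLinearMap.le_opNorm _ _).trans ?_
      exact mul_le_mul_of_nonneg_left (hle w q hq) (norm_nonneg _)
    refine h1.trans (mul_le_mul_of_nonneg_right ?_ (hM0 w))
    exact Finset.single_le_sum (f := fun g => ∑ q ∈ RS S, ‖TT (t g q)‖)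
      (fun g _ => Finset.sum_nonneg fun q _ => norm_nonneg _) hg
  have hXsum : ∀ c : G × G → ℝ, (∀ q, 0 ≤ c q) →
      ∑ p ∈ RS S, ∑ q ∈ RS S, ‖TT (X p q)‖ * c q ≤ 1 / 4 * ∑ q ∈ RS S, c q := by
    intro c hc
    rw [Finset.sum_comm, Finset.mul_sum]
    refine Finset.sum_le_sum fun q hq => ?_
    rw [← Finset.sum_mul]
    refine mul_le_mul_of_nonneg_right ?_ (hc q)
    have hpos : (0 : ℝ) < (RS S).card := by
      exact_mod_cast Finset.card_pos.2 ⟨q, hq⟩
    have h1 : ∀ p ∈ RS S, ‖TT (X p q)‖ ≤ 1 / 4 / (RS S).card := by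
      intro p hp
      rw [le_div_iff₀ hpos, mul_comm]
      exact hX p hp q hq
    refine (Finset.sum_le_sum h1).trans ?_
    rw [Finset.sum_const, nsmul_eq_mul, mul_div_cancel₀ _ hpos.ne']
  set Φ : (G × G → Raw.L2 G) → (G × G → Raw.L2 G) := fun w p => w p - d1 (Rh S t w) p with hΦ
  set Z : ℕ → (G × G → Raw.L2 G) := fun j => Φ^[j] z with hZ
  have hZ0 : Z 0 = z := rfl
  have hZs : ∀ j p, Z (j + 1) p = Z j p - d1 (Rh S t (Z j)) p := by
    intro j p
    simp only [hZ, Function.iterate_succ_apply']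
    rfl
  have hvlZ : ∀ j, ∀ T ∈ 𝒯, vl S (Z j) T = vl S z T := by
    intro j T hT
    induction j with
    | zero => rw [hZ0]
    | succ j ih =>
      have h1 : Z (j + 1) = fun p => Z j p - d1 (Rh S t (Z j)) p := funext (hZs j)
      rw [h1, R_vl_sub, R_vl_d1 (h𝒯 T hT).1 (h𝒯 T hT).2, sub_zero, ih]
  have hZid : ∀ j, ∀ p ∈ RS S, Z (j + 1) p =
      ∑ T ∈ 𝒯, TT (α p T) (vl S z T) + ∑ q ∈ RS S, TT (X p q) (Z j q) := by
    intro j p hp
    rw [hZs, R_id hid (Z j) hp]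
    congr 1
    apply Finset.sum_congr rfl
    intro T hT
    rw [hvlZ j T hT]
  have hMZ : ∀ j, M (Z j) ≤ (1 + 2 * C1) * M z := by
    intro j
    induction j with
    | zero =>
      rw [hZ0]
      nlinarith [hM0 z, mul_nonneg hC10 (hM0 z)]
    | succ j ih =>
      have h1 : M (Z (j + 1)) ≤ C1 * M z + 1 / 4 * M (Z j) := by
        have h2 : ∀ p ∈ RS S, ‖Z (j + 1) p‖ ≤
            ∑ T ∈ 𝒯, ‖TT (α p T)‖ * (∑ q ∈ RS S, ‖TT (cycA (og G) T q)‖) * M z +
            ∑ q ∈ RS S, ‖TT (X p q)‖ * ‖Z j q‖ := by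
          intro p hp
          rw [hZid j p hp]
          refine (norm_add_le _ _).trans (add_le_add ?_ ?_)
          · refine (norm_sum_le _ _).trans (Finset.sum_le_sum fun T _ => ?_)
            refine (ContinuousLinearMap.le_opNorm _ _).trans ?_
            rw [mul_assoc]
            exact mul_le_mul_of_nonneg_left (hvl z T) (norm_nonneg _)
          · refine (norm_sum_le _ _).trans (Finset.sum_le_sum fun q _ => ?_)
            exact ContinuousLinearMap.le_opNorm _ _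
        refine (Finset.sum_le_sum h2).trans ?_
        rw [Finset.sum_add_distrib]
        refine add_le_add (le_of_eq ?_) (hXsum (fun q => ‖Z j q‖) fun q => norm_nonneg _)
        rw [hC1, Finset.sum_mul]
        apply Finset.sum_congr rfl
        intro p _
        rw [Finset.sum_mul]
      nlinarith [hM0 z, mul_nonneg hC10 (hM0 z)]
  have hSFZ : ∀ j, ∀ p ∈ RS S, SF (S ^ ((n + 1) * j) * F) (Z j p) := by
    intro j
    induction j with
    | zero =>
      intro p hp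
      rw [hZ0, mul_zero, pow_zero, one_mul]
      exact hz p hp
    | succ j ih =>
      intro p hp
      have hp' : p.1 ∈ S ∧ p.2 ∈ S ∧ p.1 * p.2 ∈ S := by
        have := Finset.mem_filter.1 hp
        exact ⟨(Finset.mem_product.1 this.1).1, (Finset.mem_product.1 this.1).2, this.2⟩
      have e1 : S ^ n * (S ^ ((n + 1) * j) * F) = S ^ (n + (n + 1) * j) * F := by
        rw [← mul_assoc, ← pow_add]
      have e2 : S * (S ^ (n + (n + 1) * j) * F) = S ^ ((n + 1) * (j + 1)) * F := by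
        rw [← mul_assoc, ← pow_succ']
        congr 2
        ring
      have h1 : ∀ g ∈ S, SF (S ^ (n + (n + 1) * j) * F) (Rh S t (Z j) g) := by
        intro g hg
        rw [← e1]
        exact R_SF_Rh ht ih hg
      have hm1 : S ^ (n + (n + 1) * j) * F ⊆ S ^ ((n + 1) * (j + 1)) * F :=
        R_sub_mul hS (by nlinarith)
      have hm2 : S ^ ((n + 1) * j) * F ⊆ S ^ ((n + 1) * (j + 1)) * F :=
        R_sub_mul hS (by nlinarith)
      rw [hZs]
      refine ((ih p hp).mono hm2).sub ?_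
      unfold d1
      refine SF.sub (SF.add ((h1 _ hp'.1).mono hm1) ?_) ((h1 _ hp'.2.2).mono hm1)
      rw [← e2]
      exact R_SF_tr hp'.1 (h1 _ hp'.2.1)
  set β : ℕ → G → Raw.L2 G := fun j g => ∑ i ∈ Finset.range j, Rh S t (Z i) g with hβ
  have hβZ : ∀ j p, z p - d1 (β j) p = Z j p := by
    intro j
    induction j with
    | zero =>
      intro p
      rw [hZ0]
      simp [hβ, d1]
    | succ j ih =>
      intro p
      have h1 : β (j + 1) = fun g => β j g + Rh S t (Z j) g := by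
        funext g
        simp only [hβ]
        rw [Finset.sum_range_succ]
      rw [h1, R_d1_add, hZs, ← ih p]
      abel
  refine ⟨β J, ?_, ?_⟩
  · intro g hg
    constructor
    · refine SF.sum fun i hi => ?_
      have hi' := Finset.mem_range.1 hi
      have h1 := R_SF_Rh ht (hSFZ i) hg
      rw [← mul_assoc, ← pow_add] at h1
      refine h1.mono (R_sub_mul hS ?_)
      nlinarith
    · refine (norm_sum_le _ _).trans ?_
      have h1 : ∀ i ∈ Finset.range J, ‖Rh S t (Z i) g‖ ≤ C2 * ((1 + 2 * C1) * M z) := by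
        intro i _
        exact (hh (Z i) g hg).trans (mul_le_mul_of_nonneg_left (hMZ i) hC20)
      refine (Finset.sum_le_sum h1).trans ?_
      rw [Finset.sum_const, Finset.card_range, nsmul_eq_mul]
      have h2 : 0 ≤ C2 * ((1 + 2 * C1) * M z) := by
        have := hM0 z
        positivity
      have h3 : (0 : ℝ) ≤ (J + 1) * M z := mul_nonneg (by positivity) (hM0 z)
      show (J : ℝ) * (C2 * ((1 + 2 * C1) * M z)) ≤ (1 + C2 * (1 + 2 * C1)) * (J + 1) * M z
      nlinarith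
  · intro V D hV
    have hloc : ∀ j, ∑ p ∈ RS S, ‖cut (Far S V (D + n * j)) (Z j p)‖ ≤ (1 / 4) ^ j * M z := by
      intro j
      induction j with
      | zero =>
        rw [pow_zero, one_mul, hZ0]
        exact Finset.sum_le_sum fun p _ => norm_cut_le _ _
      | succ j ih =>
        have hD : D + n * (j + 1) = D + n * j + n := by ring
        rw [hD]
        have h0 : ∀ T ∈ 𝒯, cut (Far S V (D + n * j)) (vl S z T) = 0 := by
          intro T hT
          ext x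
          by_cases hx : x ∈ Far S V (D + n * j)
          · rw [cut_of_mem hx, hV T hT x (far_anti hS V (Nat.le_add_right _ _) hx)]
            rfl
          · rw [cut_of_not_mem hx]
            rfl
        have h1 : ∀ p ∈ RS S, ‖cut (Far S V (D + n * j + n)) (Z (j + 1) p)‖ ≤
            ∑ q ∈ RS S, ‖TT (X p q)‖ * ‖cut (Far S V (D + n * j)) (Z j q)‖ := by
          intro p hp
          rw [hZid j p hp, map_add, map_sum, map_sum]
          have h2 : ∑ T ∈ 𝒯, cut (Far S V (D + n * j + n)) (TT (α p T) (vl S z T)) = 0 := by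
            apply Finset.sum_eq_zero
            intro T hT
            rw [loc_TT hS (hα p hp T hT), h0 T hT, map_zero, map_zero]
          rw [h2, zero_add]
          refine (norm_sum_le _ _).trans (Finset.sum_le_sum fun q hq => ?_)
          rw [loc_TT hS (hXs p hp q hq)]
          exact (norm_cut_le _ _).trans (ContinuousLinearMap.le_opNorm _ _)
        refine (Finset.sum_le_sum h1).trans ((hXsum _ fun q => norm_nonneg _).trans ?_)
        rw [pow_succ]
        nlinarith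
    have h1 : ∑ p ∈ RS S, ‖cut (Far S V (D + (n + 2) * (J + 1))) (z p - d1 (β J) p)‖ ≤
        ∑ p ∈ RS S, ‖cut (Far S V (D + n * J)) (Z J p)‖ := by
      refine Finset.sum_le_sum fun p _ => ?_
      rw [hβZ]
      exact norm_cut_mono (far_anti hS V (by nlinarith)) _
    exact h1.trans (hloc J)

end Pool.Agent.LibDehn83
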