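import Pool.Agent.LibDehn83.Words

/-!
Consequences of the vanishing of the homology with coefficients in the reduced group C*-algebra:
almost contractions with coefficients in the group algebra.
-/

set_option autoImplicit false

namespace Pool.Agent.LibDehn83

open Pool.Agent.LibZIS Pool.Agent.LibCod83
open scoped Pointwise

universe v

variable {G : Type} [Group G]

/-- the group algebra. -/
abbrev MA (G : Type) [Group G] := MonoidAlgebra ℂ G

/-- the group elements in the group algebra. -/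
noncomputable abbrev og (G : Type) [Group G] : G →* MA G := MonoidAlgebra.of ℂ G

section defs

variable [DecidableEq G] {A : Type} [Ring A] (ρ : G →* A)

/-- the coefficient of the edge `s` in the boundary of the triangle `p`. -/
def relA (p : G × G) (s : G) : A :=
  (if p.1 = s then 1 else 0) + ρ p.1 * (if p.2 = s then 1 else 0) - (if p.1 * p.2 = s then 1 else 0)

/-- the coefficient of the triangle `q` in the chain `T`. -/
noncomputable def cycA (T : Tri G →₀ ℤ) (q : G × G) : A :=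
  T.sum fun p n => if p.1 = q then n • ρ p.2⁻¹ else 0

/-- evaluation of a family on a chain of edges. -/
noncomputable def evE {V : Type} [AddCommGroup V] [Module A V] (b : G → V) :
    (Ed G →₀ ℤ) →+ V :=
  Finsupp.liftAddHom fun p => (zmultiplesHom V) (ρ p.2⁻¹ • b p.1)

/-- evaluation of a family on a chain of triangles. -/
noncomputable def evT {V : Type} [AddCommGroup V] [Module A V] (φ : G × G → V) :
    (Tri G →₀ ℤ) →+ V :=
  Finsupp.liftAddHom fun p => (zmultiplesHom V) (ρ p.2⁻¹ • φ p.1)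

end defs

section

variable {A : Type} [Ring A] (ρ : G →* A) {V : Type} [AddCommGroup V] [Module A V]

/-! ### row G0 -/

lemma evE_single (b : G → V) (p : Ed G) (n : ℤ) :
    evE ρ b (Finsupp.single p n) = n • (ρ p.2⁻¹ • b p.1) := by
  simp [evE]

lemma evT_single (φ : G × G → V) (p : Tri G) (n : ℤ) :
    evT ρ φ (Finsupp.single p n) = n • (ρ p.2⁻¹ • φ p.1) := by
  simp [evT]

/-- `ev (∂ T)` is the evaluation of the coboundary. -/
lemma evE_bdry (b : G → V) (T : Tri G →₀ ℤ) :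
    evE ρ b (bdry T) = evT ρ (fun p => b p.1 + ρ p.1 • b p.2 - b (p.1 * p.2)) T := by
  have key : (evE ρ b).comp bdry = evT ρ (fun p => b p.1 + ρ p.1 • b p.2 - b (p.1 * p.2)) := by
    apply Finsupp.addHom_ext
    intro p n
    rw [evT_single]
    simp only [AddMonoidHom.comp_apply, bdry, Finsupp.liftAddHom_apply_single,
      AddMonoidHom.sub_apply, AddMonoidHom.add_apply, Finsupp.singleAddHom_apply, map_add,
      map_sub, evE_single, mul_inv_rev, inv_inv, map_mul]
    rw [← smul_add, ← smul_sub, mul_smul, ← smul_add, ← smul_sub]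
  exact DFunLike.congr_fun key T

lemma evE_shE (b : G → V) (g : G) (c : Ed G →₀ ℤ) :
    evE ρ b (shE g⁻¹ c) = ρ g • evE ρ b c := by
  have key : (evE ρ b).comp (shE g⁻¹) =
      (DistribSMul.toAddMonoidHom V (ρ g)).comp (evE ρ b) := by
    apply Finsupp.addHom_ext
    intro p n
    simp only [AddMonoidHom.comp_apply, shE, Finsupp.mapDomain.addMonoidHom_apply,
      Finsupp.mapDomain_single, evE_single, DistribSMul.toAddMonoidHom_apply, mul_inv_rev, inv_inv,
      map_mul, mul_smul]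
    rw [smul_comm]
  exact DFunLike.congr_fun key c

lemma evT_shT (φ : G × G → V) (g : G) (T : Tri G →₀ ℤ) :
    evT ρ φ (shT g⁻¹ T) = ρ g • evT ρ φ T := by
  have key : (evT ρ φ).comp (shT g⁻¹) =
      (DistribSMul.toAddMonoidHom V (ρ g)).comp (evT ρ φ) := by
    apply Finsupp.addHom_ext
    intro p n
    simp only [AddMonoidHom.comp_apply, shT, Finsupp.mapDomain.addMonoidHom_apply,
      Finsupp.mapDomain_single, evT_single, DistribSMul.toAddMonoidHom_apply, mul_inv_rev, inv_inv,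
      map_mul, mul_smul]
    rw [smul_comm]
  exact DFunLike.congr_fun key T

lemma evT_apply (φ : G × G → V) (T : Tri G →₀ ℤ) :
    evT ρ φ T = T.sum fun p n => n • (ρ p.2⁻¹ • φ p.1) := by
  rw [evT, Finsupp.liftAddHom_apply]
  rfl

/-- evaluation only depends on the values on the triangles with sides in `S`. -/
lemma evT_congr {S : Finset G} (φ ψ : G × G → V)
    (h : ∀ p : G × G, p.1 ∈ S → p.2 ∈ S → p.1 * p.2 ∈ S → φ p = ψ p) {T : Tri G →₀ ℤ}
    (hT : InS S T) : evT ρ φ T = evT ρ ψ T := by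
  rw [evT_apply, evT_apply]
  refine Finset.sum_congr rfl fun p hp => ?_
  have := hT p hp
  simp only [h p.1 this.1 this.2.1 this.2.2]

/-- the evaluation of a cocycle on paths: `b(g) = Σ_i s₁ ⋯ s_{i-1} b(s_i)`. -/
lemma evE_chn (b : G → V) (hb : ∀ g h, b (g * h) = b g + ρ g • b h) (w : List G) (x : G) :
    evE ρ b (chn w x) = ρ x⁻¹ • b w.prod := by
  have h1 : b 1 = 0 := by
    have := hb 1 1
    rw [mul_one, map_one, one_smul] at this
    exact left_eq_add.mp this
  induction w generalizing x with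
  | nil => simp [chn, h1]
  | cons s w ih =>
    rw [chn, map_add, evE_single, ih, List.prod_cons, hb, one_smul, mul_inv_rev, inv_inv, map_mul,
      smul_add, mul_smul]

lemma evT_eq_sum [DecidableEq G] {S : Finset G} (φ : G × G → V) {T : Tri G →₀ ℤ}
    (hT : InS S T) : evT ρ φ T = ∑ q ∈ RS S, cycA ρ T q • φ q := by
  rw [evT_apply]
  simp only [cycA, Finsupp.sum, Finset.sum_smul]
  rw [Finset.sum_comm]
  refine Finset.sum_congr rfl fun p hp => ?_
  have hp' : p.1 ∈ RS S := by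
    have := hT p hp
    simp only [RS, Finset.mem_filter, Finset.mem_product]
    exact ⟨⟨this.1, this.2.1⟩, this.2.2⟩
  rw [Finset.sum_eq_single_of_mem p.1 hp' (fun q _ hq => by rw [if_neg (Ne.symm hq), zero_smul]),
    if_pos rfl]
  rw [smul_assoc]

end

section

variable [DecidableEq G] {E : Type v} [TopologicalSpace E] [PathConnectedSpace E]
  [MulAction G E] [ContinuousConstSMul G E] {S : Finset G}

/-! ### row G1 -/

omit [DecidableEq G] [PathConnectedSpace E] in
/-- degree zero, general coefficients. -/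
theorem gap0_aux {A : Type} [Ring A] (ρ : G →* A) (hS : Sys S) (x0 : E)
    (h0 : ¬ Nontrivial (Hgy ρ E 0)) : ∃ h : G → A, (1 : A) = ∑ s ∈ S, h s * (ρ s - 1) := by
  classical
  set I : Submodule A A := Submodule.span A ((fun s => ρ s - 1) '' (S : Set G)) with hI
  have hgen : ∀ w : List G, (∀ s ∈ w, s ∈ S) → ρ w.prod - 1 ∈ I := by
    intro w
    induction w with
    | nil => intro _; simp
    | cons s w ih =>
      intro hw
      have h1 := ih fun x hx => hw x (List.mem_cons_of_mem _ hx)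
      have h2 : ρ s - 1 ∈ I := Submodule.subset_span ⟨s, hw s List.mem_cons_self, rfl⟩
      have h3 : ρ (s :: w).prod - 1 = ρ s • (ρ w.prod - 1) + (ρ s - 1) := by
        rw [List.prod_cons, map_mul, smul_eq_mul, mul_sub, mul_one]
        abel
      rw [h3]
      exact I.add_mem (I.smul_mem _ h1) h2
  have h1 : (Submodule.Quotient.mk (1 : A) : A ⧸ I) = 0 := by
    refine invariant_zero_of_module ρ x0 h0 _ fun g => ?_
    obtain ⟨w, hw, rfl⟩ := hS.gen g
    rw [← Submodule.Quotient.mk_smul, Submodule.Quotient.eq, smul_eq_mul, mul_one]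
    exact hgen w hw
  rw [Submodule.Quotient.mk_eq_zero, hI, Submodule.mem_span_image_finset_iff_exists_fun] at h1
  obtain ⟨c, hc⟩ := h1
  refine ⟨fun s => if hs : s ∈ S then c ⟨s, hs⟩ else 0, ?_⟩
  refine hc.symm.trans ?_
  rw [← Finset.sum_coe_sort S]
  refine Finset.sum_congr rfl fun s _ => ?_
  simp only [dif_pos s.2]
  rfl

/-- degree zero. -/
theorem gap0 (hS : Sys S) (x0 : E) (h0 : ¬ Nontrivial (Hgy (lam G) E 0)) :
    ∃ h : G → Cr G, (1 : Cr G) = ∑ s ∈ S, h s * (lam G s - 1) :=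
  gap0_aux (lam G) hS x0 h0

/-- degree one. -/
theorem gap1 (hS : Sys S) (hfree : ∀ (g : G) (e : E), g • e = e → g = 1)
    (h0 : ¬ Nontrivial (Hgy (lam G) E 0)) (h1 : ¬ Nontrivial (Hgy (lam G) E 1)) :
    ∃ a : G → Cr G, ∀ s ∈ S, ∃ t : G × G → Cr G, ∀ s' : G,
      (if s = s' then (1 : Cr G) else 0) = (lam G s - 1) * a s' +
        ∑ p ∈ RS S, t p * relA (lam G) p s' := by
  obtain ⟨W, F, hW, hW1, hF, -⟩ := exists_choices hS
  set row : G × G → (S → Cr G) := fun p s' => relA (lam G) p s' with hrow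
  set N : Submodule (Cr G) (S → Cr G) := Submodule.span (Cr G) (row '' (RS S : Set (G × G)))
    with hN
  let b0 : G → ((S → Cr G) ⧸ N) := fun s =>
    Submodule.Quotient.mk fun s' : S => if s = (s' : G) then (1 : Cr G) else 0
  have hb0 : ∀ p : G × G, p.1 ∈ S → p.2 ∈ S → p.1 * p.2 ∈ S →
      b0 p.1 + lam G p.1 • b0 p.2 - b0 (p.1 * p.2) = 0 := by
    intro p h1 h2 h3
    have hp : row p ∈ N := Submodule.subset_span ⟨p, by
      simp only [RS, Finset.coe_filter, Set.mem_ofPred_eq, Finset.mem_product]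
      exact ⟨⟨h1, h2⟩, h3⟩, rfl⟩
    rw [← Submodule.Quotient.mk_eq_zero] at hp
    exact hp
  let b : G → ((S → Cr G) ⧸ N) := fun g => evE (lam G) b0 (chn (W g) 1)
  have hb : ∀ g h, b (g * h) = b g + lam G g • b h := by
    intro g h
    have e1 := congrArg (evE (lam G) b0) (hF g h).2
    rw [evE_bdry, map_sub, map_add, evE_shE] at e1
    have e2 : evT (lam G) (fun p => b0 p.1 + lam G p.1 • b0 p.2 - b0 (p.1 * p.2)) (F g h) = 0 := by
      rw [evT_congr (lam G) _ (fun _ => 0) hb0 (hF g h).1, evT_apply]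
      simp
    rw [e2] at e1
    exact (sub_eq_zero.1 e1.symm).symm
  obtain ⟨v, hv⟩ := coboundary_of_trivial (lam G) hfree h0 h1 b hb
  obtain ⟨a0, rfl⟩ := Submodule.Quotient.mk_surjective N v
  refine ⟨fun s' => if hs : s' ∈ S then a0 ⟨s', hs⟩ else 0, fun s hs => ?_⟩
  have e3 := hv s
  have e4 : b s = b0 s := by
    show evE (lam G) b0 (chn (W s) 1) = b0 s
    rw [hW1 s hs, chn_cons, chn_nil, add_zero, evE_single]
    simp
  rw [e4, ← Submodule.Quotient.mk_smul, ← Submodule.Quotient.mk_sub, Submodule.Quotient.eq, hN,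
    Submodule.mem_span_image_finset_iff_exists_fun] at e3
  obtain ⟨c, hc⟩ := e3
  refine ⟨fun p => if hp : p ∈ RS S then c ⟨p, hp⟩ else 0, fun s' => ?_⟩
  by_cases hs' : s' ∈ S
  · have e5 := congrFun hc ⟨s', hs'⟩
    simp only [dif_pos hs']
    simp only [Finset.sum_apply, Pi.smul_apply, Pi.sub_apply, smul_eq_mul, hrow] at e5
    rw [← Finset.sum_coe_sort (RS S)]
    have e6 : ∑ p : RS S, (if hp : (p : G × G) ∈ RS S then c ⟨p, hp⟩ else 0) *
        relA (lam G) (p : G × G) s' = ∑ p : RS S, c p * relA (lam G) (p : G × G) s' :=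
      Finset.sum_congr rfl fun p _ => by rw [dif_pos p.2]
    rw [e6, e5, sub_mul, one_mul]
    abel
  · simp only [dif_neg hs']
    rw [mul_zero, zero_add, if_neg (fun h : s = s' => hs' (h ▸ hs))]
    symm
    refine Finset.sum_eq_zero fun p hp => ?_
    simp only [RS, Finset.mem_filter, Finset.mem_product] at hp
    rw [relA, if_neg (fun h : p.1 = s' => hs' (h ▸ hp.1.1)),
      if_neg (fun h : p.2 = s' => hs' (h ▸ hp.1.2)), if_neg (fun h : p.1 * p.2 = s' => hs' (h ▸ hp.2))]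
    simp

/-! ### row G2 -/

/-- evaluation of the universal family of triangles. -/
lemma evT_univ {A : Type} [Ring A] (ρ : G →* A) (T : Tri G →₀ ℤ) :
    evT ρ (fun p : G × G => (Pi.single p 1 : G × G → A)) T = cycA ρ T := by
  funext q
  rw [evT, Finsupp.liftAddHom_apply, Finsupp.sum, Finset.sum_apply, cycA, Finsupp.sum]
  refine Finset.sum_congr rfl fun p _ => ?_
  rw [zmultiplesHom_apply, Pi.smul_apply, Pi.smul_apply, Pi.single_apply, smul_eq_mul]
  by_cases h : p.1 = q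
  · rw [if_pos h, if_pos h.symm, mul_one]
  · rw [if_neg h, if_neg (fun h2 => h h2.symm), mul_zero, smul_zero]

omit [DecidableEq G] in
/-- the cocycle defect of the standard fillings is a cycle. -/
lemma gap2_cycle {S : Finset G} {W : G → List G} {F : G → G → (Tri G →₀ ℤ)}
    (hF : ∀ g h, InS S (F g h) ∧
      bdry (F g h) = chn (W g) 1 + shE g⁻¹ (chn (W h) 1) - chn (W (g * h)) 1) (g h k : G) :
    InS S (shT g⁻¹ (F h k) - F (g * h) k + F g (h * k) - F g h) ∧
      bdry (shT g⁻¹ (F h k) - F (g * h) k + F g (h * k) - F g h) = 0 := by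
  constructor
  · rw [sub_eq_add_neg, sub_eq_add_neg]
    exact ((((hF h k).1.shT g⁻¹).add (hF (g * h) k).1.neg).add (hF g (h * k)).1).add
      (hF g h).1.neg
  · rw [map_sub, map_add, map_sub, bdry_shT, (hF h k).2, (hF (g * h) k).2, (hF g (h * k)).2,
      (hF g h).2, map_sub, map_add]
    have e : shE g⁻¹ (shE h⁻¹ (chn (W k) 1)) = shE (g * h)⁻¹ (chn (W k) 1) := by
      rw [shE_chn, shE_chn, shE_chn, mul_assoc, mul_inv_rev]
    rw [e, mul_assoc]
    abel

/-- degree two. -/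
theorem gap2 (hS : Sys S) (hfree : ∀ (g : G) (e : E), g • e = e → g = 1) (hE : H1Zero E)
    (h0 : ¬ Nontrivial (Hgy (lam G) E 0)) (h1 : ¬ Nontrivial (Hgy (lam G) E 1))
    (h2 : ¬ Nontrivial (Hgy (lam G) E 2)) :
    ∃ 𝒯 : Finset (Tri G →₀ ℤ), (∀ T ∈ 𝒯, InS S T ∧ bdry T = 0) ∧
      ∃ t : G → G × G → Cr G, ∀ p ∈ RS S, ∃ α : (Tri G →₀ ℤ) → Cr G, ∀ q : G × G,
        (if p = q then (1 : Cr G) else 0) = t p.1 q + lam G p.1 * t p.2 q - t (p.1 * p.2) q +
          ∑ T ∈ 𝒯, α T * cycA (lam G) T q := by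
  classical
  obtain ⟨W, F, -, -, hF, hFs⟩ := exists_choices hS
  let φ : G × G → (G × G → Cr G) := fun p => Pi.single p 1
  let K : Set (Tri G →₀ ℤ) := {T | InS S T ∧ bdry T = 0}
  let f : (Tri G →₀ ℤ) → (G × G → Cr G) := fun T => cycA (lam G) T
  let N : Submodule (Cr G) (G × G → Cr G) := Submodule.span (Cr G) (f '' K)
  have hev : ∀ T : Tri G →₀ ℤ, evT (lam G) φ T = f T := fun T => evT_univ (lam G) T
  have hsh : ∀ (g : G) (T : Tri G →₀ ℤ), f (shT g⁻¹ T) = lam G g • f T := by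
    intro g T
    rw [← hev, ← hev, evT_shT]
  have hadd : ∀ T T' : Tri G →₀ ℤ, f (T + T') = f T + f T' := by
    intro T T'
    rw [← hev, ← hev, ← hev, map_add]
  have hsub : ∀ T T' : Tri G →₀ ℤ, f (T - T') = f T - f T' := by
    intro T T'
    rw [← hev, ← hev, ← hev, map_sub]
  obtain ⟨c, hc⟩ := coboundary2_of_trivial (lam G) hfree hE h0 h1 h2
    (V := (G × G → Cr G) ⧸ N) (fun g h => N.mkQ (f (F g h))) (fun g h k => by
      rw [← map_smul, ← map_sub, ← map_add, ← map_sub, ← hsh, ← hsub, ← hadd, ← hsub,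
        Submodule.mkQ_apply, Submodule.Quotient.mk_eq_zero]
      exact Submodule.subset_span ⟨_, gap2_cycle hF g h k, rfl⟩)
  choose t ht using fun g => N.mkQ_surjective (c g)
  have key : ∀ p : G × G, p ∈ RS S → ∃ l : (Tri G →₀ ℤ) →₀ Cr G, (∀ T ∈ l.support, T ∈ K) ∧
      ∀ q : G × G, (if p = q then (1 : Cr G) else 0) =
        t p.1 q + lam G p.1 * t p.2 q - t (p.1 * p.2) q +
          ∑ T ∈ l.support, l T * cycA (lam G) T q := by
    intro p hp
    rw [RS, Finset.mem_filter, Finset.mem_product] at hp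
    have h3 := hc p.1 p.2
    rw [← ht p.2, ← ht (p.1 * p.2), ← ht p.1, ← map_smul, ← map_sub, ← map_add, ← sub_eq_zero,
      ← map_sub, Submodule.mkQ_apply, Submodule.Quotient.mk_eq_zero,
      Finsupp.mem_span_image_iff_linearCombination] at h3
    obtain ⟨l, hl, hl2⟩ := h3
    refine ⟨l, fun T hT => (Finsupp.mem_supported _ _).1 hl hT, fun q => ?_⟩
    have h4 := congrFun hl2 q
    rw [Finsupp.linearCombination_apply, Finsupp.sum, Finset.sum_apply, Pi.sub_apply,
      Pi.add_apply, Pi.sub_apply, Pi.smul_apply] at h4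
    have h5 : f (F p.1 p.2) q = if p = q then (1 : Cr G) else 0 := by
      rw [← hev, hFs p.1 p.2 hp.1.1 hp.1.2 hp.2, evT_single]
      show ((1 : ℤ) • ((lam G) (1 : G)⁻¹ • (Pi.single p 1 : G × G → Cr G))) q = _
      rw [one_smul, inv_one, map_one, one_smul, Pi.single_apply]
      by_cases h : p = q
      · rw [if_pos h, if_pos h.symm]
      · rw [if_neg h, if_neg (fun h2 => h h2.symm)]
    rw [h5, smul_eq_mul] at h4
    have h6 : ∑ T ∈ l.support, (l T • f T) q = ∑ T ∈ l.support, l T * cycA (lam G) T q :=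
      Finset.sum_congr rfl fun T _ => rfl
    rw [h6] at h4
    rw [h4]
    abel
  choose! l hl1 hl2 using key
  refine ⟨(RS S).biUnion fun p => (l p).support, ?_, t, fun p hp => ⟨l p, fun q => ?_⟩⟩
  · intro T hT
    rw [Finset.mem_biUnion] at hT
    obtain ⟨p, hp, hT⟩ := hT
    exact hl1 p hp T hT
  · rw [hl2 p hp q]
    congr 1
    refine Finset.sum_subset (Finset.subset_biUnion_of_mem (fun p => (l p).support) hp) ?_
    intro T _ hT
    rw [Finsupp.notMem_support_iff.1 hT, zero_mul]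

/-! ### row G3 -/

omit [DecidableEq G] in
lemma exists_apf {δ : ℝ} (hδ : 0 < δ) :
    ∃ f : Cr G → MA G, ∀ a, ‖nu G (a - kap (lam G) (f a))‖ ≤ δ := by
  choose f hf using fun a : Cr G => exists_approx a hδ
  exact ⟨f, fun a => (hf a).le⟩

omit [DecidableEq G] in
lemma kap_og (g : G) : kap (lam G) (og G g) = lam G g := by
  simp [kap]

lemma kap_relA (p : G × G) (s : G) :
    kap (lam G) (relA (og G) p s) = relA (lam G) p s := by
  have hite : ∀ (c : Prop) [Decidable c], kap (lam G) (if c then (1 : MA G) else 0) =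
      if c then (1 : Cr G) else 0 := by
    intro c _
    by_cases h : c
    · rw [if_pos h, if_pos h, map_one]
    · rw [if_neg h, if_neg h, map_zero]
  simp only [relA]
  rw [map_sub, map_add, map_mul, hite, hite, hite, kap_og]

lemma kap_cycA (T : Tri G →₀ ℤ) (q : G × G) :
    kap (lam G) (cycA (og G) T q) = cycA (lam G) T q := by
  simp only [cycA, Finsupp.sum]
  rw [map_sum]
  refine Finset.sum_congr rfl fun p _ => ?_
  by_cases h : p.1 = q
  · rw [if_pos h, if_pos h, map_zsmul, kap_og]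
  · rw [if_neg h, if_neg h, map_zero]

omit [DecidableEq G] in
lemma nu_mul_left_le {δ : ℝ} (b : Cr G) (a : Cr G) (ha : ‖nu G a‖ ≤ δ) :
    ‖nu G (b * a)‖ ≤ δ * ‖nu G b‖ := by
  rw [map_mul, mul_comm δ]
  exact (norm_mul_le _ _).trans (mul_le_mul_of_nonneg_left ha (norm_nonneg _))

omit [DecidableEq G] in
lemma nu_mul_right_le {δ : ℝ} (a : Cr G) (b : Cr G) (ha : ‖nu G a‖ ≤ δ) :
    ‖nu G (a * b)‖ ≤ δ * ‖nu G b‖ := by
  rw [map_mul]
  exact (norm_mul_le _ _).trans (mul_le_mul_of_nonneg_right ha (norm_nonneg _))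

omit [DecidableEq G] in
lemma nu_sum_le {ι : Type} (s : Finset ι) {δ : ℝ} (a b : ι → Cr G)
    (ha : ∀ i ∈ s, ‖nu G (a i)‖ ≤ δ) :
    ‖nu G (∑ i ∈ s, a i * b i)‖ ≤ δ * ∑ i ∈ s, ‖nu G (b i)‖ := by
  rw [map_sum, Finset.mul_sum]
  exact (norm_sum_le _ _).trans (Finset.sum_le_sum fun i hi => nu_mul_right_le _ _ (ha i hi))

lemma nu_sum_sub {A ι : Type} [Ring A] (s : Finset ι) (a b c : ι → A) :
    ∑ i ∈ s, (a i - b i) * c i = ∑ i ∈ s, a i * c i - ∑ i ∈ s, b i * c i := by
  simp only [sub_mul, Finset.sum_sub_distrib]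

/-- degree zero, over the group algebra. -/
theorem agap0 (h : ∃ h : G → Cr G, (1 : Cr G) = ∑ s ∈ S, h s * (lam G s - 1)) {ε : ℝ}
    (hε : 0 < ε) : ∃ (h : G → MA G) (x : MA G), ‖Raw.T G G x‖ ≤ ε ∧
      (1 : MA G) = ∑ s ∈ S, h s * (og G s - 1) + x := by
  obtain ⟨h, hh⟩ := h
  set B : ℝ := ∑ s ∈ S, ‖nu G (lam G s - 1)‖ with hB
  have hB0 : 0 ≤ B := Finset.sum_nonneg fun _ _ => norm_nonneg _
  have hC : 0 < 1 + B := by linarith
  set δ : ℝ := ε / (1 + B) with hδdef
  have hδ : 0 < δ := div_pos hε hC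
  have hδC : δ * (1 + B) = ε := div_mul_cancel₀ _ hC.ne'
  obtain ⟨f, hf⟩ := exists_apf (G := G) hδ
  refine ⟨fun s => f (h s), 1 - ∑ s ∈ S, f (h s) * (og G s - 1), ?_, (add_sub_cancel _ _).symm⟩
  have h1 : kap (lam G) (1 - ∑ s ∈ S, f (h s) * (og G s - 1)) =
      ∑ s ∈ S, (h s - kap (lam G) (f (h s))) * (lam G s - 1) := by
    have e1 : ∑ s ∈ S, (h s - kap (lam G) (f (h s))) * (lam G s - 1) =
        ∑ s ∈ S, h s * (lam G s - 1) - ∑ s ∈ S, kap (lam G) (f (h s)) * (lam G s - 1) :=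
      nu_sum_sub S h _ _
    rw [e1, ← hh, map_sub, map_sum, map_one]
    simp only [map_mul, map_sub, map_one, kap_og]
  rw [← nu_kap, h1]
  refine (nu_sum_le S _ _ fun s _ => hf (h s)).trans ?_
  nlinarith

/-- degree one, over the group algebra. -/
theorem agap1 (h : ∃ a : G → Cr G, ∀ s ∈ S, ∃ t : G × G → Cr G, ∀ s' : G,
      (if s = s' then (1 : Cr G) else 0) = (lam G s - 1) * a s' +
        ∑ p ∈ RS S, t p * relA (lam G) p s') {ε : ℝ} (hε : 0 < ε) :
    ∃ (a : G → MA G) (t : G → G × G → MA G) (X : G → G → MA G),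
      (∀ s ∈ S, ∀ s' ∈ S, ‖Raw.T G G (X s s')‖ ≤ ε) ∧ ∀ s ∈ S, ∀ s' ∈ S,
      (if s = s' then (1 : MA G) else 0) = (og G s - 1) * a s' +
        ∑ p ∈ RS S, t s p * relA (og G) p s' + X s s' := by
  obtain ⟨a, h⟩ := h
  choose! t ht using h
  set B1 : ℝ := ∑ s ∈ S, ‖nu G (lam G s - 1)‖ with hB1
  set B2 : ℝ := ∑ s' ∈ S, ∑ p ∈ RS S, ‖nu G (relA (lam G) p s')‖ with hB2
  have hB10 : 0 ≤ B1 := Finset.sum_nonneg fun _ _ => norm_nonneg _
  have hB20 : 0 ≤ B2 := Finset.sum_nonneg fun _ _ => Finset.sum_nonneg fun _ _ => norm_nonneg _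
  have hC : 0 < 1 + B1 + B2 := by linarith
  set δ : ℝ := ε / (1 + B1 + B2) with hδdef
  have hδ : 0 < δ := div_pos hε hC
  have hδC : δ * (1 + B1 + B2) = ε := div_mul_cancel₀ _ hC.ne'
  obtain ⟨f, hf⟩ := exists_apf (G := G) hδ
  refine ⟨fun s => f (a s), fun s p => f (t s p), fun s s' =>
    (if s = s' then (1 : MA G) else 0) - ((og G s - 1) * f (a s') +
      ∑ p ∈ RS S, f (t s p) * relA (og G) p s'), fun s hs s' hs' => ?_,
      fun s _ s' _ => (add_sub_cancel _ _).symm⟩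
  have hite : kap (lam G) (if s = s' then (1 : MA G) else 0) =
      if s = s' then (1 : Cr G) else 0 := by
    by_cases h : s = s'
    · rw [if_pos h, if_pos h, map_one]
    · rw [if_neg h, if_neg h, map_zero]
  have h1 : kap (lam G) ((if s = s' then (1 : MA G) else 0) - ((og G s - 1) * f (a s') +
      ∑ p ∈ RS S, f (t s p) * relA (og G) p s')) =
      (lam G s - 1) * (a s' - kap (lam G) (f (a s'))) +
        ∑ p ∈ RS S, (t s p - kap (lam G) (f (t s p))) * relA (lam G) p s' := by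
    have e1 := nu_sum_sub (RS S) (t s) (fun p => kap (lam G) (f (t s p)))
      (fun p => relA (lam G) p s')
    rw [e1, map_sub, map_add, map_sum, hite, ht s hs s']
    simp only [map_mul, map_sub, map_one, kap_og, kap_relA]
    rw [mul_sub]
    exact add_sub_add_comm _ _ _ _
  rw [← nu_kap, h1, map_add]
  refine (norm_add_le _ _).trans ?_
  have h2 := nu_mul_left_le (lam G s - 1) _ (hf (a s'))
  have h3 := nu_sum_le (RS S) (fun p => t s p - kap (lam G) (f (t s p)))
    (fun p => relA (lam G) p s') (fun p _ => hf (t s p))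
  have h4 : ‖nu G (lam G s - 1)‖ ≤ B1 :=
    Finset.single_le_sum (f := fun s => ‖nu G (lam G s - 1)‖) (fun _ _ => norm_nonneg _) hs
  have h5 : ∑ p ∈ RS S, ‖nu G (relA (lam G) p s')‖ ≤ B2 :=
    Finset.single_le_sum (f := fun s' => ∑ p ∈ RS S, ‖nu G (relA (lam G) p s')‖)
      (fun _ _ => Finset.sum_nonneg fun _ _ => norm_nonneg _) hs'
  have h6 := mul_le_mul_of_nonneg_left h4 hδ.le
  have h7 := mul_le_mul_of_nonneg_left h5 hδ.le
  nlinarith

/-- degree two, over the group algebra. -/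
theorem agap2 (𝒯 : Finset (Tri G →₀ ℤ))
    (h : ∃ t : G → G × G → Cr G, ∀ p ∈ RS S, ∃ α : (Tri G →₀ ℤ) → Cr G, ∀ q : G × G,
        (if p = q then (1 : Cr G) else 0) = t p.1 q + lam G p.1 * t p.2 q - t (p.1 * p.2) q +
          ∑ T ∈ 𝒯, α T * cycA (lam G) T q) {ε : ℝ} (hε : 0 < ε) :
    ∃ (t : G → G × G → MA G) (α : G × G → (Tri G →₀ ℤ) → MA G) (X : G × G → G × G → MA G),
      (∀ p ∈ RS S, ∀ q ∈ RS S, ‖Raw.T G G (X p q)‖ ≤ ε) ∧ ∀ p ∈ RS S, ∀ q ∈ RS S,
      (if p = q then (1 : MA G) else 0) = t p.1 q + og G p.1 * t p.2 q - t (p.1 * p.2) q +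
          ∑ T ∈ 𝒯, α p T * cycA (og G) T q + X p q := by
  obtain ⟨t, h⟩ := h
  choose! α hα using h
  set B1 : ℝ := ∑ p ∈ RS S, ‖nu G (lam G p.1)‖ with hB1
  set B2 : ℝ := ∑ q ∈ RS S, ∑ T ∈ 𝒯, ‖nu G (cycA (lam G) T q)‖ with hB2
  have hB10 : 0 ≤ B1 := Finset.sum_nonneg fun _ _ => norm_nonneg _
  have hB20 : 0 ≤ B2 := Finset.sum_nonneg fun _ _ => Finset.sum_nonneg fun _ _ => norm_nonneg _
  have hC : 0 < 2 + B1 + B2 := by linarith
  set δ : ℝ := ε / (2 + B1 + B2) with hδdef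
  have hδ : 0 < δ := div_pos hε hC
  have hδC : δ * (2 + B1 + B2) = ε := div_mul_cancel₀ _ hC.ne'
  obtain ⟨f, hf⟩ := exists_apf (G := G) hδ
  refine ⟨fun s q => f (t s q), fun p T => f (α p T), fun p q =>
    (if p = q then (1 : MA G) else 0) - (f (t p.1 q) + og G p.1 * f (t p.2 q) -
      f (t (p.1 * p.2) q) + ∑ T ∈ 𝒯, f (α p T) * cycA (og G) T q), fun p hp q hq => ?_,
      fun p _ q _ => (add_sub_cancel _ _).symm⟩
  have hite : kap (lam G) (if p = q then (1 : MA G) else 0) =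
      if p = q then (1 : Cr G) else 0 := by
    by_cases h : p = q
    · rw [if_pos h, if_pos h, map_one]
    · rw [if_neg h, if_neg h, map_zero]
  have h1 : kap (lam G) ((if p = q then (1 : MA G) else 0) -
      (f (t p.1 q) + og G p.1 * f (t p.2 q) -
      f (t (p.1 * p.2) q) + ∑ T ∈ 𝒯, f (α p T) * cycA (og G) T q)) =
      ((t p.1 q - kap (lam G) (f (t p.1 q))) +
        lam G p.1 * (t p.2 q - kap (lam G) (f (t p.2 q)))) -
        (t (p.1 * p.2) q - kap (lam G) (f (t (p.1 * p.2) q))) +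
        ∑ T ∈ 𝒯, (α p T - kap (lam G) (f (α p T))) * cycA (lam G) T q := by
    have e1 := nu_sum_sub 𝒯 (α p) (fun T => kap (lam G) (f (α p T)))
      (fun T => cycA (lam G) T q)
    rw [e1, map_sub, map_add, map_sub, map_add, map_sum, hite, hα p hp q]
    simp only [map_mul, kap_og, kap_cycA]
    rw [mul_sub, add_sub_add_comm, sub_sub_sub_comm, add_sub_add_comm]
  rw [← nu_kap, h1, map_add, map_sub, map_add]
  have h2 := nu_mul_left_le (lam G p.1) _ (hf (t p.2 q))
  have h3 := nu_sum_le 𝒯 (fun T => α p T - kap (lam G) (f (α p T)))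
    (fun T => cycA (lam G) T q) (fun T _ => hf (α p T))
  have h4 : ‖nu G (lam G p.1)‖ ≤ B1 :=
    Finset.single_le_sum (f := fun p : G × G => ‖nu G (lam G p.1)‖) (fun _ _ => norm_nonneg _) hp
  have h5 : ∑ T ∈ 𝒯, ‖nu G (cycA (lam G) T q)‖ ≤ B2 :=
    Finset.single_le_sum (f := fun q => ∑ T ∈ 𝒯, ‖nu G (cycA (lam G) T q)‖)
      (fun _ _ => Finset.sum_nonneg fun _ _ => norm_nonneg _) hq
  have h6 := mul_le_mul_of_nonneg_left h4 hδ.le
  have h7 := mul_le_mul_of_nonneg_left h5 hδ.le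
  have h8 := hf (t p.1 q)
  have h9 := hf (t (p.1 * p.2) q)
  have h10 := norm_add_le (nu G (t p.1 q - kap (lam G) (f (t p.1 q))) +
    nu G (lam G p.1 * (t p.2 q - kap (lam G) (f (t p.2 q)))) -
    nu G (t (p.1 * p.2) q - kap (lam G) (f (t (p.1 * p.2) q))))
    (nu G (∑ T ∈ 𝒯, (α p T - kap (lam G) (f (α p T))) * cycA (lam G) T q))
  have h11 := norm_sub_le (nu G (t p.1 q - kap (lam G) (f (t p.1 q))) +
    nu G (lam G p.1 * (t p.2 q - kap (lam G) (f (t p.2 q)))))
    (nu G (t (p.1 * p.2) q - kap (lam G) (f (t (p.1 * p.2) q))))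
  have h12 := norm_add_le (nu G (t p.1 q - kap (lam G) (f (t p.1 q))))
    (nu G (lam G p.1 * (t p.2 q - kap (lam G) (f (t p.2 q)))))
  nlinarith

end

end Pool.Agent.LibDehn83
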