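import Pool.Agent.LibDehn83.Flat

/-!
The unimodular function attached to a real valued function on the edges; rounding.
-/

set_option autoImplicit false

namespace Pool.Agent.LibDehn83

open Pool.Agent.LibZIS Pool.Agent.LibCod83 Pool.Agent.LibQF83
open scoped Pointwise

variable {G : Type} [Group G]

/-- the value of a function on the edges on a chain of edges. -/
noncomputable def prE (β : G → G → ℝ) (c : Ed G →₀ ℤ) : ℝ := c.sum fun p n => (n : ℝ) * β p.1 p.2

/-- the coboundary. -/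
def dE (β : G → G → ℝ) (p : Tri G) : ℝ :=
  β p.1.1 p.2 + β p.1.2 (p.1.1⁻¹ * p.2) - β (p.1.1 * p.1.2) p.2

/-! ### row H: holonomy -/

lemma prE_add (β : G → G → ℝ) (c c' : Ed G →₀ ℤ) : prE β (c + c') = prE β c + prE β c' := by
  classical
  unfold prE
  rw [Finsupp.sum_add_index']
  · intro p
    simp
  · intro p a b
    push_cast
    ring

lemma prE_neg (β : G → G → ℝ) (c : Ed G →₀ ℤ) : prE β (-c) = -prE β c := by
  unfold prE
  rw [Finsupp.sum_neg_index]
  · unfold Finsupp.sum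
    rw [← Finset.sum_neg_distrib]
    apply Finset.sum_congr rfl
    intro p _
    push_cast
    ring
  · intro p
    simp

lemma H_prE_single (β : G → G → ℝ) (p : Ed G) (n : ℤ) :
    prE β (Finsupp.single p n) = (n : ℝ) * β p.1 p.2 := by
  unfold prE
  rw [Finsupp.sum_single_index]
  simp

lemma H_prE_sub (β : G → G → ℝ) (c c' : Ed G →₀ ℤ) : prE β (c - c') = prE β c - prE β c' := by
  rw [sub_eq_add_neg, prE_add, prE_neg, sub_eq_add_neg]

lemma prE_bdry (β : G → G → ℝ) (T : Tri G →₀ ℤ) :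
    prE β (bdry T) = T.sum fun p n => (n : ℝ) * dE β p := by
  classical
  induction T using Finsupp.induction_linear with
  | zero =>
    rw [map_zero]
    simp [prE]
  | add T T' h h' =>
    rw [map_add, prE_add, h, h', Finsupp.sum_add_index']
    · intro p
      simp
    · intro p a b
      push_cast
      ring
  | single p n =>
    rw [bdry_single, H_prE_sub, prE_add, H_prE_single, H_prE_single, H_prE_single,
      Finsupp.sum_single_index (by simp)]
    unfold dE
    ring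

/-- the value on a boundary is an integer up to the mass times the distance of `dβ` from `z`. -/
lemma exists_int_bdry (β : G → G → ℝ) (z : Tri G → ℤ) (T : Tri G →₀ ℤ) {ε : ℝ}
    (h : ∀ p ∈ T.support, |(z p : ℝ) - dE β p| ≤ ε) :
    ∃ n : ℤ, |prE β (bdry T) - n| ≤ mass T * ε := by
  refine ⟨∑ p ∈ T.support, T p * z p, ?_⟩
  rw [prE_bdry]
  unfold Finsupp.sum mass
  push_cast
  rw [← Finset.sum_sub_distrib, Finset.sum_mul]
  refine (Finset.abs_sum_le_sum_abs _ _).trans (Finset.sum_le_sum fun p hp => ?_)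
  rw [← mul_sub, abs_mul, abs_sub_comm (dE β p)]
  have h1 : |((T p : ℤ) : ℝ)| = ((T p).natAbs : ℝ) := by
    rw [Nat.cast_natAbs, Int.cast_abs]
  rw [h1]
  exact mul_le_mul_of_nonneg_left (h p hp) (Nat.cast_nonneg _)

/-- the unimodular function. -/
theorem holonomy [DecidableEq G] {S : Finset G} (hS : Sys S) (β : G → G → ℝ) (z : Tri G → ℤ)
    (V : Set G) (D m Φ : ℕ) {A ε : ℝ} (hε : 0 ≤ ε) (hA : 0 ≤ A)
    (hz : ∀ p ∈ RS S, ∀ x ∈ Far S V D, |(z (p, x) : ℝ) - dE β (p, x)| ≤ ε)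
    (hfill : ∀ w : List G, Loop S w → w.length ≤ 4 * m → Fil S w A Φ) :
    ∃ s : UC G, AC s S (Far S V (D + 4 * m + Φ)) m (2 * Real.pi * ((A + 4 * m) * ε)) ∧
      ∀ g ∈ S, g ≠ 1 → ∀ x, s.σ g x = ex (β g x) := by
  obtain ⟨W, hW, hW1, hWS⟩ := exists_geod hS
  refine ⟨⟨fun g x => ex (prE β (chn (W g) x)), fun g x => norm_ex _, fun x => ?_⟩, ?_, ?_⟩
  · show ex (prE β (chn (W 1) x)) = 1
    rw [hW1, chn_nil]
    have h1 : prE β (0 : Ed G →₀ ℤ) = ((0 : ℤ) : ℝ) := by simp [prE]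
    rw [h1, ex_int]
  · intro g hg h hh x hx
    show ‖ex (prE β (chn (W (g * h)) x)) -
      ex (prE β (chn (W g) x)) * ex (prE β (chn (W h) (g⁻¹ * x)))‖ ≤ _
    -- points near `x`
    have hnear : ∀ w' : List G, (∀ s ∈ w', s ∈ S) → w'.length ≤ 4 * m →
        w'.prod⁻¹ * x ∈ Far S V (D + Φ) := by
      intro w' hw' hl
      have h1 : w'.prod ∈ S ^ (4 * m) := pow_mono hS hl (prod_mem_pow hw')
      apply far_shift hS h1
      have e : D + Φ + 4 * m = D + 4 * m + Φ := by omega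
      rw [e]
      exact hx
    have hlg : (W g).length ≤ m := by
      rw [(hW g).2.2]
      exact len_le hg
    have hlh : (W h).length ≤ m := by
      rw [(hW h).2.2]
      exact len_le hh
    have hlgh : (W (g * h)).length ≤ 2 * m := by
      rw [(hW (g * h)).2.2]
      have := mul_mem_pow hg hh
      rw [← two_mul] at this
      exact len_le this
    set w : List G := W g ++ W h ++ rv (W (g * h)) with hw
    have hwS : ∀ s ∈ w, s ∈ S := by
      intro s hs
      rw [hw, List.mem_append, List.mem_append] at hs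
      rcases hs with (hs | hs) | hs
      · exact (hW g).1 s hs
      · exact (hW h).1 s hs
      · exact rv_mem hS (hW (g * h)).1 s hs
    have hwp : w.prod = 1 := by
      rw [hw, List.prod_append, List.prod_append, rv_prod, (hW g).2.1, (hW h).2.1,
        (hW (g * h)).2.1, mul_inv_cancel]
    have hwl : w.length ≤ 4 * m := by
      rw [hw, List.length_append, List.length_append, rv_length]
      omega
    obtain ⟨T, hT1, hT2, hT3, hT4⟩ := hfill w ⟨hwS, hwp⟩ hwl
    obtain ⟨n1, hn1⟩ := exists_int_bdry β z (shT x T) (ε := ε) (by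
      intro p hp
      have hpS := (hT1.shT x) p hp
      have hpR : p.1 ∈ RS S :=
        Finset.mem_filter.2 ⟨Finset.mem_product.2 ⟨hpS.1, hpS.2.1⟩, hpS.2.2⟩
      apply hz p.1 hpR
      have h1 : (p.1, p.2 * x⁻¹) ∈ T.support := by
        rw [Finsupp.mem_support_iff] at hp ⊢
        rwa [shT_apply] at hp
      have h2 := hT4 _ h1
      simp only [Far, Set.mem_ofPred_eq] at h2
      push Not at h2
      obtain ⟨v, ⟨w', hw', hv⟩, h3⟩ := h2
      have h4 := hnear w' (fun s hs => hwS s (hw'.subset hs)) (hw'.length_le.trans hwl)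
      have h5 := far_shift' hS h3 h4
      rw [hv] at h5
      have e : p.2 * x⁻¹ * w'.prod⁻¹⁻¹ * (w'.prod⁻¹ * x) = p.2 := by group
      rw [e] at h5
      exact h5)
    obtain ⟨T2, hU1, hU2, hU3, hU4⟩ := exists_rv hS (W (g * h)) (hW (g * h)).1 x
    obtain ⟨n2, hn2⟩ := exists_int_bdry β z T2 (ε := ε) (by
      intro p hp
      have hpS := hU1 p hp
      have hpR : p.1 ∈ RS S :=
        Finset.mem_filter.2 ⟨Finset.mem_product.2 ⟨hpS.1, hpS.2.1⟩, hpS.2.2⟩
      apply hz p.1 hpR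
      obtain ⟨w', hw', e⟩ := hU4 p hp
      rw [e]
      exact far_anti hS V (by omega) (hnear w'
        (fun s hs => (hW (g * h)).1 s (hw'.subset hs)) ((hw'.length_le.trans hlgh).trans (by omega))))
    rw [bdry_shT, hT2, shE_chn, one_mul, mass_shT] at hn1
    have e1 : chn w x = chn (W g) x + chn (W h) (g⁻¹ * x) + chn (rv (W (g * h))) ((g * h)⁻¹ * x) := by
      rw [hw, chn_append, chn_append, List.prod_append, (hW g).2.1, (hW h).2.1]
    rw [e1, prE_add, prE_add] at hn1
    rw [hU2, prE_add, (hW (g * h)).2.1] at hn2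
    rw [← ex_add]
    refine (norm_ex_sub _ _ (n2 - n1)).trans ?_
    apply mul_le_mul_of_nonneg_left _ (by positivity)
    have b1 : (mass T : ℝ) * ε ≤ A * ε := mul_le_mul_of_nonneg_right hT3 hε
    have b2 : (mass T2 : ℝ) * ε ≤ 4 * m * ε := by
      apply mul_le_mul_of_nonneg_right _ hε
      have : mass T2 ≤ 4 * m := hU3.trans (by omega)
      exact_mod_cast this
    have c1 := abs_le.1 (hn1.trans b1)
    have c2 := abs_le.1 (hn2.trans b2)
    push_cast
    rw [abs_le]
    constructor <;> nlinarith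
  · intro g hg hg1 x
    show ex (prE β (chn (W g) x)) = ex (β g x)
    rw [hWS g hg hg1, chn_cons, chn_nil, add_zero, H_prE_single]
    simp

/-! ### row Q: rounding -/

/-- distance to the integers. -/
lemma exists_int_near (θ : ℝ) : ∃ n : ℤ, |θ - n| ≤ ‖ex θ - 1‖ ∧ |(n : ℝ)| ≤ |θ| + 1 / 2 ∧
    (θ = 0 → n = 0) := by
  obtain ⟨t, ht, ht'⟩ := exists_log (ex θ) (norm_ex _)
  obtain ⟨k, hk⟩ := exists_int_of_ex_eq_one (θ - t) (by
    rw [sub_eq_add_neg, ex_add, ex_neg, ht, mul_inv_cancel₀]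
    rw [← norm_ne_zero_iff, norm_ex]
    exact one_ne_zero)
  refine ⟨round θ, ?_, ?_, ?_⟩
  · refine (round_le θ k).trans ?_
    have h1 : θ - k = t := by linarith
    rw [h1]
    exact ht'
  · have h1 := abs_sub_round θ
    have h2 : ((round θ : ℤ) : ℝ) = θ - (θ - round θ) := by ring
    rw [h2]
    refine (abs_sub _ _).trans ?_
    linarith
  · rintro rfl
    exact round_zero

/-- the rounded logarithm of the normalised function. -/
lemma Q_near {w w' σ : ℂ} {η : ℝ} (hη : η ≤ 1 / 20) (h : ‖σ * w - w'‖ ≤ η)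
    (hσ : ‖σ‖ = 1) (h1 : |‖w‖ - 1| ≤ η) (h2 : |‖w'‖ - 1| ≤ η) :
    ‖σ * (w / ‖w‖) - w' / ‖w'‖‖ ≤ 3 * η := by
  have hw : 0 < ‖w‖ := by
    have := (abs_le.1 h1).1
    linarith
  have hw' : 0 < ‖w'‖ := by
    have := (abs_le.1 h2).1
    linarith
  have a1 : ‖σ * (w / ‖w‖) - σ * w‖ ≤ η := by
    have e : σ * (w / ‖w‖) - σ * w = σ * (w / ‖w‖) * ((1 - ‖w‖ : ℝ) : ℂ) := by
      have : (‖w‖ : ℂ) ≠ 0 := by exact_mod_cast hw.ne'
      push_cast
      field_simp
    rw [e, norm_mul, norm_mul, hσ, norm_div, Complex.norm_real, Complex.norm_real, norm_norm,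
      div_self hw.ne', Real.norm_eq_abs, abs_sub_comm]
    simpa using h1
  have a2 : ‖w' - w' / ‖w'‖‖ ≤ η := by
    have e : w' - w' / ‖w'‖ = (w' / ‖w'‖) * ((‖w'‖ - 1 : ℝ) : ℂ) := by
      have : (‖w'‖ : ℂ) ≠ 0 := by exact_mod_cast hw'.ne'
      push_cast
      field_simp
    rw [e, norm_mul, norm_div, Complex.norm_real, Complex.norm_real, norm_norm,
      div_self hw'.ne', Real.norm_eq_abs]
    simpa using h2
  have e : σ * (w / ‖w‖) - w' / ‖w'‖ =
      (σ * (w / ‖w‖) - σ * w) + (σ * w - w') + (w' - w' / ‖w'‖) := by ring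
  rw [e]
  refine (norm_add_le _ _).trans ?_
  have := norm_add_le (σ * (w / ‖w‖) - σ * w) (σ * w - w')
  linarith

theorem rounding [DecidableEq G] {S : Finset G} (hS : Sys S) (s : UC G) (β : G → G → ℝ)
    (z : Tri G → ℤ) (v : G → ℂ) (Ω Ω' : Set G) {η : ℝ} (hη : η ≤ 1 / 20)
    (hΩ : ∀ x ∈ Ω', ∀ g ∈ S, g⁻¹ * x ∈ Ω)
    (hσ : ∀ g ∈ S, g ≠ 1 → ∀ x, s.σ g x = ex (β g x))
    (hz : ∀ p ∈ RS S, ∀ x ∈ Ω, |(z (p, x) : ℝ) - dE β (p, x)| ≤ η)
    (h1 : ∀ x ∈ Ω, ‖ex (β 1 x) - 1‖ ≤ η)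
    (hw : ∀ g ∈ S, ∀ x ∈ Ω, ‖s.σ g x * (1 - v (g⁻¹ * x)) - (1 - v x)‖ ≤ η)
    (he : ∀ x ∈ Ω, |‖1 - v x‖ - 1| ≤ η) (he' : ∀ x ∈ Ω, ∀ g ∈ S, |‖1 - v (g⁻¹ * x)‖ - 1| ≤ η)
    (F : Finset G) (hF : ∀ g ∈ S, ∀ x, β g x ≠ 0 → x ∈ F) (hF' : ∀ x, v x ≠ 0 → x ∈ F) :
    ∃ n : Ed G →₀ ℤ, (∀ q ∈ n.support, q.1 ∈ S ∧ q.2 ∈ S * F) ∧
      (∀ q, |(n q : ℝ)| ≤ |β q.1 q.2| + 5) ∧
      ∀ p ∈ RS S, ∀ x ∈ Ω', z (p, x) = n (p.1, x) + n (p.2, p.1⁻¹ * x) - n (p.1 * p.2, x) := by
  classical
  set y : G → ℂ := fun x => if 1 - v x = 0 then 1 else (1 - v x) / ‖1 - v x‖ with hy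
  have hyn : ∀ x, ‖y x‖ = 1 := by
    intro x
    simp only [hy]
    split_ifs with h
    · exact norm_one
    · rw [norm_div, Complex.norm_real, norm_norm, div_self (norm_ne_zero_iff.2 h)]
  choose l hl hl' using fun x => exists_log (y x) (hyn x)
  have hl2 : ∀ x, |l x| ≤ 2 := by
    intro x
    refine (hl' x).trans ((norm_sub_le _ _).trans ?_)
    rw [hyn, norm_one]
    norm_num
  have hl0 : ∀ x, v x = 0 → l x = 0 := by
    intro x hx
    have h2 : y x = 1 := by
      simp [hy, hx]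
    have h3 := hl' x
    rw [h2, sub_self, norm_zero] at h3
    exact abs_nonpos_iff.1 h3
  set θ : G → G → ℝ := fun g x => β g x + l (g⁻¹ * x) - l x with hθ
  choose N hN1 hN2 hN3 using fun g x => exists_int_near (θ g x)
  -- the rounded function has finite support
  have hsupp : ∀ g ∈ S, ∀ x, N g x ≠ 0 → x ∈ S * F := by
    intro g hg x hx
    by_contra hcon
    apply hx
    apply hN3
    have h2 : x ∉ F := fun h => hcon (by
      have := Finset.mul_mem_mul hS.one h
      rwa [one_mul] at this)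
    have h3 : g⁻¹ * x ∉ F := fun h => hcon (by
      have := Finset.mul_mem_mul hg h
      rwa [mul_inv_cancel_left] at this)
    have h4 : β g x = 0 := by
      by_contra h
      exact h2 (hF g hg x h)
    have h5 : l x = 0 := hl0 x (by
      by_contra h
      exact h2 (hF' x h))
    have h6 : l (g⁻¹ * x) = 0 := hl0 _ (by
      by_contra h
      exact h3 (hF' _ h))
    simp only [hθ, h4, h5, h6]
    ring
  set n : Ed G →₀ ℤ := Finsupp.onFinset (S ×ˢ (S * F))
    (fun q => if q.1 ∈ S then N q.1 q.2 else 0) (by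
      intro q hq
      have h2 : q.1 ∈ S := by
        by_contra h
        exact hq (if_neg h)
      rw [Finset.mem_product]
      refine ⟨h2, hsupp q.1 h2 q.2 ?_⟩
      rw [if_pos h2] at hq
      exact hq) with hn
  have hnS : ∀ g ∈ S, ∀ x, n (g, x) = N g x := by
    intro g hg x
    rw [hn, Finsupp.onFinset_apply]
    exact if_pos hg
  refine ⟨n, ?_, ?_, ?_⟩
  · intro q hq
    have h2 := Finsupp.support_onFinset_subset hq
    exact Finset.mem_product.1 h2
  · intro q
    by_cases hq : q.1 ∈ S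
    · have h2 : n q = N q.1 q.2 := hnS q.1 hq q.2
      rw [h2]
      refine (hN2 q.1 q.2).trans ?_
      have h3 : |θ q.1 q.2| ≤ |β q.1 q.2| + 2 + 2 := by
        simp only [hθ]
        refine (abs_sub _ _).trans ?_
        have := abs_add_le (β q.1 q.2) (l (q.1⁻¹ * q.2))
        have := hl2 (q.1⁻¹ * q.2)
        have := hl2 q.2
        linarith
      linarith
    · have h2 : n q = 0 := by
        rw [hn, Finsupp.onFinset_apply]
        exact if_neg hq
      rw [h2]
      simp only [Int.cast_zero, abs_zero]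
      positivity
  · intro p hp x hx
    have hp' : p.1 ∈ S ∧ p.2 ∈ S ∧ p.1 * p.2 ∈ S := by
      have := Finset.mem_filter.1 hp
      exact ⟨(Finset.mem_product.1 this.1).1, (Finset.mem_product.1 this.1).2, this.2⟩
    have hxΩ : x ∈ Ω := by
      have := hΩ x hx 1 hS.one
      rwa [inv_one, one_mul] at this
    have hx1 : p.1⁻¹ * x ∈ Ω := hΩ x hx p.1 hp'.1
    have hη0 : 0 ≤ η := (abs_nonneg _).trans (he x hxΩ)
    have key : ∀ g ∈ S, ∀ x ∈ Ω, |θ g x - N g x| ≤ 3 * η := by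
      intro g hg x hx
      refine (hN1 g x).trans ?_
      by_cases h1g : g = 1
      · have e : θ g x = β 1 x := by
          simp only [hθ, h1g, inv_one, one_mul]
          ring
        rw [e]
        have := h1 x hx
        linarith
      · have hne : ∀ x, |‖1 - v x‖ - 1| ≤ η → y x = (1 - v x) / ‖1 - v x‖ := by
          intro x hx
          have h3 : 1 - v x ≠ 0 := by
            intro h4
            rw [h4, norm_zero] at hx
            have := (abs_le.1 hx).1
            linarith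
          simp only [hy, if_neg h3]
        have h4 := Q_near hη (hw g hg x hx) (s.norm g x) (he' x hx g hg) (he x hx)
        rw [← hne _ (he' x hx g hg), ← hne _ (he x hx)] at h4
        have h5 : ex (θ g x) = s.σ g x * y (g⁻¹ * x) * (y x)⁻¹ := by
          simp only [hθ]
          rw [sub_eq_add_neg, ex_add, ex_add, ex_neg, hl, hl, hσ g hg h1g]
        have h6 : y x ≠ 0 := by
          rw [← norm_ne_zero_iff, hyn]
          exact one_ne_zero
        have h7 : ex (θ g x) - 1 = (s.σ g x * y (g⁻¹ * x) - y x) * (y x)⁻¹ := by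
          rw [h5, sub_mul, mul_inv_cancel₀ h6]
        rw [h7, norm_mul, norm_inv, hyn, inv_one, mul_one]
        exact h4
    rw [hnS _ hp'.1, hnS _ hp'.2.1, hnS _ hp'.2.2]
    have k1 := abs_le.1 (key p.1 hp'.1 x hxΩ)
    have k2 := abs_le.1 (key p.2 hp'.2.1 (p.1⁻¹ * x) hx1)
    have k3 := abs_le.1 (key (p.1 * p.2) hp'.2.2 x hxΩ)
    have k4 := abs_le.1 (hz p hp x hxΩ)
    have e1 : dE β (p, x) = θ p.1 x + θ p.2 (p.1⁻¹ * x) - θ (p.1 * p.2) x := by
      simp only [dE, hθ, mul_inv_rev, mul_assoc]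
      ring
    rw [e1] at k4
    have h8 : |((z (p, x) - (N p.1 x + N p.2 (p.1⁻¹ * x) - N (p.1 * p.2) x) : ℤ) : ℝ)| < 1 := by
      push_cast
      rw [abs_lt]
      constructor <;> linarith
    have h9 : z (p, x) - (N p.1 x + N p.2 (p.1⁻¹ * x) - N (p.1 * p.2) x) = 0 := by
      rw [← Int.abs_lt_one_iff]
      exact_mod_cast h8
    linarith

end Pool.Agent.LibDehn83
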