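import Pool.Agent.LibDehn83.Modu

/-!
A nontrivial class in the second homology of the module.
-/

set_option autoImplicit false

namespace Pool.Agent.LibDehn83

open Pool.Agent.LibZIS Pool.Agent.LibCod83 Pool.Agent.LibQF83 Filter Topology
open scoped Pointwise

variable {G : Type} [Group G] [DecidableEq G]

/-! ### row P4: from arbitrary triangles to triangles with sides in `S` -/

lemma P4_mass_eq {α : Type} (T : α →₀ ℤ) {s : Finset α} (hs : T.support ⊆ s) :
    mass T = ∑ p ∈ s, (T p).natAbs := by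
  unfold mass
  apply Finset.sum_subset hs
  intro x _ hx
  rw [Finsupp.notMem_support_iff.mp hx]
  rfl

lemma P4_mass_zsmul {α : Type} (n : ℤ) (T : α →₀ ℤ) : mass (n • T) ≤ n.natAbs * mass T := by
  rw [P4_mass_eq (n • T) (Finsupp.support_smul (b := n) (g := T))]
  unfold mass
  rw [Finset.mul_sum]
  apply le_of_eq
  refine Finset.sum_congr rfl fun p _ => ?_
  rw [Finsupp.smul_apply, smul_eq_mul, Int.natAbs_mul]

lemma P4_mass_sum {α β : Type} (s : Finset β) (f : β → (α →₀ ℤ)) :
    mass (∑ b ∈ s, f b) ≤ ∑ b ∈ s, mass (f b) := by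
  classical
  induction s using Finset.induction_on with
  | empty => simp [mass]
  | insert a s ha ih =>
    rw [Finset.sum_insert ha, Finset.sum_insert ha]
    exact (mass_add_le _ _).trans (by omega)

omit [DecidableEq G] in
lemma P4_InS_zsmul {S : Finset G} {T : Tri G →₀ ℤ} (h : InS S T) (n : ℤ) : InS S (n • T) :=
  fun p hp => h p (Finsupp.support_smul hp)

lemma P4_InS_sum {β : Type} {S : Finset G} (s : Finset β) (f : β → (Tri G →₀ ℤ))
    (h : ∀ b ∈ s, InS S (f b)) : InS S (∑ b ∈ s, f b) := by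
  classical
  intro p hp
  obtain ⟨b, hb, hpb⟩ := Finset.mem_biUnion.mp (Finsupp.support_finsetSum hp)
  exact h b hb p hpb

/-- the comparison map of triangles. -/
noncomputable def P4_P (F : G → G → (Tri G →₀ ℤ)) : (Tri G →₀ ℤ) →+ (Tri G →₀ ℤ) :=
  Finsupp.liftAddHom fun p => (zmultiplesHom (Tri G →₀ ℤ)) (shT p.2 (F p.1.1 p.1.2))

/-- the comparison map of edges. -/
noncomputable def P4_Q (W : G → List G) : (Ed G →₀ ℤ) →+ (Ed G →₀ ℤ) :=
  Finsupp.liftAddHom fun p => (zmultiplesHom (Ed G →₀ ℤ)) (chn (W p.1) p.2)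

omit [DecidableEq G] in
lemma P4_P_single (F : G → G → (Tri G →₀ ℤ)) (p : Tri G) (n : ℤ) :
    P4_P F (Finsupp.single p n) = n • shT p.2 (F p.1.1 p.1.2) := by
  simp [P4_P]

omit [DecidableEq G] in
lemma P4_Q_single (W : G → List G) (p : Ed G) (n : ℤ) :
    P4_Q W (Finsupp.single p n) = n • chn (W p.1) p.2 := by
  simp [P4_Q]

omit [DecidableEq G] in
lemma P4_P_eq (F : G → G → (Tri G →₀ ℤ)) (T : Tri G →₀ ℤ) :
    P4_P F T = ∑ p ∈ T.support, T p • shT p.2 (F p.1.1 p.1.2) := by
  have h0 : T = ∑ p ∈ T.support, Finsupp.single p (T p) := T.sum_single.symm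
  conv_lhs => rw [h0]
  rw [map_sum]
  refine Finset.sum_congr rfl fun p _ => ?_
  rw [P4_P_single]

/-- the comparison map: triangles with labels `g, h` are replaced by chains of small triangles,
uniformly on finite sets of labels. -/
theorem exists_push {S : Finset G} (hS : Sys S) : ∃ P : (Tri G →₀ ℤ) →+ (Tri G →₀ ℤ),
    (∀ T, InS S (P T)) ∧ (∀ T, InS S T → P T = T) ∧
    (∀ T, bdry T = 0 → bdry (P T) = 0) ∧
    ∀ Λ : Finset (G × G), ∃ N : ℕ, ∀ T : Tri G →₀ ℤ, (∀ q ∈ T.support, q.1 ∈ Λ) →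
      mass (P T) ≤ N * mass T ∧ ∀ q ∈ (P T).support, ∃ q' ∈ T.support, q.2 * q'.2⁻¹ ∈ S ^ N := by
  obtain ⟨W, F, hW, -, hF, hF1⟩ := exists_choices hS
  refine ⟨P4_P F, ?_, ?_, ?_, ?_⟩
  · intro T
    rw [P4_P_eq]
    exact P4_InS_sum _ _ fun p _ => P4_InS_zsmul ((hF p.1.1 p.1.2).1.shT p.2) _
  · intro T hT
    rw [P4_P_eq]
    conv_rhs => rw [show T = ∑ p ∈ T.support, Finsupp.single p (T p) from T.sum_single.symm]
    refine Finset.sum_congr rfl fun p hp => ?_
    obtain ⟨h1, h2, h3⟩ := hT p hp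
    rw [hF1 p.1.1 p.1.2 h1 h2 h3, shT_single, one_mul, Finsupp.smul_single, smul_eq_mul, mul_one]
  · intro T hT
    have h1 : bdry.comp (P4_P F) = (P4_Q W).comp bdry := by
      apply Finsupp.addHom_ext
      intro p n
      rw [AddMonoidHom.comp_apply, AddMonoidHom.comp_apply, P4_P_single, map_zsmul, bdry_shT,
        (hF p.1.1 p.1.2).2, map_sub, map_add, shE_chn, shE_chn, shE_chn, shE_chn, bdry_single,
        map_sub, map_add, P4_Q_single, P4_Q_single, P4_Q_single, smul_sub, smul_add, one_mul,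
        one_mul]
    have h2 := DFunLike.congr_fun h1 T
    rw [AddMonoidHom.comp_apply, AddMonoidHom.comp_apply, hT, map_zero] at h2
    exact h2
  · intro Λ
    obtain ⟨n, hn⟩ := exists_subset_pow hS
      (Λ.biUnion fun q => (F q.1 q.2).support.image fun p => p.2)
    set N1 : ℕ := ∑ q ∈ Λ, mass (F q.1 q.2) with hN1
    refine ⟨N1 + n, fun T hT => ⟨?_, ?_⟩⟩
    · rw [P4_P_eq]
      refine (P4_mass_sum _ _).trans ?_
      have h1 : ∀ p ∈ T.support, mass (T p • shT p.2 (F p.1.1 p.1.2)) ≤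
          (N1 + n) * (T p).natAbs := by
        intro p hp
        refine (P4_mass_zsmul _ _).trans ?_
        rw [mass_shT]
        have h2 : mass (F p.1.1 p.1.2) ≤ N1 :=
          Finset.single_le_sum (f := fun q : G × G => mass (F q.1 q.2))
            (fun _ _ => Nat.zero_le _) (hT p hp)
        calc (T p).natAbs * mass (F p.1.1 p.1.2) ≤ (T p).natAbs * (N1 + n) :=
              Nat.mul_le_mul_left _ (by omega)
          _ = _ := Nat.mul_comm _ _
      refine (Finset.sum_le_sum h1).trans (le_of_eq ?_)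
      rw [← Finset.mul_sum]
      rfl
    · intro q hq
      rw [P4_P_eq] at hq
      obtain ⟨q', hq', hqq⟩ := Finset.mem_biUnion.mp (Finsupp.support_finsetSum hq)
      refine ⟨q', hq', ?_⟩
      have h1 : q ∈ (shT q'.2 (F q'.1.1 q'.1.2)).support := Finsupp.support_smul hqq
      rw [Finsupp.mem_support_iff, shT_apply] at h1
      have h2 : (q.1, q.2 * q'.2⁻¹) ∈ (F q'.1.1 q'.1.2).support :=
        Finsupp.mem_support_iff.mpr h1
      apply pow_mono hS (Nat.le_add_left n N1)
      apply hn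
      refine Finset.mem_biUnion.mpr ⟨q'.1, hT q' hq', ?_⟩
      exact Finset.mem_image.mpr ⟨_, h2, rfl⟩

/-! ### row P5 -/

/-- the boundary of a 3-simplex. -/
noncomputable def bd3 : ((G × G × G) × G →₀ ℤ) →+ (Tri G →₀ ℤ) :=
  Finsupp.liftAddHom fun p =>
    Finsupp.singleAddHom ((p.1.2.1, p.1.2.2), p.1.1⁻¹ * p.2) -
      Finsupp.singleAddHom ((p.1.1 * p.1.2.1, p.1.2.2), p.2) +
      Finsupp.singleAddHom ((p.1.1, p.1.2.1 * p.1.2.2), p.2) -
      Finsupp.singleAddHom ((p.1.1, p.1.2.1), p.2)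

omit [DecidableEq G] in
lemma bd3_single (p : (G × G × G) × G) (n : ℤ) : bd3 (Finsupp.single p n) =
    Finsupp.single ((p.1.2.1, p.1.2.2), p.1.1⁻¹ * p.2) n -
      Finsupp.single ((p.1.1 * p.1.2.1, p.1.2.2), p.2) n +
      Finsupp.single ((p.1.1, p.1.2.1 * p.1.2.2), p.2) n -
      Finsupp.single ((p.1.1, p.1.2.1), p.2) n := by
  simp [bd3]

omit [DecidableEq G] in
lemma bdry_bd3 (w : (G × G × G) × G →₀ ℤ) : bdry (bd3 w) = 0 := by
  induction w using Finsupp.induction_linear with
  | zero => rw [map_zero, map_zero]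
  | add x y hx hy => rw [map_add, map_add, hx, hy, add_zero]
  | single p n =>
    obtain ⟨⟨g, h, k⟩, x⟩ := p
    rw [bd3_single]
    simp only [map_add, map_sub, bdry_single]
    rw [mul_inv_rev, mul_assoc, mul_assoc]
    abel

/-! ### the chains with values in the sequences -/

/-- the values at the index `r` of a chain with values in the sequences. -/
noncomputable def evc (c : Dt G) (α : Type) (r : ℕ) : (α →₀ ZZ c) →+ (α × G →₀ ℤ) :=
  Finsupp.liftAddHom fun p =>
    (Finsupp.mapDomain.addMonoidHom (M := ℤ) (fun x : G => (p, x))).comp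
      ((Pi.evalAddMonoidHom (fun _ : ℕ => (G →₀ ℤ)) r).comp (ZZ c).subtype)

lemma evc_single (c : Dt G) {α : Type} (r : ℕ) (p : α) (u : ZZ c) :
    evc c α r (Finsupp.single p u) = Finsupp.mapDomain (fun x : G => (p, x)) (u.1 r) := by
  simp [evc]

lemma evc_apply (c : Dt G) {α : Type} (r : ℕ) (δ : α →₀ ZZ c) (p : α) (x : G) :
    evc c α r δ (p, x) = (δ p).1 r x := by
  classical
  induction δ using Finsupp.induction_linear with
  | zero => rw [map_zero]; rfl
  | add δ δ' h h' =>
    rw [map_add, Finsupp.add_apply, h, h', Finsupp.add_apply]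
    rfl
  | single q u =>
    rw [evc_single]
    by_cases hq : q = p
    · subst hq
      rw [Finsupp.single_eq_same]
      exact Finsupp.mapDomain_apply (fun a b hab => (Prod.ext_iff.1 hab).2) _ _
    · rw [Finsupp.single_eq_of_ne (Ne.symm hq), Finsupp.mapDomain_of_notMem_range]
      · rfl
      · rintro ⟨y, hy⟩
        exact hq (Prod.ext_iff.1 hy).1

/-- the class of a sequence, as a homomorphism. -/
noncomputable def mkH (c : Dt G) : ZZ c →+ MM c := QuotientAddGroup.mk' (NN c)

lemma mkH_apply (c : Dt G) (u : ZZ c) : mkH c u = mk c u := rfl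

/-- the classes of the coefficients. -/
noncomputable def clc (c : Dt G) (α : Type) : (α →₀ ZZ c) →+ (α →₀ MM c) :=
  Finsupp.mapRange.addMonoidHom (mkH c)

lemma clc_single (c : Dt G) {α : Type} (p : α) (u : ZZ c) :
    clc c α (Finsupp.single p u) = Finsupp.single p (mk c u) := by
  simp [clc, mkH_apply]

lemma clc_apply (c : Dt G) {α : Type} (δ : α →₀ ZZ c) (p : α) :
    clc c α δ p = mk c (δ p) := rfl

lemma clc_surj (c : Dt G) {α : Type} (ω : α →₀ MM c) : ∃ δ, clc c α δ = ω := by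
  induction ω using Finsupp.induction_linear with
  | zero => exact ⟨0, map_zero _⟩
  | add x y hx hy =>
    obtain ⟨a, rfl⟩ := hx
    obtain ⟨b, rfl⟩ := hy
    exact ⟨a + b, map_add _ _ _⟩
  | single p a =>
    obtain ⟨u, rfl⟩ := mk_surj c a
    exact ⟨Finsupp.single p u, clc_single c p u⟩

/-- the size of the values. -/
lemma exists_sq_evc (c : Dt G) {α : Type} (δ : α →₀ ZZ c) :
    ∃ C : ℕ, ∀ r, sq (evc c α r δ) ≤ Real.exp (C * c.L r) := by
  induction δ using Finsupp.induction_linear with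
  | zero =>
    refine ⟨0, fun r => ?_⟩
    rw [map_zero]
    simp only [sq, Finsupp.support_zero, Finset.sum_empty]
    exact (Real.exp_pos _).le
  | add x y hx hy =>
    obtain ⟨C, hC⟩ := hx
    obtain ⟨D, hD⟩ := hy
    refine ⟨C + D + 2, fun r => ?_⟩
    rw [map_add]
    refine (sq_add_le _ _).trans ?_
    have hL : (1 : ℝ) ≤ c.L r := by exact_mod_cast c.one_le r
    have h1 : Real.exp (C * c.L r) ≤ Real.exp ((C + D : ℕ) * c.L r) := by
      apply Real.exp_le_exp.2
      push_cast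
      have : (0 : ℝ) ≤ (D : ℝ) * c.L r := by positivity
      nlinarith
    have h2 : Real.exp (D * c.L r) ≤ Real.exp ((C + D : ℕ) * c.L r) := by
      apply Real.exp_le_exp.2
      push_cast
      have : (0 : ℝ) ≤ (C : ℝ) * c.L r := by positivity
      nlinarith
    have h3 : (4 : ℝ) ≤ Real.exp (2 * c.L r) := by
      have h4 : Real.exp 2 ≤ Real.exp (2 * c.L r) := Real.exp_le_exp.2 (by linarith)
      have h5 : (4 : ℝ) ≤ Real.exp 2 := by
        have h6 : Real.exp 2 = Real.exp 1 * Real.exp 1 := by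
          rw [← Real.exp_add]; norm_num
        have h7 : (2 : ℝ) ≤ Real.exp 1 := by
          have := Real.add_one_le_exp (1 : ℝ)
          linarith
        rw [h6]
        nlinarith
      linarith
    have h8 : Real.exp (((C + D + 2 : ℕ) : ℝ) * c.L r) =
        Real.exp ((C + D : ℕ) * c.L r) * Real.exp (2 * c.L r) := by
      rw [← Real.exp_add]
      congr 1
      push_cast
      ring
    rw [h8]
    have h9 := Real.exp_pos ((C + D : ℕ) * c.L r : ℝ)
    have h10 := hC r
    have h11 := hD r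
    nlinarith
  | single p u =>
    obtain ⟨C, hC⟩ := u.2
    refine ⟨C, fun r => ?_⟩
    have h1 : sq (evc c α r (Finsupp.single p u)) = sq (u.1 r) := by
      classical
      rw [evc_single]
      have hinj : Function.Injective (fun x : G => (p, x)) :=
        fun a b hab => (Prod.ext_iff.1 hab).2
      unfold sq
      rw [Finsupp.mapDomain_support_of_injective hinj, Finset.sum_image hinj.injOn]
      refine Finset.sum_congr rfl fun x _ => ?_
      rw [Finsupp.mapDomain_apply hinj]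
    rw [h1]
    exact hC r

/-- a chain of the classes vanishes if the values are near the special sets. -/
lemma clc_eq_zero (c : Dt G) {α : Type} (δ : α →₀ ZZ c) (K : ℕ)
    (h : ∀ r, ∀ p, ∀ x ∈ Far c.S (c.V r) (K * c.M r), evc c α r δ (p, x) = 0) :
    clc c α δ = 0 := by
  ext p
  rw [clc_apply, Finsupp.zero_apply, mk_eq_zero_iff, mem_NN]
  exact ⟨K, fun r x hx => by rw [← evc_apply]; exact h r p x hx⟩

lemma exists_of_clc (c : Dt G) {α : Type} (δ : α →₀ ZZ c) (h : clc c α δ = 0) :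
    ∃ K : ℕ, ∀ r, ∀ q ∈ (evc c α r δ).support, q.1 ∈ δ.support ∧
      q.2 ∉ Far c.S (c.V r) (K * c.M r) := by
  classical
  have h1 : ∀ p, ∃ K : ℕ, ∀ r, ∀ x ∈ Far c.S (c.V r) (K * c.M r), (δ p).1 r x = 0 := by
    intro p
    have h2 : mk c (δ p) = 0 := by
      rw [← clc_apply, h]
      rfl
    exact (mem_NN c _).1 ((mk_eq_zero_iff c _).1 h2)
  choose K hK using h1
  refine ⟨δ.support.sup K, fun r q hq => ?_⟩
  obtain ⟨p, x⟩ := q
  rw [Finsupp.mem_support_iff, evc_apply] at hq
  have hp : p ∈ δ.support := by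
    rw [Finsupp.mem_support_iff]
    intro h0
    apply hq
    rw [h0]
    rfl
  refine ⟨hp, fun hx => hq (hK p r x ?_)⟩
  exact far_anti c.sys _ (Nat.mul_le_mul_right _ (Finset.le_sup hp)) hx

/-- the differential in degree two. -/
noncomputable def D2 (c : Dt G) : (G × G →₀ ZZ c) →+ (G →₀ ZZ c) :=
  Finsupp.liftAddHom fun g =>
    (Finsupp.singleAddHom g.2).comp (LtZ c g.1⁻¹) - Finsupp.singleAddHom (g.1 * g.2) +
      Finsupp.singleAddHom g.1

/-- the differential in degree three. -/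
noncomputable def D3 (c : Dt G) : (G × G × G →₀ ZZ c) →+ (G × G →₀ ZZ c) :=
  Finsupp.liftAddHom fun g =>
    (Finsupp.singleAddHom (g.2.1, g.2.2)).comp (LtZ c g.1⁻¹) -
      Finsupp.singleAddHom (g.1 * g.2.1, g.2.2) + Finsupp.singleAddHom (g.1, g.2.1 * g.2.2) -
      Finsupp.singleAddHom (g.1, g.2.1)

lemma D2_single (c : Dt G) (g : G × G) (u : ZZ c) : D2 c (Finsupp.single g u) =
    Finsupp.single g.2 (LtZ c g.1⁻¹ u) - Finsupp.single (g.1 * g.2) u +
      Finsupp.single g.1 u := by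
  simp [D2]

lemma D3_single (c : Dt G) (g : G × G × G) (u : ZZ c) : D3 c (Finsupp.single g u) =
    Finsupp.single (g.2.1, g.2.2) (LtZ c g.1⁻¹ u) - Finsupp.single (g.1 * g.2.1, g.2.2) u +
      Finsupp.single (g.1, g.2.1 * g.2.2) u - Finsupp.single (g.1, g.2.1) u := by
  simp [D3]

lemma LtZ_val' (c : Dt G) (g : G) (u : ZZ c) (r : ℕ) : (LtZ c g u).1 r = Lt g (u.1 r) := by
  ext x
  rw [LtZ_val, Lt_apply]

lemma clc_D2 (c : Dt G) (δ : G × G →₀ ZZ c) :
    clc c G (D2 c δ) = groupHomology.d₂₁ (RM c) (clc c (G × G) δ) := by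
  induction δ using Finsupp.induction_linear with
  | zero => simp only [map_zero]
  | add x y hx hy => simp only [map_add, hx, hy]
  | single g u =>
    rw [D2_single, clc_single, groupHomology.d₂₁_single, map_add, map_sub, clc_single,
      clc_single, clc_single]
    have h : (RM c).ρ g.1⁻¹ (mk c u) = mk c (LtZ c g.1⁻¹ u) := repM_mk c _ _
    rw [h]

lemma clc_D3 (c : Dt G) (δ : G × G × G →₀ ZZ c) :
    clc c (G × G) (D3 c δ) = groupHomology.d₃₂ (RM c) (clc c (G × G × G) δ) := by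
  induction δ using Finsupp.induction_linear with
  | zero => simp only [map_zero]
  | add x y hx hy => simp only [map_add, hx, hy]
  | single g u =>
    rw [D3_single, clc_single, groupHomology.d₃₂_single, map_sub, map_add, map_sub, clc_single,
      clc_single, clc_single, clc_single]
    have h : (RM c).ρ g.1⁻¹ (mk c u) = mk c (LtZ c g.1⁻¹ u) := repM_mk c _ _
    rw [h]

omit [DecidableEq G] in
lemma mapDomain_Lt {α : Type} (p : α) (g : G) (u : G →₀ ℤ) :
    Finsupp.mapDomain (fun x : G => (p, x)) (Lt g u) =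
      Finsupp.mapDomain (fun x : G => (p, g * x)) u := by
  show Finsupp.mapDomain _ (Finsupp.mapDomain _ u) = _
  rw [← Finsupp.mapDomain_comp]
  rfl

omit [DecidableEq G] in
lemma bdry_mapDomain (g : G × G) (u : G →₀ ℤ) :
    bdry (Finsupp.mapDomain (fun x : G => (g, x)) u) =
      Finsupp.mapDomain (fun x : G => (g.2, g.1⁻¹ * x)) u -
        Finsupp.mapDomain (fun x : G => (g.1 * g.2, x)) u +
        Finsupp.mapDomain (fun x : G => (g.1, x)) u := by
  induction u using Finsupp.induction_linear with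
  | zero => simp
  | add x y hx hy =>
    simp only [Finsupp.mapDomain_add, map_add, hx, hy]
    abel
  | single x n =>
    simp only [Finsupp.mapDomain_single, bdry_single]
    abel

omit [DecidableEq G] in
lemma bd3_mapDomain (g : G × G × G) (u : G →₀ ℤ) :
    bd3 (Finsupp.mapDomain (fun x : G => (g, x)) u) =
      Finsupp.mapDomain (fun x : G => ((g.2.1, g.2.2), g.1⁻¹ * x)) u -
        Finsupp.mapDomain (fun x : G => ((g.1 * g.2.1, g.2.2), x)) u +
        Finsupp.mapDomain (fun x : G => ((g.1, g.2.1 * g.2.2), x)) u -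
        Finsupp.mapDomain (fun x : G => ((g.1, g.2.1), x)) u := by
  induction u using Finsupp.induction_linear with
  | zero => simp
  | add x y hx hy =>
    simp only [Finsupp.mapDomain_add, map_add, hx, hy]
    abel
  | single x n =>
    simp only [Finsupp.mapDomain_single, bd3_single]

lemma evc_D2 (c : Dt G) (r : ℕ) (δ : G × G →₀ ZZ c) :
    evc c G r (D2 c δ) = bdry (evc c (G × G) r δ) := by
  induction δ using Finsupp.induction_linear with
  | zero => simp only [map_zero]
  | add x y hx hy => simp only [map_add, hx, hy]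
  | single g u =>
    rw [D2_single, map_add, map_sub, evc_single, evc_single, evc_single, evc_single,
      LtZ_val', mapDomain_Lt, bdry_mapDomain]

lemma evc_D3 (c : Dt G) (r : ℕ) (δ : G × G × G →₀ ZZ c) :
    evc c (G × G) r (D3 c δ) = bd3 (evc c (G × G × G) r δ) := by
  induction δ using Finsupp.induction_linear with
  | zero => simp only [map_zero]
  | add x y hx hy => simp only [map_add, hx, hy]
  | single g u =>
    rw [D3_single, map_sub, map_add, map_sub, evc_single, evc_single, evc_single, evc_single,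
      evc_single, LtZ_val', mapDomain_Lt, bd3_mapDomain]

/-- a sequence of chains with labels in `S` comes from a chain with values in the sequences. -/
lemma exists_evc (c : Dt G) (T : ℕ → Tri G →₀ ℤ) (hT : ∀ r, InS c.S (T r))
    (C : ℕ) (hC : ∀ r, sq (T r) ≤ Real.exp (C * c.L r)) :
    ∃ τ : G × G →₀ ZZ c, ∀ r, evc c (G × G) r τ = T r := by
  classical
  have hinj : ∀ p : G × G, Function.Injective (fun x : G => (p, x)) :=
    fun p a b hab => (Prod.ext_iff.1 hab).2
  let f : G × G → ℕ → G →₀ ℤ := fun p r =>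
    Finsupp.comapDomain (fun x : G => (p, x)) (T r) (hinj p).injOn
  have hf : ∀ p r x, f p r x = T r (p, x) := fun p r x => rfl
  have hmem : ∀ p, f p ∈ ZZ c := by
    intro p
    refine ⟨C, fun r => le_trans ?_ (hC r)⟩
    unfold sq
    have h1 : ∑ x ∈ (f p r).support, ((f p r x : ℤ) : ℝ) ^ 2 =
        ∑ q ∈ (f p r).support.image (fun x : G => (p, x)), ((T r q : ℤ) : ℝ) ^ 2 := by
      rw [Finset.sum_image (hinj p).injOn]
      exact Finset.sum_congr rfl fun x _ => by rw [hf]
    rw [h1]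
    refine Finset.sum_le_sum_of_subset_of_nonneg ?_ fun _ _ _ => sq_nonneg _
    intro q hq
    obtain ⟨x, hx, rfl⟩ := Finset.mem_image.1 hq
    rw [Finsupp.mem_support_iff] at hx ⊢
    exact hx
  refine ⟨∑ p ∈ RS c.S, Finsupp.single p (⟨f p, hmem p⟩ : ZZ c), fun r => ?_⟩
  ext ⟨q, x⟩
  rw [evc_apply]
  have h2 : (∑ p ∈ RS c.S, Finsupp.single p (⟨f p, hmem p⟩ : ZZ c)) q =
      if q ∈ RS c.S then (⟨f q, hmem q⟩ : ZZ c) else 0 := by
    rw [Finsupp.finsetSum_apply]
    simp only [Finsupp.single_apply]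
    rw [Finset.sum_ite_eq' (RS c.S) q]
  rw [h2]
  split_ifs with hq
  · exact hf q r x
  · symm
    by_contra hne
    have h3 := hT r (q, x) (Finsupp.mem_support_iff.2 hne)
    exact hq (Finset.mem_filter.2 ⟨Finset.mem_product.2 ⟨h3.1, h3.2.1⟩, h3.2.2⟩)

variable (c : Dt G)

/-- if the class of a sequence of chains vanishes, each chain is equal, up to a boundary, to a
chain of subexponential size near the special set. -/
theorem exists_of_trivial (T : ℕ → Tri G →₀ ℤ) (hT : ∀ r, InS c.S (T r))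
    (C : ℕ) (hC : ∀ r, sq (T r) ≤ Real.exp (C * c.L r))
    (K : ℕ) (hK : ∀ r, ∀ q ∈ (bdry (T r)).support, q.2 ∉ Far c.S (c.V r) (K * c.M r))
    (h : ¬ Nontrivial (groupHomology (RM c) 2)) :
    ∃ (Λ : Finset (G × G)) (K' : ℕ) (W : ℕ → (G × G × G) × G →₀ ℤ), ∀ r,
      (∀ q ∈ (bd3 (W r) - T r).support, q.1 ∈ Λ ∧ q.2 ∉ Far c.S (c.V r) (K' * c.M r)) ∧
      sq (bd3 (W r) - T r) ≤ Real.exp (K' * c.L r) := by
  classical
  obtain ⟨τ, hτ⟩ := exists_evc c T hT C hC
  have hcyc : clc c (G × G) τ ∈ groupHomology.cycles₂ (RM c) := by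
    show groupHomology.d₂₁ (RM c) (clc c (G × G) τ) = 0
    rw [← clc_D2]
    refine clc_eq_zero c _ K fun r p x hx => ?_
    rw [evc_D2, hτ]
    by_contra hne
    exact hK r (p, x) (Finsupp.mem_support_iff.2 hne) hx
  have hsub : Subsingleton (groupHomology (RM c) 2) := not_nontrivial_iff_subsingleton.1 h
  have hbd : clc c (G × G) τ ∈ groupHomology.boundaries₂ (RM c) :=
    (groupHomology.H2π_eq_zero_iff (A := RM c) ⟨clc c (G × G) τ, hcyc⟩).1
      (Subsingleton.elim _ _)
  obtain ⟨ω, hω⟩ := hbd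
  obtain ⟨ω', rfl⟩ := clc_surj c ω
  have h0 : clc c (G × G) (D3 c ω' - τ) = 0 := by
    rw [map_sub, clc_D3, sub_eq_zero]
    exact hω
  obtain ⟨K1, hK1⟩ := exists_of_clc c _ h0
  obtain ⟨K2, hK2⟩ := exists_sq_evc c (D3 c ω' - τ)
  have hval : ∀ r, evc c (G × G) r (D3 c ω' - τ) = bd3 (evc c (G × G × G) r ω') - T r := by
    intro r
    rw [map_sub, evc_D3, hτ]
  refine ⟨(D3 c ω' - τ).support, K1 + K2, fun r => evc c (G × G × G) r ω', fun r => ⟨?_, ?_⟩⟩
  · intro q hq
    rw [← hval] at hq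
    obtain ⟨h1, h2⟩ := hK1 r q hq
    exact ⟨h1, fun hx => h2 (far_anti c.sys _ (Nat.mul_le_mul_right _ (Nat.le_add_right _ _)) hx)⟩
  · rw [← hval]
    refine (hK2 r).trans (Real.exp_le_exp.2 ?_)
    push_cast
    have : (0 : ℝ) ≤ (K1 : ℝ) * c.L r := by positivity
    nlinarith

/-! ### row P6 -/

/-- the second homology does not vanish. -/
theorem hom2 (T : ℕ → Tri G →₀ ℤ) (hT : ∀ r, InS c.S (T r))
    (C : ℕ) (hC : ∀ r, sq (T r) ≤ Real.exp (C * c.L r))
    (K : ℕ) (hK : ∀ r, ∀ q ∈ (bdry (T r)).support, q.2 ∉ Far c.S (c.V r) (K * c.M r))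
    (hL : Tendsto c.L atTop atTop)
    (hno : ∀ K' : ℕ, ∃ᶠ r in atTop, ¬ ∃ T' : Tri G →₀ ℤ, InS c.S T' ∧ bdry T' = bdry (T r) ∧
      (mass T' : ℝ) ≤ Real.exp (K' * c.L r) ∧
      ∀ q ∈ T'.support, q.2 ∉ Far c.S (c.V r) (K' * c.M r)) :
    Nontrivial (groupHomology (RM c) 2) := by
  by_contra hcon
  obtain ⟨Λ, K', W, hW⟩ := exists_of_trivial c T hT C hC K hK hcon
  obtain ⟨P, hP1, hP2, hP3, hP4⟩ := exists_push c.sys
  obtain ⟨N, hN⟩ := hP4 Λ
  obtain ⟨r, hr⟩ := (hno (K' + N)).exists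
  apply hr
  have hN' := hN (bd3 (W r) - T r) fun q hq => ((hW r).1 q hq).1
  refine ⟨-P (bd3 (W r) - T r), (hP1 _).neg, ?_, ?_, ?_⟩
  · rw [map_neg, map_sub, map_sub, hP3 _ (bdry_bd3 _), hP2 _ (hT r)]
    abel
  · have h1 : 1 ≤ c.L r := c.one_le r
    rw [mass_neg]
    have h2 : (mass (P (bd3 (W r) - T r)) : ℝ) ≤ N * mass (bd3 (W r) - T r) := by
      exact_mod_cast hN'.1
    have h3 : (mass (bd3 (W r) - T r) : ℝ) ≤ Real.exp (K' * c.L r) :=
      (mass_le_sq _).trans (hW r).2
    have h4 : (N : ℝ) ≤ Real.exp (N * c.L r) := by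
      have h5 : (N : ℝ) ≤ N * c.L r := by
        have : (1 : ℝ) ≤ c.L r := by exact_mod_cast h1
        nlinarith [Nat.cast_nonneg (α := ℝ) N]
      have := Real.add_one_le_exp ((N : ℝ) * c.L r)
      linarith
    calc (mass (P (bd3 (W r) - T r)) : ℝ) ≤ N * mass (bd3 (W r) - T r) := h2
      _ ≤ Real.exp (N * c.L r) * Real.exp (K' * c.L r) := by
          apply mul_le_mul h4 h3 (by positivity) (by positivity)
      _ = Real.exp (((K' + N : ℕ) : ℝ) * c.L r) := by
          rw [← Real.exp_add]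
          congr 1
          push_cast
          ring
  · intro q hq
    rw [Finsupp.support_neg] at hq
    obtain ⟨q', hq', hqq⟩ := hN'.2 q hq
    have h2 := ((hW r).1 q' hq').2
    intro hfar
    apply h2
    have h3 : q.2 ∈ Far c.S (c.V r) (K' * c.M r + N) := by
      apply far_anti c.sys _ _ hfar
      have h4 : 1 ≤ c.M r := (c.one_le r).trans (c.le r)
      have h5 : N ≤ N * c.M r := Nat.le_mul_of_pos_right N h4
      calc K' * c.M r + N ≤ K' * c.M r + N * c.M r := by omega
        _ = (K' + N) * c.M r := by ring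
    have h6 := far_shift c.sys hqq h3
    simpa using h6

end Pool.Agent.LibDehn83
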