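import Pool.Agent.LibDehn83.ThmV
import Pool.Agent.LibQF83.Path

/-!
Integer valued sequences of subexponential size modulo those which are concentrated near given
sets: a module over the group ring.
-/

set_option autoImplicit false

namespace Pool.Agent.LibDehn83

open Pool.Agent.LibZIS Pool.Agent.LibCod83 Pool.Agent.LibQF83 Filter Topology
open scoped Pointwise

variable {G : Type} [Group G] [DecidableEq G]

/-- the sum of the squares. -/
noncomputable def sq {α : Type} (u : α →₀ ℤ) : ℝ := ∑ x ∈ u.support, ((u x : ℤ) : ℝ) ^ 2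

/-- the data of the construction. -/
structure Dt (G : Type) [Group G] [DecidableEq G] where
  /-- the generators -/
  S : Finset G
  sys : Sys S
  /-- the logarithmic size -/
  L : ℕ → ℕ
  one_le : ∀ r, 1 ≤ L r
  /-- the special sets -/
  V : ℕ → Set G
  ne : ∀ r, (V r).Nonempty
  /-- the scale of distances -/
  M : ℕ → ℕ
  le : ∀ r, L r ≤ M r

variable (c : Dt G)

/-! ### row P1 -/

lemma P1_sq {α : Type} (u : α →₀ ℤ) (s : Finset α) (h : u.support ⊆ s) :
    sq u = ∑ x ∈ s, ((u x : ℤ) : ℝ) ^ 2 := by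
  unfold sq
  apply Finset.sum_subset h
  intro x _ hx
  rw [Finsupp.notMem_support_iff] at hx
  rw [hx]
  simp

lemma sq_add_le {α : Type} (u v : α →₀ ℤ) : sq (u + v) ≤ 2 * sq u + 2 * sq v := by
  classical
  rw [P1_sq (u + v) (u.support ∪ v.support) Finsupp.support_add,
    P1_sq u (u.support ∪ v.support) Finset.subset_union_left,
    P1_sq v (u.support ∪ v.support) Finset.subset_union_right, Finset.mul_sum, Finset.mul_sum,
    ← Finset.sum_add_distrib]
  apply Finset.sum_le_sum
  intro x _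
  rw [Finsupp.add_apply]
  push_cast
  nlinarith [sq_nonneg ((u x : ℝ) - v x)]

lemma sq_neg {α : Type} (u : α →₀ ℤ) : sq (-u) = sq u := by
  unfold sq
  rw [Finsupp.support_neg]
  apply Finset.sum_congr rfl
  intro x _
  rw [Finsupp.neg_apply]
  push_cast
  ring

lemma sq_Lt (g : G) (u : G →₀ ℤ) : sq (Lt g u) = sq u := by
  have h1 : (Lt g u).support ⊆ u.support.image (g * ·) := by
    intro x hx
    rw [Finsupp.mem_support_iff, Lt_apply] at hx
    rw [Finset.mem_image]
    exact ⟨g⁻¹ * x, Finsupp.mem_support_iff.2 hx, by group⟩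
  rw [P1_sq _ _ h1, Finset.sum_image (fun a _ b _ hab => mul_left_cancel hab)]
  unfold sq
  apply Finset.sum_congr rfl
  intro x _
  rw [Lt_apply, inv_mul_cancel_left]

lemma P1_exp (c : Dt G) (C C' r : ℕ) : 2 * Real.exp (C * c.L r) + 2 * Real.exp (C' * c.L r)
    ≤ Real.exp (((max C C' + 2 : ℕ) : ℝ) * c.L r) := by
  have hL : (1 : ℝ) ≤ c.L r := by exact_mod_cast c.one_le r
  have hL0 : (0 : ℝ) ≤ c.L r := by linarith
  have h1 : Real.exp (C * c.L r) ≤ Real.exp ((max C C' : ℕ) * c.L r) := by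
    apply Real.exp_le_exp.2
    have : (C : ℝ) ≤ (max C C' : ℕ) := by exact_mod_cast le_max_left C C'
    exact mul_le_mul_of_nonneg_right this hL0
  have h2 : Real.exp (C' * c.L r) ≤ Real.exp ((max C C' : ℕ) * c.L r) := by
    apply Real.exp_le_exp.2
    have : (C' : ℝ) ≤ (max C C' : ℕ) := by exact_mod_cast le_max_right C C'
    exact mul_le_mul_of_nonneg_right this hL0
  have h3 : (4 : ℝ) ≤ Real.exp (2 * c.L r) := by
    have h4 : (2 : ℝ) ≤ Real.exp (c.L r) := by
      have := Real.add_one_le_exp (c.L r : ℝ)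
      linarith
    have h5 : Real.exp (2 * c.L r) = Real.exp (c.L r) * Real.exp (c.L r) := by
      rw [← Real.exp_add]
      congr 1
      ring
    rw [h5]
    nlinarith
  have h6 : Real.exp (((max C C' + 2 : ℕ) : ℝ) * c.L r)
      = Real.exp ((max C C' : ℕ) * c.L r) * Real.exp (2 * c.L r) := by
    rw [← Real.exp_add]
    congr 1
    push_cast
    ring
  rw [h6]
  have h7 := Real.exp_pos ((max C C' : ℕ) * c.L r : ℝ)
  nlinarith

/-- integer valued sequences of subexponential size. -/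
noncomputable def ZZ : AddSubgroup (ℕ → G →₀ ℤ) where
  carrier := {u | ∃ C : ℕ, ∀ r, sq (u r) ≤ Real.exp (C * c.L r)}
  add_mem' := by
    rintro u v ⟨C, hC⟩ ⟨C', hC'⟩
    refine ⟨max C C' + 2, fun r => ?_⟩
    refine (sq_add_le (u r) (v r)).trans (le_trans ?_ (P1_exp c C C' r))
    have h1 := hC r
    have h2 := hC' r
    linarith
  zero_mem' := by
    refine ⟨0, fun r => ?_⟩
    have h : sq ((0 : ℕ → G →₀ ℤ) r) = 0 := by
      simp [sq]
    rw [h]
    exact (Real.exp_pos _).le
  neg_mem' := by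
    rintro u ⟨C, hC⟩
    refine ⟨C, fun r => ?_⟩
    rw [Pi.neg_apply, sq_neg]
    exact hC r

/-- the sequences which are concentrated near the special sets. -/
noncomputable def NN : AddSubgroup (ZZ c) where
  carrier := {u | ∃ K : ℕ, ∀ r, ∀ x ∈ Far c.S (c.V r) (K * c.M r), u.1 r x = 0}
  add_mem' := by
    rintro u v ⟨K, hK⟩ ⟨K', hK'⟩
    refine ⟨max K K', fun r x hx => ?_⟩
    have h1 := hK r x (far_anti c.sys (c.V r)
      (Nat.mul_le_mul_right (c.M r) (le_max_left K K')) hx)
    have h2 := hK' r x (far_anti c.sys (c.V r)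
      (Nat.mul_le_mul_right (c.M r) (le_max_right K K')) hx)
    show u.1 r x + v.1 r x = 0
    rw [h1, h2, add_zero]
  zero_mem' := ⟨0, fun r x _ => rfl⟩
  neg_mem' := by
    rintro u ⟨K, hK⟩
    refine ⟨K, fun r x hx => ?_⟩
    show -(u.1 r x) = 0
    rw [hK r x hx, neg_zero]

lemma mem_NN (u : ZZ c) : u ∈ NN c ↔
    ∃ K : ℕ, ∀ r, ∀ x ∈ Far c.S (c.V r) (K * c.M r), u.1 r x = 0 := Iff.rfl

lemma P1_one (u : G →₀ ℤ) (r : ℕ) :
    ∃ K : ℕ, ∀ x ∈ Far c.S (c.V r) (K * c.M r), u x = 0 := by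
  obtain ⟨v, hv⟩ := c.ne r
  obtain ⟨n, hn⟩ := exists_subset_pow c.sys (u.support.image fun x => x * v⁻¹)
  refine ⟨n, fun x hx => ?_⟩
  by_contra hc
  have h1 : x * v⁻¹ ∈ c.S ^ n :=
    hn (Finset.mem_image.2 ⟨x, Finsupp.mem_support_iff.2 hc, rfl⟩)
  have h2 : n ≤ n * c.M r :=
    Nat.le_mul_of_pos_right n (lt_of_lt_of_le (c.one_le r) (c.le r))
  exact hx v hv (pow_mono c.sys h2 h1)

/-- it is enough to look at large indices. -/
lemma mem_NN_of_eventually (u : ZZ c) (K : ℕ)
    (h : ∀ᶠ r in atTop, ∀ x ∈ Far c.S (c.V r) (K * c.M r), u.1 r x = 0) : u ∈ NN c := by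
  obtain ⟨R, hR⟩ := eventually_atTop.1 h
  choose k hk using fun r => P1_one c (u.1 r) r
  rw [mem_NN]
  refine ⟨max K ((Finset.range R).sup k), fun r x hx => ?_⟩
  by_cases hr : R ≤ r
  · exact hR r hr x (far_anti c.sys (c.V r)
      (Nat.mul_le_mul_right (c.M r) (le_max_left _ _)) hx)
  · apply hk r x
    refine far_anti c.sys (c.V r) (Nat.mul_le_mul_right (c.M r) ?_) hx
    exact (Finset.le_sup (f := k) (Finset.mem_range.2 (by omega))).trans (le_max_right _ _)

/-- the translation of sequences. -/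
noncomputable def LtZ (g : G) : ZZ c →+ ZZ c where
  toFun u := ⟨fun r => Lt g (u.1 r), by
    obtain ⟨C, hC⟩ := u.2
    refine ⟨C, fun r => ?_⟩
    simp only [sq_Lt]
    exact hC r⟩
  map_zero' := by
    apply Subtype.ext
    funext r
    exact map_zero (Lt g)
  map_add' u v := by
    apply Subtype.ext
    funext r
    exact map_add (Lt g) _ _

lemma LtZ_val (g : G) (u : ZZ c) (r : ℕ) (x : G) : (LtZ c g u).1 r x = u.1 r (g⁻¹ * x) :=
  Lt_apply g (u.1 r) x

/-- the module. -/
abbrev MM : Type := ZZ c ⧸ NN c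

/-- the class of a sequence. -/
noncomputable def mk (u : ZZ c) : MM c := QuotientAddGroup.mk u

lemma mk_surj (x : MM c) : ∃ u, mk c u = x := QuotientAddGroup.mk_surjective x

lemma mk_eq_zero_iff (u : ZZ c) : mk c u = 0 ↔ u ∈ NN c := QuotientAddGroup.eq_zero_iff u

/-- the action on the module. -/
noncomputable def actM (g : G) : MM c →+ MM c :=
  QuotientAddGroup.map _ _ (LtZ c g) (by
    intro u hu
    rw [AddSubgroup.mem_comap, mem_NN]
    rw [mem_NN] at hu
    obtain ⟨K, hK⟩ := hu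
    obtain ⟨n, hn⟩ := exists_mem_pow c.sys g
    refine ⟨K + n, fun r x hx => ?_⟩
    rw [LtZ_val]
    apply hK r
    apply far_shift c.sys hn
    refine far_anti c.sys (c.V r) ?_ hx
    have h1 : n ≤ n * c.M r :=
      Nat.le_mul_of_pos_right n (lt_of_lt_of_le (c.one_le r) (c.le r))
    rw [add_mul]
    omega)

lemma actM_mk (g : G) (u : ZZ c) : actM c g (mk c u) = mk c (LtZ c g u) := rfl

lemma P1_LtZ_one (u : ZZ c) : LtZ c 1 u = u := by
  apply Subtype.ext
  funext r
  ext x
  rw [LtZ_val, inv_one, one_mul]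

lemma P1_LtZ_mul (g h : G) (u : ZZ c) : LtZ c (g * h) u = LtZ c g (LtZ c h u) := by
  apply Subtype.ext
  funext r
  ext x
  rw [LtZ_val, LtZ_val, LtZ_val, mul_inv_rev, mul_assoc]

/-- the representation on the module. -/
noncomputable def repM : Representation ℤ G (MM c) where
  toFun g := (actM c g).toIntLinearMap
  map_one' := by
    refine LinearMap.ext fun y => ?_
    obtain ⟨u, rfl⟩ := mk_surj c y
    show actM c 1 (mk c u) = mk c u
    rw [actM_mk, P1_LtZ_one]
  map_mul' g h := by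
    refine LinearMap.ext fun y => ?_
    obtain ⟨u, rfl⟩ := mk_surj c y
    show actM c (g * h) (mk c u) = actM c g (actM c h (mk c u))
    rw [actM_mk, actM_mk, actM_mk, P1_LtZ_mul]

lemma repM_mk (g : G) (u : ZZ c) : repM c g (mk c u) = mk c (LtZ c g u) := rfl

/-- the module as an object. -/
noncomputable abbrev RM : Rep.{0} ℤ G := Rep.of (repM c)

end Pool.Agent.LibDehn83
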