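import Pool.Agent.LibDehn83.Gap

/-!
Operators on `ℓ²(G)`: restriction, the action of the group algebra, twisted translations.
-/

set_option autoImplicit false

namespace Pool.Agent.LibDehn83

open Pool.Agent.LibZIS Pool.Agent.LibCod83 Pool.Agent.LibQF83
open scoped Pointwise

variable {G : Type} [Group G]

/-- the `ℓ¹` norm of an element of the group algebra. -/
noncomputable def l1 (a : MA G) : ℝ := ∑ g ∈ a.coeff.support, ‖a.coeff g‖

/-- the action of the group algebra on `ℓ²(G)`. -/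
noncomputable abbrev TT (a : MA G) : Raw.L2 G →L[ℂ] Raw.L2 G := Raw.T G G a

/-- the function `u` vanishes outside of `F`. -/
def SF (F : Finset G) (u : Raw.L2 G) : Prop := ∀ x, u x ≠ 0 → x ∈ F

/-- unimodular functions `σ g x`, with `σ 1 = 1`. -/
structure UC (G : Type) [Group G] where
  /-- the values -/
  σ : G → G → ℂ
  norm : ∀ g x, ‖σ g x‖ = 1
  one : ∀ x, σ 1 x = 1

/-- the cocycle identity holds up to `δ` for group elements of length at most `m` on `Ω`. -/
def AC [DecidableEq G] (s : UC G) (S : Finset G) (Ω : Set G) (m : ℕ) (δ : ℝ) : Prop :=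
  ∀ g ∈ S ^ m, ∀ h ∈ S ^ m, ∀ x ∈ Ω, ‖s.σ (g * h) x - s.σ g x * s.σ h (g⁻¹ * x)‖ ≤ δ

/-- the twisted translation. -/
noncomputable def tw (s : UC G) (g : G) : Raw.L2 G →L[ℂ] Raw.L2 G :=
  (mulU (s.σ g) (s.norm g)).toContinuousLinearMap * Raw.tr g

/-- the twisted action of the group algebra. -/
noncomputable def Tw (s : UC G) (a : MA G) : Raw.L2 G →L[ℂ] Raw.L2 G :=
  ∑ g ∈ a.coeff.support, a.coeff g • tw s g

section cut

open Classical in
/-- the restriction to a set. -/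
noncomputable def cut (Ω : Set G) : Raw.L2 G →L[ℂ] Raw.L2 G :=
  LinearMap.mkContinuous
    { toFun := fun u => ⟨fun x => if x ∈ Ω then u x else 0, memℓp_gen (by
        have h := (memℓp_gen_iff (by simp)).1 (lp.memℓp u)
        refine Summable.of_nonneg_of_le (fun _ => by positivity) (fun x => ?_) h
        split_ifs
        · exact le_rfl
        · simp)⟩
      map_add' := fun u v => by
        ext x
        show (if x ∈ Ω then (u x + v x) else 0) =
          (if x ∈ Ω then u x else 0) + (if x ∈ Ω then v x else 0)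
        split_ifs
        · rfl
        · rw [add_zero]
      map_smul' := fun c u => by
        ext x
        show (if x ∈ Ω then (c * u x) else 0) = c * (if x ∈ Ω then u x else 0)
        split_ifs
        · rfl
        · rw [mul_zero] }
    1 (fun u => by
      rw [one_mul]
      refine norm_le_of_le fun x => ?_
      show ‖(if x ∈ Ω then u x else 0 : ℂ)‖ ≤ ‖u x‖
      split_ifs
      · exact le_rfl
      · rw [norm_zero]; exact norm_nonneg _)

open Classical in
omit [Group G] in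
lemma cut_apply (Ω : Set G) (u : Raw.L2 G) (x : G) : cut Ω u x = if x ∈ Ω then u x else 0 := rfl

/-! ### row O1 -/

omit [Group G] in
lemma norm_cut_le (Ω : Set G) (u : Raw.L2 G) : ‖cut Ω u‖ ≤ ‖u‖ := by
  refine norm_le_of_le fun x => ?_
  rw [cut_apply]
  split_ifs
  · exact le_rfl
  · rw [norm_zero]
    exact norm_nonneg _

omit [Group G] in
lemma cut_of_mem {Ω : Set G} {x : G} (hx : x ∈ Ω) (u : Raw.L2 G) : cut Ω u x = u x := by
  rw [cut_apply, if_pos hx]

omit [Group G] in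
lemma cut_of_not_mem {Ω : Set G} {x : G} (hx : x ∉ Ω) (u : Raw.L2 G) : cut Ω u x = 0 := by
  rw [cut_apply, if_neg hx]

omit [Group G] in
lemma cut_cut {Ω Ω' : Set G} (h : Ω ⊆ Ω') (u : Raw.L2 G) : cut Ω (cut Ω' u) = cut Ω u := by
  refine lp.ext (funext fun x => ?_)
  by_cases hx : x ∈ Ω
  · rw [cut_of_mem hx, cut_of_mem hx, cut_of_mem (h hx)]
  · rw [cut_of_not_mem hx, cut_of_not_mem hx]

omit [Group G] in
lemma norm_cut_mono {Ω Ω' : Set G} (h : Ω ⊆ Ω') (u : Raw.L2 G) : ‖cut Ω u‖ ≤ ‖cut Ω' u‖ := by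
  rw [← cut_cut h u]
  exact norm_cut_le _ _

omit [Group G] in
lemma norm_cut_le_of_le {Ω : Set G} {u v : Raw.L2 G} (h : ∀ x ∈ Ω, ‖u x‖ ≤ ‖v x‖) :
    ‖cut Ω u‖ ≤ ‖cut Ω v‖ := by
  refine norm_le_of_le fun x => ?_
  by_cases hx : x ∈ Ω
  · rw [cut_of_mem hx, cut_of_mem hx]
    exact h x hx
  · rw [cut_of_not_mem hx, cut_of_not_mem hx]

omit [Group G] in
lemma apply_le_norm_cut {Ω : Set G} {x : G} (hx : x ∈ Ω) (u : Raw.L2 G) : ‖u x‖ ≤ ‖cut Ω u‖ := by
  rw [← cut_of_mem hx u]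
  exact lp.norm_apply_le_norm (by simp) (cut Ω u) x

omit [Group G] in
lemma SF.cut {F : Finset G} {u : Raw.L2 G} (h : SF F u) (Ω : Set G) : SF F (LibDehn83.cut Ω u) := by
  intro x hx
  apply h x
  intro h0
  apply hx
  rw [cut_apply, h0, ite_self]

omit [Group G] in
lemma SF.mono {F F' : Finset G} {u : Raw.L2 G} (h : SF F u) (hF : F ⊆ F') : SF F' u :=
  fun x hx => hF (h x hx)

omit [Group G] in
lemma SF.add {F : Finset G} {u v : Raw.L2 G} (h : SF F u) (h' : SF F v) : SF F (u + v) := by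
  intro x hx
  by_contra hF
  apply hx
  have h1 : u x = 0 := by
    by_contra h1
    exact hF (h x h1)
  have h2 : v x = 0 := by
    by_contra h2
    exact hF (h' x h2)
  show u x + v x = 0
  rw [h1, h2, add_zero]

omit [Group G] in
lemma SF.sub {F : Finset G} {u v : Raw.L2 G} (h : SF F u) (h' : SF F v) : SF F (u - v) := by
  intro x hx
  by_contra hF
  apply hx
  have h1 : u x = 0 := by
    by_contra h1
    exact hF (h x h1)
  have h2 : v x = 0 := by
    by_contra h2
    exact hF (h' x h2)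
  show u x - v x = 0
  rw [h1, h2, sub_zero]

omit [Group G] in
lemma SF.sum {ι : Type} {I : Finset ι} {F : Finset G} {u : ι → Raw.L2 G}
    (h : ∀ i ∈ I, SF F (u i)) : SF F (∑ i ∈ I, u i) := by
  classical
  induction I using Finset.induction_on with
  | empty =>
    intro x hx
    exact absurd rfl hx
  | insert i I hi ih =>
    rw [Finset.sum_insert hi]
    exact (h i (Finset.mem_insert_self i I)).add
      (ih fun j hj => h j (Finset.mem_insert_of_mem hj))

end cut

/-! ### row O2 -/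

lemma l1_nonneg (a : MA G) : 0 ≤ l1 a := Finset.sum_nonneg fun _ _ => norm_nonneg _

lemma TT_apply (a : MA G) (u : Raw.L2 G) (x : G) :
    TT a u x = ∑ g ∈ a.coeff.support, a.coeff g * u (g⁻¹ * x) :=
  Raw.T_apply_apply a u x

lemma norm_TT_le (a : MA G) : ‖TT a‖ ≤ l1 a := by
  refine ContinuousLinearMap.opNorm_le_bound _ (l1_nonneg a) fun u => ?_
  rw [Raw.T_apply, l1, Finset.sum_mul]
  refine (norm_sum_le _ _).trans (Finset.sum_le_sum fun g _ => ?_)
  rw [norm_smul, Raw.norm_tr]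

lemma TT_og (g : G) (u : Raw.L2 G) : TT (og G g) u = Raw.tr g u := by
  have h : Raw.T G G (og G g) = Raw.trHom G G g := by
    rw [Raw.T]
    exact MonoidAlgebra.lift_of _ _
  show Raw.T G G (og G g) u = _
  rw [h]
  rfl

lemma tw_apply (s : UC G) (g : G) (u : Raw.L2 G) (x : G) : tw s g u x = s.σ g x * u (g⁻¹ * x) := rfl

lemma norm_tw (s : UC G) (g : G) (u : Raw.L2 G) : ‖tw s g u‖ = ‖u‖ := by
  have h1 : ‖tw s g u‖ = ‖(Raw.tr g u : Raw.L2 G)‖ :=
    (mulU (s.σ g) (s.norm g)).norm_map (Raw.tr g u)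
  rw [h1, Raw.norm_tr]

lemma tw_one (s : UC G) (u : Raw.L2 G) : tw s 1 u = u := by
  ext x
  rw [tw_apply, s.one, inv_one, one_mul, one_mul]

lemma Tw_apply' (s : UC G) (a : MA G) (u : Raw.L2 G) :
    Tw s a u = ∑ g ∈ a.coeff.support, a.coeff g • tw s g u := by
  rw [Tw, sum_apply]
  rfl

lemma Tw_apply (s : UC G) (a : MA G) (u : Raw.L2 G) (x : G) :
    Tw s a u x = ∑ g ∈ a.coeff.support, a.coeff g * (s.σ g x * u (g⁻¹ * x)) := by
  rw [Tw_apply']
  have h1 : ((∑ g ∈ a.coeff.support, a.coeff g • tw s g u : Raw.L2 G) : ∀ _ : G, ℂ) =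
      ∑ g ∈ a.coeff.support, ((a.coeff g • tw s g u : Raw.L2 G) : ∀ _ : G, ℂ) := by
    exact map_sum (lp.coeFnAddMonoidHom (fun _ : G => ℂ) 2) _ _
  rw [h1, Finset.sum_apply]
  rfl

lemma norm_Tw_le_l1 (s : UC G) (a : MA G) (u : Raw.L2 G) : ‖Tw s a u‖ ≤ l1 a * ‖u‖ := by
  rw [Tw_apply', l1, Finset.sum_mul]
  refine (norm_sum_le _ _).trans (Finset.sum_le_sum fun g _ => ?_)
  rw [norm_smul, norm_tw]

lemma Tw_eq (s : UC G) (a : MA G) : Tw s a = a.coeff.sum fun g z => z • tw s g := rfl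

lemma Tw_add (s : UC G) (a b : MA G) : Tw s (a + b) = Tw s a + Tw s b := by
  classical
  rw [Tw_eq, Tw_eq, Tw_eq, MonoidAlgebra.coeff_add]
  exact Finsupp.sum_add_index' (fun g => zero_smul _ _) fun g z w => add_smul _ _ _

lemma Tw_single (s : UC G) (g : G) (z : ℂ) : Tw s (MonoidAlgebra.single g z) = z • tw s g := by
  rw [Tw_eq, MonoidAlgebra.coeff_single]
  exact Finsupp.sum_single_index (zero_smul _ _)

lemma Tw_og (s : UC G) (g : G) : Tw s (og G g) = tw s g := by
  have h : og G g = MonoidAlgebra.single g 1 := rfl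
  rw [h, Tw_single, one_smul]

lemma Tw_one (s : UC G) (u : Raw.L2 G) : Tw s 1 u = u := by
  rw [← map_one (og G), Tw_og, tw_one]

lemma Tw_zero (s : UC G) : Tw s 0 = 0 := by
  rw [Tw_eq, MonoidAlgebra.coeff_zero]
  exact Finsupp.sum_zero_index

lemma Tw_sum {ι : Type} (I : Finset ι) (s : UC G) (a : ι → MA G) :
    Tw s (∑ i ∈ I, a i) = ∑ i ∈ I, Tw s (a i) := by
  classical
  induction I using Finset.induction_on with
  | empty => rw [Finset.sum_empty, Finset.sum_empty, Tw_zero]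
  | insert i I hi ih => rw [Finset.sum_insert hi, Finset.sum_insert hi, Tw_add, ih]

section loc

variable [DecidableEq G]

lemma SF.TT {S F : Finset G} {n : ℕ} {a : MA G} (ha : a.coeff.support ⊆ S ^ n) {u : Raw.L2 G}
    (hu : SF F u) : SF (S ^ n * F) (LibDehn83.TT a u) := by
  intro x hx
  rw [TT_apply] at hx
  obtain ⟨g, hg, h1⟩ := Finset.exists_ne_zero_of_sum_ne_zero hx
  have h2 := hu _ (right_ne_zero_of_mul h1)
  have h3 := Finset.mul_mem_mul (ha hg) h2
  rwa [mul_inv_cancel_left] at h3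

lemma SF.Tw {S F : Finset G} {n : ℕ} {a : MA G} (ha : a.coeff.support ⊆ S ^ n) (s : UC G)
    {u : Raw.L2 G} (hu : SF F u) : SF (S ^ n * F) (LibDehn83.Tw s a u) := by
  intro x hx
  rw [Tw_apply] at hx
  obtain ⟨g, hg, h1⟩ := Finset.exists_ne_zero_of_sum_ne_zero hx
  have h2 := hu _ (right_ne_zero_of_mul (right_ne_zero_of_mul h1))
  have h3 := Finset.mul_mem_mul (ha hg) h2
  rwa [mul_inv_cancel_left] at h3

lemma loc_TT {S : Finset G} (hS : Sys S) {m n : ℕ} {a : MA G} (ha : a.coeff.support ⊆ S ^ n)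
    (V : Set G) (u : Raw.L2 G) :
    cut (Far S V (m + n)) (TT a u) = cut (Far S V (m + n)) (TT a (cut (Far S V m) u)) := by
  classical
  ext x
  rw [cut_apply, cut_apply]
  split_ifs with h
  · rw [TT_apply, TT_apply]
    refine Finset.sum_congr rfl fun g hg => ?_
    rw [cut_of_mem (far_shift hS (ha hg) h)]
  · rfl

lemma loc_Tw {S : Finset G} (hS : Sys S) {m n : ℕ} {a : MA G} (ha : a.coeff.support ⊆ S ^ n)
    (V : Set G) (s : UC G) (u : Raw.L2 G) :
    cut (Far S V (m + n)) (Tw s a u) = cut (Far S V (m + n)) (Tw s a (cut (Far S V m) u)) := by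
  classical
  ext x
  rw [cut_apply, cut_apply]
  split_ifs with h
  · rw [Tw_apply, Tw_apply]
    refine Finset.sum_congr rfl fun g hg => ?_
    rw [cut_of_mem (far_shift hS (ha hg) h)]
  · rfl

omit [DecidableEq G] in
lemma Tw_mul_eq (s : UC G) (a b : MA G) (u : Raw.L2 G) :
    Tw s (a * b) u = ∑ g ∈ a.coeff.support, ∑ h ∈ b.coeff.support,
      (a.coeff g * b.coeff h) • tw s (g * h) u := by
  classical
  have h1 : a * b = ∑ g ∈ a.coeff.support, ∑ h ∈ b.coeff.support,
      MonoidAlgebra.single (g * h) (a.coeff g * b.coeff h) := by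
    rw [MonoidAlgebra.mul_def]
    rfl
  rw [h1, Tw_sum, sum_apply]
  refine Finset.sum_congr rfl fun g _ => ?_
  rw [Tw_sum, sum_apply]
  refine Finset.sum_congr rfl fun h _ => ?_
  rw [Tw_single]
  rfl

omit [DecidableEq G] in
lemma Tw_Tw_eq (s : UC G) (a b : MA G) (u : Raw.L2 G) :
    Tw s a (Tw s b u) = ∑ g ∈ a.coeff.support, ∑ h ∈ b.coeff.support,
      (a.coeff g * b.coeff h) • tw s g (tw s h u) := by
  rw [Tw_apply' s a]
  refine Finset.sum_congr rfl fun g _ => ?_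
  rw [Tw_apply' s b, map_sum, Finset.smul_sum]
  refine Finset.sum_congr rfl fun h _ => ?_
  rw [map_smul, smul_smul]

/-- twisted translations are almost multiplicative. -/
lemma norm_Tw_mul_le {S : Finset G} {Ω : Set G} {m : ℕ} {δ : ℝ} (hδ : 0 ≤ δ) (s : UC G)
    (hs : AC s S Ω m δ) {a b : MA G} (ha : a.coeff.support ⊆ S ^ m)
    (hb : b.coeff.support ⊆ S ^ m) (u : Raw.L2 G) :
    ‖cut Ω (Tw s (a * b) u - Tw s a (Tw s b u))‖ ≤ δ * l1 a * l1 b * ‖u‖ := by
  classical
  have key : ∀ g ∈ a.coeff.support, ∀ h ∈ b.coeff.support,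
      ‖cut Ω (tw s (g * h) u - tw s g (tw s h u))‖ ≤ δ * ‖u‖ := by
    intro g hg h hh
    have h1 : δ * ‖u‖ = ‖((δ : ℝ) : ℂ) • (Raw.tr (g * h) u : Raw.L2 G)‖ := by
      rw [norm_smul, Complex.norm_real, Real.norm_eq_abs, abs_of_nonneg hδ, Raw.norm_tr]
    rw [h1]
    refine norm_le_of_le fun x => ?_
    rw [cut_apply]
    split_ifs with hx
    · show ‖s.σ (g * h) x * u ((g * h)⁻¹ * x) -
        s.σ g x * (s.σ h (g⁻¹ * x) * u (h⁻¹ * (g⁻¹ * x)))‖ ≤
          ‖((δ : ℝ) : ℂ) * u ((g * h)⁻¹ * x)‖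
      have h3 : (g * h)⁻¹ * x = h⁻¹ * (g⁻¹ * x) := by group
      have h3' : s.σ (g * h) x * u ((g * h)⁻¹ * x) -
        s.σ g x * (s.σ h (g⁻¹ * x) * u (h⁻¹ * (g⁻¹ * x))) =
        (s.σ (g * h) x - s.σ g x * s.σ h (g⁻¹ * x)) * u (h⁻¹ * (g⁻¹ * x)) := by
        rw [h3]; ring
      rw [h3', h3, norm_mul, norm_mul, Complex.norm_real, Real.norm_eq_abs, abs_of_nonneg hδ]
      exact mul_le_mul_of_nonneg_right (hs g (ha hg) h (hb hh) x hx) (norm_nonneg _)
    · rw [norm_zero]
      exact norm_nonneg _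
  rw [Tw_mul_eq, Tw_Tw_eq, ← Finset.sum_sub_distrib, map_sum]
  calc ‖∑ g ∈ a.coeff.support, cut Ω
        ((∑ h ∈ b.coeff.support, (a.coeff g * b.coeff h) • tw s (g * h) u) -
          ∑ h ∈ b.coeff.support, (a.coeff g * b.coeff h) • tw s g (tw s h u))‖
      ≤ ∑ g ∈ a.coeff.support, ∑ h ∈ b.coeff.support, ‖a.coeff g‖ * ‖b.coeff h‖ * (δ * ‖u‖) := by
        refine (norm_sum_le _ _).trans (Finset.sum_le_sum fun g hg => ?_)
        rw [← Finset.sum_sub_distrib, map_sum]
        refine (norm_sum_le _ _).trans (Finset.sum_le_sum fun h hh => ?_)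
        rw [← smul_sub, map_smul, norm_smul, norm_mul]
        exact mul_le_mul_of_nonneg_left (key g hg h hh) (by positivity)
    _ = δ * l1 a * l1 b * ‖u‖ := by
        have h2 : ∀ g ∈ a.coeff.support,
            ∑ h ∈ b.coeff.support, ‖a.coeff g‖ * ‖b.coeff h‖ * (δ * ‖u‖) =
              ‖a.coeff g‖ * (l1 b * (δ * ‖u‖)) := by
          intro g _
          rw [l1, Finset.sum_mul, Finset.mul_sum]
          exact Finset.sum_congr rfl fun h _ => by ring
        rw [Finset.sum_congr rfl h2, ← Finset.sum_mul]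
        show l1 a * (l1 b * (δ * ‖u‖)) = _
        ring

/-- local form. -/
lemma norm_Tw_mul_le' {S : Finset G} (hS : Sys S) {V : Set G} {D D' n m : ℕ} {δ : ℝ}
    (hδ : 0 ≤ δ) (s : UC G) (hs : AC s S (Far S V D) m δ) (hn : n ≤ m) (hD : D ≤ D')
    {a b : MA G} (ha : a.coeff.support ⊆ S ^ n) (hb : b.coeff.support ⊆ S ^ n) (u : Raw.L2 G) :
    ‖cut (Far S V (D' + 2 * n)) (Tw s (a * b) u - Tw s a (Tw s b u))‖ ≤
      δ * l1 a * l1 b * ‖cut (Far S V D') u‖ := by
  classical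
  have hab : (a * b).coeff.support ⊆ S ^ (2 * n) := by
    intro x hx
    have h1 := MonoidAlgebra.support_coeff_mul_subset a b hx
    rw [two_mul, pow_add]
    exact Finset.mul_subset_mul ha hb h1
  have h1 : cut (Far S V (D' + 2 * n)) (Tw s (a * b) u) =
      cut (Far S V (D' + 2 * n)) (Tw s (a * b) (cut (Far S V D') u)) := loc_Tw hS hab V s u
  have h2 : cut (Far S V (D' + 2 * n)) (Tw s a (Tw s b u)) =
      cut (Far S V (D' + 2 * n)) (Tw s a (Tw s b (cut (Far S V D') u))) := by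
    have e : D' + 2 * n = (D' + n) + n := by ring
    rw [e, loc_Tw hS ha V s (Tw s b u), loc_Tw hS hb V s u, ← loc_Tw hS ha V s]
  rw [map_sub, h1, h2, ← map_sub]
  refine norm_Tw_mul_le (m := n) hδ s ?_ ha hb _
  intro g hg h hh x hx
  exact hs g (pow_mono hS hn hg) h (pow_mono hS hn hh) x
    (far_anti hS V (hD.trans (Nat.le_add_right _ _)) hx)

end loc

end Pool.Agent.LibDehn83
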