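import Pool.Agent.LibDehn83.Coh2
import Pool.Agent.LibDehn83.Hom2

/-!
Fillings of short loops of small radius give fillings of all loops of small radius.
-/

set_option autoImplicit false

namespace Pool.Agent.LibDehn83

open Pool.Agent.LibZIS Pool.Agent.LibCod83 Pool.Agent.LibQF83 Filter Topology
open scoped Pointwise

variable {G : Type} [Group G] [DecidableEq G]

/-! ### row S1 -/

/-- every loop has a filling of finite radius. -/
lemma exists_fil {S : Finset G} (hS : Sys S) (w : List G) (hw : Loop S w) (A : ℝ)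
    (h : Ar S w A) : ∃ N : ℕ, ∀ ρ, N ≤ ρ → Fil S w A ρ := by
  obtain ⟨T, hT, hb, hm⟩ := h
  choose n hn using exists_mem_pow (G := G) hS
  refine ⟨T.support.sup fun p => n p.2, fun ρ hρ => ⟨T, hT, hb, hm, fun p hp hfar => ?_⟩⟩
  have h1 : (1 : G) ∈ Vt w := ⟨[], List.nil_prefix, by simp⟩
  have h2 := hfar 1 h1
  apply h2
  rw [inv_one, mul_one]
  have h3 : n p.2 ≤ ρ := le_trans (Finset.le_sup (f := fun p : Tri G => n p.2) hp) hρ
  exact pow_mono hS h3 (hn p.2)

/-- there are finitely many words of bounded length. -/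
lemma finite_words (S : Finset G) (n : ℕ) : {w : List G | (∀ s ∈ w, s ∈ S) ∧ w.length ≤ n}.Finite := by
  refine ((List.finite_length_le {x // x ∈ S} n).image (List.map Subtype.val)).subset ?_
  rintro w ⟨hw, hl⟩
  refine ⟨w.pmap (fun x hx => (⟨x, hx⟩ : {x // x ∈ S})) hw, ?_, ?_⟩
  · simpa using hl
  · rw [List.map_pmap]
    exact List.pmap_eq_self.mpr (fun a _ => rfl)

lemma Fil.mono {S : Finset G} (hS : Sys S) {w : List G} {A A' : ℝ} {ρ ρ' : ℕ} (h : Fil S w A ρ)
    (hA : A ≤ A') (hρ : ρ ≤ ρ') : Fil S w A' ρ' := by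
  obtain ⟨T, hT, hb, hm, hf⟩ := h
  exact ⟨T, hT, hb, hm.trans hA, fun p hp hfar => hf p hp (far_anti hS _ hρ hfar)⟩

lemma support_chn_S1 {S : Finset G} {w : List G} (hw : ∀ s ∈ w, s ∈ S) (x : G) :
    ∀ q ∈ (chn w x).support, q.1 ∈ S ∧ ∃ w' : List G, w' <+: w ∧ q.2 = w'.prod⁻¹ * x := by
  induction w generalizing x with
  | nil =>
    intro q hq
    simp [chn] at hq
  | cons s w ih =>
    intro q hq
    rw [chn_cons] at hq
    rcases Finset.mem_union.mp (Finsupp.support_add hq) with h | h
    · have h' : q = (s, x) := by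
        have := Finsupp.support_single_subset h
        simpa using this
      subst h'
      exact ⟨hw s (by simp), [], List.nil_prefix, by simp⟩
    · obtain ⟨h1, w', h2, h3⟩ := ih (fun t ht => hw t (List.mem_cons_of_mem _ ht)) (s⁻¹ * x) q h
      refine ⟨h1, s :: w', ?_, ?_⟩
      · rw [List.cons_prefix_cons]
        exact ⟨rfl, h2⟩
      · rw [h3, List.prod_cons, mul_inv_rev, mul_assoc]

lemma not_far_of_vt {S : Finset G} (hS : Sys S) {w : List G} (hw : ∀ s ∈ w, s ∈ S) :
    ∀ q ∈ (chn w (1 : G)).support, q.1 ∈ S ∧ q.2 ∉ Far S (Vt w) 0 := by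
  intro q hq
  obtain ⟨h1, w', h2, h3⟩ := support_chn_S1 hw 1 q hq
  refine ⟨h1, fun hfar => ?_⟩
  have h4 := hfar q.2 ⟨w', h2, by rw [h3, mul_one]⟩
  apply h4
  rw [mul_inv_cancel, pow_zero]
  exact Finset.one_mem_one

/-! ### row S2 -/

/-- the main geometric theorem. -/
theorem star {S : Finset G} (hS : Sys S) (hV : ThmV S)
    (hd : ∀ c : Dt G, ¬ Nontrivial (groupCohomology (RM c) 2) →
      ¬ Nontrivial (groupHomology (RM c) 2))
    (L Om : ℕ → ℕ) (hL1 : ∀ s, 1 ≤ L s) (hLt : Tendsto L atTop atTop)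
    (hlog : ∀ s : ℕ, (s : ℝ) + 2 ≤ Real.exp (L s))
    (har : ∀ w, Loop S w → Ar S w (Real.exp (L w.length)))
    (hOm1 : ∀ s, L s ≤ Om s) (hOm : ∀ C : ℕ, ∀ᶠ s in atTop, C * L s ≤ Om s) :
    ∃ K : ℕ, ∀ w, Loop S w → ∀ ρ : ℕ,
      (∀ w', Loop S w' → w'.length ≤ K * L w.length → Fil S w' (Real.exp (L w.length)) ρ) →
      Fil S w (Real.exp (Om w.length)) (K * (L w.length + ρ)) := by
  by_contra hcon
  push Not at hcon
  choose w hw ρ hρ hnf using hcon
  -- the lengths tend to infinity
  have hlen : Tendsto (fun r => (w r).length) atTop atTop := by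
    rw [tendsto_atTop]
    intro n
    have hev : ∀ᶠ r in atTop, ∀ v ∈ {w : List G | (∀ s ∈ w, s ∈ S) ∧ w.length ≤ n}, w r ≠ v := by
      rw [eventually_all_finite (finite_words S n)]
      intro v _
      by_cases hvl : Loop S v
      · obtain ⟨T, hT1, hT2, hT3⟩ := har v hvl
        have hOm' : Real.exp (L v.length) ≤ Real.exp (Om v.length) :=
          Real.exp_le_exp.2 (by exact_mod_cast hOm1 v.length)
        obtain ⟨N, hN⟩ := exists_fil hS v hvl (Real.exp (Om v.length))
          ⟨T, hT1, hT2, hT3.trans hOm'⟩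
        filter_upwards [eventually_ge_atTop N] with r hr heq
        apply hnf r
        rw [heq]
        apply hN
        have h1 := hL1 v.length
        calc N ≤ r := hr
          _ ≤ r * (L v.length + ρ r) := Nat.le_mul_of_pos_right r (by omega)
      · exact Eventually.of_forall fun r heq => hvl (heq ▸ hw r)
    filter_upwards [hev] with r hr
    by_contra hlt
    exact hr (w r) ⟨(hw r).1, by omega⟩ rfl
  let c : Dt G :=
    { S := S
      sys := hS
      L := fun r => L (w r).length
      one_le := fun r => hL1 _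
      V := fun r => Vt (w r)
      ne := fun r => ⟨1, [], List.nil_prefix, by simp⟩
      M := fun r => L (w r).length + ρ r
      le := fun r => Nat.le_add_right _ _ }
  have hcL : Tendsto c.L atTop atTop := hLt.comp hlen
  have hcoh : ¬ Nontrivial (groupCohomology (RM c) 2) := by
    refine coh2 c hV ρ (fun r => rfl) hcL ?_
    intro K
    filter_upwards [eventually_ge_atTop K] with r hr w' hw' hlw
    apply hρ r w' hw'
    exact hlw.trans (Nat.mul_le_mul_right _ hr)
  have hhom := hd c hcoh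
  apply hhom
  choose T hT1 hT2 hT3 using fun r => har (w r) (hw r)
  refine hom2 c T hT1 2 ?_ 0 ?_ hcL ?_
  · intro r
    have h1 : (mass (T r) : ℝ) ^ 2 ≤ (Real.exp (L (w r).length)) ^ 2 := by
      apply pow_le_pow_left₀ (by positivity) (hT3 r)
    refine (sq_le_mass (T r)).trans (h1.trans (le_of_eq ?_))
    rw [← Real.exp_nat_mul]
  · intro r q hq
    have h2 : q ∈ (chn (w r) (1 : G)).support := by
      rw [← hT2 r]
      exact hq
    have h3 := (not_far_of_vt hS (hw r).1 q h2).2
    show q.2 ∉ Far S (Vt (w r)) (0 * (L (w r).length + ρ r))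
    rw [Nat.zero_mul]
    exact h3
  · intro K'
    apply Eventually.frequently
    filter_upwards [eventually_ge_atTop K', hlen.eventually (hOm K')] with r hr hOmr
    rintro ⟨T', h1, h2, h3, h4⟩
    apply hnf r
    refine ⟨T', h1, h2.trans (hT2 r), ?_, ?_⟩
    · refine h3.trans (Real.exp_le_exp.2 ?_)
      exact_mod_cast hOmr
    · intro q hq hfar
      apply h4 q hq
      exact far_anti hS _ (Nat.mul_le_mul_right _ hr) hfar

end Pool.Agent.LibDehn83
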