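import Pool.Agent.LibDehn83.VPrep

/-!
Integral cocycles of degree two with few points are coboundaries away from their defects.
-/

set_option autoImplicit false

namespace Pool.Agent.LibDehn83

open Pool.Agent.LibZIS Pool.Agent.LibCod83 Pool.Agent.LibQF83
open scoped Pointwise

universe v

variable {G : Type} [Group G] [DecidableEq G]

private lemma ThmV_aux1 (s r0 k2 r2 k1 c l : ℝ) (hl : 1 ≤ l) (h5 : 0 ≤ s * r0) (h6 : 0 ≤ s * r2) :
    s * (r0 * (k2 * l + 1)) + (s * (r2 * (k1 * l + 1)) + c * l) ≤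
      (s * (r0 * (k2 + 1)) + s * (r2 * (k1 + 1)) + c + 1) * l := by
  nlinarith

private lemma ThmV_aux2 (k2 l b : ℝ) (hl : 1 ≤ l) (hb : 0 ≤ b) :
    (k2 * l + 1) * b ≤ b * (k2 + 1) * l := by
  nlinarith

private lemma ThmV_aux4 {s a b c : ℝ} (hs : 0 ≤ s) (h1 : a ≤ c) (h2 : b ≤ c) :
    2 * (s * a) + s * (s * b) * 50 ≤ 2 * (s * c) + s * (s * c) * 50 := by
  gcongr

private lemma ThmV_aux3 {n b : ℝ} (h : n ≤ (b + 5) ^ 2) : n ≤ 2 * b ^ 2 + 50 := by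
  nlinarith [sq_nonneg (b - 5)]

/-- the conclusion of the main analytic theorem. -/
def ThmV (S : Finset G) : Prop :=
  ∃ 𝒯 : Finset (Tri G →₀ ℤ), (∀ T ∈ 𝒯, InS S T ∧ bdry T = 0) ∧
    ∀ C : ℕ, ∃ K : ℕ, ∀ L : ℕ, K ≤ L → ∀ (V : Set G) (D Φ : ℕ) (z : Tri G →₀ ℤ), InS S z →
      ∑ q ∈ z.support, ((z q : ℤ) : ℝ) ^ 2 ≤ Real.exp (C * L) →
      (∀ T ∈ 𝒯, ∀ x ∈ Far S V D, vz z T x = 0) →
      (∀ w : List G, Loop S w → w.length ≤ K * L → Fil S w (Real.exp L) Φ) →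
      ∃ n : Ed G →₀ ℤ, (∀ q ∈ n.support, q.1 ∈ S) ∧
        ∑ q ∈ n.support, ((n q : ℤ) : ℝ) ^ 2 ≤ Real.exp (K * L) ∧
        ∀ p ∈ RS S, ∀ x ∈ Far S V (D + K * L + Φ),
          z (p, x) = n (p.1, x) + n (p.2, p.1⁻¹ * x) - n (p.1 * p.2, x)

lemma mul_aux (R K : ℕ) {L : ℕ} (h : 1 ≤ L) : R * (K * L + 1) ≤ R * (K + 1) * L := by
  calc R * (K * L + 1) ≤ R * (K * L + L) := Nat.mul_le_mul_left _ (by omega)
    _ = R * (K + 1) * L := by ring

/-- the main analytic theorem, from the three iterations. -/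
theorem thmV_aux {S : Finset G} (hS : Sys S) (𝒯 : Finset (Tri G →₀ ℤ))
    (h𝒯 : ∀ T ∈ 𝒯, InS S T ∧ bdry T = 0) (RM : ℕ) (AM : ℝ) (hAM : 0 ≤ AM)
    (hmod : ∀ (J : ℕ) (V : Set G) (D : ℕ) (e : Raw.L2 G),
      ‖cut (Far S V (D + RM * (J + 1))) e‖ ≤
        AM * ∑ s ∈ S, ‖cut (Far S V D) (Raw.tr s e - e)‖ + (1 / 4) ^ J * ‖e‖)
    (R0 κ m0 : ℕ) (δ0 : ℝ) (hκ : 0 < κ) (hδ0 : 0 < δ0) (B : ℝ) (hB : 1 ≤ B)
    (hflat : ∀ (J m : ℕ), m0 ≤ m → ∀ (s : UC G) (V : Set G) (D : ℕ) (δ : ℝ), 0 ≤ δ →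
      δ * (B * (J + 1)) ≤ min 1 δ0 → AC s S (Far S V D) m δ → ∀ F : Finset G,
      (((S.card : ℝ) ^ (R0 * (J + 1))) * F.card : ℝ) ≤ Real.exp ((m : ℝ) / κ) →
      ∀ b : G → Raw.L2 G, (∀ g ∈ S, SF F (b g)) →
      ∃ v : Raw.L2 G, SF (S ^ (R0 * (J + 1)) * F) v ∧ ‖v‖ ≤ B ^ (J + 1) * ∑ g ∈ S, ‖b g‖ ∧
        ∑ g ∈ S, ‖cut (Far S V (D + R0 * (J + 1))) (b g - (tw s g v - v))‖ ≤
          (3 / 4) ^ J * ∑ g ∈ S, ‖b g‖ +
          B * (∑ p ∈ RS S, ‖cut (Far S V D) (D1 s b p)‖ + (J + 1) * (δ * ∑ g ∈ S, ‖b g‖)))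
    (R2 : ℕ) (A2 : ℝ) (hA2 : 1 ≤ A2)
    (hprim : ∀ (J : ℕ) (z : Tri G →₀ ℤ) (N : ℝ), 0 ≤ N →
      ∑ q ∈ z.support, ((z q : ℤ) : ℝ) ^ 2 ≤ N ^ 2 → ∃ (β : G → G → ℝ),
        (∀ g ∈ S, ∀ x, β g x ≠ 0 → x ∈ S ^ (R2 * (J + 1)) * z.support.image Prod.snd) ∧
        (∀ g ∈ S, ∀ F : Finset G, ∑ x ∈ F, (β g x) ^ 2 ≤ (A2 * (J + 1) * ((RS S).card * N)) ^ 2) ∧
        ∀ (V : Set G) (D : ℕ), (∀ T ∈ 𝒯, ∀ x ∈ Far S V D, vz z T x = 0) →
          ∃ e : G × G → Raw.L2 G, (∀ p ∈ RS S, ∀ x, |(z (p, x) : ℝ) - dE β (p, x)| ≤ ‖e p x‖) ∧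
            ∀ p ∈ RS S, ‖cut (Far S V (D + R2 * (J + 1))) (e p)‖ ≤
              (1 / 4) ^ J * ((RS S).card * N)) : ThmV S := by
  classical
  have hcS : (1 : ℝ) ≤ S.card := by
    have : 1 ≤ S.card := Finset.card_pos.2 ⟨1, hS.one⟩
    exact_mod_cast this
  refine ⟨𝒯, h𝒯, fun C => ?_⟩
  -- the constants
  set σ := S.card with hσdef
  set ϱ := (RS S).card with hϱdef
  obtain ⟨b0, hb0⟩ := exists_nat_ge B
  set K1 := 2 * C + 6 with hK1
  set K2 := 4 * (C + 2) with hK2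
  set K3 := b0 * (K2 + 1) + C + 2 with hK3
  set t := κ * (σ * (R0 * (K2 + 1)) + σ * (R2 * (K1 + 1)) + C + 1) with ht
  have ht1 : 1 ≤ t := by
    rw [ht]
    exact Nat.mul_pos hκ (by omega)
  obtain ⟨L0, hL0⟩ := exists_threshold σ ϱ A2 B δ0 AM hδ0 K1 K2 t m0
  refine ⟨R2 * (K1 + 1) + 4 * t + R0 * (K2 + 1) + RM * (K3 + 1) + 2 + (2 * C + 3 + t) + L0 + 1,
    fun L hL V D Φ z hz hz2 hvz hfill => ?_⟩
  obtain ⟨hL1, hm0, f1, f2, f3, f4, f5, f6, f7, f8⟩ := hL0 L (by omega)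
  set E := Real.exp (L : ℝ) with hEdef
  have hE0 : 0 < E := Real.exp_pos _
  have hE1 : 1 ≤ E := by linarith
  have hEne : E ≠ 0 := hE0.ne'
  have hL1' : (1 : ℝ) ≤ L := by exact_mod_cast hL1
  have hEn : ∀ k : ℕ, Real.exp (k * L) = E ^ k := fun k => by rw [hEdef, ← Real.exp_nat_mul]
  have hpi := Real.pi_pos
  have hB0 : 0 ≤ B := by linarith
  have hA20 : 0 ≤ A2 := by linarith
  -- the real primitive
  obtain ⟨β, hβF, hβn, hβe⟩ := hprim (K1 * L) z (E ^ C) (pow_nonneg hE0.le _) (by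
    rw [hEn] at hz2
    refine hz2.trans ?_
    have h3 : 1 ≤ E ^ C := one_le_pow₀ hE1
    exact le_self_pow₀ h3 (by norm_num))
  obtain ⟨e, he, hecut⟩ := hβe V D hvz
  set F0 := z.support.image Prod.snd with hF0
  have hF0c : (F0.card : ℝ) ≤ E ^ C := by
    rw [hEn] at hz2
    refine le_trans ?_ hz2
    have h3 : F0.card ≤ z.support.card := Finset.card_image_le
    calc (F0.card : ℝ) ≤ z.support.card := by exact_mod_cast h3
      _ = ∑ q ∈ z.support, (1 : ℝ) := by simp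
      _ ≤ _ := Finset.sum_le_sum fun q hq => by
        have h4 : z q ≠ 0 := Finsupp.mem_support_iff.1 hq
        have h5 : 1 ≤ |z q| := Int.one_le_abs h4
        have h6 : (1 : ℝ) ≤ |(z q : ℝ)| := by exact_mod_cast h5
        rw [← sq_abs]
        exact one_le_pow₀ h6
  set Da := D + R2 * (K1 * L + 1) with hD1
  set ε1 := (E ^ (C + 5))⁻¹ with hε1
  have hε0 : 0 < ε1 := by positivity
  have hcut : ∀ p ∈ RS S, ‖cut (Far S V Da) (e p)‖ ≤ ε1 := by
    intro p hp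
    refine (hecut p hp).trans ?_
    have h3 := quarter_pow L K1
    rw [← hEdef] at h3
    calc (1 / 4 : ℝ) ^ (K1 * L) * (ϱ * E ^ C) ≤ (E ^ K1)⁻¹ * (E * E ^ C) := by
          gcongr
      _ = ε1 := by
          rw [hε1, hK1, ← pow_succ', show 2 * C + 6 = (C + 5) + (C + 1) by ring, pow_add E (C + 5)]
          field_simp
  have hpt : ∀ p ∈ RS S, ∀ x ∈ Far S V Da, |(z (p, x) : ℝ) - dE β (p, x)| ≤ ε1 := fun p hp x hx =>
    (he p hp x).trans ((apply_le_norm_cut hx (e p)).trans (hcut p hp))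
  -- the holonomy
  obtain ⟨s, hAC0, hσs⟩ := holonomy hS β (fun q => z q) V Da (t * L) Φ (A := E) (ε := ε1) hε0.le
    hE0.le hpt (fun w hw hlen => hfill w hw (hlen.trans (by
      rw [← mul_assoc]
      exact Nat.mul_le_mul_right _ (by omega))))
  set D3 := Da + 4 * (t * L) + Φ with hD3
  set δ := (E ^ (C + 3))⁻¹ with hδdef
  have hδ0' : 0 < δ := by positivity
  have hAC : AC s S (Far S V D3) (t * L) δ := by
    refine AC.mono hAC0 ?_
    have h3 : 2 * Real.pi * ((E + 4 * ((t * L : ℕ) : ℝ)) * ε1) ≤ E ^ 2 * ε1 := by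
      rw [← mul_assoc]
      refine mul_le_mul_of_nonneg_right ?_ hε0.le
      push_cast
      exact f2
    refine h3.trans (le_of_eq ?_)
    rw [hε1, hδdef, show C + 5 = 2 + (C + 3) by ring, pow_add]
    field_simp
  -- the section `1` is almost flat
  set F := S ^ (R2 * (K1 * L + 1)) * F0 with hF
  have hFc : (F.card : ℝ) ≤ (σ : ℝ) ^ (R2 * (K1 * L + 1)) * E ^ C :=
    (card_mul_le' S F0 _).trans (mul_le_mul_of_nonneg_left hF0c (pow_nonneg (Nat.cast_nonneg _) _))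
  have hσ1 : ∀ g ∈ S, ∀ x, s.σ g x - 1 ≠ 0 → g ≠ 1 ∧ β g x ≠ 0 := by
    intro g hg x hne
    have hg1 : g ≠ 1 := by
      rintro rfl
      exact hne (by rw [s.one, sub_self])
    refine ⟨hg1, fun h3 => hne ?_⟩
    rw [hσs g hg hg1, h3]
    simp [ex]
  have hbex : ∀ g, ∃ v : Raw.L2 G, (∀ x, v x = if g ∈ S then s.σ g x - 1 else 0) ∧
      ‖v‖ ^ 2 = ∑ x ∈ F, ‖(if g ∈ S then s.σ g x - 1 else 0 : ℂ)‖ ^ 2 := fun g =>
    exists_L2 F _ fun x hx => by
      by_cases hg : g ∈ S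
      · rw [if_pos hg] at hx
        exact hβF g hg x (hσ1 g hg x hx).2
      · rw [if_neg hg] at hx
        exact absurd rfl hx
  choose b hbv hbn using hbex
  have hb : ∀ g ∈ S, ∀ x, b g x = s.σ g x - 1 := fun g hg x => by rw [hbv, if_pos hg]
  have hbF : ∀ g ∈ S, SF F (b g) := by
    intro g hg x hx
    rw [hb g hg] at hx
    exact hβF g hg x (hσ1 g hg x hx).2
  set βh := A2 * (((K1 * L : ℕ) : ℝ) + 1) * (ϱ * E ^ C) with hβh
  have hβh0 : 0 ≤ βh := mul_nonneg (mul_nonneg hA20 (add_nonneg (Nat.cast_nonneg _) zero_le_one))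
    (mul_nonneg (Nat.cast_nonneg _) (pow_nonneg hE0.le _))
  have hbg : ∀ g ∈ S, ‖b g‖ ≤ 2 * Real.pi * βh := by
    intro g hg
    refine abs_le_of_sq_le_sq' ?_ (mul_nonneg (mul_nonneg zero_le_two hpi.le) hβh0) |>.2
    rw [hbn g, mul_pow]
    refine le_trans ?_ (mul_le_mul_of_nonneg_left (hβn g hg F) (sq_nonneg _))
    rw [Finset.mul_sum]
    refine Finset.sum_le_sum fun x _ => ?_
    rw [if_pos hg, ← mul_pow, ← sq_abs (2 * Real.pi * β g x), abs_mul,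
      abs_of_pos (show 0 < 2 * Real.pi by positivity)]
    refine pow_le_pow_left₀ (norm_nonneg _) ?_ 2
    by_cases hg1 : g = 1
    · subst hg1
      rw [s.one, sub_self, norm_zero]
      positivity
    · rw [hσs g hg hg1]
      have h3 := norm_ex_sub (β g x) 0 0
      have h4 : ex 0 = 1 := by simp [ex]
      rw [h4] at h3
      simpa using h3
  have hbsum : ∑ g ∈ S, ‖b g‖ ≤ E ^ (C + 1) := by
    refine (Finset.sum_le_sum fun g hg => hbg g hg).trans ?_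
    rw [Finset.sum_const, nsmul_eq_mul, pow_succ']
    calc (σ : ℝ) * (2 * Real.pi * βh) = σ * (2 * Real.pi) * A2 * (K1 * L + 1) * ϱ * E ^ C := by
          rw [hβh]
          push_cast
          ring
      _ ≤ E * E ^ C := mul_le_mul_of_nonneg_right f3 (pow_nonneg hE0.le _)
  have hbs0 : 0 ≤ ∑ g ∈ S, ‖b g‖ := Finset.sum_nonneg fun _ _ => norm_nonneg _
  have hBL : B * (((K2 * L : ℕ) : ℝ) + 1) ≤ min 1 δ0 * E := by
    push_cast
    exact f4
  have hBL1 : B * (((K2 * L : ℕ) : ℝ) + 1) ≤ E := by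
    refine hBL.trans ?_
    exact mul_le_of_le_one_left hE0.le (min_le_left 1 δ0)
  -- the flat section
  have hcard : (((σ : ℝ) ^ (R0 * (K2 * L + 1))) * F.card : ℝ) ≤
      Real.exp (((t * L : ℕ) : ℝ) / κ) := by
    have h3 : (F.card : ℝ) ≤ Real.exp (σ * ((R2 * (K1 * L + 1) : ℕ) : ℝ)) * Real.exp (C * L) := by
      refine hFc.trans ?_
      rw [hEn]
      exact mul_le_mul_of_nonneg_right (pow_card_le σ _) (pow_nonneg hE0.le _)
    refine (mul_le_mul (pow_card_le σ _) h3 (Nat.cast_nonneg _) (Real.exp_pos _).le).trans ?_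
    rw [← Real.exp_add, ← Real.exp_add]
    refine Real.exp_le_exp.2 ?_
    have hκ' : (κ : ℝ) ≠ 0 := by exact_mod_cast hκ.ne'
    have h4 : (((t * L : ℕ) : ℝ)) / κ =
        (σ * (R0 * (K2 + 1)) + σ * (R2 * (K1 + 1)) + C + 1) * L := by
      rw [ht]
      push_cast
      field_simp
    rw [h4]
    push_cast
    exact ThmV_aux1 _ _ _ _ _ _ _ hL1' (mul_nonneg (Nat.cast_nonneg _) (Nat.cast_nonneg _))
      (mul_nonneg (Nat.cast_nonneg _) (Nat.cast_nonneg _))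
  obtain ⟨v, hvF, hvn, hvc⟩ := hflat (K2 * L) (t * L)
    (hm0.trans (Nat.le_mul_of_pos_left _ ht1)) s V D3 δ hδ0'.le (by
      have h3 : δ ≤ E⁻¹ := by
        rw [hδdef]
        apply inv_anti₀ hE0
        calc E = E ^ 1 := (pow_one _).symm
          _ ≤ E ^ (C + 3) := pow_le_pow_right₀ hE1 (by omega)
      calc δ * (B * (((K2 * L : ℕ) : ℝ) + 1)) ≤ E⁻¹ * (min 1 δ0 * E) :=
            mul_le_mul h3 hBL (by positivity) (by positivity)
        _ = min 1 δ0 := by field_simp) hAC F hcard b hbF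
  set D4 := D3 + R0 * (K2 * L + 1) with hD4
  have hsub : ∀ {m n : ℕ}, m ≤ n → Far S V n ⊆ Far S V m := fun h => far_anti hS V h
  have hD1cut : ∑ p ∈ RS S, ‖cut (Far S V D3) (D1 s b p)‖ ≤ ϱ * (2 * Real.pi * 2) * ε1 := by
    have h3 : ∀ p ∈ RS S, ‖cut (Far S V D3) (D1 s b p)‖ ≤ 2 * Real.pi * (ε1 + ε1) :=
      norm_D1_le hS s β (fun q => z q) hσs e he b hb (Far S V D3) fun p hp =>
        (norm_cut_mono (hsub (by omega)) _).trans (hcut p hp)
    refine (Finset.sum_le_sum h3).trans (le_of_eq ?_)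
    rw [Finset.sum_const, nsmul_eq_mul]
    ring
  have hη1 : ∑ g ∈ S, ‖cut (Far S V D4) (b g - (tw s g v - v))‖ ≤ 3 * E⁻¹ := by
    refine hvc.trans ?_
    have e1 : (3 / 4 : ℝ) ^ (K2 * L) * ∑ g ∈ S, ‖b g‖ ≤ E⁻¹ := by
      have h3 := three_quarter_pow L (C + 2)
      rw [← hEdef] at h3
      calc (3 / 4 : ℝ) ^ (K2 * L) * ∑ g ∈ S, ‖b g‖ ≤ (E ^ (C + 2))⁻¹ * E ^ (C + 1) :=
            mul_le_mul h3 hbsum hbs0 (inv_nonneg.2 (pow_nonneg hE0.le _))
        _ = E⁻¹ := by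
          rw [show C + 2 = 1 + (C + 1) by ring, pow_add]
          field_simp
    have e2 : B * (ϱ * (2 * Real.pi * 2) * ε1) ≤ E⁻¹ := by
      calc B * (ϱ * (2 * Real.pi * 2) * ε1) = B * (ϱ * (2 * Real.pi * 2)) * ε1 := by ring
        _ ≤ E * (E ^ 2)⁻¹ := by
          refine mul_le_mul f5 ?_ hε0.le hE0.le
          rw [hε1]
          exact inv_anti₀ (by positivity) (pow_le_pow_right₀ hE1 (by omega))
        _ = E⁻¹ := by field_simp
    have e3 : B * ((((K2 * L : ℕ) : ℝ) + 1) * (δ * ∑ g ∈ S, ‖b g‖)) ≤ E⁻¹ := by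
      calc B * ((((K2 * L : ℕ) : ℝ) + 1) * (δ * ∑ g ∈ S, ‖b g‖)) =
            B * (((K2 * L : ℕ) : ℝ) + 1) * (δ * ∑ g ∈ S, ‖b g‖) := by ring
        _ ≤ E * (δ * E ^ (C + 1)) := by
          refine mul_le_mul hBL1 (mul_le_mul_of_nonneg_left hbsum hδ0'.le) (by positivity) hE0.le
        _ = E⁻¹ := by
          rw [hδdef, show C + 3 = 2 + (C + 1) by ring, pow_add]
          field_simp
    calc _ ≤ E⁻¹ + B * (ϱ * (2 * Real.pi * 2) * ε1 +
          (((K2 * L : ℕ) : ℝ) + 1) * (δ * ∑ g ∈ S, ‖b g‖)) :=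
          add_le_add e1 (mul_le_mul_of_nonneg_left (add_le_add_left hD1cut _) hB0)
      _ ≤ 3 * E⁻¹ := by
          rw [mul_add]
          linarith
  have hvn' : (1 / 4 : ℝ) ^ (K3 * L) * ‖v‖ ≤ E⁻¹ := by
    have h3 := quarter_pow L K3
    rw [← hEdef] at h3
    have h4 : B ^ (K2 * L + 1) ≤ E ^ (b0 * (K2 + 1)) := by
      have h5 : B ≤ Real.exp b0 := by linarith [Real.add_one_le_exp (b0 : ℝ)]
      calc B ^ (K2 * L + 1) ≤ Real.exp b0 ^ (K2 * L + 1) := pow_le_pow_left₀ hB0 h5 _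
        _ = Real.exp (((K2 * L + 1 : ℕ) : ℝ) * b0) := by rw [Real.exp_nat_mul]
        _ ≤ Real.exp (((b0 * (K2 + 1) : ℕ) : ℝ) * L) := by
          refine Real.exp_le_exp.2 ?_
          push_cast
          exact ThmV_aux2 _ _ _ hL1' (Nat.cast_nonneg _)
        _ = E ^ (b0 * (K2 + 1)) := by rw [hEn]
    calc (1 / 4 : ℝ) ^ (K3 * L) * ‖v‖ ≤ (E ^ K3)⁻¹ * (E ^ (b0 * (K2 + 1)) * E ^ (C + 1)) :=
          mul_le_mul h3 (hvn.trans (mul_le_mul h4 hbsum hbs0 (by positivity))) (norm_nonneg _)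
            (by positivity)
      _ = E⁻¹ := by
        rw [hK3, show b0 * (K2 + 1) + C + 2 = 1 + (b0 * (K2 + 1) + (C + 1)) by ring, pow_add,
          pow_add E (b0 * (K2 + 1))]
        field_simp
  have hEinv : E⁻¹ ≤ 1 / 130 := by
    rw [one_div]
    exact inv_anti₀ (by norm_num) f7
  have hEinv0 : 0 < E⁻¹ := by positivity
  obtain ⟨n, hnS, hnb, hnz⟩ := exists_n hS s β z hσs e he b hb v
    (S ^ (R0 * (K2 * L + 1)) * F) (fun g hg x hx => by
      have h3 := hβF g hg x hx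
      have h4 : (1 : G) ∈ S ^ (R0 * (K2 * L + 1)) := by
        have := pow_mono hS (Nat.zero_le (R0 * (K2 * L + 1)))
        exact this (by simp)
      simpa using Finset.mul_mem_mul h4 h3) hvF V Da D4 RM (K3 * L) (by omega)
    (AM := AM) (η1 := 3 * E⁻¹) (η2 := ε1)
    (by
      refine le_trans ?_ hEinv
      rw [hε1]
      apply inv_anti₀ hE0
      calc E = E ^ 1 := (pow_one _).symm
        _ ≤ E ^ (C + 5) := pow_le_pow_right₀ hE1 (by omega)) hmod hAM (by linarith) hcut hη1 (by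
      have h3 : 20 * (3 * AM + 1) * E⁻¹ ≤ 1 := by
        calc 20 * (3 * AM + 1) * E⁻¹ ≤ E * E⁻¹ := mul_le_mul_of_nonneg_right f6 hEinv0.le
          _ = 1 := mul_inv_cancel₀ hEne
      linarith)
  refine ⟨n, fun q hq => (hnS q hq).1, ?_, fun p hp x hx => hnz p hp x ?_⟩
  · set F5 := S ^ (R0 * (K2 * L + 1)) * F with hF5
    have hF5c : (F5.card : ℝ) ≤ E ^ t := by
      refine (card_mul_le' S F _).trans (hcard.trans ?_)
      rw [← hEn]
      refine Real.exp_le_exp.2 ?_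
      push_cast
      refine div_le_self (mul_nonneg (Nat.cast_nonneg _) (Nat.cast_nonneg _)) ?_
      exact_mod_cast hκ
    have hSF5c : ((S * F5).card : ℝ) ≤ σ * E ^ t := by
      have h3 : (S * F5).card ≤ S.card * F5.card := Finset.card_mul_le
      calc ((S * F5).card : ℝ) ≤ (S.card : ℝ) * F5.card := by exact_mod_cast h3
        _ ≤ σ * E ^ t := mul_le_mul_of_nonneg_left hF5c (Nat.cast_nonneg _)
    have hβE : βh ≤ E ^ (C + 1) := by
      have h3 : A2 * (K1 * L + 1) * ϱ ≤ E := by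
        refine le_trans ?_ f3
        have h4 : (1 : ℝ) ≤ σ * (2 * Real.pi) := by
          exact one_le_mul_of_one_le_of_one_le hcS (by linarith [Real.pi_gt_three])
        have h5 : 0 ≤ A2 * (K1 * L + 1) * ϱ := mul_nonneg (mul_nonneg hA20
          (add_nonneg (mul_nonneg (Nat.cast_nonneg _) (Nat.cast_nonneg _)) zero_le_one)) (Nat.cast_nonneg _)
        calc A2 * (K1 * L + 1) * ϱ ≤ (σ * (2 * Real.pi)) * (A2 * (K1 * L + 1) * ϱ) :=
              le_mul_of_one_le_left h5 h4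
          _ = _ := by ring
      rw [hβh, pow_succ']
      push_cast
      calc A2 * (K1 * L + 1) * (ϱ * E ^ C) = A2 * (K1 * L + 1) * ϱ * E ^ C := by ring
        _ ≤ E * E ^ C := mul_le_mul_of_nonneg_right h3 (pow_nonneg hE0.le _)
    have hsupp : n.support ⊆ S ×ˢ (S * F5) := fun q hq =>
      Finset.mem_product.2 ⟨(hnS q hq).1, (hnS q hq).2⟩
    have h3 : ∑ q ∈ n.support, ((n q : ℤ) : ℝ) ^ 2 ≤
        ∑ q ∈ S ×ˢ (S * F5), (2 * (β q.1 q.2) ^ 2 + 50) := by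
      refine (Finset.sum_le_sum_of_subset_of_nonneg hsupp fun _ _ _ => sq_nonneg _).trans
        (Finset.sum_le_sum fun q _ => ?_)
      have h4 := hnb q
      have h5 : ((n q : ℤ) : ℝ) ^ 2 ≤ (|β q.1 q.2| + 5) ^ 2 := by
        rw [← sq_abs]
        exact pow_le_pow_left₀ (abs_nonneg _) h4 2
      have h6 : (|β q.1 q.2|) ^ 2 = (β q.1 q.2) ^ 2 := sq_abs _
      rw [← h6]
      exact ThmV_aux3 h5
    refine h3.trans ?_
    rw [Finset.sum_add_distrib, ← Finset.mul_sum, Finset.sum_product, Finset.sum_const,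
      nsmul_eq_mul, Finset.card_product]
    have h4 : ∑ g ∈ S, ∑ x ∈ S * F5, (β g x) ^ 2 ≤ σ * E ^ (2 * C + 2) := by
      refine (Finset.sum_le_sum fun g hg => hβn g hg _).trans ?_
      rw [Finset.sum_const, nsmul_eq_mul]
      refine mul_le_mul_of_nonneg_left ?_ (Nat.cast_nonneg _)
      rw [show 2 * C + 2 = (C + 1) * 2 by ring, pow_mul]
      exact pow_le_pow_left₀ hβh0 hβE 2
    have h5 : ((S.card * (S * F5).card : ℕ) : ℝ) ≤ σ * (σ * E ^ t) := by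
      push_cast
      exact mul_le_mul_of_nonneg_left hSF5c (Nat.cast_nonneg _)
    have h6 : E ^ (2 * C + 2) ≤ E ^ (2 * C + 2 + t) := pow_le_pow_right₀ hE1 (by omega)
    have h7 : E ^ t ≤ E ^ (2 * C + 2 + t) := pow_le_pow_right₀ hE1 (by omega)
    calc 2 * ∑ g ∈ S, ∑ x ∈ S * F5, (β g x) ^ 2 + ((S.card * (S * F5).card : ℕ) : ℝ) * 50 ≤
          2 * (σ * E ^ (2 * C + 2)) + σ * (σ * E ^ t) * 50 := by
          refine add_le_add (mul_le_mul_of_nonneg_left h4 (by norm_num))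
            (mul_le_mul_of_nonneg_right h5 (by norm_num))
      _ ≤ 2 * (σ * E ^ (2 * C + 2 + t)) + σ * (σ * E ^ (2 * C + 2 + t)) * 50 :=
          ThmV_aux4 (Nat.cast_nonneg _) h6 h7
      _ = (2 * σ + 50 * σ ^ 2) * E ^ (2 * C + 2 + t) := by ring
      _ ≤ E * E ^ (2 * C + 2 + t) := mul_le_mul_of_nonneg_right f8 (pow_nonneg hE0.le _)
      _ = E ^ (2 * C + 3 + t) := by
          rw [← pow_succ']
          congr 1
          ring
      _ ≤ _ := by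
          rw [hEn]
          exact pow_le_pow_right₀ hE1 (by omega)
  · refine hsub ?_ hx
    have g1 := mul_aux R2 K1 hL1
    have g2 := mul_aux R0 K2 hL1
    have g3 := mul_aux RM K3 hL1
    have g4 : (R2 * (K1 + 1) + 4 * t + R0 * (K2 + 1) + RM * (K3 + 1) + 2 + (2 * C + 3 + t) +
        L0 + 1) * L = R2 * (K1 + 1) * L + 4 * (t * L) + R0 * (K2 + 1) * L + RM * (K3 + 1) * L +
        2 * L + (2 * C + 3 + t + L0 + 1) * L := by ring
    rw [g4]
    omega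


variable {E : Type v} [TopologicalSpace E] [PathConnectedSpace E]
  [MulAction G E] [ContinuousConstSMul G E] {S : Finset G}

/-- the main analytic theorem. -/
theorem thmV (hS : Sys S) (hfree : ∀ (g : G) (e : E), g • e = e → g = 1) (hE : H1Zero E)
    (h0 : ¬ Nontrivial (Hgy (lam G) E 0)) (h1 : ¬ Nontrivial (Hgy (lam G) E 1))
    (h2 : ¬ Nontrivial (Hgy (lam G) E 2)) : ThmV S := by
  classical
  obtain ⟨x0⟩ : Nonempty E := inferInstance
  have hcS : 1 ≤ S.card := Finset.card_pos.2 ⟨1, hS.one⟩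
  have hcS' : (1 : ℝ) ≤ S.card := by exact_mod_cast hcS
  have h11 : ((1 : G), (1 : G)) ∈ RS S := by
    unfold RS
    rw [Finset.mem_filter, Finset.mem_product]
    exact ⟨⟨hS.one, hS.one⟩, by simpa using hS.one⟩
  have hcR : (1 : ℝ) ≤ (RS S).card := by
    have : 1 ≤ (RS S).card := Finset.card_pos.2 ⟨_, h11⟩
    exact_mod_cast this
  -- the modulus
  obtain ⟨hh, xx, hx, hid⟩ := agap0 (S := S) (gap0 hS x0 h0) (ε := 1 / 4) (by norm_num)
  obtain ⟨RM, AM, hAM, hmod⟩ := modulus hS hh xx hx hid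
  -- flat sections
  have hpS : (0 : ℝ) < S.card := lt_of_lt_of_le one_pos hcS'
  have hpR : (0 : ℝ) < (RS S).card := lt_of_lt_of_le one_pos hcR
  obtain ⟨a, t1, X, hX, hid1⟩ := agap1 (S := S) (gap1 hS hfree h0 h1) (ε := 1 / (4 * S.card))
    (div_pos one_pos (mul_pos four_pos hpS))
  obtain ⟨R0, κ, m0, A, δ0, hκ, hA, hδ0, hstep⟩ := flat_step hS a t1 X (fun s hs s' hs' => by
    have h3 := mul_le_mul_of_nonneg_left (hX s hs s' hs') hpS.le
    refine h3.trans (le_of_eq ?_)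
    rw [one_div, mul_inv, mul_left_comm, mul_inv_cancel₀ hpS.ne', mul_one, one_div]) hid1
  obtain ⟨B, hB, hflat⟩ := flat_iter hS hA hδ0 hstep
  -- the real primitive
  obtain ⟨𝒯, h𝒯, hex⟩ := gap2 hS hfree hE h0 h1 h2
  obtain ⟨t2, α, X2, hX2, hid2⟩ := agap2 𝒯 hex (ε := 1 / (4 * (RS S).card))
    (div_pos one_pos (mul_pos four_pos hpR))
  obtain ⟨R2, A2, hA2, hprim⟩ := int_primitive 𝒯 h𝒯 (real_primitive hS 𝒯 h𝒯 t2 α X2
    (fun p hp q hq => by
      have h3 := mul_le_mul_of_nonneg_left (hX2 p hp q hq) hpR.le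
      refine h3.trans (le_of_eq ?_)
      rw [one_div, mul_inv, mul_left_comm, mul_inv_cancel₀ hpR.ne', mul_one, one_div]) hid2)
  exact thmV_aux hS 𝒯 h𝒯 RM AM hAM hmod R0 κ m0 δ0 hκ hδ0 B hB hflat R2 A2 hA2 hprim

end Pool.Agent.LibDehn83
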