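import Pool.Agent.LibDehn83.Oper

/-!
The twisted action of the group algebra on functions with few points in a region where the
twist is almost flat: its norm is almost bounded by the norm of the untwisted action.
-/

set_option autoImplicit false

namespace Pool.Agent.LibDehn83

open Pool.Agent.LibZIS Pool.Agent.LibCod83 Pool.Agent.LibQF83
open scoped Pointwise

variable {G : Type} [Group G] [DecidableEq G]

/-- the truncated exponential weight. -/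
noncomputable def wt (S : Finset G) (κ m : ℕ) (x y : G) : ℝ :=
  if len S (x * y⁻¹) ≤ m then Real.exp (-(len S (x * y⁻¹) : ℝ) / κ) else 0

/-- the norm of the weight vector. -/
noncomputable def wn (S F : Finset G) (κ m : ℕ) (x : G) : ℝ := √(∑ y ∈ F, wt S κ m x y ^ 2)

/-! ### row N1: the weights.  -/

lemma one_le_wn (S F : Finset G) (κ m : ℕ) {x : G} (hx : x ∈ F) : 1 ≤ wn S F κ m x := by
  have h1 : wt S κ m x x = 1 := by
    rw [wt, mul_inv_cancel, len_one, if_pos (Nat.zero_le _), Nat.cast_zero, neg_zero, zero_div,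
      Real.exp_zero]
  rw [wn]
  refine Real.one_le_sqrt.2 ?_
  calc (1 : ℝ) = wt S κ m x x ^ 2 := by rw [h1, one_pow]
    _ ≤ ∑ y ∈ F, wt S κ m x y ^ 2 :=
      Finset.single_le_sum (f := fun y => wt S κ m x y ^ 2) (fun _ _ => sq_nonneg _) hx

omit [Group G] [DecidableEq G] in
/-- the triangle inequality. -/
lemma sqrt_sum_add_le (F : Finset G) (f g : G → ℝ) :
    √(∑ y ∈ F, (f y + g y) ^ 2) ≤ √(∑ y ∈ F, f y ^ 2) + √(∑ y ∈ F, g y ^ 2) := by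
  rw [Real.sqrt_le_left (by positivity)]
  have h1 : ∑ y ∈ F, (f y + g y) ^ 2 =
      ∑ y ∈ F, f y ^ 2 + ∑ y ∈ F, g y ^ 2 + 2 * ∑ y ∈ F, f y * g y := by
    rw [Finset.mul_sum, ← Finset.sum_add_distrib, ← Finset.sum_add_distrib]
    exact Finset.sum_congr rfl fun y _ => by ring
  have h2 := Real.sum_mul_le_sqrt_mul_sqrt F f g
  have h3 := Real.sq_sqrt (Finset.sum_nonneg fun y (_ : y ∈ F) => sq_nonneg (f y))
  have h4 := Real.sq_sqrt (Finset.sum_nonneg fun y (_ : y ∈ F) => sq_nonneg (g y))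
  rw [h1, add_sq, h3, h4]
  linarith

omit [Group G] [DecidableEq G] in
lemma sqrt_sum_mul (F : Finset G) (c : ℝ) (hc : 0 ≤ c) (f : G → ℝ) :
    √(∑ y ∈ F, (c * f y) ^ 2) = c * √(∑ y ∈ F, f y ^ 2) := by
  have h1 : ∑ y ∈ F, (c * f y) ^ 2 = c ^ 2 * ∑ y ∈ F, f y ^ 2 := by
    rw [Finset.mul_sum]
    exact Finset.sum_congr rfl fun y _ => by ring
  rw [h1, Real.sqrt_mul (sq_nonneg c), Real.sqrt_sq hc]

omit [Group G] [DecidableEq G] in
lemma abs_sqrt_sub_le (F : Finset G) (f g : G → ℝ) :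
    |√(∑ y ∈ F, f y ^ 2) - √(∑ y ∈ F, g y ^ 2)| ≤ √(∑ y ∈ F, (f y - g y) ^ 2) := by
  have h1 := sqrt_sum_add_le F (fun y => f y - g y) g
  have h2 := sqrt_sum_add_le F (fun y => g y - f y) f
  simp only [sub_add_cancel] at h1 h2
  have h3 : ∑ y ∈ F, (g y - f y) ^ 2 = ∑ y ∈ F, (f y - g y) ^ 2 :=
    Finset.sum_congr rfl fun y _ => by ring
  rw [h3] at h2
  rw [abs_le]
  constructor <;> linarith

/-- the difference of the weights at a point. -/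
lemma abs_wt_sub {S : Finset G} (hS : Sys S) {κ : ℕ} (hκ : 0 < κ) (m n : ℕ)
    {x x' : G} (h : x * x'⁻¹ ∈ S ^ n) (y : G) :
    |wt S κ m x y - wt S κ m x' y| ≤
      (Real.exp (n / κ) - 1) * wt S κ m x y + Real.exp (-((m : ℝ) - n) / κ) := by
  have hκ' : (0 : ℝ) < κ := Nat.cast_pos.2 hκ
  have e1 : x * y⁻¹ = (x * x'⁻¹) * (x' * y⁻¹) := by group
  have e2 : x' * y⁻¹ = (x * x'⁻¹)⁻¹ * (x * y⁻¹) := by group
  have l0 : len S (x * x'⁻¹) ≤ n := len_le h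
  have l1 : len S (x * y⁻¹) ≤ n + len S (x' * y⁻¹) := by
    calc len S (x * y⁻¹) = len S ((x * x'⁻¹) * (x' * y⁻¹)) := by rw [← e1]
      _ ≤ len S (x * x'⁻¹) + len S (x' * y⁻¹) := len_mul_le hS _ _
      _ ≤ n + len S (x' * y⁻¹) := by omega
  have l2 : len S (x' * y⁻¹) ≤ n + len S (x * y⁻¹) := by
    calc len S (x' * y⁻¹) = len S ((x * x'⁻¹)⁻¹ * (x * y⁻¹)) := by rw [← e2]
      _ ≤ len S (x * x'⁻¹)⁻¹ + len S (x * y⁻¹) := len_mul_le hS _ _
      _ ≤ n + len S (x * y⁻¹) := by rw [len_inv hS]; omega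
  have c1 : (len S (x * y⁻¹) : ℝ) ≤ n + len S (x' * y⁻¹) := by exact_mod_cast l1
  have c2 : (len S (x' * y⁻¹) : ℝ) ≤ n + len S (x * y⁻¹) := by exact_mod_cast l2
  have p0 : (1 : ℝ) ≤ Real.exp (n / κ) := Real.one_le_exp (by positivity)
  have p1 := Real.exp_pos (-((m : ℝ) - n) / κ)
  rw [wt, wt]
  set a : ℕ := len S (x * y⁻¹) with ha
  set b : ℕ := len S (x' * y⁻¹) with hb
  split_ifs with h1 h2 h2
  · have q := Real.exp_pos (-(a : ℝ) / κ)
    have r : Real.exp (-(b : ℝ) / κ) =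
        Real.exp (-(a : ℝ) / κ) * Real.exp (((a : ℝ) - b) / κ) := by
      rw [← Real.exp_add]
      congr 1
      ring
    have r1 : Real.exp (((a : ℝ) - b) / κ) ≤ Real.exp (n / κ) := by
      refine Real.exp_le_exp.2 ?_
      gcongr
      linarith
    have r2 : Real.exp (-((n : ℝ) / κ)) ≤ Real.exp (((a : ℝ) - b) / κ) := by
      refine Real.exp_le_exp.2 ?_
      rw [← neg_div]
      gcongr
      linarith
    have r3 : 2 - Real.exp (n / κ) ≤ Real.exp (-((n : ℝ) / κ)) := by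
      have t := Real.exp_pos ((n : ℝ) / κ)
      rw [Real.exp_neg]
      have t2 : (2 - Real.exp ((n : ℝ) / κ)) * Real.exp ((n : ℝ) / κ) ≤ 1 := by
        nlinarith [sq_nonneg (Real.exp ((n : ℝ) / κ) - 1)]
      rw [inv_eq_one_div, le_div_iff₀ t]
      exact t2
    have r4 : |1 - Real.exp (((a : ℝ) - b) / κ)| ≤ Real.exp (n / κ) - 1 := by
      rw [abs_le]
      constructor <;> linarith
    have r5 : Real.exp (-(a : ℝ) / κ) - Real.exp (-(b : ℝ) / κ) =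
        Real.exp (-(a : ℝ) / κ) * (1 - Real.exp (((a : ℝ) - b) / κ)) := by
      rw [r]; ring
    rw [r5, abs_mul, abs_of_pos q]
    have r6 := mul_le_mul_of_nonneg_left r4 q.le
    nlinarith
  · have q := Real.exp_pos (-(a : ℝ) / κ)
    rw [sub_zero, abs_of_pos q]
    have h3 : (m : ℝ) < b := by exact_mod_cast not_le.1 h2
    have r1 : Real.exp (-(a : ℝ) / κ) ≤ Real.exp (-((m : ℝ) - n) / κ) := by
      refine Real.exp_le_exp.2 ?_
      gcongr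
      linarith
    have r2 : 0 ≤ (Real.exp (n / κ) - 1) * Real.exp (-(a : ℝ) / κ) :=
      mul_nonneg (by linarith) q.le
    linarith
  · have q := Real.exp_pos (-(b : ℝ) / κ)
    rw [zero_sub, abs_neg, abs_of_pos q, mul_zero, zero_add]
    have h3 : (m : ℝ) < a := by exact_mod_cast not_le.1 h1
    refine Real.exp_le_exp.2 ?_
    gcongr
    linarith
  · rw [sub_zero, abs_zero, mul_zero, zero_add]
    exact p1.le

/-- nearby points have nearby weights. -/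
lemma wt_sub {S : Finset G} (hS : Sys S) (F : Finset G) {κ : ℕ} (hκ : 0 < κ) (m n : ℕ)
    {x x' : G} (h : x * x'⁻¹ ∈ S ^ n) :
    √(∑ y ∈ F, (wt S κ m x y - wt S κ m x' y) ^ 2) ≤
      (Real.exp (n / κ) - 1) * wn S F κ m x + √(F.card) * Real.exp (-((m : ℝ) - n) / κ) := by
  have hκ' : (0 : ℝ) < κ := Nat.cast_pos.2 hκ
  have p0 : (1 : ℝ) ≤ Real.exp (n / κ) := Real.one_le_exp (by positivity)
  have p1 := Real.exp_pos (-((m : ℝ) - n) / κ)
  have h1 : √(∑ y ∈ F, (wt S κ m x y - wt S κ m x' y) ^ 2) ≤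
      √(∑ y ∈ F, ((Real.exp (n / κ) - 1) * wt S κ m x y +
        Real.exp (-((m : ℝ) - n) / κ) * 1) ^ 2) := by
    refine Real.sqrt_le_sqrt (Finset.sum_le_sum fun y _ => ?_)
    rw [mul_one]
    refine sq_le_sq' ?_ ?_
    · have := abs_wt_sub hS hκ m n h y
      linarith [neg_abs_le (wt S κ m x y - wt S κ m x' y)]
    · exact (le_abs_self _).trans (abs_wt_sub hS hκ m n h y)
  refine h1.trans ((sqrt_sum_add_le F _ _).trans ?_)
  rw [sqrt_sum_mul F _ (by linarith) (fun y => wt S κ m x y),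
    sqrt_sum_mul F _ p1.le (fun _ => (1 : ℝ))]
  have h2 : ∑ y ∈ F, (1 : ℝ) ^ 2 = F.card := by simp
  rw [h2, wn, mul_comm (Real.exp (-((m : ℝ) - n) / κ))]

/-- nearby points have nearby normalised weights. -/
lemma nwt_sub {S : Finset G} (hS : Sys S) (F : Finset G) {κ : ℕ} (hκ : 0 < κ) (m n : ℕ)
    {x x' : G} (hx : x ∈ F) (hx' : x' ∈ F) (h : x * x'⁻¹ ∈ S ^ n) :
    √(∑ y ∈ F, (wt S κ m x y / wn S F κ m x - wt S κ m x' y / wn S F κ m x') ^ 2) ≤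
      2 * (Real.exp (n / κ) - 1) + 2 * (√(F.card) * Real.exp (-((m : ℝ) - n) / κ)) := by
  have p1 := Real.exp_pos (-((m : ℝ) - n) / κ)
  set N : ℝ := wn S F κ m x with hN
  set N' : ℝ := wn S F κ m x' with hN'
  have n1 : 1 ≤ N := one_le_wn S F κ m hx
  have n2 : 1 ≤ N' := one_le_wn S F κ m hx'
  have n0 : 0 < N := by linarith
  have n0' : 0 < N' := by linarith
  set d : ℝ := √(∑ y ∈ F, (wt S κ m x y - wt S κ m x' y) ^ 2) with hd
  have hd0 : 0 ≤ d := Real.sqrt_nonneg _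
  have h1 : d ≤ (Real.exp (n / κ) - 1) * N + √(F.card) * Real.exp (-((m : ℝ) - n) / κ) :=
    wt_sub hS F hκ m n h
  have h2 : |N - N'| ≤ d := abs_sqrt_sub_le F (fun y => wt S κ m x y) (fun y => wt S κ m x' y)
  have e : ∑ y ∈ F, (wt S κ m x y / N - wt S κ m x' y / N') ^ 2 =
      ∑ y ∈ F, (N⁻¹ * (wt S κ m x y - wt S κ m x' y) + (N' - N) / (N * N') * wt S κ m x' y) ^ 2 := by
    refine Finset.sum_congr rfl fun y _ => ?_
    congr 1
    field_simp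
    ring
  have h3 : √(∑ y ∈ F, ((N' - N) / (N * N') * wt S κ m x' y) ^ 2) = |N' - N| / N := by
    have e2 : ∑ y ∈ F, ((N' - N) / (N * N') * wt S κ m x' y) ^ 2 =
        ∑ y ∈ F, (|N' - N| / (N * N') * wt S κ m x' y) ^ 2 := by
      refine Finset.sum_congr rfl fun y _ => ?_
      rw [mul_pow, mul_pow, div_pow, div_pow, sq_abs]
    rw [e2, sqrt_sum_mul F _ (by positivity) (fun y => wt S κ m x' y)]
    show |N' - N| / (N * N') * N' = _
    field_simp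
  have h4 : √(∑ y ∈ F, (wt S κ m x y / N - wt S κ m x' y / N') ^ 2) ≤ N⁻¹ * d + |N' - N| / N := by
    rw [e]
    refine (sqrt_sum_add_le F _ _).trans ?_
    rw [h3, sqrt_sum_mul F _ (by positivity) (fun y => wt S κ m x y - wt S κ m x' y)]
  have h5 : N⁻¹ * d + |N' - N| / N ≤ 2 * (d / N) := by
    rw [abs_sub_comm] at h2
    have : |N' - N| / N ≤ d / N := div_le_div_of_nonneg_right h2 n0.le
    have e3 : N⁻¹ * d = d / N := by rw [div_eq_inv_mul]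
    rw [e3]
    linarith
  have h6 : d / N ≤ (Real.exp (n / κ) - 1) + √(F.card) * Real.exp (-((m : ℝ) - n) / κ) := by
    rw [div_le_iff₀ n0]
    have h7 : 0 ≤ √(F.card) * Real.exp (-((m : ℝ) - n) / κ) := by positivity
    nlinarith
  linarith

/-! ### row N2: comparison of the twisted and the untwisted action. -/

/-- a vector with finite support. -/
noncomputable def N2_fv (P : Finset G) (f : G → ℂ) : Raw.L2 G :=
  ⟨fun y => if y ∈ P then f y else 0, memℓp_gen (by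
    refine summable_of_ne_finset_zero (s := P) fun y hy => ?_
    rw [if_neg hy]
    simp)⟩

omit [Group G] in
lemma N2_fv_apply (P : Finset G) (f : G → ℂ) (y : G) :
    N2_fv P f y = if y ∈ P then f y else 0 := rfl

omit [Group G] in
lemma N2_fv_sq (P : Finset G) (f : G → ℂ) : ‖N2_fv P f‖ ^ 2 = ∑ y ∈ P, ‖f y‖ ^ 2 := by
  rw [Raw.norm_sq_eq, tsum_eq_sum (s := P)]
  · refine Finset.sum_congr rfl fun y hy => ?_
    rw [N2_fv_apply, if_pos hy]
  · intro y hy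
    rw [N2_fv_apply, if_neg hy, norm_zero]
    norm_num

omit [Group G] in
lemma N2_fv_norm (P : Finset G) (f : G → ℂ) : ‖N2_fv P f‖ = √(∑ y ∈ P, ‖f y‖ ^ 2) := by
  rw [← N2_fv_sq, Real.sqrt_sq (norm_nonneg _)]

/-- the unit vectors. -/
noncomputable def N2_v (s : UC G) (P : Finset G) (ξ : G → G → ℝ) (x : G) : Raw.L2 G :=
  if x ∈ P then N2_fv P (fun y => (starRingEnd ℂ) (s.σ (x * y⁻¹) x) * (ξ x y : ℂ)) else 0

lemma N2_v_norm (s : UC G) (P : Finset G) (ξ : G → G → ℝ) {x : G} (hx : x ∈ P)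
    (h : ∑ y ∈ P, ξ x y ^ 2 = 1) : ‖N2_v s P ξ x‖ = 1 := by
  unfold N2_v
  rw [if_pos hx, N2_fv_norm]
  have h2 : ∑ y ∈ P, ‖(starRingEnd ℂ) (s.σ (x * y⁻¹) x) * (ξ x y : ℂ)‖ ^ 2 =
      ∑ y ∈ P, ξ x y ^ 2 := by
    refine Finset.sum_congr rfl fun y _ => ?_
    rw [norm_mul, RCLike.norm_conj, s.norm, one_mul, Complex.norm_real, Real.norm_eq_abs, sq_abs]
  rw [h2, h, Real.sqrt_one]

/-- the variation of the unit vectors. -/
lemma N2_diff (s : UC G) (P : Finset G) (ξ : G → G → ℝ) {g x x' : G} (hx : x ∈ P) (hx' : x' ∈ P)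
    {δ N : ℝ} (hδ : 0 ≤ δ) (h1 : ∑ y ∈ P, ξ x' y ^ 2 = 1)
    (h3 : √(∑ y ∈ P, (ξ x y - ξ x' y) ^ 2) ≤ N)
    (h4 : ∀ y, ξ x' y ≠ 0 → ‖s.σ (x * y⁻¹) x - s.σ g x * s.σ (x' * y⁻¹) x'‖ ≤ δ) :
    ‖s.σ g x • N2_v s P ξ x - N2_v s P ξ x'‖ ≤ N + δ := by
  have hkey : s.σ g x • N2_v s P ξ x - N2_v s P ξ x' =
      N2_fv P (fun y => s.σ g x * (starRingEnd ℂ) (s.σ (x * y⁻¹) x) * ((ξ x y - ξ x' y : ℝ) : ℂ)) +
      N2_fv P (fun y => (s.σ g x * (starRingEnd ℂ) (s.σ (x * y⁻¹) x) -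
        (starRingEnd ℂ) (s.σ (x' * y⁻¹) x')) * (ξ x' y : ℂ)) := by
    unfold N2_v
    rw [if_pos hx, if_pos hx']
    ext y
    show s.σ g x * (if y ∈ P then (starRingEnd ℂ) (s.σ (x * y⁻¹) x) * (ξ x y : ℂ) else 0) -
      (if y ∈ P then (starRingEnd ℂ) (s.σ (x' * y⁻¹) x') * (ξ x' y : ℂ) else 0) =
      (if y ∈ P then s.σ g x * (starRingEnd ℂ) (s.σ (x * y⁻¹) x) * ((ξ x y - ξ x' y : ℝ) : ℂ)
        else 0) +
      (if y ∈ P then (s.σ g x * (starRingEnd ℂ) (s.σ (x * y⁻¹) x) -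
        (starRingEnd ℂ) (s.σ (x' * y⁻¹) x')) * (ξ x' y : ℂ) else 0)
    split_ifs
    · push_cast
      ring
    · ring
  rw [hkey]
  refine (norm_add_le _ _).trans (add_le_add ?_ ?_)
  · rw [N2_fv_norm]
    refine le_trans (le_of_eq ?_) h3
    congr 1
    refine Finset.sum_congr rfl fun y _ => ?_
    rw [norm_mul, norm_mul, RCLike.norm_conj, s.norm, s.norm, one_mul, one_mul, Complex.norm_real,
      Real.norm_eq_abs, sq_abs]
  · rw [N2_fv_norm]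
    have h5 : ∑ y ∈ P, ‖(s.σ g x * (starRingEnd ℂ) (s.σ (x * y⁻¹) x) -
        (starRingEnd ℂ) (s.σ (x' * y⁻¹) x')) * (ξ x' y : ℂ)‖ ^ 2 ≤ ∑ y ∈ P, δ ^ 2 * ξ x' y ^ 2 := by
      refine Finset.sum_le_sum fun y _ => ?_
      rw [norm_mul, mul_pow, Complex.norm_real, Real.norm_eq_abs, sq_abs]
      by_cases hy : ξ x' y = 0
      · rw [hy]
        norm_num
      · refine mul_le_mul_of_nonneg_right ?_ (sq_nonneg _)
        refine pow_le_pow_left₀ (norm_nonneg _) ?_ 2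
        have h6 : s.σ g x * (starRingEnd ℂ) (s.σ (x * y⁻¹) x) -
            (starRingEnd ℂ) (s.σ (x' * y⁻¹) x') =
            s.σ g x * (starRingEnd ℂ) (s.σ (x * y⁻¹) x - s.σ g x * s.σ (x' * y⁻¹) x') := by
          have h7 : s.σ g x * (starRingEnd ℂ) (s.σ g x) = 1 := by
            rw [Complex.mul_conj, Complex.normSq_eq_norm_sq, s.norm]
            norm_num
          rw [map_sub, map_mul, mul_sub, ← mul_assoc (s.σ g x) ((starRingEnd ℂ) (s.σ g x)), h7,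
            one_mul]
        rw [h6, norm_mul, RCLike.norm_conj, s.norm, one_mul]
        exact h4 y hy
    refine (Real.sqrt_le_sqrt h5).trans ?_
    rw [← Finset.mul_sum, h1, mul_one, Real.sqrt_sq hδ]

omit [DecidableEq G] in
/-- the defect of the lift. -/
lemma N2_defect (s : UC G) (ξ : G → Raw.L2 G) (hξ : ∀ x, ‖ξ x‖ ≤ 1) (u : Raw.L2 G) (g : G)
    {t : ℝ} (ht : 0 ≤ t)
    (h : ∀ x, u (g⁻¹ * x) ≠ 0 → ‖s.σ g x • ξ x - ξ (g⁻¹ * x)‖ ≤ t) :
    ‖Wl ξ hξ (tw s g u) - Raw.tr g (Wl ξ hξ u)‖ ≤ t * ‖u‖ := by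
  have hF : Summable fun x => t ^ 2 * ‖u (g⁻¹ * x)‖ ^ 2 :=
    (Raw.summable_sq (Raw.tr g u)).mul_left (t ^ 2)
  have hFt : ∑' x, t ^ 2 * ‖u (g⁻¹ * x)‖ ^ 2 = (t * ‖u‖) ^ 2 := by
    rw [tsum_mul_left, mul_pow, ← Raw.norm_tr g u, Raw.norm_sq_eq]
    rfl
  have h' : ∀ x, ‖u (g⁻¹ * x)‖ ^ 2 * ‖s.σ g x • ξ x - ξ (g⁻¹ * x)‖ ^ 2 ≤
      t ^ 2 * ‖u (g⁻¹ * x)‖ ^ 2 := by
    intro x
    by_cases hx : u (g⁻¹ * x) = 0
    · rw [hx, norm_zero]
      norm_num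
    · rw [mul_comm]
      exact mul_le_mul_of_nonneg_right (pow_le_pow_left₀ (norm_nonneg _) (h x hx) 2) (sq_nonneg _)
  have hs : Summable fun x => ‖u (g⁻¹ * x)‖ ^ 2 * ‖s.σ g x • ξ x - ξ (g⁻¹ * x)‖ ^ 2 :=
    Summable.of_nonneg_of_le (fun _ => by positivity) h' hF
  have h1 : Wl ξ hξ (tw s g u) - Raw.tr g (Wl ξ hξ u) =
      pr (fun x => u (g⁻¹ * x)) (fun x => s.σ g x • ξ x - ξ (g⁻¹ * x)) hs := by
    ext p
    show (s.σ g p.1 * u (g⁻¹ * p.1)) * ξ p.1 p.2 - u (g⁻¹ * p.1) * ξ (g⁻¹ * p.1) p.2 =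
      u (g⁻¹ * p.1) * (s.σ g p.1 * ξ p.1 p.2 - ξ (g⁻¹ * p.1) p.2)
    ring
  refine le_of_sq_le_sq ?_ (mul_nonneg ht (norm_nonneg _))
  rw [h1, norm_pr_sq]
  exact (hs.tsum_le_tsum h' hF).trans hFt.le

omit [DecidableEq G] in
/-- the inequality with a field of vectors. -/
lemma N2_core (φ : MA G) (s : UC G) (u : Raw.L2 G) (ξ : G → Raw.L2 G)
    (hξ : ∀ x, ‖ξ x‖ ≤ 1) (hu : ∀ x, u x ≠ 0 → ‖ξ x‖ = 1)
    (hP : ∀ g ∈ φ.coeff.support, ∀ x, u (g⁻¹ * x) ≠ 0 → ‖ξ x‖ = 1) (t : ℝ)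
    (ht : ∀ g ∈ φ.coeff.support, ‖Wl ξ hξ (tw s g u) - Raw.tr g (Wl ξ hξ u)‖ ≤ t) :
    ‖Tw s φ u‖ ≤ ‖TT φ‖ * ‖u‖ + l1 φ * t := by
  have h0 : Tw s φ u = ∑ g ∈ φ.coeff.support, φ.coeff g • tw s g u := by
    unfold Tw
    rw [ContinuousLinearMap.sum_apply]
    rfl
  rw [h0]
  set P : Raw.L2 G := ∑ g ∈ φ.coeff.support, φ.coeff g • tw s g u with hPdef
  have h1 : ‖Wl ξ hξ P‖ = ‖P‖ := by
    refine norm_Wl ξ hξ P fun x hx => ?_
    have h2 : P x = ∑ g ∈ φ.coeff.support, φ.coeff g * (s.σ g x * u (g⁻¹ * x)) := by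
      have h3 : ((∑ g ∈ φ.coeff.support, φ.coeff g • tw s g u : Raw.L2 G) : ∀ _ : G, ℂ) =
          ∑ g ∈ φ.coeff.support, ((φ.coeff g • tw s g u : Raw.L2 G) : ∀ _ : G, ℂ) :=
        map_sum (lp.coeFnAddMonoidHom (fun _ : G => ℂ) 2) _ _
      rw [hPdef, h3, Finset.sum_apply]
      rfl
    rw [h2] at hx
    obtain ⟨g, hg, hgx⟩ := Finset.exists_ne_zero_of_sum_ne_zero hx
    exact hP g hg x (right_ne_zero_of_mul (right_ne_zero_of_mul hgx))
  have h2 : Wl ξ hξ P - Raw.T G (GX G G) φ (Wl ξ hξ u) =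
      ∑ g ∈ φ.coeff.support, φ.coeff g • (Wl ξ hξ (tw s g u) - Raw.tr g (Wl ξ hξ u)) := by
    rw [Raw.T_apply, hPdef, map_sum, ← Finset.sum_sub_distrib]
    refine Finset.sum_congr rfl fun g _ => ?_
    rw [map_smul, smul_sub]
  have h3 : ‖Wl ξ hξ P - Raw.T G (GX G G) φ (Wl ξ hξ u)‖ ≤ l1 φ * t := by
    unfold l1
    rw [h2, Finset.sum_mul]
    refine (norm_sum_le _ _).trans (Finset.sum_le_sum fun g hg => ?_)
    rw [norm_smul]
    exact mul_le_mul_of_nonneg_left (ht g hg) (norm_nonneg _)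
  have h4 : ‖Raw.T G (GX G G) φ (Wl ξ hξ u)‖ ≤ ‖Raw.T G G φ‖ * ‖u‖ := by
    refine (ContinuousLinearMap.le_opNorm _ _).trans ?_
    rw [norm_Wl ξ hξ u hu]
    exact mul_le_mul_of_nonneg_right (Raw.norm_T_le amenable_GX φ) (norm_nonneg _)
  have h5 : Wl ξ hξ P = Raw.T G (GX G G) φ (Wl ξ hξ u) +
    (Wl ξ hξ P - Raw.T G (GX G G) φ (Wl ξ hξ u)) := by abel
  rw [← h1, h5]
  exact (norm_add_le _ _).trans (add_le_add h4 h3)

/-- `N` is a bound of the variation of the unit vectors. -/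
theorem norm_Tw_le_aux {S : Finset G} (hS : Sys S) (a : MA G) {n m : ℕ}
    (ha : a.coeff.support ⊆ S ^ n) (hn : n ≤ m) (s : UC G) {Ω : Set G} {δ N : ℝ} (hδ : 0 ≤ δ)
    (hs : AC s S Ω m δ) (F : Finset G) (hF : ∀ x ∈ S ^ n * F, x ∈ Ω)
    (ξ : G → G → ℝ) (h1 : ∀ x ∈ S ^ n * F, ∑ y ∈ S ^ n * F, ξ x y ^ 2 = 1)
    (h2 : ∀ x y, ξ x y ≠ 0 → x * y⁻¹ ∈ S ^ m)
    (h3 : ∀ g ∈ S ^ n, ∀ x ∈ F,
      √(∑ y ∈ S ^ n * F, (ξ (g * x) y - ξ x y) ^ 2) ≤ N)
    (u : Raw.L2 G) (hu : SF F u) : ‖Tw s a u‖ ≤ ‖TT a‖ * ‖u‖ + l1 a * (N + δ) * ‖u‖ := by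
  rcases Finset.eq_empty_or_nonempty F with hemp | ⟨x0, hx0⟩
  · have hu0 : u = 0 := by
      ext x
      by_contra hx
      have h5 := hu x hx
      rw [hemp] at h5
      exact absurd h5 (Finset.notMem_empty x)
    rw [hu0, map_zero, norm_zero]
    simp
  have hone : (1 : G) ∈ S ^ n := Finset.one_mem_pow hS.one
  have hN : 0 ≤ N := (Real.sqrt_nonneg _).trans (h3 1 hone x0 hx0)
  have hFP : F ⊆ S ^ n * F := fun x hx => by
    have h5 := Finset.mul_mem_mul hone hx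
    rwa [one_mul] at h5
  have hnm : S ^ n ⊆ S ^ m := Finset.pow_subset_pow_right hS.one hn
  have hv1 : ∀ x ∈ S ^ n * F, ‖N2_v s (S ^ n * F) ξ x‖ = 1 :=
    fun x hx => N2_v_norm s _ ξ hx (h1 x hx)
  have hv : ∀ x, ‖N2_v s (S ^ n * F) ξ x‖ ≤ 1 := by
    intro x
    by_cases hx : x ∈ S ^ n * F
    · exact (hv1 x hx).le
    · unfold N2_v
      rw [if_neg hx, norm_zero]
      exact zero_le_one
  have hg : ∀ g ∈ a.coeff.support, ∀ x, u (g⁻¹ * x) ≠ 0 → x ∈ S ^ n * F := by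
    intro g hg x hx
    have h5 := Finset.mul_mem_mul (ha hg) (hu _ hx)
    rwa [mul_inv_cancel_left] at h5
  have h5 := N2_core a s u (N2_v s (S ^ n * F) ξ) hv (fun x hx => hv1 x (hFP (hu x hx)))
    (fun g hga x hx => hv1 x (hg g hga x hx)) ((N + δ) * ‖u‖) (fun g hga => by
      refine N2_defect s _ hv u g (by linarith) fun x hx => ?_
      have hx' : g⁻¹ * x ∈ F := hu _ hx
      have hxP := hg g hga x hx
      refine N2_diff s _ ξ hxP (hFP hx') hδ (h1 _ (hFP hx')) ?_ fun y hy => ?_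
      · have h6 := h3 g (ha hga) (g⁻¹ * x) hx'
        rwa [mul_inv_cancel_left] at h6
      · have h6 := hs g (hnm (ha hga)) (g⁻¹ * x * y⁻¹) (h2 _ _ hy) x (hF x hxP)
        have h7 : g * (g⁻¹ * x * y⁻¹) = x * y⁻¹ := by group
        rwa [h7] at h6)
  refine h5.trans (le_of_eq ?_)
  ring

/-! ### row N3: the choice of the constants. -/

lemma N3_kappa {A η : ℝ} (hA : 0 ≤ A) (hη : 0 < η) (n : ℕ) :
    ∃ κ : ℕ, 0 < κ ∧ A * (2 * (Real.exp ((n : ℝ) / κ) - 1)) ≤ η / 4 := by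
  have hε : 0 < η / (8 * (A + 1)) := by positivity
  set ε : ℝ := η / (8 * (A + 1)) with hεdef
  have hL : 0 < Real.log (1 + ε) := Real.log_pos (by linarith)
  set L : ℝ := Real.log (1 + ε) with hLdef
  refine ⟨⌈(n : ℝ) / L⌉₊ + 1, Nat.succ_pos _, ?_⟩
  have h1 : (n : ℝ) / L ≤ ((⌈(n : ℝ) / L⌉₊ + 1 : ℕ) : ℝ) := by
    push_cast
    linarith [Nat.le_ceil ((n : ℝ) / L)]
  have hκ : (0 : ℝ) < ((⌈(n : ℝ) / L⌉₊ + 1 : ℕ) : ℝ) := by exact_mod_cast Nat.succ_pos _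
  generalize ((⌈(n : ℝ) / L⌉₊ + 1 : ℕ) : ℝ) = k at h1 hκ
  have h2 : (n : ℝ) / k ≤ L := by
    rw [div_le_iff₀ hL] at h1
    rw [div_le_iff₀ hκ]
    linarith
  have h3 : Real.exp ((n : ℝ) / k) ≤ 1 + ε := by
    have h4 := Real.exp_le_exp.2 h2
    rwa [hLdef, Real.exp_log (by linarith)] at h4
  calc A * (2 * (Real.exp ((n : ℝ) / k) - 1)) ≤ A * (2 * ε) :=
        mul_le_mul_of_nonneg_left (by linarith) hA
    _ ≤ (A + 1) * (2 * ε) := mul_le_mul_of_nonneg_right (by linarith) (by linarith)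
    _ = η / 4 := by
        rw [hεdef]
        have : A + 1 ≠ 0 := by positivity
        field_simp
        norm_num

lemma N3_m {A η c : ℝ} (hη : 0 < η) (n κ : ℕ) (hκ : 0 < κ) :
    ∃ m0 : ℕ, ∀ m : ℕ, m0 ≤ m →
      A * (2 * (c * Real.exp ((n : ℝ) / κ) * Real.exp (-((m : ℝ) / (2 * κ))))) ≤ η / 4 := by
  have hκ' : (0 : ℝ) < 2 * κ := by positivity
  have h1 : Filter.Tendsto (fun m : ℕ => -((m : ℝ) / (2 * κ))) Filter.atTop Filter.atBot :=
    Filter.tendsto_neg_atTop_atBot.comp (tendsto_natCast_atTop_atTop.atTop_div_const hκ')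
  have h2 := (Real.tendsto_exp_atBot.comp h1).const_mul (A * (2 * (c * Real.exp ((n : ℝ) / κ))))
  rw [mul_zero] at h2
  have h3 := h2.eventually (ge_mem_nhds (show (0 : ℝ) < η / 4 by positivity))
  obtain ⟨m0, hm0⟩ := Filter.eventually_atTop.1 h3
  refine ⟨m0, fun m hm => ?_⟩
  have h4 := hm0 m hm
  rw [Function.comp_apply] at h4
  calc A * (2 * (c * Real.exp ((n : ℝ) / κ) * Real.exp (-((m : ℝ) / (2 * κ)))))
      = A * (2 * (c * Real.exp ((n : ℝ) / κ))) * Real.exp (-((m : ℝ) / (2 * κ))) := by ring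
    _ ≤ η / 4 := h4

lemma N3_card {C B : ℝ} {m n κ : ℕ} (hκ : 0 < κ) (hB : 0 ≤ B)
    (h : C ≤ B * Real.exp ((m : ℝ) / κ)) :
    √C * Real.exp (-((m : ℝ) - n) / κ) ≤
      √B * Real.exp ((n : ℝ) / κ) * Real.exp (-((m : ℝ) / (2 * κ))) := by
  have hκ' : (κ : ℝ) ≠ 0 := by positivity
  have h1 : √C ≤ √B * Real.exp ((m : ℝ) / (2 * κ)) := by
    have h2 : √(B * Real.exp ((m : ℝ) / κ)) = √B * Real.exp ((m : ℝ) / (2 * κ)) := by
      rw [Real.sqrt_mul hB]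
      congr 1
      rw [show (m : ℝ) / κ = (m : ℝ) / (2 * κ) + (m : ℝ) / (2 * κ) by field_simp; norm_num,
        Real.exp_add, Real.sqrt_mul_self (Real.exp_pos _).le]
    rw [← h2]
    exact Real.sqrt_le_sqrt h
  calc √C * Real.exp (-((m : ℝ) - n) / κ)
      ≤ √B * Real.exp ((m : ℝ) / (2 * κ)) * Real.exp (-((m : ℝ) - n) / κ) :=
        mul_le_mul_of_nonneg_right h1 (Real.exp_pos _).le
    _ = √B * Real.exp ((n : ℝ) / κ) * Real.exp (-((m : ℝ) / (2 * κ))) := by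
        rw [mul_assoc, mul_assoc, ← Real.exp_add, ← Real.exp_add]
        congr 2
        field_simp
        ring

lemma N3_one_mem {S : Finset G} (hS : Sys S) (n : ℕ) : (1 : G) ∈ S ^ n := by
  have h := pow_mono hS (Nat.zero_le n)
  rw [pow_zero] at h
  exact h (Finset.mem_one.2 rfl)

lemma N3_cardF (S F : Finset G) {n m κ : ℕ} (hF : (F.card : ℝ) ≤ Real.exp ((m : ℝ) / κ)) :
    (((S ^ n * F).card : ℕ) : ℝ) ≤ ((S.card ^ n : ℕ) : ℝ) * Real.exp ((m : ℝ) / κ) := by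
  have h1 : (S ^ n * F).card ≤ S.card ^ n * F.card :=
    Finset.card_mul_le.trans (Nat.mul_le_mul_right _ (card_pow_le' S n))
  calc (((S ^ n * F).card : ℕ) : ℝ) ≤ ((S.card ^ n * F.card : ℕ) : ℝ) := by exact_mod_cast h1
    _ = ((S.card ^ n : ℕ) : ℝ) * F.card := by rw [Nat.cast_mul]
    _ ≤ _ := mul_le_mul_of_nonneg_left hF (Nat.cast_nonneg _)

theorem norm_Tw_le {S : Finset G} (hS : Sys S) (a : MA G) {η : ℝ} (hη : 0 < η) :
    ∃ (κ n m0 : ℕ) (δ0 : ℝ), 0 < κ ∧ 0 < δ0 ∧ ∀ m, m0 ≤ m → ∀ (s : UC G) (V : Set G) (D : ℕ),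
      AC s S (Far S V D) m δ0 → ∀ F : Finset G, (F.card : ℝ) ≤ Real.exp ((m : ℝ) / κ) →
      (∀ x ∈ F, x ∈ Far S V (D + n)) → ∀ u : Raw.L2 G, SF F u →
      ‖Tw s a u‖ ≤ (‖TT a‖ + η) * ‖u‖ := by
  obtain ⟨n, hn⟩ := exists_subset_pow hS a.coeff.support
  have hl : 0 ≤ l1 a := l1_nonneg a
  obtain ⟨κ, hκ, hκ1⟩ := N3_kappa hl hη n
  obtain ⟨m1, hm1⟩ := N3_m (A := l1 a) (c := √((S.card ^ n : ℕ) : ℝ)) hη n κ hκ
  have hl1 : 0 < l1 a + 1 := by linarith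
  refine ⟨κ, n, max n m1, η / (4 * (l1 a + 1)), hκ, by positivity, ?_⟩
  intro m hm s V D hs F hF hFV u hu
  have hF1 : ∀ x ∈ F, x ∈ S ^ n * F := fun x hx => by
    have h := Finset.mul_mem_mul (N3_one_mem hS n) hx
    rwa [one_mul] at h
  have key := norm_Tw_le_aux hS a hn ((le_max_left _ _).trans hm) s
    (Ω := Far S V D) (δ := η / (4 * (l1 a + 1)))
    (N := 2 * (Real.exp ((n : ℝ) / κ) - 1) +
      2 * (√((S ^ n * F).card) * Real.exp (-((m : ℝ) - n) / κ))) (by positivity) hs F ?_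
    (fun x y => wt S κ m x y / wn S (S ^ n * F) κ m x) ?_ ?_ ?_ u hu
  · refine key.trans ?_
    have h1 : l1 a * (2 * (√((S ^ n * F).card) * Real.exp (-((m : ℝ) - n) / κ))) ≤ η / 4 := by
      refine le_trans ?_ (hm1 m ((le_max_right _ _).trans hm))
      refine mul_le_mul_of_nonneg_left ?_ hl
      refine mul_le_mul_of_nonneg_left ?_ zero_le_two
      exact N3_card hκ (Nat.cast_nonneg _) (N3_cardF S F hF)
    have h2 : l1 a * (η / (4 * (l1 a + 1))) ≤ η / 4 := by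
      rw [mul_div_assoc', div_le_div_iff₀ (by positivity) (by norm_num)]
      nlinarith
    have h3 : l1 a * (2 * (Real.exp ((n : ℝ) / κ) - 1) +
        2 * (√((S ^ n * F).card) * Real.exp (-((m : ℝ) - n) / κ)) + η / (4 * (l1 a + 1))) ≤ η := by
      rw [mul_add, mul_add]
      linarith
    rw [add_mul]
    exact add_le_add_right (mul_le_mul_of_nonneg_right h3 (norm_nonneg u)) _
  · intro x hx
    obtain ⟨g, hg, f, hf, rfl⟩ := Finset.mem_mul.1 hx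
    exact far_shift' hS hg (hFV f hf)
  · intro x hx
    have h1 : 0 < wn S (S ^ n * F) κ m x := lt_of_lt_of_le one_pos (one_le_wn S _ κ m hx)
    have h2 : wn S (S ^ n * F) κ m x ^ 2 = ∑ y ∈ S ^ n * F, wt S κ m x y ^ 2 :=
      Real.sq_sqrt (Finset.sum_nonneg fun y _ => sq_nonneg _)
    simp only [div_pow]
    rw [← Finset.sum_div, ← h2, div_self (pow_pos h1 2).ne']
  · intro x y hxy
    have h1 : wt S κ m x y ≠ 0 := fun h => hxy (by simp only [h, zero_div])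
    have h2 : len S (x * y⁻¹) ≤ m := by
      by_contra h
      exact h1 (if_neg h)
    exact pow_mono hS h2 (mem_pow_len hS _)
  · intro g hg x hx
    refine nwt_sub hS _ hκ m n (Finset.mul_mem_mul hg hx) (hF1 x hx) ?_
    rwa [mul_inv_cancel_right]

end Pool.Agent.LibDehn83
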