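import Pool.Agent.LibDehn83.Hol

/-!
Integral cocycles of degree two with few points are coboundaries away from their defects:
preparations.
-/

set_option autoImplicit false

namespace Pool.Agent.LibDehn83

open Pool.Agent.LibZIS Pool.Agent.LibCod83 Pool.Agent.LibQF83 Filter Topology
open scoped Pointwise

variable {G : Type} [Group G] [DecidableEq G]

/-- the value of the cochain `z` on the translates of the chain `T`. -/
noncomputable def vz (z : Tri G →₀ ℤ) (T : Tri G →₀ ℤ) (x : G) : ℤ :=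
  T.sum fun q n => n * z (q.1, q.2 * x)

omit [Group G] [DecidableEq G] in
/-- finitely supported functions. -/
lemma exists_L2 (F : Finset G) (u : G → ℂ) (h : ∀ x, u x ≠ 0 → x ∈ F) :
    ∃ v : Raw.L2 G, (∀ x, v x = u x) ∧ ‖v‖ ^ 2 = ∑ x ∈ F, ‖u x‖ ^ 2 := by
  have hz : ∀ x, x ∉ F → u x = 0 := fun x hx => by
    by_contra hne
    exact hx (h x hne)
  have hm : Memℓp u 2 := by
    refine memℓp_gen (summable_of_ne_finset_zero (s := F) fun x hx => ?_)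
    rw [hz x hx]
    simp
  refine ⟨⟨u, hm⟩, fun x => rfl, ?_⟩
  rw [Raw.norm_sq_eq]
  show ∑' x, ‖u x‖ ^ 2 = _
  rw [tsum_eq_sum (s := F)]
  intro x hx
  rw [hz x hx]
  simp

omit [Group G] [DecidableEq G] in
lemma sum_sq_le (v : Raw.L2 G) (F : Finset G) : ∑ x ∈ F, ‖v x‖ ^ 2 ≤ ‖v‖ ^ 2 := by
  rw [Raw.norm_sq_eq]
  exact (Raw.summable_sq v).sum_le_tsum F fun x _ => by positivity

/-- evaluation of the untwisted operators on chains. -/
lemma vl_apply {S : Finset G} (z : Tri G →₀ ℤ) (zc : G × G → Raw.L2 G)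
    (hz : ∀ p x, zc p x = (z (p, x) : ℂ)) {T : Tri G →₀ ℤ} (hT : InS S T) (x : G) :
    vl S zc T x = (vz z T x : ℂ) := by
  have h1 : ∀ q : G × G, TT (cycA (og G) T q) (zc q) x =
      ∑ p ∈ T.support, if p.1 = q then (T p : ℂ) * (z (q, p.2 * x) : ℂ) else 0 := by
    intro q
    have h2 : TT (cycA (og G) T q) = ∑ p ∈ T.support,
        if p.1 = q then (T p : ℂ) • TT (og G p.2⁻¹) else 0 := by
      unfold cycA TT
      rw [Finsupp.sum, map_sum]
      refine Finset.sum_congr rfl fun p _ => ?_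
      split_ifs
      · rw [map_zsmul, ← Int.cast_smul_eq_zsmul ℂ]
      · rw [map_zero]
    rw [h2]
    simp only [_root_.sum_apply]
    rw [lp.coeFn_sum, Finset.sum_apply]
    refine Finset.sum_congr rfl fun p _ => ?_
    split_ifs
    · show (T p : ℂ) * (TT (og G p.2⁻¹) (zc q)) x = _
      rw [TT_og, Raw.tr_apply, hz, inv_inv]
      rfl
    · rfl
  unfold vl
  rw [lp.coeFn_sum, Finset.sum_apply]
  simp only [h1]
  rw [Finset.sum_comm]
  unfold vz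
  rw [Finsupp.sum]
  push_cast
  refine Finset.sum_congr rfl fun p hp => ?_
  rw [Finset.sum_ite_eq, if_pos]
  unfold RS
  rw [Finset.mem_filter, Finset.mem_product]
  exact ⟨⟨(hT p hp).1, (hT p hp).2.1⟩, (hT p hp).2.2⟩


/-- the real primitive of an integral cochain. -/
theorem int_primitive {S : Finset G} (𝒯 : Finset (Tri G →₀ ℤ))
    (h𝒯 : ∀ T ∈ 𝒯, InS S T ∧ bdry T = 0)
    (h : ∃ (R0 : ℕ) (A : ℝ), 1 ≤ A ∧ ∀ (J : ℕ) (F : Finset G) (z : G × G → Raw.L2 G),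
      (∀ p ∈ RS S, SF F (z p)) → ∃ β : G → Raw.L2 G,
        (∀ g ∈ S, SF (S ^ (R0 * (J + 1)) * F) (β g) ∧ ‖β g‖ ≤ A * (J + 1) * ∑ p ∈ RS S, ‖z p‖) ∧
        ∀ (V : Set G) (D : ℕ), (∀ T ∈ 𝒯, ∀ x ∈ Far S V D, vl S z T x = 0) →
          ∑ p ∈ RS S, ‖cut (Far S V (D + R0 * (J + 1))) (z p - d1 β p)‖ ≤
            (1 / 4) ^ J * ∑ p ∈ RS S, ‖z p‖) :
    ∃ (R0 : ℕ) (A : ℝ), 1 ≤ A ∧ ∀ (J : ℕ) (z : Tri G →₀ ℤ) (N : ℝ), 0 ≤ N →
      ∑ q ∈ z.support, ((z q : ℤ) : ℝ) ^ 2 ≤ N ^ 2 → ∃ (β : G → G → ℝ),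
        (∀ g ∈ S, ∀ x, β g x ≠ 0 → x ∈ S ^ (R0 * (J + 1)) * z.support.image Prod.snd) ∧
        (∀ g ∈ S, ∀ F : Finset G, ∑ x ∈ F, (β g x) ^ 2 ≤ (A * (J + 1) * ((RS S).card * N)) ^ 2) ∧
        ∀ (V : Set G) (D : ℕ), (∀ T ∈ 𝒯, ∀ x ∈ Far S V D, vz z T x = 0) →
          ∃ e : G × G → Raw.L2 G, (∀ p ∈ RS S, ∀ x, |(z (p, x) : ℝ) - dE β (p, x)| ≤ ‖e p x‖) ∧
            ∀ p ∈ RS S, ‖cut (Far S V (D + R0 * (J + 1))) (e p)‖ ≤
              (1 / 4) ^ J * ((RS S).card * N) := by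
  obtain ⟨R0, A, hA, h⟩ := h
  refine ⟨R0, A, hA, fun J z N hN hz => ?_⟩
  have hex : ∀ p : G × G, ∃ v : Raw.L2 G, (∀ x, v x = (z (p, x) : ℂ)) ∧
      ‖v‖ ^ 2 = ∑ x ∈ z.support.image Prod.snd, ‖(z (p, x) : ℂ)‖ ^ 2 := fun p =>
    exists_L2 _ _ fun x hx => by
      refine Finset.mem_image.2 ⟨(p, x), ?_, rfl⟩
      rw [Finsupp.mem_support_iff]
      intro h0
      exact hx (by rw [h0]; simp)
  choose zc hzc hzn using hex
  have hSF : ∀ p ∈ RS S, SF (z.support.image Prod.snd) (zc p) := by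
    intro p _ x hx
    rw [hzc] at hx
    refine Finset.mem_image.2 ⟨(p, x), ?_, rfl⟩
    rw [Finsupp.mem_support_iff]
    intro h0
    exact hx (by rw [h0]; simp)
  have hn : ∀ p, ‖zc p‖ ≤ N := by
    intro p
    refine abs_le_of_sq_le_sq' ?_ hN |>.2
    rw [hzn p]
    refine le_trans ?_ hz
    have h2 : ∑ x ∈ z.support.image Prod.snd, ‖(z (p, x) : ℂ)‖ ^ 2 =
        ∑ q ∈ (z.support.image Prod.snd).image (fun x => (p, x)), ((z q : ℤ) : ℝ) ^ 2 := by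
      rw [Finset.sum_image fun a _ b _ hab => (Prod.mk.inj hab).2]
      refine Finset.sum_congr rfl fun x _ => ?_
      rw [Complex.norm_intCast, sq_abs]
    rw [h2]
    have h3 : ∑ q ∈ (z.support.image Prod.snd).image (fun x => (p, x)), ((z q : ℤ) : ℝ) ^ 2 =
        ∑ q ∈ ((z.support.image Prod.snd).image (fun x => (p, x))).filter (fun q => z q ≠ 0),
          ((z q : ℤ) : ℝ) ^ 2 := by
      symm
      refine Finset.sum_filter_of_ne fun q _ hq h0 => hq ?_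
      rw [h0]
      simp
    rw [h3]
    refine Finset.sum_le_sum_of_subset_of_nonneg (fun q hq => ?_) fun _ _ _ => by positivity
    rw [Finsupp.mem_support_iff]
    exact (Finset.mem_filter.1 hq).2
  have hsum : ∑ p ∈ RS S, ‖zc p‖ ≤ (RS S).card * N := by
    refine (Finset.sum_le_sum fun p _ => hn p).trans ?_
    rw [Finset.sum_const, nsmul_eq_mul]
  obtain ⟨β', hβ', hcut⟩ := h J _ zc hSF
  refine ⟨fun g x => (β' g x).re, fun g hg x hx => ?_, fun g hg F => ?_, fun V D hV => ?_⟩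
  · refine (hβ' g hg).1 x fun h0 => hx ?_
    show (β' g x).re = 0
    rw [h0]
    simp
  · refine le_trans ?_ (pow_le_pow_left₀ (norm_nonneg _)
      ((hβ' g hg).2.trans (mul_le_mul_of_nonneg_left hsum (by positivity))) 2)
    refine le_trans (Finset.sum_le_sum fun x _ => ?_) (sum_sq_le (β' g) F)
    exact sq_le_sq' (by
      have := Complex.abs_re_le_norm (β' g x)
      linarith [neg_abs_le (β' g x).re]) ((le_abs_self _).trans (Complex.abs_re_le_norm _))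
  · refine ⟨fun p => zc p - d1 β' p, fun p hp x => ?_, fun p hp => ?_⟩
    · have h3 : ((z (p, x) : ℝ) - dE (fun g x => (β' g x).re) (p, x)) =
          ((zc p - d1 β' p : Raw.L2 G) x).re := by
        have h4 : (zc p - d1 β' p : Raw.L2 G) x =
            zc p x - (β' p.1 x + β' p.2 (p.1⁻¹ * x) - β' (p.1 * p.2) x) := rfl
        rw [h4, hzc]
        simp only [dE, Complex.sub_re, Complex.add_re, Complex.intCast_re]
      rw [h3]
      exact Complex.abs_re_le_norm _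
    · refine le_trans ?_ ((hcut V D fun T hT x hx => ?_).trans
        (mul_le_mul_of_nonneg_left hsum (by positivity)))
      · exact Finset.single_le_sum (f := fun p => ‖cut (Far S V (D + R0 * (J + 1)))
          (zc p - d1 β' p)‖) (fun _ _ => norm_nonneg _) hp
      · rw [vl_apply z zc hzc (h𝒯 T hT).1, hV T hT x hx]
        simp




omit [Group G] [DecidableEq G] in
/-- the absolute value. -/
lemma exists_abs (u : Raw.L2 G) : ∃ v : Raw.L2 G, (∀ x, v x = ((‖u x‖ : ℝ) : ℂ)) ∧ ‖v‖ = ‖u‖ := by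
  have hm : Memℓp (fun x => ((‖u x‖ : ℝ) : ℂ)) 2 := by
    refine memℓp_gen ?_
    have h := (memℓp_gen_iff (by simp)).1 (lp.memℓp u)
    refine h.congr fun x => ?_
    simp
  refine ⟨⟨_, hm⟩, fun x => rfl, ?_⟩
  refine le_antisymm (norm_le_of_le fun x => ?_) (norm_le_of_le fun x => ?_)
  · show ‖((‖u x‖ : ℝ) : ℂ)‖ ≤ ‖u x‖
    simp
  · show ‖u x‖ ≤ ‖((‖u x‖ : ℝ) : ℂ)‖
    simp

omit [Group G] [DecidableEq G] in
/-- domination by two functions. -/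
lemma norm_cut_le_two {Ω : Set G} {u v w : Raw.L2 G} {c : ℝ} (hc : 0 ≤ c)
    (h : ∀ x ∈ Ω, ‖u x‖ ≤ c * (‖v x‖ + ‖w x‖)) :
    ‖cut Ω u‖ ≤ c * (‖cut Ω v‖ + ‖cut Ω w‖) := by
  classical
  obtain ⟨v', hv, hvn⟩ := exists_abs (cut Ω v)
  obtain ⟨w', hw, hwn⟩ := exists_abs (cut Ω w)
  have h1 : ‖cut Ω u‖ ≤ ‖(c : ℂ) • (v' + w')‖ := by
    refine norm_le_of_le fun x => ?_
    have h2 : ((c : ℂ) • (v' + w') : Raw.L2 G) x = (c : ℂ) * (v' x + w' x) := rfl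
    have h3 : ‖(c : ℂ) * (v' x + w' x)‖ = c * (‖cut Ω v x‖ + ‖cut Ω w x‖) := by
      rw [hv, hw, ← Complex.ofReal_add, ← Complex.ofReal_mul, Complex.norm_real,
        Real.norm_of_nonneg (by positivity)]
    rw [h2, h3]
    by_cases hx : x ∈ Ω
    · rw [cut_of_mem hx, cut_of_mem hx, cut_of_mem hx]
      exact h x hx
    · rw [cut_of_not_mem hx, norm_zero]
      positivity
  refine h1.trans ?_
  rw [norm_smul, Complex.norm_real, Real.norm_of_nonneg hc, ← hvn, ← hwn]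
  exact mul_le_mul_of_nonneg_left (norm_add_le _ _) hc

/-- the curvature is small in `ℓ²`. -/
lemma norm_D1_le {S : Finset G} (hS : Sys S) (s : UC G) (β : G → G → ℝ)
    (z : Tri G → ℤ) (hσ : ∀ g ∈ S, g ≠ 1 → ∀ x, s.σ g x = ex (β g x)) (e : G × G → Raw.L2 G)
    (he : ∀ p ∈ RS S, ∀ x, |(z (p, x) : ℝ) - dE β (p, x)| ≤ ‖e p x‖) (b : G → Raw.L2 G)
    (hb : ∀ g ∈ S, ∀ x, b g x = s.σ g x - 1) (Ω : Set G) {ε : ℝ}
    (hε : ∀ p ∈ RS S, ‖cut Ω (e p)‖ ≤ ε) :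
    ∀ p ∈ RS S, ‖cut Ω (D1 s b p)‖ ≤ 2 * Real.pi * (ε + ε) := by
  intro p hp
  have hp' : (p.1 ∈ S ∧ p.2 ∈ S) ∧ p.1 * p.2 ∈ S := by
    unfold RS at hp
    rw [Finset.mem_filter, Finset.mem_product] at hp
    exact hp
  obtain ⟨⟨h1, h2⟩, h3⟩ := hp'
  have h11 : ((1 : G), (1 : G)) ∈ RS S := by
    unfold RS
    rw [Finset.mem_filter, Finset.mem_product]
    exact ⟨⟨hS.one, hS.one⟩, by simpa using hS.one⟩
  have hpi := Real.pi_pos
  refine (norm_cut_le_two (v := e p) (w := e (1, 1)) (c := 2 * Real.pi) (by positivity)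
    fun x _ => ?_).trans
    (mul_le_mul_of_nonneg_left (add_le_add (hε p hp) (hε _ h11)) (by positivity))
  have hval : D1 s b p x = s.σ p.1 x * s.σ p.2 (p.1⁻¹ * x) - s.σ (p.1 * p.2) x := by
    have h4 : D1 s b p x = b p.1 x + tw s p.1 (b p.2) x - b (p.1 * p.2) x := rfl
    rw [h4, tw_apply, hb _ h1, hb _ h2, hb _ h3]
    ring
  rw [hval]
  have hnn1 : 0 ≤ ‖e p x‖ := norm_nonneg _
  have hnn2 : 0 ≤ ‖e (1, 1) x‖ := norm_nonneg _
  by_cases c1 : p.1 = 1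
  · rw [c1, s.one, one_mul, one_mul, inv_one, one_mul, sub_self, norm_zero]
    positivity
  by_cases c2 : p.2 = 1
  · rw [c2, s.one, mul_one, mul_one, sub_self, norm_zero]
    positivity
  have hz := he p hp x
  simp only [dE] at hz
  by_cases c3 : p.1 * p.2 = 1
  · have hz1 := he _ h11 x
    simp only [dE, inv_one, one_mul] at hz1
    rw [hσ _ h1 c1, hσ _ h2 c2, c3, s.one, ← ex_add]
    rw [c3] at hz
    have e1 : ‖ex (β p.1 x + β p.2 (p.1⁻¹ * x)) - ex (β 1 x)‖ ≤ 2 * Real.pi * ‖e p x‖ := by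
      refine (norm_ex_sub _ _ (z (p, x))).trans
        (mul_le_mul_of_nonneg_left ?_ (by positivity))
      rw [abs_sub_comm]
      exact hz
    have e2 : ‖ex (β 1 x) - 1‖ ≤ 2 * Real.pi * ‖e (1, 1) x‖ := by
      have e3 := norm_ex_sub (β 1 x) 0 (z ((1, 1), x))
      have e4 : ex 0 = 1 := by simp [ex]
      rw [e4] at e3
      refine e3.trans (mul_le_mul_of_nonneg_left ?_ (by positivity))
      rw [sub_zero, abs_sub_comm]
      rwa [add_sub_cancel_right] at hz1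
    calc ‖ex (β p.1 x + β p.2 (p.1⁻¹ * x)) - 1‖
        = ‖(ex (β p.1 x + β p.2 (p.1⁻¹ * x)) - ex (β 1 x)) + (ex (β 1 x) - 1)‖ := by
          congr 1
          ring
      _ ≤ 2 * Real.pi * ‖e p x‖ + 2 * Real.pi * ‖e (1, 1) x‖ :=
          (norm_add_le _ _).trans (add_le_add e1 e2)
      _ = 2 * Real.pi * (‖e p x‖ + ‖e (1, 1) x‖) := by ring
  · rw [hσ _ h1 c1, hσ _ h2 c2, hσ _ h3 c3, ← ex_add]
    refine (norm_ex_sub _ _ (z (p, x))).trans (mul_le_mul_of_nonneg_left ?_ (by positivity))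
    rw [abs_sub_comm]
    have := hz
    linarith




/-- linear functions are dominated by the exponential. -/
lemma ev_lin (a b : ℝ) : ∀ᶠ L : ℕ in atTop, a * L + b ≤ Real.exp L := by
  have h1 : Tendsto (fun x : ℝ => x ^ 1 * Real.exp (-x)) atTop (𝓝 0) :=
    Real.tendsto_pow_mul_exp_neg_atTop_nhds_zero 1
  have h2 : Tendsto (fun x : ℝ => Real.exp (-x)) atTop (𝓝 0) := Real.tendsto_exp_neg_atTop_nhds_zero
  have h3 : Tendsto (fun x : ℝ => a * (x ^ 1 * Real.exp (-x)) + b * Real.exp (-x)) atTop (𝓝 0) := by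
    simpa using (h1.const_mul a).add (h2.const_mul b)
  have h4 : ∀ᶠ x : ℝ in atTop, a * (x ^ 1 * Real.exp (-x)) + b * Real.exp (-x) < 1 :=
    h3.eventually_lt_const one_pos
  have h5 := tendsto_natCast_atTop_atTop (R := ℝ) |>.eventually h4
  filter_upwards [h5] with L hL
  have h6 : (a * ((L : ℝ) ^ 1 * Real.exp (-(L : ℝ))) + b * Real.exp (-(L : ℝ))) * Real.exp L ≤
      1 * Real.exp L := mul_le_mul_of_nonneg_right hL.le (Real.exp_pos _).le
  have h7 : Real.exp (-(L : ℝ)) * Real.exp L = 1 := by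
    rw [← Real.exp_add, neg_add_cancel, Real.exp_zero]
  calc a * (L : ℝ) + b = (a * ((L : ℝ) ^ 1 * Real.exp (-(L : ℝ))) + b * Real.exp (-(L : ℝ))) *
        Real.exp L := by
        linear_combination -(a * L + b) * h7
    _ ≤ Real.exp L := by rw [one_mul] at h6; exact h6

/-- the facts which hold for large `L`. -/
lemma exists_threshold (σ ϱ A2 B δ AM : ℝ) (hδ : 0 < δ) (K1 K2 t m0 : ℕ) :
    ∃ L0 : ℕ, ∀ L : ℕ, L0 ≤ L → 1 ≤ L ∧ m0 ≤ L ∧ ϱ ≤ Real.exp L ∧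
      2 * Real.pi * (Real.exp L + 4 * (t * L)) ≤ Real.exp L ^ 2 ∧
      σ * (2 * Real.pi) * A2 * (K1 * L + 1) * ϱ ≤ Real.exp L ∧
      B * (K2 * L + 1) ≤ min 1 δ * Real.exp L ∧
      B * (ϱ * (2 * Real.pi * 2)) ≤ Real.exp L ∧
      20 * (3 * AM + 1) ≤ Real.exp L ∧ 130 ≤ Real.exp L ∧
      2 * σ + 50 * σ ^ 2 ≤ Real.exp L := by
  have hm : 0 < min 1 δ := lt_min one_pos hδ
  have e1 := ev_lin 0 ϱ
  have e2 := ev_lin (4 * t) 0
  have e2' := ev_lin 0 (4 * Real.pi)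
  have e3 := ev_lin (σ * (2 * Real.pi) * A2 * K1 * ϱ) (σ * (2 * Real.pi) * A2 * ϱ)
  have e4 := ev_lin (B * K2 / min 1 δ) (B / min 1 δ)
  have e5 := ev_lin 0 (B * (ϱ * (2 * Real.pi * 2)))
  have e6 := ev_lin 0 (20 * (3 * AM + 1))
  have e7 := ev_lin 0 130
  have e8 := ev_lin 0 (2 * σ + 50 * σ ^ 2)
  have e9 := eventually_ge_atTop (max 1 m0)
  have hall := ((((((((e1.and e2).and e2').and e3).and e4).and e5).and e6).and e7).and e8).and e9
  obtain ⟨L0, hL0⟩ := eventually_atTop.1 hall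
  refine ⟨L0, fun L hL => ?_⟩
  obtain ⟨⟨⟨⟨⟨⟨⟨⟨⟨h1, h2⟩, h2'⟩, h3⟩, h4⟩, h5⟩, h6⟩, h7⟩, h8⟩, h9⟩ := hL0 L hL
  have hpi := Real.pi_pos
  have hE := Real.exp_pos (L : ℝ)
  refine ⟨(le_max_left _ _).trans h9, (le_max_right _ _).trans h9, by linarith, ?_, by linarith,
    ?_, by linarith, by linarith, by linarith, by linarith⟩
  · have h10 : 2 * Real.pi * (Real.exp L + 4 * (t * L)) ≤ 4 * Real.pi * Real.exp L := by
      nlinarith
    refine h10.trans ?_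
    rw [sq]
    exact mul_le_mul_of_nonneg_right (by linarith) hE.le
  · have h11 := mul_le_mul_of_nonneg_left h4 hm.le
    refine le_trans (le_of_eq ?_) h11
    field_simp


/-! ### auxiliary estimates -/

lemma quarter_pow (L k : ℕ) : (1 / 4 : ℝ) ^ (k * L) ≤ (Real.exp L ^ k)⁻¹ := by
  have h1 : (1 / 4 : ℝ) ^ L ≤ (Real.exp L)⁻¹ := by
    rw [one_div, inv_pow]
    apply inv_anti₀ (Real.exp_pos _)
    calc Real.exp L = Real.exp 1 ^ L := by rw [← Real.exp_nat_mul, mul_one]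
      _ ≤ 4 ^ L := pow_le_pow_left₀ (Real.exp_pos _).le (by linarith [Real.exp_one_lt_d9]) _
  calc (1 / 4 : ℝ) ^ (k * L) = ((1 / 4 : ℝ) ^ L) ^ k := by rw [mul_comm, pow_mul]
    _ ≤ ((Real.exp L)⁻¹) ^ k := pow_le_pow_left₀ (by positivity) h1 _
    _ = (Real.exp L ^ k)⁻¹ := by rw [inv_pow]

lemma three_quarter_pow (L k : ℕ) : (3 / 4 : ℝ) ^ (4 * k * L) ≤ (Real.exp L ^ k)⁻¹ := by
  have h1 : ((3 / 4 : ℝ) ^ 4) ^ L ≤ (Real.exp L)⁻¹ := by
    have h2 : (3 / 4 : ℝ) ^ 4 ≤ (Real.exp 1)⁻¹ := by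
      rw [le_inv_comm₀ (by positivity) (Real.exp_pos _)]
      have := Real.exp_one_lt_d9
      norm_num
      linarith
    calc ((3 / 4 : ℝ) ^ 4) ^ L ≤ ((Real.exp 1)⁻¹) ^ L := pow_le_pow_left₀ (by positivity) h2 _
      _ = (Real.exp L)⁻¹ := by rw [inv_pow, ← Real.exp_nat_mul, mul_one]
  calc (3 / 4 : ℝ) ^ (4 * k * L) = (((3 / 4 : ℝ) ^ 4) ^ L) ^ k := by
        rw [← pow_mul, ← pow_mul]
        congr 1
        ring
    _ ≤ ((Real.exp L)⁻¹) ^ k := pow_le_pow_left₀ (by positivity) h1 _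
    _ = (Real.exp L ^ k)⁻¹ := by rw [inv_pow]

lemma pow_card_le (σ n : ℕ) : (σ : ℝ) ^ n ≤ Real.exp (σ * n) := by
  have h1 : (σ : ℝ) ≤ Real.exp σ := by linarith [Real.add_one_le_exp (σ : ℝ)]
  calc (σ : ℝ) ^ n ≤ Real.exp σ ^ n := pow_le_pow_left₀ (by positivity) h1 _
    _ = Real.exp (σ * n) := by rw [← Real.exp_nat_mul, mul_comm]

lemma card_mul_le' (S F : Finset G) (n : ℕ) :
    ((S ^ n * F).card : ℝ) ≤ (S.card : ℝ) ^ n * F.card := by
  have h1 : (S ^ n * F).card ≤ S.card ^ n * F.card :=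
    Finset.card_mul_le.trans (Nat.mul_le_mul_right _ (card_pow_le' S n))
  exact_mod_cast h1

lemma AC.mono {s : UC G} {S : Finset G} {Ω : Set G} {m : ℕ} {δ δ' : ℝ} (h : AC s S Ω m δ)
    (hδ : δ ≤ δ') : AC s S Ω m δ' := fun g hg k hk x hx => (h g hg k hk x hx).trans hδ

/-- the final step: from a flat section to an integral primitive. -/
theorem exists_n {S : Finset G} (hS : Sys S) (s : UC G) (β : G → G → ℝ)
    (z : Tri G →₀ ℤ) (hσ : ∀ g ∈ S, g ≠ 1 → ∀ x, s.σ g x = ex (β g x)) (e : G × G → Raw.L2 G)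
    (he : ∀ p ∈ RS S, ∀ x, |(z (p, x) : ℝ) - dE β (p, x)| ≤ ‖e p x‖)
    (b : G → Raw.L2 G) (hb : ∀ g ∈ S, ∀ x, b g x = s.σ g x - 1) (v : Raw.L2 G) (F : Finset G)
    (hF : ∀ g ∈ S, ∀ x, β g x ≠ 0 → x ∈ F) (hv : SF F v) (V : Set G) (D1 D4 RM J : ℕ)
    (hD : D1 ≤ D4) {AM η1 η2 : ℝ} (hη2 : η2 ≤ 1 / 130)
    (hmod : ∀ (J : ℕ) (V : Set G) (D : ℕ) (e : Raw.L2 G),
      ‖cut (Far S V (D + RM * (J + 1))) e‖ ≤
        AM * ∑ s ∈ S, ‖cut (Far S V D) (Raw.tr s e - e)‖ + (1 / 4) ^ J * ‖e‖)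
    (hAM : 0 ≤ AM) (hη1 : η1 ≤ 1 / 20)
    (hcut : ∀ p ∈ RS S, ‖cut (Far S V D1) (e p)‖ ≤ η2)
    (hflat : ∑ g ∈ S, ‖cut (Far S V D4) (b g - (tw s g v - v))‖ ≤ η1)
    (hsmall : AM * η1 + (1 / 4) ^ J * ‖v‖ ≤ 1 / 20) :
    ∃ n : Ed G →₀ ℤ, (∀ q ∈ n.support, q.1 ∈ S ∧ q.2 ∈ S * F) ∧
      (∀ q, |(n q : ℝ)| ≤ |β q.1 q.2| + 5) ∧
      ∀ p ∈ RS S, ∀ x ∈ Far S V (D4 + RM * (J + 1) + 2),
        z (p, x) = n (p.1, x) + n (p.2, p.1⁻¹ * x) - n (p.1 * p.2, x) := by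
  have h11 : ((1 : G), (1 : G)) ∈ RS S := by
    unfold RS
    rw [Finset.mem_filter, Finset.mem_product]
    exact ⟨⟨hS.one, hS.one⟩, by simpa using hS.one⟩
  -- the modulus
  obtain ⟨w, hw, -⟩ := exists_L2 F (fun x => ((‖1 - v x‖ - 1 : ℝ) : ℂ)) (fun x hx => by
    by_contra hxF
    have h0 : v x = 0 := by
      by_contra h0
      exact hxF (hv x h0)
    exact hx (by rw [h0]; simp))
  have hwn : ‖w‖ ≤ ‖v‖ := by
    refine norm_le_of_le fun x => ?_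
    rw [hw, Complex.norm_real, Real.norm_eq_abs]
    have h1 := abs_norm_sub_norm_le (1 - v x) (1 : ℂ)
    rw [norm_one] at h1
    refine h1.trans (le_of_eq ?_)
    rw [sub_sub_cancel_left, norm_neg]
  have hval : ∀ g ∈ S, ∀ x, (b g - (tw s g v - v) : Raw.L2 G) x =
      s.σ g x * (1 - v (g⁻¹ * x)) - (1 - v x) := by
    intro g hg x
    have h1 : (b g - (tw s g v - v) : Raw.L2 G) x = b g x - (tw s g v x - v x) := rfl
    rw [h1, hb g hg, tw_apply]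
    ring
  have hwd : ∑ g ∈ S, ‖cut (Far S V D4) (Raw.tr g w - w)‖ ≤ η1 := by
    refine (Finset.sum_le_sum fun g hg => norm_cut_le_of_le fun x _ => ?_).trans hflat
    rw [hval g hg]
    have h1 : (Raw.tr g w - w : Raw.L2 G) x = w (g⁻¹ * x) - w x := rfl
    rw [h1, hw, hw, ← Complex.ofReal_sub, Complex.norm_real, Real.norm_eq_abs]
    have h2 := abs_norm_sub_norm_le (s.σ g x * (1 - v (g⁻¹ * x))) (1 - v x)
    rw [norm_mul, s.norm, one_mul] at h2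
    convert h2 using 2
    ring
  have hwc : ‖cut (Far S V (D4 + RM * (J + 1))) w‖ ≤ 1 / 20 := by
    refine (hmod J V D4 w).trans (le_trans (add_le_add ?_ ?_) hsmall)
    · exact mul_le_mul_of_nonneg_left hwd hAM
    · exact mul_le_mul_of_nonneg_left hwn (by positivity)
  have hwp : ∀ x ∈ Far S V (D4 + RM * (J + 1)), |‖1 - v x‖ - 1| ≤ 1 / 20 := by
    intro x hx
    have h1 := (apply_le_norm_cut hx w).trans hwc
    rwa [hw, Complex.norm_real, Real.norm_eq_abs] at h1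
  have hpt : ∀ p ∈ RS S, ∀ x ∈ Far S V D1, ‖e p x‖ ≤ η2 := fun p hp x hx =>
    (apply_le_norm_cut hx (e p)).trans (hcut p hp)
  have hsub : ∀ {m n : ℕ}, m ≤ n → ∀ x ∈ Far S V n, x ∈ Far S V m := fun h x hx =>
    far_anti hS V h hx
  have hSp : ∀ g ∈ S, g ∈ S ^ 1 := fun g hg => by rwa [pow_one]
  refine rounding hS s β (fun q => z q) (fun x => v x) (Far S V (D4 + RM * (J + 1) + 1))
    (Far S V (D4 + RM * (J + 1) + 2)) (η := 1 / 20) le_rfl ?_ hσ ?_ ?_ ?_ ?_ ?_ F hF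
    (fun x hx => hv x hx)
  · intro x hx g hg
    exact far_shift hS (hSp g hg) hx
  · intro p hp x hx
    refine (he p hp x).trans ((hpt p hp x (hsub (by omega) x hx)).trans ?_)
    linarith
  · intro x hx
    have h1 := hpt _ h11 x (hsub (by omega) x hx)
    have h2 := he _ h11 x
    simp only [dE, inv_one, one_mul, add_sub_cancel_right] at h2
    have e3 := norm_ex_sub (β 1 x) 0 (z ((1, 1), x))
    have e4 : ex 0 = 1 := by simp [ex]
    rw [e4, sub_zero, abs_sub_comm] at e3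
    refine e3.trans ?_
    have hpi := Real.pi_lt_d2
    have hpi0 := Real.pi_pos
    have h3 : |(z ((1, 1), x) : ℝ) - β 1 x| ≤ 1 / 130 := h2.trans (h1.trans hη2)
    nlinarith
  · intro g hg x hx
    have h1 := apply_le_norm_cut (hsub (show D4 ≤ D4 + RM * (J + 1) + 1 by omega) x hx)
      (b g - (tw s g v - v))
    rw [hval g hg] at h1
    refine h1.trans ((Finset.single_le_sum (f := fun g => ‖cut (Far S V D4)
      (b g - (tw s g v - v))‖) (fun _ _ => norm_nonneg _) hg).trans (hflat.trans hη1))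
  · intro x hx
    exact hwp x (hsub (by omega) x hx)
  · intro x hx g hg
    exact hwp _ (far_shift hS (hSp g hg) hx)

end Pool.Agent.LibDehn83
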