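import Pool.Agent.LibDehn83.Defs

/-!
Basic facts on words, paths, loops and chains.
-/

set_option autoImplicit false

namespace Pool.Agent.LibDehn83

open scoped Pointwise

variable {G : Type} [Group G]

lemma bdry_single (p : Tri G) (n : ℤ) : bdry (Finsupp.single p n) =
    Finsupp.single (p.1.1, p.2) n + Finsupp.single (p.1.2, p.1.1⁻¹ * p.2) n -
      Finsupp.single (p.1.1 * p.1.2, p.2) n := by
  simp [bdry]

lemma chn_nil (x : G) : chn ([] : List G) x = 0 := rfl

lemma chn_cons (s : G) (w : List G) (x : G) :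
    chn (s :: w) x = Finsupp.single (s, x) 1 + chn w (s⁻¹ * x) := rfl

/-! ### row W1 -/

lemma chn_append (w w' : List G) (x : G) : chn (w ++ w') x = chn w x + chn w' (w.prod⁻¹ * x) := by
  induction w generalizing x with
  | nil => simp [chn]
  | cons s w ih =>
    rw [List.cons_append, chn_cons, chn_cons, ih, List.prod_cons, mul_inv_rev, mul_assoc, add_assoc]

lemma shE_single (y : G) (p : Ed G) (n : ℤ) :
    shE y (Finsupp.single p n) = Finsupp.single (p.1, p.2 * y) n := by
  show Finsupp.mapDomain (fun p : Ed G => (p.1, p.2 * y)) (Finsupp.single p n) = _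
  rw [Finsupp.mapDomain_single]

lemma shT_single (y : G) (p : Tri G) (n : ℤ) :
    shT y (Finsupp.single p n) = Finsupp.single (p.1, p.2 * y) n := by
  show Finsupp.mapDomain (fun p : Tri G => (p.1, p.2 * y)) (Finsupp.single p n) = _
  rw [Finsupp.mapDomain_single]

lemma W1_inj (y : G) : Function.Injective fun p : Tri G => (p.1, p.2 * y) := by
  intro p q h
  have h1 := congrArg Prod.fst h
  have h2 : p.2 * y = q.2 * y := congrArg Prod.snd h
  exact Prod.ext h1 (mul_right_cancel h2)

lemma shT_apply (y : G) (T : Tri G →₀ ℤ) (p : Tri G) : shT y T p = T (p.1, p.2 * y⁻¹) := by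
  have h : Finsupp.mapDomain (fun p : Tri G => (p.1, p.2 * y)) T
      ((fun p : Tri G => (p.1, p.2 * y)) (p.1, p.2 * y⁻¹)) = T (p.1, p.2 * y⁻¹) :=
    Finsupp.mapDomain_apply (W1_inj y) T _
  have h2 : (fun p : Tri G => (p.1, p.2 * y)) (p.1, p.2 * y⁻¹) = p := by
    show (p.1, p.2 * y⁻¹ * y) = p
    rw [inv_mul_cancel_right]
  rw [h2] at h
  exact h

lemma bdry_shT (y : G) (T : Tri G →₀ ℤ) : bdry (shT y T) = shE y (bdry T) := by
  have h : (bdry (G := G)).comp (shT y) = (shE y).comp (bdry (G := G)) := by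
    refine Finsupp.addHom_ext fun p n => ?_
    rw [AddMonoidHom.comp_apply, AddMonoidHom.comp_apply, shT_single, bdry_single, bdry_single,
      map_sub, map_add, shE_single, shE_single, shE_single, mul_assoc]
  exact DFunLike.congr_fun h T

lemma shE_chn (w : List G) (x y : G) : shE y (chn w x) = chn w (x * y) := by
  induction w generalizing x with
  | nil => rw [chn_nil, chn_nil, map_zero]
  | cons s w ih => rw [chn_cons, chn_cons, map_add, shE_single, ih, mul_assoc]

lemma mass_shT (y : G) (T : Tri G →₀ ℤ) : mass (shT y T) = mass T := by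
  classical
  unfold mass
  have h : (shT y T).support = T.support.image fun p : Tri G => (p.1, p.2 * y) :=
    Finsupp.mapDomain_support_of_injective (W1_inj y) T
  rw [h, Finset.sum_image fun a _ b _ hab => W1_inj y hab]
  refine Finset.sum_congr rfl fun p _ => ?_
  rw [shT_apply]
  show (T (p.1, p.2 * y * y⁻¹)).natAbs = (T p).natAbs
  rw [mul_inv_cancel_right]

lemma InS.shT {S : Finset G} {T : Tri G →₀ ℤ} (h : InS S T) (y : G) : InS S (shT y T) := by
  intro p hp
  rw [Finsupp.mem_support_iff, shT_apply] at hp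
  exact h (p.1, p.2 * y⁻¹) (Finsupp.mem_support_iff.2 hp)

lemma W1_mass {α : Type} (T : α →₀ ℤ) {s : Finset α} (h : T.support ⊆ s) :
    mass T = ∑ p ∈ s, (T p).natAbs := by
  unfold mass
  refine Finset.sum_subset h fun p _ hp => ?_
  rw [Finsupp.notMem_support_iff.1 hp, Int.natAbs_zero]

lemma mass_add_le {α : Type} (T T' : α →₀ ℤ) : mass (T + T') ≤ mass T + mass T' := by
  classical
  rw [W1_mass (T + T') Finsupp.support_add, W1_mass T (Finset.subset_union_left (s₂ := T'.support)),
    W1_mass T' (Finset.subset_union_right (s₁ := T.support)), ← Finset.sum_add_distrib]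
  refine Finset.sum_le_sum fun p _ => ?_
  rw [Finsupp.add_apply]
  exact Int.natAbs_add_le _ _

lemma mass_neg {α : Type} (T : α →₀ ℤ) : mass (-T) = mass T := by
  unfold mass
  rw [Finsupp.support_neg]
  refine Finset.sum_congr rfl fun p _ => ?_
  rw [Finsupp.neg_apply, Int.natAbs_neg]

lemma mass_single {α : Type} (p : α) (n : ℤ) : mass (Finsupp.single p n) = n.natAbs := by
  classical
  rw [W1_mass _ Finsupp.support_single_subset, Finset.sum_singleton, Finsupp.single_eq_same]

lemma W1_mass_cast {α : Type} (T : α →₀ ℤ) :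
    (mass T : ℝ) = ∑ p ∈ T.support, |((T p : ℤ) : ℝ)| := by
  unfold mass
  push_cast
  refine Finset.sum_congr rfl fun p _ => ?_
  rw [Nat.cast_natAbs, Int.cast_abs]

lemma sq_le_mass {α : Type} (T : α →₀ ℤ) :
    ∑ p ∈ T.support, ((T p : ℤ) : ℝ) ^ 2 ≤ (mass T : ℝ) ^ 2 := by
  rw [W1_mass_cast]
  have h : ∑ p ∈ T.support, ((T p : ℤ) : ℝ) ^ 2 = ∑ p ∈ T.support, |((T p : ℤ) : ℝ)| ^ 2 :=
    Finset.sum_congr rfl fun p _ => (sq_abs _).symm
  rw [h]
  exact Finset.sum_sq_le_sq_sum_of_nonneg fun p _ => abs_nonneg _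

lemma mass_le_sq {α : Type} (T : α →₀ ℤ) :
    (mass T : ℝ) ≤ ∑ p ∈ T.support, ((T p : ℤ) : ℝ) ^ 2 := by
  rw [W1_mass_cast]
  refine Finset.sum_le_sum fun p hp => ?_
  have h1 : (1 : ℝ) ≤ |((T p : ℤ) : ℝ)| := by
    rw [← Int.cast_abs]
    exact_mod_cast Int.one_le_abs (Finsupp.mem_support_iff.1 hp)
  rw [← sq_abs]
  nlinarith

lemma InS.add {S : Finset G} {T T' : Tri G →₀ ℤ} (h : InS S T) (h' : InS S T') :
    InS S (T + T') := by
  classical
  intro p hp
  rcases Finset.mem_union.1 (Finsupp.support_add hp) with h1 | h1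
  · exact h p h1
  · exact h' p h1

lemma InS.neg {S : Finset G} {T : Tri G →₀ ℤ} (h : InS S T) : InS S (-T) := by
  intro p hp
  rw [Finsupp.support_neg] at hp
  exact h p hp

lemma InS.single {S : Finset G} {p : Tri G} (h : p.1.1 ∈ S ∧ p.1.2 ∈ S ∧ p.1.1 * p.1.2 ∈ S)
    (n : ℤ) : InS S (Finsupp.single p n) := by
  intro q hq
  have h1 := Finset.mem_singleton.1 (Finsupp.support_single_subset hq)
  rw [h1]
  exact h

/-! ### row W2 -/

lemma rv_prod (w : List G) : (rv w).prod = w.prod⁻¹ := by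
  rw [rv, List.prod_inv_reverse]

lemma rv_mem {S : Finset G} (hS : Sys S) {w : List G} (hw : ∀ s ∈ w, s ∈ S) :
    ∀ s ∈ rv w, s ∈ S := by
  intro s hs
  rw [rv, List.mem_reverse, List.mem_map] at hs
  obtain ⟨t, ht, rfl⟩ := hs
  exact hS.inv t (hw t ht)

lemma rv_length (w : List G) : (rv w).length = w.length := by
  simp [rv]

/-- a path followed by the reversed path bounds a chain of mass at most `2 |w|`; the chain may be
taken along the path. -/
lemma exists_rv [DecidableEq G] {S : Finset G} (hS : Sys S) (w : List G) (hw : ∀ s ∈ w, s ∈ S)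
    (x : G) : ∃ T : Tri G →₀ ℤ, InS S T ∧ bdry T = chn w x + chn (rv w) (w.prod⁻¹ * x) ∧
      mass T ≤ 2 * w.length ∧ ∀ p ∈ T.support, ∃ w' : List G, w' <+: w ∧ p.2 = w'.prod⁻¹ * x := by
  induction w generalizing x with
  | nil =>
    refine ⟨0, ?_, ?_, ?_, ?_⟩
    · intro p hp
      simp at hp
    · simp [rv, chn_nil]
    · simp [mass]
    · intro p hp
      simp at hp
  | cons s w ih =>
    have hs : s ∈ S := hw s (by simp)
    obtain ⟨T, h1, h2, h3, h4⟩ := ih (fun t ht => hw t (by simp [ht])) (s⁻¹ * x)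
    set T₁ : Tri G →₀ ℤ := Finsupp.single ((s, s⁻¹), x) 1 with hT₁
    set T₂ : Tri G →₀ ℤ := Finsupp.single ((1, 1), x) 1 with hT₂
    have i1 : InS S T₁ := InS.single ⟨hs, hS.inv s hs, by simpa using hS.one⟩ 1
    have i2 : InS S T₂ := InS.single ⟨hS.one, hS.one, by simpa using hS.one⟩ 1
    refine ⟨T₁ + T₂ + T, (i1.add i2).add h1, ?_, ?_, ?_⟩
    · have hrv : rv (s :: w) = rv w ++ [s⁻¹] := by simp [rv]
      have e1 : (rv w).prod⁻¹ * ((s :: w).prod⁻¹ * x) = s⁻¹ * x := by
        rw [rv_prod, List.prod_cons]; group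
      have e2 : (s :: w).prod⁻¹ * x = w.prod⁻¹ * (s⁻¹ * x) := by
        rw [List.prod_cons]; group
      rw [map_add, map_add, h2, hrv, chn_append, e1, e2, hT₁, hT₂, bdry_single, bdry_single,
        chn_cons, chn_cons, chn_nil]
      simp only [mul_inv_cancel, inv_one, one_mul, mul_one, add_zero]
      abel
    · have m1 : mass T₁ ≤ 1 := by rw [hT₁, mass_single]; simp
      have m2 : mass T₂ ≤ 1 := by rw [hT₂, mass_single]; simp
      have m3 := mass_add_le (T₁ + T₂) T
      have m4 := mass_add_le T₁ T₂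
      rw [List.length_cons]
      omega
    · intro p hp
      have hsub := Finsupp.support_add hp
      rw [Finset.mem_union] at hsub
      rcases hsub with h | h
      · have hsub' := Finsupp.support_add h
        rw [Finset.mem_union] at hsub'
        refine ⟨[], List.nil_prefix, ?_⟩
        rcases hsub' with h' | h'
        · have := Finsupp.support_single_subset h'
          rw [Finset.mem_singleton] at this
          subst this
          simp
        · have := Finsupp.support_single_subset h'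
          rw [Finset.mem_singleton] at this
          subst this
          simp
      · obtain ⟨w', hw', e⟩ := h4 p h
        refine ⟨s :: w', (List.prefix_cons_inj s).2 hw', ?_⟩
        rw [e, List.prod_cons]
        group

/-- paths with the same end points are homologous. -/
lemma exists_path {S : Finset G} (hS : Sys S) (w w' : List G) (hw : ∀ s ∈ w, s ∈ S)
    (hw' : ∀ s ∈ w', s ∈ S) (h : w.prod = w'.prod) (x : G) :
    ∃ T : Tri G →₀ ℤ, InS S T ∧ bdry T = chn w x - chn w' x := by
  classical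
  have hl : Loop S (w ++ rv w') := by
    refine ⟨?_, ?_⟩
    · intro s hs
      rw [List.mem_append] at hs
      rcases hs with hs | hs
      · exact hw s hs
      · exact rv_mem hS hw' s hs
    · rw [List.prod_append, rv_prod, h, mul_inv_cancel]
  obtain ⟨T, hT1, hT2⟩ := hS.fill _ hl
  obtain ⟨T', hT1', hT2', -, -⟩ := exists_rv hS w' hw' 1
  refine ⟨shT x (T + -T'), (hT1.add hT1'.neg).shT x, ?_⟩
  rw [bdry_shT, map_add, map_neg, hT2, hT2', chn_append, h]
  simp only [map_add, map_neg, shE_chn, one_mul]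
  abel

/-- a loop based at any point bounds. -/
lemma exists_loop {S : Finset G} (hS : Sys S) (w : List G) (hw : Loop S w) (x : G) :
    ∃ T : Tri G →₀ ℤ, InS S T ∧ bdry T = chn w x := by
  obtain ⟨T, h1, h2⟩ := exists_path hS w [] hw.1 (by simp) (by rw [hw.2]; simp) x
  refine ⟨T, h1, ?_⟩
  rw [h2, chn_nil, sub_zero]

/-- the choices of paths and chains used in all comparisons. -/
theorem exists_choices {S : Finset G} (hS : Sys S) : ∃ (W : G → List G) (F : G → G → (Tri G →₀ ℤ)),
    (∀ g, (∀ s ∈ W g, s ∈ S) ∧ (W g).prod = g) ∧ (∀ s ∈ S, W s = [s]) ∧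
    (∀ g h, InS S (F g h) ∧
      bdry (F g h) = chn (W g) 1 + shE g⁻¹ (chn (W h) 1) - chn (W (g * h)) 1) ∧
    ∀ s t, s ∈ S → t ∈ S → s * t ∈ S → F s t = Finsupp.single ((s, t), 1) 1 := by
  classical
  have hW : ∀ g : G, ∃ w : List G, ((∀ s ∈ w, s ∈ S) ∧ w.prod = g) ∧ (g ∈ S → w = [g]) := by
    intro g
    by_cases hg : g ∈ S
    · exact ⟨[g], ⟨by simpa using hg, by simp⟩, fun _ => rfl⟩
    · obtain ⟨w, h1, h2⟩ := hS.gen g
      exact ⟨w, ⟨h1, h2⟩, fun h => absurd h hg⟩
  choose W hW1 hW2 using hW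
  have hF : ∀ g h : G, ∃ T : Tri G →₀ ℤ, (InS S T ∧
      bdry T = chn (W g) 1 + shE g⁻¹ (chn (W h) 1) - chn (W (g * h)) 1) ∧
      (g ∈ S → h ∈ S → g * h ∈ S → T = Finsupp.single ((g, h), 1) 1) := by
    intro g h
    by_cases hgh : g ∈ S ∧ h ∈ S ∧ g * h ∈ S
    · refine ⟨Finsupp.single ((g, h), 1) 1, ⟨InS.single hgh 1, ?_⟩, fun _ _ _ => rfl⟩
      rw [hW2 g hgh.1, hW2 h hgh.2.1, hW2 _ hgh.2.2, shE_chn, bdry_single]
      simp only [chn_cons, chn_nil, add_zero, mul_one, one_mul]
    · obtain ⟨T, h1, h2⟩ := exists_path hS (W g ++ W h) (W (g * h))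
        (by
          intro s hs
          rw [List.mem_append] at hs
          rcases hs with hs | hs
          · exact (hW1 g).1 s hs
          · exact (hW1 h).1 s hs)
        (hW1 (g * h)).1
        (by rw [List.prod_append, (hW1 g).2, (hW1 h).2, (hW1 (g * h)).2]) 1
      refine ⟨T, ⟨h1, ?_⟩, fun a b c => absurd ⟨a, b, c⟩ hgh⟩
      rw [h2, chn_append, shE_chn, (hW1 g).2, one_mul, mul_one]
  choose F hF1 hF2 using hF
  exact ⟨W, F, hW1, hW2, hF1, hF2⟩

/-! ### row W3: balls -/

section balls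

variable [DecidableEq G]

lemma pow_mono {S : Finset G} (hS : Sys S) {m n : ℕ} (h : m ≤ n) : S ^ m ⊆ S ^ n :=
  Finset.pow_subset_pow_right hS.one h

lemma inv_mem_pow {S : Finset G} (hS : Sys S) {n : ℕ} {g : G} (hg : g ∈ S ^ n) : g⁻¹ ∈ S ^ n := by
  induction n generalizing g with
  | zero =>
    rw [pow_zero, Finset.mem_one] at hg ⊢
    rw [hg, inv_one]
  | succ n ih =>
    rw [pow_succ, Finset.mem_mul] at hg
    obtain ⟨a, ha, s, hs, rfl⟩ := hg
    rw [mul_inv_rev, pow_succ']
    exact Finset.mul_mem_mul (hS.inv s hs) (ih ha)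

lemma mul_mem_pow {S : Finset G} {m n : ℕ} {g h : G} (hg : g ∈ S ^ m) (hh : h ∈ S ^ n) :
    g * h ∈ S ^ (m + n) := by
  rw [pow_add]
  exact Finset.mul_mem_mul hg hh

lemma card_pow_le' (S : Finset G) (n : ℕ) : (S ^ n).card ≤ S.card ^ n :=
  Finset.card_pow_le

lemma prod_mem_pow {S : Finset G} {w : List G} (hw : ∀ s ∈ w, s ∈ S) : w.prod ∈ S ^ w.length := by
  induction w with
  | nil => simp
  | cons a w ih =>
    rw [List.prod_cons, List.length_cons, pow_succ']
    exact Finset.mul_mem_mul (hw a List.mem_cons_self)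
      (ih fun s hs => hw s (List.mem_cons_of_mem a hs))

lemma exists_word {S : Finset G} {n : ℕ} {g : G} (hg : g ∈ S ^ n) :
    ∃ w : List G, (∀ s ∈ w, s ∈ S) ∧ w.prod = g ∧ w.length = n := by
  induction n generalizing g with
  | zero =>
    rw [pow_zero, Finset.mem_one] at hg
    exact ⟨[], by simp, by simp [hg], rfl⟩
  | succ n ih =>
    rw [pow_succ', Finset.mem_mul] at hg
    obtain ⟨s, hs, a, ha, rfl⟩ := hg
    obtain ⟨w, h1, h2, h3⟩ := ih ha
    refine ⟨s :: w, ?_, ?_, ?_⟩
    · intro t ht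
      rcases List.mem_cons.1 ht with rfl | ht
      · exact hs
      · exact h1 t ht
    · rw [List.prod_cons, h2]
    · rw [List.length_cons, h3]

lemma exists_mem_pow {S : Finset G} (hS : Sys S) (g : G) : ∃ n, g ∈ S ^ n := by
  obtain ⟨w, h1, h2⟩ := hS.gen g
  refine ⟨w.length, ?_⟩
  rw [← h2]
  exact prod_mem_pow h1

/-- every finite set lies in a ball. -/
lemma exists_subset_pow {S : Finset G} (hS : Sys S) (F : Finset G) : ∃ n, F ⊆ S ^ n := by
  induction F using Finset.induction_on with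
  | empty => exact ⟨0, Finset.empty_subset _⟩
  | insert a F _ ih =>
    obtain ⟨n, hn⟩ := ih
    obtain ⟨m, hm⟩ := exists_mem_pow hS a
    refine ⟨max m n, ?_⟩
    intro b hb
    rcases Finset.mem_insert.1 hb with rfl | hb
    · exact pow_mono hS (le_max_left m n) hm
    · exact pow_mono hS (le_max_right m n) (hn hb)

lemma far_anti {S : Finset G} (hS : Sys S) (V : Set G) {m n : ℕ} (h : m ≤ n) :
    Far S V n ⊆ Far S V m := by
  intro x hx v hv hc
  exact hx v hv (pow_mono hS h hc)

lemma far_shift {S : Finset G} (hS : Sys S) {V : Set G} {m n : ℕ} {g x : G} (hg : g ∈ S ^ n)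
    (hx : x ∈ Far S V (m + n)) : g⁻¹ * x ∈ Far S V m := by
  have _ := hS
  intro v hv hc
  apply hx v hv
  have h := mul_mem_pow hg hc
  rw [add_comm] at h
  have h2 : g * (g⁻¹ * x * v⁻¹) = x * v⁻¹ := by group
  rw [h2] at h
  exact h

lemma far_shift' {S : Finset G} (hS : Sys S) {V : Set G} {m n : ℕ} {g x : G} (hg : g ∈ S ^ n)
    (hx : x ∈ Far S V (m + n)) : g * x ∈ Far S V m := by
  have h := far_shift hS (inv_mem_pow hS hg) hx
  rw [inv_inv] at h
  exact h

/-- the word length. -/
noncomputable def len (S : Finset G) (g : G) : ℕ := sInf {n | g ∈ S ^ n}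

lemma mem_pow_len {S : Finset G} (hS : Sys S) (g : G) : g ∈ S ^ len S g := by
  have h : sInf {n | g ∈ S ^ n} ∈ {n | g ∈ S ^ n} := Nat.sInf_mem (exists_mem_pow hS g)
  exact h

lemma len_le {S : Finset G} {n : ℕ} {g : G} (hg : g ∈ S ^ n) : len S g ≤ n :=
  Nat.sInf_le hg

lemma len_mul_le {S : Finset G} (hS : Sys S) (g h : G) : len S (g * h) ≤ len S g + len S h :=
  len_le (mul_mem_pow (mem_pow_len hS g) (mem_pow_len hS h))

lemma len_inv {S : Finset G} (hS : Sys S) (g : G) : len S g⁻¹ = len S g := by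
  apply le_antisymm
  · exact len_le (inv_mem_pow hS (mem_pow_len hS g))
  · have h := inv_mem_pow hS (mem_pow_len hS g⁻¹)
    rw [inv_inv] at h
    exact len_le h

lemma len_one (S : Finset G) : len S (1 : G) = 0 := by
  have h : (1 : G) ∈ S ^ 0 := by
    rw [pow_zero]
    exact Finset.mem_one.2 rfl
  exact Nat.le_zero.1 (len_le h)

/-- geodesic words. -/
lemma exists_geod {S : Finset G} (hS : Sys S) : ∃ W : G → List G,
    (∀ g, (∀ s ∈ W g, s ∈ S) ∧ (W g).prod = g ∧ (W g).length = len S g) ∧ W 1 = [] ∧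
    ∀ s ∈ S, s ≠ 1 → W s = [s] := by
  choose W hW using fun g => exists_word (mem_pow_len hS g)
  refine ⟨W, hW, ?_, ?_⟩
  · apply List.eq_nil_of_length_eq_zero
    rw [(hW 1).2.2, len_one]
  · intro s hs hs1
    have h1 : len S s = 1 := by
      apply le_antisymm
      · apply len_le
        rw [pow_one]
        exact hs
      · by_contra hc
        have h0 : len S s = 0 := by omega
        have h2 := mem_pow_len hS s
        rw [h0, pow_zero, Finset.mem_one] at h2
        exact hs1 h2
    obtain ⟨_, h2, h3⟩ := hW s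
    rw [h1] at h3
    obtain ⟨a, ha⟩ := List.length_eq_one_iff.1 h3
    rw [ha, List.prod_singleton] at h2
    rw [ha, h2]

end balls

end Pool.Agent.LibDehn83
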